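import Pool.Agent.Lib.MP_9dcf40_lc.SpecF

/-!
# Numbers for quasipolynomial time
-/

set_option autoImplicit false

open Filter

namespace Pool.Agent.Lib.MP_9dcf40_lc

namespace FNumQAux

/-- `Nat.size n + 1` is at most `5 log n`. -/
theorem size_le {n : ℕ} (hn : 2 ≤ n) : ((Nat.size n + 1 : ℕ) : ℝ) ≤ 5 * Real.log n := by
  have hs : Nat.size n = Nat.log 2 n + 1 := by
    apply le_antisymm
    · rw [Nat.size_le]
      exact Nat.lt_pow_succ_log_self (by norm_num) n
    · rw [Nat.succ_le_iff, Nat.lt_size]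
      exact Nat.pow_log_le_self 2 (by omega)
  have hl2 : (0.69 : ℝ) < Real.log 2 := by
    have := Real.log_two_gt_d9
    linarith
  have hn' : (2 : ℝ) ≤ n := by exact_mod_cast hn
  have hlog : Real.log 2 ≤ Real.log n := Real.log_le_log (by norm_num) hn'
  have h1 : (Nat.log 2 n : ℝ) * Real.log 2 ≤ Real.log n := by
    have h2 : ((2 : ℝ) ^ Nat.log 2 n) ≤ n := by
      exact_mod_cast Nat.pow_log_le_self 2 (by omega)
    have h3 := Real.log_le_log (by positivity) h2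
    rwa [Real.log_pow] at h3
  have h4 : (Nat.log 2 n : ℝ) ≤ 2 * Real.log n := by
    have h0 : (0 : ℝ) ≤ (Nat.log 2 n : ℝ) := Nat.cast_nonneg _
    nlinarith
  rw [hs]
  push_cast
  linarith

/-- A polynomial in the length is eventually below every positive power. -/
theorem poly_size_le (A E : ℕ) {ε : ℝ} (hε : 0 < ε) :
    ∀ᶠ n : ℕ in atTop, ((A * (Nat.size n + 1) ^ E : ℕ) : ℝ) ≤ (n : ℝ) ^ ε := by
  have hA : (0 : ℝ) < ((A : ℝ) * 5 ^ E + 1)⁻¹ := by positivity
  have h1 := (isLittleO_log_rpow_rpow_atTop (E : ℝ) hε).def hA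
  have h2 := tendsto_natCast_atTop_atTop.eventually h1
  filter_upwards [h2, eventually_ge_atTop 2] with n hn hn2
  have hlog : 0 ≤ Real.log n := Real.log_nonneg (by exact_mod_cast (by omega : 1 ≤ n))
  have hpow : 0 ≤ (n : ℝ) ^ ε := by positivity
  rw [Real.rpow_natCast, Real.norm_eq_abs, Real.norm_eq_abs, abs_of_nonneg (by positivity),
    abs_of_nonneg hpow, ← div_eq_inv_mul, le_div_iff₀ (by positivity)] at hn
  have h3 := size_le hn2
  have h4 : ((Nat.size n + 1 : ℕ) : ℝ) ^ E ≤ (5 * Real.log n) ^ E :=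
    pow_le_pow_left₀ (by positivity) h3 E
  have h5 : 0 ≤ Real.log n ^ E := by positivity
  calc ((A * (Nat.size n + 1) ^ E : ℕ) : ℝ) = (A : ℝ) * ((Nat.size n + 1 : ℕ) : ℝ) ^ E := by
        push_cast
        ring
    _ ≤ (A : ℝ) * (5 * Real.log n) ^ E := mul_le_mul_of_nonneg_left h4 (by positivity)
    _ = Real.log n ^ E * ((A : ℝ) * 5 ^ E) := by
        rw [mul_pow]
        ring
    _ ≤ Real.log n ^ E * ((A : ℝ) * 5 ^ E + 1) := by
        nlinarith
    _ ≤ (n : ℝ) ^ ε := hn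

end FNumQAux

open FNumQAux

theorem f_numq : StNumQ := by
  rintro C₀ k d a b ⟨k', hk'⟩ ⟨ε, hε, hb⟩
  have hpoly := poly_size_le (C₀ + 2 ^ k' + k' + 1) ((d + 1) * (k' + 1)) hε
  filter_upwards [hb, hpoly, eventually_ge_atTop (2 ^ k + 1)] with n hbn hpn hn
  have hn0 : 0 < n := lt_of_lt_of_le (Nat.succ_pos _) hn
  have hnk : k < Nat.size n := by
    rw [Nat.lt_size]
    exact (Nat.le_succ _).trans hn
  set s := Nat.size n + 1 with hs
  have hs1 : 1 ≤ s := by omega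
  have hεpos : (0 : ℝ) ≤ (n : ℝ) ^ ε := by positivity
  have hbn' : b n ≤ n := by
    have : (b n : ℝ) ≤ n := by linarith
    exact_mod_cast this
  have hlt : n < 2 ^ Nat.size n := Nat.lt_size_self n
  -- the logarithm
  have hlog : Nat.log 2 (n + b n) + 1 ≤ s := by
    have h1 : Nat.log 2 (n + b n) < Nat.size n + 1 := by
      apply Nat.log_lt_of_lt_pow (by omega)
      calc n + b n ≤ 2 * n := by omega
        _ < 2 * 2 ^ Nat.size n := by omega
        _ = 2 ^ (Nat.size n + 1) := by ring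
    omega
  set m := k * (Nat.log 2 (n + b n) + 1) ^ d with hm
  have hm1 : m ≤ s ^ (d + 1) := by
    calc m ≤ k * s ^ d := Nat.mul_le_mul_left k (Nat.pow_le_pow_left hlog d)
      _ ≤ s * s ^ d := Nat.mul_le_mul_right _ (by omega)
      _ = s ^ (d + 1) := by ring
  refine ⟨m, hm1, ?_, le_refl _⟩
  -- the advice
  have hN : Nat.log 2 (n + 2 ^ m) ≤ 2 * s ^ (d + 1) := by
    have h1 : Nat.log 2 (n + 2 ^ m) < Nat.size n + m + 1 := by
      apply Nat.log_lt_of_lt_pow (by positivity)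
      have e1 : 2 ^ Nat.size n ≤ 2 ^ (Nat.size n + m) := Nat.pow_le_pow_right (by norm_num) (by omega)
      have e2 : 2 ^ m ≤ 2 ^ (Nat.size n + m) := Nat.pow_le_pow_right (by norm_num) (by omega)
      calc n + 2 ^ m < 2 ^ Nat.size n + 2 ^ m := by omega
        _ ≤ 2 ^ (Nat.size n + m) + 2 ^ (Nat.size n + m) := by omega
        _ = 2 ^ (Nat.size n + m + 1) := by ring
    have h2 : s ≤ s ^ (d + 1) := Nat.le_self_pow (by omega) s
    omega
  have ha : a (n + 2 ^ m) ≤ 2 ^ k' * s ^ ((d + 1) * k') + k' := by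
    calc a (n + 2 ^ m) ≤ Nat.log 2 (n + 2 ^ m) ^ k' + k' := hk' _
      _ ≤ (2 * s ^ (d + 1)) ^ k' + k' := by
          have := Nat.pow_le_pow_left hN k'
          omega
      _ = 2 ^ k' * s ^ ((d + 1) * k') + k' := by
          rw [mul_pow, ← pow_mul]
  have hE1 : s ^ ((d + 1) * k') ≤ s ^ ((d + 1) * (k' + 1)) :=
    Nat.pow_le_pow_right hs1 (Nat.mul_le_mul_left _ (by omega))
  have hE2 : s ^ (d + 1) ≤ s ^ ((d + 1) * (k' + 1)) :=
    Nat.pow_le_pow_right hs1 (Nat.le_mul_of_pos_right _ (by omega))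
  have hE3 : 1 ≤ s ^ ((d + 1) * (k' + 1)) := Nat.one_le_pow _ _ hs1
  have htot : C₀ + a (n + 2 ^ m) + m ≤
      (C₀ + 2 ^ k' + k' + 1) * s ^ ((d + 1) * (k' + 1)) := by
    calc C₀ + a (n + 2 ^ m) + m ≤ C₀ + (2 ^ k' * s ^ ((d + 1) * k') + k') + s ^ (d + 1) := by
          omega
      _ ≤ C₀ * s ^ ((d + 1) * (k' + 1)) + (2 ^ k' * s ^ ((d + 1) * (k' + 1)) +
          k' * s ^ ((d + 1) * (k' + 1))) + 1 * s ^ ((d + 1) * (k' + 1)) := by
          gcongr
          · exact Nat.le_mul_of_pos_right _ (by omega)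
          · exact Nat.le_mul_of_pos_right _ (by omega)
          · omega
      _ = (C₀ + 2 ^ k' + k' + 1) * s ^ ((d + 1) * (k' + 1)) := by ring
  have hreal : ((C₀ + b n + a (n + 2 ^ m) + m : ℕ) : ℝ) ≤ n := by
    have h1 : ((C₀ + a (n + 2 ^ m) + m : ℕ) : ℝ) ≤ (n : ℝ) ^ ε :=
      le_trans (by exact_mod_cast htot) hpn
    push_cast at h1 ⊢
    linarith
  exact_mod_cast hreal

end Pool.Agent.Lib.MP_9dcf40_lc
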