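import Pool.Agent.Lib.MP_9dcf40_lc.SpecF

/-!
# Numerical bounds for the diagonal machine
-/

namespace Pool.Agent.Lib.MP_9dcf40_lc

open Filter

namespace FNumD

lemma lt_pow (n d N : ℕ) (hN : N ≤ 2 * n + 2 ^ (Nat.size n + 1) ^ d) :
    N < 2 ^ (2 * (Nat.size n + 1) ^ (d + 1)) := by
  have h1 : n < 2 ^ Nat.size n := Nat.lt_size_self n
  have hL1 : 1 ≤ Nat.size n + 1 := by omega
  have h2 : 2 * n < 2 ^ (Nat.size n + 1) := by
    rw [pow_succ]
    omega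
  generalize Nat.size n + 1 = L at *
  have hLd : 1 ≤ L ^ d := Nat.one_le_pow _ _ hL1
  have h3 : 2 ≤ 2 ^ L := by
    calc 2 = 2 ^ 1 := rfl
      _ ≤ 2 ^ L := Nat.pow_le_pow_right (by norm_num) hL1
  have h4 : 2 ≤ 2 ^ L ^ d := by
    calc 2 = 2 ^ 1 := rfl
      _ ≤ 2 ^ L ^ d := Nat.pow_le_pow_right (by norm_num) hLd
  have h5 : 2 ^ L + 2 ^ L ^ d ≤ 2 ^ (L + L ^ d) := by
    rw [pow_add]
    nlinarith
  have h6 : L + L ^ d ≤ 2 * L ^ (d + 1) := by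
    have h7 : L ≤ L ^ (d + 1) := by
      calc L = L ^ 1 := (pow_one L).symm
        _ ≤ L ^ (d + 1) := Nat.pow_le_pow_right hL1 (by omega)
    have h8 : L ^ d ≤ L ^ (d + 1) := Nat.pow_le_pow_right hL1 (by omega)
    omega
  have h7 : 2 ^ (L + L ^ d) ≤ 2 ^ (2 * L ^ (d + 1)) := Nat.pow_le_pow_right (by norm_num) h6
  omega

lemma log_le (n d N : ℕ) (hN : N ≤ 2 * n + 2 ^ (Nat.size n + 1) ^ d) :
    Nat.log 2 N ≤ 2 * (Nat.size n + 1) ^ (d + 1) := by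
  have h := lt_pow n d N hN
  calc Nat.log 2 N ≤ Nat.log 2 (2 ^ (2 * (Nat.size n + 1) ^ (d + 1))) :=
        Nat.log_mono_right h.le
    _ = _ := Nat.log_pow (by norm_num) _

lemma log_pow_le (n d k N : ℕ) (hN : N ≤ 2 * n + 2 ^ (Nat.size n + 1) ^ d) :
    Nat.log 2 N ^ k ≤ 2 ^ k * (Nat.size n + 1) ^ ((d + 1) * k) := by
  calc Nat.log 2 N ^ k ≤ (2 * (Nat.size n + 1) ^ (d + 1)) ^ k :=
        Nat.pow_le_pow_left (log_le n d N hN) k
    _ = _ := by rw [mul_pow, ← pow_mul]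

lemma first (a g k d n N : ℕ) (hN : N ≤ 2 * n + 2 ^ (Nat.size n + 1) ^ d)
    (hn : a + 3 + (g + 1) * (2 * (2 ^ k + k) + 1) ≤ Nat.size n + 1) :
    a * (N + 2) * (2 * (Nat.log 2 N ^ k + k) + 1) * g ^ (2 * (Nat.log 2 N ^ k + k) + 1) ≤
      2 ^ (Nat.size n + 1) ^ ((d + 1) * (k + 1) + 1) := by
  have h1 := lt_pow n d N hN
  have h2 := log_pow_le n d k N hN
  have hL1 : 1 ≤ Nat.size n + 1 := by omega
  generalize Nat.size n + 1 = L at *
  generalize Nat.log 2 N ^ k = y at *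
  set Z := L ^ ((d + 1) * (k + 1)) with hZ
  have hZ1 : 1 ≤ Z := Nat.one_le_pow _ _ hL1
  have e1 : L ^ (d + 1) ≤ Z := Nat.pow_le_pow_right hL1 (by nlinarith)
  have e2 : L ^ ((d + 1) * k) ≤ Z := Nat.pow_le_pow_right hL1 (by nlinarith)
  have hy : y ≤ 2 ^ k * Z := h2.trans (Nat.mul_le_mul_left _ e2)
  have hs : 2 * (y + k) + 1 ≤ (2 * (2 ^ k + k) + 1) * Z := by
    have : k ≤ k * Z := Nat.le_mul_of_pos_right k (by omega)
    nlinarith
  have f1 : a ≤ 2 ^ a := Nat.lt_two_pow_self.le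
  have f2 : N + 2 ≤ 2 ^ (2 * Z + 1) := by
    have h3 : 2 ^ (2 * L ^ (d + 1)) ≤ 2 ^ (2 * Z) :=
      Nat.pow_le_pow_right (by norm_num) (by omega)
    have h4 : 2 ≤ 2 ^ (2 * Z) := by
      calc 2 = 2 ^ 1 := rfl
        _ ≤ 2 ^ (2 * Z) := Nat.pow_le_pow_right (by norm_num) (by omega)
    rw [pow_succ]
    omega
  have f3 : 2 * (y + k) + 1 ≤ 2 ^ (2 * (y + k) + 1) := Nat.lt_two_pow_self.le
  have f4 : g ^ (2 * (y + k) + 1) ≤ 2 ^ (g * (2 * (y + k) + 1)) := by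
    rw [pow_mul]
    exact Nat.pow_le_pow_left Nat.lt_two_pow_self.le _
  calc a * (N + 2) * (2 * (y + k) + 1) * g ^ (2 * (y + k) + 1)
      ≤ 2 ^ a * 2 ^ (2 * Z + 1) * 2 ^ (2 * (y + k) + 1) * 2 ^ (g * (2 * (y + k) + 1)) :=
        Nat.mul_le_mul (Nat.mul_le_mul (Nat.mul_le_mul f1 f2) f3) f4
    _ = 2 ^ (a + (2 * Z + 1) + (g + 1) * (2 * (y + k) + 1)) := by
        rw [← pow_add, ← pow_add, ← pow_add]
        congr 1
        ring
    _ ≤ 2 ^ L ^ ((d + 1) * (k + 1) + 1) := by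
        apply Nat.pow_le_pow_right (by norm_num)
        rw [pow_succ, ← hZ]
        have g1 : (g + 1) * (2 * (y + k) + 1) ≤ (g + 1) * ((2 * (2 ^ k + k) + 1) * Z) :=
          Nat.mul_le_mul_left _ hs
        have g2 : a ≤ a * Z := Nat.le_mul_of_pos_right a (by omega)
        calc a + (2 * Z + 1) + (g + 1) * (2 * (y + k) + 1)
            ≤ a * Z + (2 * Z + Z) + (g + 1) * ((2 * (2 ^ k + k) + 1) * Z) := by omega
          _ = Z * (a + 3 + (g + 1) * (2 * (2 ^ k + k) + 1)) := by ring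
          _ ≤ Z * L := Nat.mul_le_mul_left _ hn

lemma second (k d e : ℕ) : ∃ k' : ℕ, ∀ n : ℕ,
    (Nat.size n + 1) ^ d + (Nat.size n + 1) ^ e + Nat.size n +
        (Nat.log 2 (2 * n + 2 ^ (Nat.size n + 1) ^ d) ^ k + k) + 10 ≤ Nat.log 2 n ^ k' + k' := by
  set E := d + e + (d + 1) * k + 1 with hE
  set C := 13 + 2 ^ k + k with hC
  have hall : ∀ n : ℕ, (Nat.size n + 1) ^ d + (Nat.size n + 1) ^ e + Nat.size n +
        (Nat.log 2 (2 * n + 2 ^ (Nat.size n + 1) ^ d) ^ k + k) + 10 ≤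
        C * (Nat.size n + 1) ^ E := by
    intro n
    have h1 := log_pow_le n d k _ (le_refl _)
    have hL1 : 1 ≤ Nat.size n + 1 := by omega
    have h2 : (Nat.size n + 1) ^ d ≤ (Nat.size n + 1) ^ E :=
      Nat.pow_le_pow_right hL1 (by rw [hE]; omega)
    have h3 : (Nat.size n + 1) ^ e ≤ (Nat.size n + 1) ^ E :=
      Nat.pow_le_pow_right hL1 (by rw [hE]; omega)
    have h4 : Nat.size n + 1 ≤ (Nat.size n + 1) ^ E := by
      calc Nat.size n + 1 = (Nat.size n + 1) ^ 1 := (pow_one _).symm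
        _ ≤ (Nat.size n + 1) ^ E := Nat.pow_le_pow_right hL1 (by rw [hE]; omega)
    have h5 : 2 ^ k * (Nat.size n + 1) ^ ((d + 1) * k) ≤ 2 ^ k * (Nat.size n + 1) ^ E :=
      Nat.mul_le_mul_left _ (Nat.pow_le_pow_right hL1 (by rw [hE]; omega))
    have h6 : k ≤ k * (Nat.size n + 1) ^ E :=
      Nat.le_mul_of_pos_right k (Nat.one_le_pow _ _ hL1)
    have h7 : 1 ≤ (Nat.size n + 1) ^ E := Nat.one_le_pow _ _ hL1
    have h8 : C * (Nat.size n + 1) ^ E = 13 * (Nat.size n + 1) ^ E +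
        2 ^ k * (Nat.size n + 1) ^ E + k * (Nat.size n + 1) ^ E := by
      rw [hC]
      ring
    rw [h8]
    omega
  refine ⟨C * 3 ^ E + (C + 2 * E), fun n => (hall n).trans ?_⟩
  rcases Nat.lt_or_ge n 4 with hn | hn
  · have h1 : Nat.size n ≤ 2 := Nat.size_le.2 (by norm_num; exact hn)
    have h2 : (Nat.size n + 1) ^ E ≤ 3 ^ E := Nat.pow_le_pow_left (by omega) _
    exact (Nat.mul_le_mul_left C h2).trans
      ((Nat.le_add_right _ (C + 2 * E)).trans (Nat.le_add_left _ _))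
  · set m := Nat.log 2 n with hm
    have h1 : 2 ≤ m := by
      rw [hm]
      calc 2 = Nat.log 2 (2 ^ 2) := (Nat.log_pow (by norm_num) 2).symm
        _ ≤ Nat.log 2 n := Nat.log_mono_right (by norm_num; exact hn)
    have h2 : Nat.size n ≤ m + 1 := Nat.size_le.2 (Nat.lt_pow_succ_log_self (by norm_num) n)
    have h3 : (Nat.size n + 1) ^ E ≤ (m * m) ^ E := Nat.pow_le_pow_left (by nlinarith) _
    have h4 : C ≤ m ^ C := (Nat.lt_two_pow_self.le).trans (Nat.pow_le_pow_left h1 C)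
    calc C * (Nat.size n + 1) ^ E ≤ m ^ C * (m * m) ^ E := Nat.mul_le_mul h4 h3
      _ = m ^ (C + 2 * E) := by
          rw [← pow_two, ← pow_mul, ← pow_add]
      _ ≤ m ^ (C * 3 ^ E + (C + 2 * E)) := Nat.pow_le_pow_right (by omega) (by omega)
      _ ≤ _ := Nat.le_add_right _ _

end FNumD

theorem f_numd : StNumD := by
  intro a g k d
  refine ⟨(d + 1) * (k + 1) + 1, ?_, FNumD.second k d _⟩
  filter_upwards [eventually_ge_atTop (2 ^ (a + 3 + (g + 1) * (2 * (2 ^ k + k) + 1)))] with n hn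
  intro N hN
  refine FNumD.first a g k d n N hN ?_
  have := Nat.lt_size.2 hn
  omega

end Pool.Agent.Lib.MP_9dcf40_lc
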