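import Pool.Agent.Lib.MP_9dcf40_lc.SpecD

/-!
# The diagonal machine: one step of the simulated machine
-/

set_option autoImplicit false

namespace Pool.Agent.Lib.MP_9dcf40_lc

open Rout

namespace DVStep

theorem getD_tail {α : Type} (l : List α) (b : α) (i : ℕ) :
    l.tail[i]?.getD b = l[i + 1]?.getD b := by
  cases l <;> simp

theorem getD_head {α : Type} (l : List α) (b : α) : l.head?.getD b = l[0]?.getD b := by
  cases l <;> simp

theorem wrep_zmove (V : TM VB) (cf cf' : Cfg V.Q V.G) (wl wr : List V.G) (g : V.G) (dir : Dir)
    (hW : WRep V cf wl wr) (hh : cf'.h = moveTape dir cf.h)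
    (hT : cf'.T = Function.update cf.T cf.h g) :
    WRep V cf' (zmove V g dir wl wr).1 (zmove V g dir wl wr).2 := by
  obtain ⟨h1, h2⟩ := hW
  have hne : ∀ z : ℤ, z ≠ cf.h → cf'.T z = cf.T z := by
    intro z hz
    rw [hT, Function.update_of_ne hz]
  have heq : cf'.T cf.h = g := by
    rw [hT, Function.update_self]
  cases dir with
  | stay =>
    have hh' : cf'.h = cf.h := hh
    constructor
    · intro i
      rw [hh']
      cases i with
      | zero => simpa [zmove] using heq
      | succ k =>
        rw [hne _ (by push_cast; omega)]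
        rw [h1 (k + 1)]
        simp only [zmove, List.getElem?_cons_succ]
        rw [getD_tail]
    · intro i
      rw [hh', hne _ (by omega)]
      exact h2 i
  | right =>
    have hh' : cf'.h = cf.h + 1 := hh
    constructor
    · intro i
      rw [hh', hne _ (by omega)]
      have h3 : cf.h + 1 + (i : ℤ) = cf.h + ((i + 1 : ℕ) : ℤ) := by push_cast; ring
      rw [h3, h1 (i + 1)]
      simp only [zmove]
      rw [getD_tail]
    · intro i
      rw [hh']
      cases i with
      | zero => simpa [zmove] using heq
      | succ k =>
        have h3 : cf.h + 1 - 1 - ((k + 1 : ℕ) : ℤ) = cf.h - 1 - (k : ℤ) := by push_cast; ring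
        rw [h3, hne _ (by omega), h2 k]
        simp [zmove]
  | left =>
    have hh' : cf'.h = cf.h - 1 := hh
    constructor
    · intro i
      rw [hh']
      cases i with
      | zero =>
        have h3 : cf.h - 1 + ((0 : ℕ) : ℤ) = cf.h - 1 - ((0 : ℕ) : ℤ) := by push_cast; ring
        rw [h3, hne _ (by push_cast; omega), h2 0]
        simp only [zmove, List.getElem?_cons_zero, Option.getD_some]
        rw [getD_head]
      | succ k =>
        cases k with
        | zero =>
          have h3 : cf.h - 1 + ((0 + 1 : ℕ) : ℤ) = cf.h := by push_cast; ring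
          rw [h3, heq]
          simp [zmove]
        | succ k =>
          have h3 : cf.h - 1 + ((k + 1 + 1 : ℕ) : ℤ) = cf.h + ((k + 1 : ℕ) : ℤ) := by
            push_cast; ring
          rw [h3, hne _ (by push_cast; omega), h1 (k + 1)]
          simp only [zmove, List.getElem?_cons_succ]
          rw [getD_tail]
    · intro i
      have h3 : cf.h - 1 - 1 - (i : ℤ) = cf.h - 1 - ((i + 1 : ℕ) : ℤ) := by push_cast; ring
      rw [hh', h3, hne _ (by push_cast; omega), h2 (i + 1)]
      simp only [zmove]
      rw [getD_tail]

theorem wsym_map (V : TM VB) (l : List V.G) :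
    wsym V (l.map (Sum.inr : V.G → DG V.G)).head? = l[0]?.getD V.blank := by
  cases l <;> simp [wsym]

end DVStep

open DVStep in
theorem d_vstep (h : StHead) : StVStep := by
  intro V _ _ x f₁ f₂ f₃ m rest hD s D c μ l cf wl wr hle hT hP hH hWL hWR hW hwl hwr hs hout
  set a : InSym VB := inSym (vword x m f₃) cf.p with ha
  set r := V.δ false cf.q a (cf.T cf.h) with hr
  obtain ⟨T₁, hsym⟩ := (h V.G x f₁ f₂ f₃ m rest hD s D c μ l cf.p hle hT hP hH).1
  -- pop `WR`
  have hpop := runs_pop (x := x) (c := c) DN.WR hle
  have hws : wsym V (D.st .WR).head? = cf.T cf.h := by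
    rw [hWR, wsym_map]
    have := hW.1 0
    simpa using this.symm
  -- push
  have hle1 : (⟨D.pos, Function.update D.st .WR (D.st .WR).tail⟩ : Data (DG V.G) DN).le s :=
    hpop.le_end
  have hpush := runs_push (x := x) (c := c) (s := s) (d := ⟨D.pos, Function.update D.st .WR
    (D.st .WR).tail⟩) DN.WR (Sum.inr r.2.1 : DG V.G) hle1 (by
      simp only [Function.update_self]
      rw [hWR]
      cases wr with
      | nil => simp; omega
      | cons g t => simp at hwr ⊢; omega)
  have hD2 : (⟨D.pos, Function.update (Function.update D.st .WR (D.st .WR).tail) .WR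
      (Sum.inr r.2.1 :: (Function.update D.st .WR (D.st .WR).tail) .WR)⟩ : Data (DG V.G) DN)
      = ⟨D.pos, Function.update D.st .WR ((r.2.1 :: wr.tail).map Sum.inr)⟩ := by
    congr 1
    rw [Function.update_idem, Function.update_self, hWR]
    simp
  simp only at hpush
  rw [hD2] at hpush
  set D2 : Data (DG V.G) DN :=
    ⟨D.pos, Function.update D.st .WR ((r.2.1 :: wr.tail).map Sum.inr)⟩ with hD2d
  have hle2 : D2.le s := hpush.le_end
  have hwrt : wr.tail.length + 2 ≤ s := by
    cases wr with
    | nil => simpa using hs
    | cons g t => simp at hwr ⊢; omega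
  -- the work head
  have hwork : ∃ T, Runs x (workR V r.2.2.2) s T D2 c ()
      ⟨D.pos, Function.update (Function.update D.st .WL
        ((zmove V r.2.1 r.2.2.2 wl wr).1.map Sum.inr)) .WR
        ((zmove V r.2.1 r.2.2.2 wl wr).2.map Sum.inr)⟩ c := by
    rcases r.2.2.2 with _ | _ | _
    · -- left
      have p1 := runs_pop (x := x) (c := c) DN.WL hle2
      have hWL2 : D2.st .WL = wl.map Sum.inr := by
        rw [hD2d]
        simp only
        rw [Function.update_of_ne (by decide), hWL]
      have p2 := runs_push (x := x) (c := c) (s := s)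
        (d := ⟨D2.pos, Function.update D2.st .WL (D2.st .WL).tail⟩) DN.WR
        (Sum.inr (wsym V (D2.st .WL).head?) : DG V.G) p1.le_end (by
          simp only
          rw [Function.update_of_ne (by decide), hD2d]
          simp only [Function.update_self]
          simp only [List.map_cons, List.length_cons, List.length_map]
          omega)
      refine ⟨1 + 1, ?_⟩
      have p3 := runs_bind (f := fun o => push DN.WR (.inr (wsym V o))) p1 p2
      show Runs x ((pop DN.WL).bind fun o => push DN.WR (.inr (wsym V o))) s (1 + 1) D2 c ()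
        ⟨D.pos, Function.update (Function.update D.st .WL
        ((zmove V r.2.1 .left wl wr).1.map Sum.inr)) .WR
        ((zmove V r.2.1 .left wl wr).2.map Sum.inr)⟩ c
      convert p3 using 2
      funext i
      rw [hWL2, wsym_map]
      cases i <;> simp [Function.update, hD2d, zmove, getD_head]
    · -- stay
      refine ⟨0, ?_⟩
      have p1 := runs_pure (x := x) (c := c) () hle2
      show Runs x (pureR ()) s 0 D2 c () _ c
      convert p1 using 2
      funext i
      cases i <;> simp [Function.update, zmove, hWL]
    · -- right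
      have p1 := runs_pop (x := x) (c := c) DN.WR hle2
      have p2 := runs_push (x := x) (c := c) (s := s)
        (d := ⟨D2.pos, Function.update D2.st .WR (D2.st .WR).tail⟩) DN.WL
        (Sum.inr (wsym V (D2.st .WR).head?) : DG V.G) p1.le_end (by
          simp only
          rw [Function.update_of_ne (by decide), hD2d]
          simp only
          rw [Function.update_of_ne (by decide), hWL]
          simpa using hwl)
      refine ⟨1 + 1, ?_⟩
      have p3 := runs_bind (f := fun o => push DN.WL (.inr (wsym V o))) p1 p2
      show Runs x ((pop DN.WR).bind fun o => push DN.WL (.inr (wsym V o))) s (1 + 1) D2 c ()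
        ⟨D.pos, Function.update (Function.update D.st .WL
        ((zmove V r.2.1 .right wl wr).1.map Sum.inr)) .WR
        ((zmove V r.2.1 .right wl wr).2.map Sum.inr)⟩ c
      convert p3 using 2
      funext i
      have hWR2 : D2.st .WR = (r.2.1 :: wr.tail).map Sum.inr := by
        rw [hD2d]
        simp only [Function.update_self]
      rw [hWR2, wsym_map]
      cases i <;> simp [Function.update, hD2d, zmove, hWL]
  obtain ⟨T₂, hwork⟩ := hwork
  set wl' := (zmove V r.2.1 r.2.2.2 wl wr).1 with hwl'
  set wr' := (zmove V r.2.1 r.2.2.2 wl wr).2 with hwr'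
  set D3 : Data (DG V.G) DN := ⟨D.pos, Function.update (Function.update D.st .WL
    (wl'.map Sum.inr)) .WR (wr'.map Sum.inr)⟩ with hD3
  have hle3 : D3.le s := hwork.le_end
  have hT3 : D3.st .T = [] := by
    rw [hD3]
    simp only
    rw [Function.update_of_ne (by decide), Function.update_of_ne (by decide), hT]
  have hP3 : D3.st .P = l.map .inl := by
    rw [hD3]
    simp only
    rw [Function.update_of_ne (by decide), Function.update_of_ne (by decide), hP]
  obtain ⟨T₃, μ', p', l', hhead, hH'⟩ :=
    (h V.G x f₁ f₂ f₃ m rest hD s D3 c μ l cf.p hle3 hT3 hP3 hH).2 r.2.2.1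
  have hnext : V.next (vword x m f₃) false cf = ⟨r.1, movePos (vword x m f₃).length r.2.2.1 cf.p,
      moveTape r.2.2.2 cf.h, Function.update cf.T cf.h r.2.1⟩ := by
    unfold TM.next
    rw [hout]
  refine ⟨T₁ + (1 + (1 + (T₂ + (T₃ + 0)))), μ', p', l', ?_, ?_, ?_⟩
  · have hfin := runs_pure (x := x) (c := c) (r.1, μ') hhead.le_end
    have hend : (⟨p', Function.update D3.st .P (l'.map Sum.inl)⟩ : Data (DG V.G) DN) =
        ⟨p', Function.update (Function.update (Function.update D.st .P (l'.map Sum.inl))
          .WL (wl'.map Sum.inr)) .WR (wr'.map Sum.inr)⟩ := by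
      congr 1
      funext i
      rw [hD3]
      cases i <;> simp [Function.update]
    rw [← hend, hnext]
    unfold vstepR
    refine runs_bind hsym (runs_bind hpop ?_)
    rw [hws]
    exact runs_bind hpush (runs_bind hwork (runs_bind hhead hfin))
  · rw [hnext]
    exact hH'
  · rw [hnext]
    exact wrep_zmove V cf _ wl wr r.2.1 r.2.2.2 hW rfl rfl

end Pool.Agent.Lib.MP_9dcf40_lc
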