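import Pool.Agent.Lib.MP_9dcf40_lc.SpecD

/-!
# The end of the proof: definitions and statements
-/

namespace Pool.Agent.Lib.MP_9dcf40_lc

open Filter

/-- Number of configurations.

Proof. For a deterministic machine the run does not depend on the choices (`V.δ b = V.δ false` for
all `b`, induction on the time). Let `t₀` be the first time with output `some true`. The
configurations at the times `0, …, t₀` are different: if `run i = run j` with `i < j ≤ t₀` then
`run (i + k) = run (j + k)` for all `k`, and `k = t₀ - j` contradicts the minimality. As the head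
moves by at most one square per step and at most `s` squares are visited, `|h t| < s` for all `t`
(compare `StZip`), so `h t ∈ [-s, s]`, and the tape is blank outside `[-s, s]`. So the configurations
are determined by state, `p ≤ |z| + 1`, `h`, and the tape on `[-s, s]`, which gives an injection of
`{0, …, t₀}` into a set of the stated size. -/
def StClock : Prop := ∀ (B : Type) (V : TM B) (z : List B) (s : ℕ), V.IsDet → V.SpaceLe z s →
  V.Accepts z →
  ∃ t < Nat.card V.Q * (z.length + 2) * (2 * s + 1) * Nat.card V.G ^ (2 * s + 1),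
    V.out (V.run z (fun _ => false) t).q = some true

/-- Numerical bounds for the diagonal machine, with `ℓ = Nat.size n` (`= log n + 1` for `n > 0`),
`N ≤ 2 n + 2 ^ ((ℓ + 1) ^ d)`, `s = (log N) ^ k + k`.

Proof. `log N ≤ (ℓ + 1) ^ d + ℓ + 2 ≤ 3 (ℓ + 1) ^ (d + 1)`, so `s ≤ (3 (ℓ + 1) ^ (d + 1)) ^ k + k`, and
the logarithm of the left side of the first inequality is at most a constant times
`(ℓ + 1) ^ ((d + 1) (k + 1))`. So `e = (d + 1) (k + 1) + 1` works for large `n`. The second
inequality: everything is at most `C (ℓ + 1) ^ E`, and `ℓ + 1 ≤ 2 log n` for `n ≥ 4`, so it is at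
most `(log n) ^ k'` for `n ≥ 4` and large `k'`; for `n < 4` it is at most `k'`. -/
def StNumD : Prop := ∀ a g k d : ℕ, ∃ e : ℕ,
  (∀ᶠ n : ℕ in atTop, ∀ N ≤ 2 * n + 2 ^ (Nat.size n + 1) ^ d,
    a * (N + 2) * (2 * (Nat.log 2 N ^ k + k) + 1) * g ^ (2 * (Nat.log 2 N ^ k + k) + 1) ≤
      2 ^ (Nat.size n + 1) ^ e) ∧
  ∃ k' : ℕ, ∀ n : ℕ,
    (Nat.size n + 1) ^ d + (Nat.size n + 1) ^ e + Nat.size n +
        (Nat.log 2 (2 * n + 2 ^ (Nat.size n + 1) ^ d) ^ k + k) + 10 ≤ Nat.log 2 n ^ k' + k'

/-- The diagonal language (from `StCompD`, `StDTotal`, `StClock`, `StNumD`).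

Proof. `e` from `StNumD` with `a = card V.Q`, `g = card V.G`; `sV = (log N) ^ k + k` with
`N = 2 n + 2 ^ ((ℓ + 1) ^ d)` bounds the space on all words of length at most `N` (monotone). `D` is
the set of the words accepted by the machine which `StCompD` gives for `diagR V d e`
(`classical` for `DecidableEq V.G`; `V.finQ`, `V.finG`). Its space is at most
`s + 2`, `s = (ℓ + 1) ^ d + (ℓ + 1) ^ e + ℓ + 1 + sV + 2`. If `x` has the format, `x ∈ D` iff
`b = true` iff `V` does not accept within `2 ^ ((ℓ + 1) ^ e)` steps, iff `V` does not accept (for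
large `n`, by `StClock` for `z = vword x m f₃`, `|z| ≤ N`). -/
def StDiag : Prop := ∀ (V : TM VB) (k d : ℕ), V.IsDet →
  (∀ z, V.SpaceLe z (Nat.log 2 z.length ^ k + k)) →
  ∃ D : Set (List DA), InPolyL DA D ∧ ∀ᶠ n : ℕ in atTop, ∀ x : List DA, x.length = n →
    ∀ f₁ f₂ f₃ m rest, DForm x f₁ f₂ f₃ m rest → m ≤ (Nat.size n + 1) ^ d →
      (x ∈ D ↔ ¬ V.Accepts (vword x m f₃))

/-- The universal language, for deterministic (`nd = false`) or nondeterministic machines. -/
def KU (nd : Bool) : Set (List (Option DA)) := if nd then KN else KD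

/-- The contradiction (from `StDiag`, `StNorm`, `StUCorr`).

Proof. `B` is accepted by `V`; `D` from `StDiag`; `F` from `StNorm` for `M`;
`C₀ = (code F).length + 4`, `N = n + 2 ^ m`,
`x = code F # w # v N # 1 ^ m # 0 … 0` of length `n` (`w`, `v N` via `bitL`; none of the fields
contains `hash`). Then `x ∈ D` iff `V` does not accept
`vword x m ((v N).map bitL) = pairL (padL x (2 ^ m)) (v N)` (`bitOf (bitL b) = b`), iff
`padL x (2 ^ m) ∉ KU nd` (its length is `N`), iff (`StUCorr`, `x = instX F w _`) no computation of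
`F` (for `nd = false`: the one with the choices `false`) on `pairL x w` accepts within `2 ^ m`
steps, iff `M` does not accept `pairL x w` (it halts within `2 ^ m` steps; if it is deterministic
the run does not depend on the choices). -/
def StContr : Prop := ∀ (nd : Bool) (B : Set (List VB)) (v : ℕ → List Bool) (d : ℕ),
  InPolyL VB B → (∀ y, y ∈ KU nd ↔ pairL y (v y.length) ∈ B) →
  ∃ D : Set (List DA), InPolyL DA D ∧ ∀ M : TM DB, (nd = false → M.IsDet) →
    ∃ C₀ : ℕ, ∀ᶠ n : ℕ in atTop, ∀ (w : List Bool) (m : ℕ), m ≤ (Nat.size n + 1) ^ d →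
      C₀ + w.length + (v (n + 2 ^ m)).length + m ≤ n →
      (∀ x : List DA, x.length = n → M.HaltsIn (pairL x w) (2 ^ m)) →
      ∃ x : List DA, x.length = n ∧ ¬ (x ∈ D ↔ M.Accepts (pairL x w))

/-- Numbers for polynomial time.

Proof. For large `n` we have `b n ≤ n - n ^ ε`. Take `m = (k + 2) (ℓ + 1)`, `ℓ = Nat.size n`: then
`2 ^ m ≥ (2 n) ^ k + k`, `m ≤ (ℓ + 1) ^ 2` for large `n`, and `n + 2 ^ m ≤ n ^ (k + 4)` for large `n`
(`2 ^ ℓ ≤ 2 n`). With `ε' = ε / (2 (k + 4))`, `a N ≤ N ^ ε' ≤ n ^ (ε / 2)` for `N = n + 2 ^ m ≥ n`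
large. Finally `C₀ + n ^ (ε / 2) + m ≤ n ^ ε` for large `n`. (One may assume `ε ≤ 1`; if `ε > 1` the
hypothesis on `b` fails for large `n` or `b n = 0`, in any case replace `ε` by `min ε (1/2)`, as
`n ^ ε ≥ n ^ (min ε (1/2))`.) -/
def StNumPoly : Prop := ∀ (C₀ k : ℕ) (a b : ℕ → ℕ), SubPoly a → AlmostLin b →
  ∀ᶠ n : ℕ in atTop, ∃ m ≤ (Nat.size n + 1) ^ 2,
    C₀ + b n + a (n + 2 ^ m) + m ≤ n ∧ (n + b n) ^ k + k ≤ 2 ^ m

/-- Numbers for quasipolynomial time.

Proof. `m = k (log (n + b n) + 1) ^ d ≤ k (ℓ + 1) ^ d ≤ (ℓ + 1) ^ (d + 1)` for large `n` (`b n ≤ n`).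
`log (n + 2 ^ m) ≤ m + ℓ + 1`, so `a (n + 2 ^ m)` is at most a polynomial in `ℓ`, which is at most
`n ^ (ε / 2)` for large `n`; `C₀ + n ^ (ε / 2) + m ≤ n ^ ε` for large `n`. -/
def StNumQ : Prop := ∀ (C₀ k d : ℕ) (a b : ℕ → ℕ), PolyLog a → AlmostLin b →
  ∀ᶠ n : ℕ in atTop, ∃ m ≤ (Nat.size n + 1) ^ (d + 1),
    C₀ + b n + a (n + 2 ^ m) + m ≤ n ∧ 2 ^ (k * (Nat.log 2 (n + b n) + 1) ^ d) ≤ 2 ^ m

/-- The empty advice: a language of a class is in the class with advice (nonempty alphabets).

Proof. Let `M` be the machine for `L`, `a₀ : A`. The machine `M'` over `A ⊕ Bool` has the same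
states and reads `inl a` as `a` and `inr b` as `a₀`: its computations on `z` are those of `M` on the
word `z'` with `inl a ↦ a`, `inr b ↦ a₀`. So time and space bounds are the same. Take
`B = {z | M' accepts z}` and the empty advice: `x.map inl ++ []` is read as `x`. -/
def StTriv : Prop := ∀ (A : Type) (_ : A) (L : Set (List A)) (F : (ℕ → ℕ) → Prop), F (fun _ => 0) →
  (InP A L → Adv InP F A L) ∧ (InNP A L → Adv InNP F A L) ∧ (InPolyL A L → Adv InPolyL F A L)

/-- Monotonicity (easy): polylogarithmic advice is `n ^ o(1)`, which is at most `n - n ^ ε`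
(`ε = 1/2`), and advice classes are contained in their infinitely often versions. -/
def StMono : Prop := (∀ a, PolyLog a → SubPoly a) ∧ (∀ a, SubPoly a → AlmostLin a) ∧
  PolyLog (fun _ => 0) ∧
  ∀ (C : LangClass) (F F' : (ℕ → ℕ) → Prop) (A : Type) (L : Set (List A)), (∀ a, F a → F' a) →
    Adv C F A L → Adv C F' A L ∧ IoAdv C F' A L

/-- First main statement (from `StContr`, `StNumPoly`, `StKD`, `StKN`).

Proof. `KU false = KD` is in `P`, hence in `POLYLOGSPACE / n ^ o(1)`: this gives `B` and `v`. Take `D`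
from `StContr` with `d = 2`. If `D` were in `IoAdv InP AlmostLin`, by a machine `M` with time
`n ^ k + k` and advice `h`, let `b n = |h n|`, `C₀` as in `StContr`. For all large `n` `StNumPoly`
gives `m`, and `M` halts on `pairL x (h n)` within `(n + b n) ^ k + k ≤ 2 ^ m` steps (halting is
monotone in the time), so by `StContr` there is `x` of length `n` with
`¬ (x ∈ D ↔ M.Accepts (pairL x (h n)))`, for all large `n`. Contradiction. The same for `NP`. -/
def StMain1 : Prop :=
  (Incl InP (Adv InPolyL SubPoly) → ∃ D : Set (List DA), InPolyL DA D ∧ ¬ IoAdv InP AlmostLin DA D) ∧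
  (Incl InNP (Adv InPolyL SubPoly) →
    ∃ D : Set (List DA), InPolyL DA D ∧ ¬ IoAdv InNP AlmostLin DA D)

/-- Second main statement (from `StContr`, `StNumQ`, `StKD`, `StKN`). Same proof with `d + 1`. -/
def StMain2 : Prop :=
  (Incl InP (Adv InPolyL PolyLog) → ∀ d : ℕ,
    ∃ D : Set (List DA), InPolyL DA D ∧ ¬ IoAdv (InQTime d) AlmostLin DA D) ∧
  (Incl InNP (Adv InPolyL PolyLog) → ∀ d : ℕ,
    ∃ D : Set (List DA), InPolyL DA D ∧ ¬ IoAdv (InNQTime d) AlmostLin DA D)

end Pool.Agent.Lib.MP_9dcf40_lc
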