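import Pool.Agent.Lib.MP_9dcf40_lc.SpecA

/-!
# The deterministic compiler (`StCompD` from `StMacro`)
-/

namespace Pool.Agent.Lib.MP_9dcf40_lc

namespace CompD

variable {A : Type}

theorem run_eq (M : TM A) (x : List A) (ch : ℕ → Bool) (t : ℕ) :
    M.run x ch t = M.runFrom x ch M.init t := by
  induction t with
  | zero => rfl
  | succ t ih =>
    show M.next x (ch t) (M.run x ch t) = M.next x (ch t) (M.runFrom x ch M.init t)
    rw [ih]

theorem runFrom_add (M : TM A) (x : List A) (ch : ℕ → Bool) (cf : Cfg M.Q M.G) (t k : ℕ) :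
    M.runFrom x ch cf (t + k) = M.runFrom x (fun i => ch (t + i)) (M.runFrom x ch cf t) k := by
  induction k with
  | zero => rfl
  | succ k ih =>
    show M.next x (ch (t + k)) (M.runFrom x ch cf (t + k)) = _
    rw [ih]
    rfl

theorem next_det {M : TM A} (hM : M.IsDet) (x : List A) (b b' : Bool) (c : Cfg M.Q M.G) :
    M.next x b c = M.next x b' c := by
  have h : M.δ b = M.δ b' := by
    unfold TM.IsDet at hM
    cases b <;> cases b' <;> simp [hM]
  unfold TM.next
  rw [h]

theorem runFrom_det {M : TM A} (hM : M.IsDet) (x : List A) (ch ch' : ℕ → Bool)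
    (cf : Cfg M.Q M.G) (t : ℕ) : M.runFrom x ch cf t = M.runFrom x ch' cf t := by
  induction t with
  | zero => rfl
  | succ t ih =>
    show M.next x (ch t) (M.runFrom x ch cf t) = M.next x (ch' t) (M.runFrom x ch' cf t)
    rw [ih]
    exact next_det hM x _ _ _

theorem next_halt (M : TM A) (x : List A) (b : Bool) (c : Cfg M.Q M.G) {r : Bool}
    (h : M.out c.q = some r) : M.next x b c = c := by
  unfold TM.next
  rw [h]

theorem runFrom_halt (M : TM A) (x : List A) (ch : ℕ → Bool) (cf : Cfg M.Q M.G) {r : Bool}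
    (h : M.out cf.q = some r) (t : ℕ) : M.runFrom x ch cf t = cf := by
  induction t with
  | zero => rfl
  | succ t ih =>
    show M.next x (ch t) (M.runFrom x ch cf t) = cf
    rw [ih]
    exact next_halt M x _ cf h

theorem stepIns_const {Γ ι X : Type} [DecidableEq ι] {x : List A} {i : Ins A Γ ι X}
    {d d₁ : Data Γ ι} {u : X} {c₁ : Str} (h : stepIns x i d (fun _ => false) = (u, d₁, c₁)) :
    c₁ = fun _ => false := by
  cases i <;> · simp only [stepIns, Prod.mk.injEq] at h; exact h.2.2.symm

theorem compTM_det {Γ ι : Type} [Finite Γ] [Finite ι] [DecidableEq ι] (R : Rout A Γ ι Bool) :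
    (compTM R false).IsDet := by
  show compδ R false true = compδ R false false
  funext q a g
  cases q with
  | init => rfl
  | run u =>
    cases u with
    | inl σ =>
      simp only [compδ]
      cases R.prog σ <;> simp
    | inr r => rfl
  | back u => rfl
  | popg σ => rfl

/-- From a configuration which represents the data the machine reaches the result. -/
theorem sim (hM : StMacro) {Γ ι : Type} [Finite Γ] [Finite ι] [DecidableEq ι]
    (R : Rout A Γ ι Bool) (x : List A) (s : ℕ) {u : R.S ⊕ Bool} {d : Data Γ ι} {c : Str} {n : ℕ}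
    {b : Bool} {d' : Data Γ ι} {c' : Str} (h : Exec x R.prog s u d c n b d' c')
    (hc : c = fun _ => false) (cf : Cfg (CQ R.S) (CG Γ ι)) (hq : cf.q = .run u)
    (hr : Rep d cf) :
    ∃ m ≤ n * (2 * s + 2),
      ((compTM R false).runFrom x (fun _ => false) cf m).q = CQ.run (.inr b) ∧
      ∀ k ≤ m, 0 ≤ ((compTM R false).runFrom x (fun _ => false) cf k).h ∧
        ((compTM R false).runFrom x (fun _ => false) cf k).h ≤ s := by
  induction h generalizing cf with
  | done b d c hd =>
    refine ⟨0, Nat.zero_le _, hq, fun k hk => ?_⟩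
    obtain rfl : k = 0 := by omega
    have h1 : ((compTM R false).runFrom x (fun _ => false) cf 0).h = 0 := hr.2.1
    rw [h1]
    exact ⟨le_rfl, by positivity⟩
  | step σ d c u d₁ c₁ n b d' c' hd he hrest ih =>
    subst hc
    have hc₁ := stepIns_const he
    have hd₁ : d₁.le s := hrest.le_start
    obtain ⟨n₁, cf', hn1, hn2, hq', hr', hch⟩ := hM A Γ ι R false x s σ d (fun _ => false) u d₁ c₁
      false hd hd₁ he rfl cf hq hr
    obtain ⟨hrun, hhead⟩ := hch (fun _ => false) rfl
    obtain ⟨m, hm, hqm, hhm⟩ := ih hc₁ cf' hq' hr'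
    have hadd : ∀ k, (compTM R false).runFrom x (fun _ => false) cf (n₁ + k) =
        (compTM R false).runFrom x (fun _ => false) cf' k := fun k => by
      rw [runFrom_add, hrun]
    refine ⟨n₁ + m, ?_, ?_, fun k hk => ?_⟩
    · calc n₁ + m ≤ (2 * s + 2) + n * (2 * s + 2) := Nat.add_le_add hn2 hm
        _ = (n + 1) * (2 * s + 2) := by ring
    · rw [hadd]
      exact hqm
    · by_cases hk1 : k ≤ n₁
      · exact hhead k hk1
      · obtain ⟨k', rfl⟩ : ∃ k', k = n₁ + k' := ⟨k - n₁, by omega⟩
        rw [hadd]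
        exact hhm k' (by omega)

end CompD

open CompD

/-- The deterministic compiler. -/
theorem comp_d (hM : StMacro) : StCompD := by
  intro A Γ ι _ _ _ R
  have hdet := compTM_det R
  refine ⟨compTM R false, hdet, ?_⟩
  intro x s T b d' c' hruns
  obtain ⟨n, hn, hex⟩ := hruns
  set M := compTM R false with hMdef
  -- the first step
  set cf0 : Cfg (CQ R.S) (CG Γ ι) := M.runFrom x (fun _ => false) M.init 1 with hcf0
  have hq0 : cf0.q = .run R.start := rfl
  have hr0 : Rep Data.init cf0 := by
    refine ⟨rfl, rfl, fun j => ?_⟩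
    have h1 : cf0.T = Function.update (fun _ => ((false, fun _ => none) : CG Γ ι)) 0
        (true, fun _ => none) := rfl
    rw [h1]
    by_cases hj : j = 0
    · subst hj
      simp [Data.init]
    · rw [Function.update_of_ne (by exact_mod_cast hj)]
      simp [Data.init, hj]
  obtain ⟨m, hm, hqm, hhm⟩ := sim hM R x s hex rfl cf0 hq0 hr0
  -- all the runs
  have hrun : ∀ ch t, M.run x ch t = M.runFrom x (fun _ => false) M.init t := fun ch t => by
    rw [run_eq, runFrom_det hdet x ch (fun _ => false)]
  have hadd : ∀ k, M.runFrom x (fun _ => false) M.init (1 + k) =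
      M.runFrom x (fun _ => false) cf0 k := fun k => by
    rw [runFrom_add]
  have hout : M.out (M.runFrom x (fun _ => false) cf0 m).q = some b := by
    rw [hqm]
    rfl
  have hfix : ∀ k, M.runFrom x (fun _ => false) cf0 (m + k) =
      M.runFrom x (fun _ => false) cf0 m := fun k => by
    rw [runFrom_add]
    exact runFrom_halt M x _ _ hout k
  have hend : ∀ t, 1 + m ≤ t → M.out (M.runFrom x (fun _ => false) M.init t).q = some b := by
    intro t ht
    obtain ⟨k, rfl⟩ : ∃ k, t = 1 + (m + k) := ⟨t - (1 + m), by omega⟩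
    rw [hadd, hfix]
    exact hout
  have hTm : 1 + m ≤ (T + 1) * (2 * s + 2) := by
    have h1 : n * (2 * s + 2) ≤ T * (2 * s + 2) := Nat.mul_le_mul_right _ hn
    have h2 : (T + 1) * (2 * s + 2) = T * (2 * s + 2) + (2 * s + 2) := by ring
    omega
  refine ⟨fun ch => ?_, ⟨?_, fun hb => ?_⟩, fun ch => ?_⟩
  · rw [hrun, hend _ hTm]
    exact Option.some_ne_none _
  · rintro ⟨ch, t, ht⟩
    rw [hrun] at ht
    have h1 : M.runFrom x (fun _ => false) M.init (t + (1 + m)) =
        M.runFrom x (fun _ => false) M.init t := by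
      rw [runFrom_add]
      exact runFrom_halt M x _ _ ht _
    have h2 := hend (t + (1 + m)) (by omega)
    rw [h1, ht] at h2
    simpa using h2.symm
  · refine ⟨fun _ => false, 1 + m, ?_⟩
    rw [hrun, hend _ le_rfl, hb]
  · have hsub : (Set.range fun t => (M.run x ch t).h) ⊆ ((Finset.Icc (0 : ℤ) s : Finset ℤ) :
        Set ℤ) := by
      rintro _ ⟨t, rfl⟩
      simp only [hrun, Finset.coe_Icc, Set.mem_Icc]
      rcases Nat.eq_zero_or_pos t with h0 | h0
      · subst h0
        exact ⟨le_rfl, by positivity⟩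
      · obtain ⟨k, rfl⟩ : ∃ k, t = 1 + k := ⟨t - 1, by omega⟩
        rw [hadd]
        by_cases hk : k ≤ m
        · exact hhm k hk
        · obtain ⟨k', rfl⟩ : ∃ k', k = m + k' := ⟨k - m, by omega⟩
          rw [hfix]
          exact hhm m le_rfl
    refine (Set.encard_le_encard hsub).trans ?_
    rw [Set.encard_coe_eq_coe_finsetCard, Int.card_Icc]
    have h1 : (((s : ℤ) + 1 - 0).toNat) = s + 1 := by omega
    rw [h1]
    exact_mod_cast Nat.le_succ (s + 1)

end Pool.Agent.Lib.MP_9dcf40_lc
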