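import Pool.Agent.Lib.MP_9dcf40_lc.SpecA

/-!
# The nondeterministic compiler
-/

namespace Pool.Agent.Lib.MP_9dcf40_lc

namespace CompN

variable {A Γ ι : Type}

theorem run_eq (M : TM A) (x : List A) (ch : ℕ → Bool) (t : ℕ) :
    M.run x ch t = M.runFrom x ch M.init t := by
  induction t with
  | zero => rfl
  | succ t ih => show M.next x (ch t) (M.run x ch t) = M.next x (ch t) _; rw [ih]

theorem runFrom_add (M : TM A) (x : List A) (ch : ℕ → Bool) (cf : Cfg M.Q M.G) (a b : ℕ) :
    M.runFrom x ch cf (a + b) = M.runFrom x (fun k => ch (a + k)) (M.runFrom x ch cf a) b := by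
  induction b with
  | zero => rfl
  | succ b ih =>
    show M.next x (ch (a + b)) (M.runFrom x ch cf (a + b)) = M.next x (ch (a + b)) _
    rw [ih]

theorem next_halt (M : TM A) (x : List A) (b : Bool) {cf : Cfg M.Q M.G} (h : M.out cf.q ≠ none) :
    M.next x b cf = cf := by
  unfold TM.next
  cases h' : M.out cf.q with
  | none => exact absurd h' h
  | some r => rfl

theorem runFrom_halt (M : TM A) (x : List A) (ch : ℕ → Bool) {cf : Cfg M.Q M.G}
    (h : M.out cf.q ≠ none) (t : ℕ) : M.runFrom x ch cf t = cf := by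
  induction t with
  | zero => rfl
  | succ t ih =>
    show M.next x (ch t) (M.runFrom x ch cf t) = cf
    rw [ih, next_halt M x _ h]

theorem run_stable (M : TM A) (x : List A) (ch : ℕ → Bool) {t t' : ℕ}
    (h : M.out (M.run x ch t).q ≠ none) (htt : t ≤ t') : M.run x ch t' = M.run x ch t := by
  obtain ⟨k, rfl⟩ := Nat.exists_eq_add_of_le htt
  rw [run_eq, runFrom_add, ← run_eq, runFrom_halt M x _ h]

theorem stepIns_lift [DecidableEq ι] {X : Type} (x : List A) (i : Ins A Γ ι X) (d : Data Γ ι)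
    (b : Bool) (c₁ : Str) : ∃ c : Str, stepIns x i d c =
      ((stepIns x i d (fun _ => b)).1, (stepIns x i d (fun _ => b)).2.1, c₁) := by
  cases i with
  | choose f => exact ⟨fun k => match k with | 0 => b | k + 1 => c₁ k, rfl⟩
  | _ => exact ⟨c₁, rfl⟩

section

variable [Finite Γ] [Finite ι] [DecidableEq ι] (hM : StMacro) (R : Rout A Γ ι Bool) (x : List A)
  (s : ℕ)

include hM in
theorem lemA (N : ℕ) (ch : ℕ → Bool) (u : R.S ⊕ Bool) (d : Data Γ ι)
    (cf : Cfg (CQ R.S) (CG Γ ι)) (hq : cf.q = .run u) (hr : Rep d cf) :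
    ∃ c : Str, ∀ n b d' c', Exec x R.prog s u d c n b d' c' → n ≤ N →
      ∃ t ≤ n * (2 * s + 2), ((compTM R true).runFrom x ch cf t).q = .run (.inr b) := by
  induction N generalizing ch u d cf with
  | zero =>
    refine ⟨fun _ => false, fun n b d' c' h hn => ?_⟩
    cases h with
    | done => exact ⟨0, by omega, hq⟩
    | step => omega
  | succ N ih =>
    rcases u with σ | r
    · obtain ⟨u₁, hu₁⟩ : ∃ u₁, u₁ = (stepIns x (R.prog σ) d (fun _ => ch 0)).1 := ⟨_, rfl⟩
      obtain ⟨d₁, hd₁⟩ : ∃ d₁, d₁ = (stepIns x (R.prog σ) d (fun _ => ch 0)).2.1 := ⟨_, rfl⟩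
      by_cases hle : d.le s ∧ d₁.le s
      · obtain ⟨n₁, cf', h1, h2, h3, h4, h5⟩ := hM A Γ ι R true x s σ d (fun _ => ch 0) u₁ d₁
          (stepIns x (R.prog σ) d (fun _ => ch 0)).2.2 (ch 0) hle.1 hle.2
          (by rw [hu₁, hd₁]) (by simp) cf hq hr
        obtain ⟨c₁, hc₁⟩ := ih (fun k => ch (n₁ + k)) u₁ d₁ cf' h3 h4
        obtain ⟨c, hc⟩ := stepIns_lift x (R.prog σ) d (ch 0) c₁
        rw [← hu₁, ← hd₁] at hc
        refine ⟨c, fun n b d' c' h hn => ?_⟩
        cases h with
        | step _ _ _ u' d₂ c₂ m _ _ _ _ he hx =>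
          rw [hc] at he
          obtain ⟨rfl, rfl, rfl⟩ : u₁ = u' ∧ d₁ = d₂ ∧ c₁ = c₂ := by simpa using he
          obtain ⟨t, ht, hq'⟩ := hc₁ m b d' c' hx (by omega)
          refine ⟨n₁ + t, ?_, ?_⟩
          · rw [Nat.succ_mul]
            omega
          · rw [runFrom_add, (h5 ch rfl).1]
            exact hq'
      · refine ⟨fun _ => ch 0, fun n b d' c' h hn => ?_⟩
        refine absurd ?_ hle
        cases h with
        | step _ _ _ u' d₂ c₂ m _ _ _ h6 he hx =>
          refine ⟨h6, ?_⟩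
          rw [hd₁, he]
          exact hx.le_start
    · refine ⟨fun _ => false, fun n b d' c' h hn => ?_⟩
      cases h with
      | done => exact ⟨0, by omega, hq⟩

include hM in
theorem lemB {u : R.S ⊕ Bool} {d d' : Data Γ ι} {c c' : Str} {n : ℕ} {b : Bool}
    (h : Exec x R.prog s u d c n b d' c') (cf : Cfg (CQ R.S) (CG Γ ι)) (hq : cf.q = .run u)
    (hr : Rep d cf) : ∃ (ch : ℕ → Bool) (t : ℕ),
      ((compTM R true).runFrom x ch cf t).q = .run (.inr b) := by
  induction h generalizing cf with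
  | done b d c hd => exact ⟨fun _ => false, 0, hq⟩
  | step σ d c u d₁ c₁ n b d' c' hd he hx ih =>
    obtain ⟨n₁, cf', h1, h2, h3, h4, h5⟩ := hM A Γ ι R true x s σ d c u d₁
      c₁ (c 0) hd hx.le_start he (by simp) cf hq hr
    obtain ⟨ch', t, ht⟩ := ih cf' h3 h4
    refine ⟨fun k => if k < n₁ then c 0 else ch' (k - n₁), n₁ + t, ?_⟩
    rw [runFrom_add, (h5 _ (if_pos (by omega))).1]
    have : (fun k => (fun k => if k < n₁ then c 0 else ch' (k - n₁)) (n₁ + k)) = ch' := by
      funext k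
      show (if n₁ + k < n₁ then c 0 else ch' (n₁ + k - n₁)) = ch' k
      rw [if_neg (by omega), Nat.add_sub_cancel_left]
    rw [this]
    exact ht

/-- The configuration after the first step. -/
def cf0 : Cfg (CQ R.S) (CG Γ ι) :=
  ⟨.run R.start, 0, 0, Function.update (fun _ => (false, fun _ => none)) 0 (true, fun _ => none)⟩

theorem rep_cf0 : Rep Data.init (cf0 R) := by
  refine ⟨rfl, rfl, fun j => ?_⟩
  show Function.update (fun _ : ℤ => ((false, fun _ => none) : CG Γ ι)) 0 (true, fun _ => none) (j : ℤ)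
    = _
  by_cases hj : j = 0
  · subst hj
    simp [Data.init]
  · have : (j : ℤ) ≠ 0 := by exact_mod_cast hj
    rw [Function.update_of_ne this]
    simp [Data.init, hj]

theorem run_succ (ch : ℕ → Bool) (t : ℕ) : (compTM R true).run x ch (t + 1) =
    (compTM R true).runFrom x (fun k => ch (1 + k)) (cf0 R) t := by
  rw [run_eq, Nat.add_comm t 1, runFrom_add]
  rfl

end

end CompN

open CompN in
/-- The nondeterministic compiler. -/
theorem comp_n (hM : StMacro) : StCompN := by
  intro A Γ ι _ _ _ R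
  refine ⟨compTM R true, fun x s T b hb => ?_⟩
  have key : ∀ ch : ℕ → Bool, ∃ c : Str, ∃ t ≤ (T + 1) * (2 * s + 2),
      ((compTM R true).run x ch t).q = .run (.inr (b c)) := by
    intro ch
    obtain ⟨c, hc⟩ := lemA hM R x s T (fun k => ch (1 + k)) R.start Data.init (cf0 R) rfl
      (rep_cf0 R)
    obtain ⟨d', c', n, hn, h⟩ := hb c
    obtain ⟨t, ht, hq⟩ := hc n (b c) d' c' h hn
    refine ⟨c, t + 1, ?_, ?_⟩
    · have : n * (2 * s + 2) ≤ T * (2 * s + 2) := Nat.mul_le_mul_right _ hn
      rw [Nat.succ_mul]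
      omega
    · rw [run_succ]
      exact hq
  have out_run : ∀ r : Bool, (compTM R true).out (.run (.inr r)) = some r := fun r => rfl
  refine ⟨fun ch => ?_, ?_, ?_⟩
  · obtain ⟨c, t, ht, hq⟩ := key ch
    have h1 : (compTM R true).out ((compTM R true).run x ch t).q ≠ none := by
      rw [hq, out_run]
      simp
    rw [run_stable _ x ch h1 ht]
    exact h1
  · rintro ⟨ch, t', ht'⟩
    obtain ⟨c, t, ht, hq⟩ := key ch
    have h1 : (compTM R true).out ((compTM R true).run x ch t).q ≠ none := by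
      rw [hq, out_run]
      simp
    have h2 : (compTM R true).out ((compTM R true).run x ch t').q ≠ none := by
      rw [ht']
      simp
    have h3 := run_stable _ x ch h1 (le_max_left t t')
    have h4 := run_stable _ x ch h2 (le_max_right t t')
    rw [h3] at h4
    rw [← h4, hq, out_run] at ht'
    exact ⟨c, by simpa using ht'⟩
  · rintro ⟨c, hc⟩
    obtain ⟨d', c', n, hn, h⟩ := hb c
    obtain ⟨ch, t, ht⟩ := lemB hM R x s h (cf0 R) rfl (rep_cf0 R)
    refine ⟨fun k => ch (k - 1), t + 1, ?_⟩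
    rw [run_succ]
    have : (fun k => (fun k => ch (k - 1)) (1 + k)) = ch := by
      funext k
      show ch (1 + k - 1) = ch k
      rw [Nat.add_sub_cancel_left]
    rw [this, ht, hc]
    rfl

end Pool.Agent.Lib.MP_9dcf40_lc
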