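import Pool.Agent.Lib.MP_9dcf40_lc.SpecD

/-!
# Counter routines
-/

namespace Pool.Agent.Lib.MP_9dcf40_lc

open Rout

namespace DCnt

variable {G : Type}

/-- The first loop on lists: changed digits (highest first) on top of `t`, rest, overflow flag. -/
def lp (b : Bool) (e : List Bool) : List Bool → List (DG G) → List (DG G) × List Bool × Bool
  | [], t => (t, e, true)
  | a :: l, t => if a = b then lp b e l (.inl (!b) :: t) else (t, b :: l, false)

theorem lp_flag (b : Bool) (e : List Bool) (l : List Bool) (t : List (DG G)) :
    (lp b e l t).2.2 = (cstep b l).2 := by
  induction l generalizing t with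
  | nil => rfl
  | cons a l ih =>
    by_cases h : a = b
    · simp only [lp, cstep, if_pos h]
      exact ih _
    · simp only [lp, cstep, if_neg h]

theorem lp_list (b : Bool) (e : List Bool) (l : List Bool) (t : List (DG G)) :
    (lp b e l t).1.reverse ++ (lp b e l t).2.1.map .inl =
      t.reverse ++ (if (cstep b l).2 then (cstep b l).1 ++ e else (cstep b l).1).map .inl := by
  induction l generalizing t with
  | nil => simp [lp, cstep]
  | cons a l ih =>
    by_cases h : a = b
    · simp only [lp, cstep, if_pos h]
      rw [ih]
      by_cases h2 : (cstep b l).2 = true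
      · simp [h2]
      · simp [h2]
    · simp only [lp, cstep, if_neg h]
      simp

theorem lp_length (b : Bool) (e : List Bool) (l : List Bool) (t : List (DG G)) :
    (lp b e l t).1.length + (lp b e l t).2.1.length ≤ t.length + l.length + e.length ∧
      (lp b e l t).1.length ≤ t.length + l.length := by
  induction l generalizing t with
  | nil => simp [lp]
  | cons a l ih =>
    by_cases h : a = b
    · simp only [lp, if_pos h]
      have := ih (.inl (!b) :: t)
      simp only [List.length_cons] at this ⊢
      omega
    · simp only [lp, if_neg h, List.length_cons]
      omega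

theorem upd4 {i j : DN} (hij : i ≠ j)
    (f : DN → List (DG G)) (l₁ l₂ m₁ m₂ : List (DG G)) :
    Function.update (Function.update (Function.update (Function.update f i l₁) j l₂) i m₁) j m₂ =
      Function.update (Function.update f i m₁) j m₂ := by
  funext k
  by_cases hj : k = j
  · subst hj
    simp
  · rw [Function.update_of_ne hj, Function.update_of_ne hj]
    by_cases hi : k = i
    · subst hi
      simp
    · rw [Function.update_of_ne hi, Function.update_of_ne hj, Function.update_of_ne hi,
        Function.update_of_ne hi]

variable [Finite G] [DecidableEq G] {x : List DA} {s : ℕ} {c : Str}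

/-- One round: a digit equal to `b` is moved to `T` as `!b`. -/
theorem round_move (b : Bool) (i : DN) (hi : i ≠ .T) (l : List Bool) (f : DN → List (DG G)) (p : ℕ)
    (hd : (⟨p, f⟩ : Data (DG G) DN).le s) (hL : f i = (b :: l).map .inl)
    (hs : (f .T).length + (b :: l).length ≤ s) {β : Type} (r : β)
    (body : DR G β) (hb : body = (push .T (.inl (!b))).bind fun _ => pureR r) :
    Runs x (pop (A := DA) (Γ := DG G) i) s 1 ⟨p, f⟩ c (some (.inl b))
        ⟨p, Function.update f i (l.map .inl)⟩ c ∧
    Runs x body s 1 ⟨p, Function.update f i (l.map .inl)⟩ c r
        ⟨p, Function.update (Function.update f i (l.map .inl)) .T (.inl (!b) :: f .T)⟩ c := by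
  have h1 : Runs x (pop (A := DA) (Γ := DG G) i) s 1 ⟨p, f⟩ c (some (.inl b))
      ⟨p, Function.update f i (l.map .inl)⟩ c := by
    have h := runs_pop (A := DA) (x := x) (c := c) i hd
    change Runs x (pop i) s 1 ⟨p, f⟩ c (f i).head? ⟨p, Function.update f i (f i).tail⟩ c at h
    rw [hL] at h
    exact h
  refine ⟨h1, ?_⟩
  have e2 : Function.update f i (l.map .inl) .T = f .T := Function.update_of_ne hi.symm _ _
  have h2 := runs_push (A := DA) (x := x) (c := c) .T (.inl (!b)) h1.le_end (by
    show (Function.update f i (l.map .inl) .T).length + 1 ≤ s
    rw [e2]
    simp only [List.length_cons] at hs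
    omega)
  change Runs x (push .T (.inl (!b))) s 1 ⟨p, Function.update f i (l.map .inl)⟩ c ()
    ⟨p, Function.update (Function.update f i (l.map .inl)) .T
      (.inl (!b) :: Function.update f i (l.map .inl) .T)⟩ c at h2
  rw [e2] at h2
  rw [hb]
  exact (runs_bind h2 (runs_pure r h2.le_end)).mono le_rfl (by omega)

/-- Last round: a digit different from `b` becomes `b`. -/
theorem round_last (b : Bool) (i : DN) (a : Bool) (l : List Bool) (f : DN → List (DG G))
    (p : ℕ) (hd : (⟨p, f⟩ : Data (DG G) DN).le s) (hL : f i = (a :: l).map .inl)
    {β : Type} (r : β)
    (body : DR G β) (hb : body = (push i (.inl b)).bind fun _ => pureR r) :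
    Runs x (pop (A := DA) (Γ := DG G) i) s 1 ⟨p, f⟩ c (some (.inl a))
        ⟨p, Function.update f i (l.map .inl)⟩ c ∧
    Runs x body s 1 ⟨p, Function.update f i (l.map .inl)⟩ c r
        ⟨p, Function.update f i ((b :: l).map .inl)⟩ c := by
  have h1 : Runs x (pop (A := DA) (Γ := DG G) i) s 1 ⟨p, f⟩ c (some (.inl a))
      ⟨p, Function.update f i (l.map .inl)⟩ c := by
    have h := runs_pop (A := DA) (x := x) (c := c) i hd
    change Runs x (pop i) s 1 ⟨p, f⟩ c (f i).head? ⟨p, Function.update f i (f i).tail⟩ c at h
    rw [hL] at h
    exact h
  refine ⟨h1, ?_⟩
  have hlen : l.length + 1 ≤ s := by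
    have := hd i
    change (f i).length ≤ s at this
    rw [hL] at this
    simpa using this
  have e2 : Function.update f i (l.map .inl) i = l.map .inl := Function.update_self _ _ _
  have h2 := runs_push (A := DA) (x := x) (c := c) i (.inl b) h1.le_end (by
    show (Function.update f i (l.map .inl) i).length + 1 ≤ s
    rw [e2]
    simpa using hlen)
  change Runs x (push i (.inl b)) s 1 ⟨p, Function.update f i (l.map .inl)⟩ c ()
    ⟨p, Function.update (Function.update f i (l.map .inl)) i
      (.inl b :: Function.update f i (l.map .inl) i)⟩ c at h2
  rw [e2, Function.update_idem] at h2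
  rw [hb]
  exact (runs_bind h2 (runs_pure r h2.le_end)).mono le_rfl (by omega)

/-- The counting loop, for all variants of the behaviour at the end of the digits. -/
theorem loop (b : Bool) (e : List Bool) (he : e.length ≤ 1) (i : DN) (hi : i ≠ .T) {β : Type}
    (r : Bool → β) (onone : DR G (Unit ⊕ β))
    (hn : ∀ (f : DN → List (DG G)) (p : ℕ), (⟨p, f⟩ : Data (DG G) DN).le s → f i = [] →
      e.length ≤ s →
      Runs x onone s 1 ⟨p, f⟩ c (.inr (r true)) ⟨p, Function.update f i (e.map .inl)⟩ c)
    (body : Unit → DR G (Unit ⊕ β))
    (hb : body = fun _ => (pop i).bind fun o =>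
      match o with
      | none => onone
      | some a => if a = .inl b then (push .T (.inl (!b))).bind fun _ => pureR (.inl ())
          else (push i (.inl b)).bind fun _ => pureR (.inr (r false))) :
    ∀ (l : List Bool) (f : DN → List (DG G)) (p : ℕ), (⟨p, f⟩ : Data (DG G) DN).le s →
      f i = l.map .inl → (f .T).length + l.length + e.length ≤ s →
      Runs x (iter (τ := Unit) body ()) s (3 * l.length + 3) ⟨p, f⟩ c (r (lp b e l (f .T)).2.2)
        ⟨p, Function.update (Function.update f i ((lp b e l (f .T)).2.1.map .inl)) .T
          (lp b e l (f .T)).1⟩ c := by
  subst hb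
  intro l
  induction l with
  | nil =>
    intro f p hd hL hs
    have hL' : f i = [] := by rw [hL]; rfl
    have h1 : Runs x (pop (A := DA) (Γ := DG G) i) s 1 ⟨p, f⟩ c none ⟨p, f⟩ c := by
      have h := runs_pop (A := DA) (x := x) (c := c) i hd
      change Runs x (pop i) s 1 ⟨p, f⟩ c (f i).head? ⟨p, Function.update f i (f i).tail⟩ c at h
      have e3 : Function.update f i (f i).tail = f := by
        rw [hL']
        funext k
        by_cases hk : k = i
        · subst hk
          rw [Function.update_self, hL']
          rfl
        · rw [Function.update_of_ne hk]
      rw [e3, hL'] at h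
      exact h
    have h2 := hn f p hd hL' (by omega)
    have e4 : Function.update (Function.update f i ((lp b e [] (f .T)).2.1.map .inl)) .T
          (lp b e [] (f .T)).1 = Function.update f i (e.map .inl) := by
      show Function.update (Function.update f i (e.map .inl)) .T (f .T) =
        Function.update f i (e.map .inl)
      have : f .T = Function.update f i (e.map .inl) .T := by
        rw [Function.update_of_ne hi.symm]
      rw [this, Function.update_eq_self]
    rw [e4]
    exact (runs_iter_done (runs_bind h1 h2)).mono le_rfl (by simp)
  | cons a l ih =>
    intro f p hd hL hs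
    by_cases hab : a = b
    · subst hab
      obtain ⟨h1, h2⟩ := round_move (x := x) (c := c) a i hi l f p hd hL (by omega)
        (Sum.inl () : Unit ⊕ β) _ rfl
      have e1 : Function.update (Function.update f i (l.map .inl)) DN.T (.inl (!a) :: f .T) i =
          l.map .inl := by
        rw [Function.update_of_ne hi, Function.update_self]
      have e2 : Function.update (Function.update f i (l.map .inl)) DN.T (.inl (!a) :: f .T) .T =
          .inl (!a) :: f .T := Function.update_self _ _ _
      have h3 := ih _ p h2.le_end e1 (by
        rw [e2]
        simp only [List.length_cons] at hs ⊢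
        omega)
      rw [e2, upd4 hi] at h3
      have e3 : lp a e (a :: l) (f .T) = lp a e l (.inl (!a) :: f .T) := by
        rw [lp, if_pos rfl]
      rw [e3]
      refine (runs_iter_step (runs_bind (T' := 1) h1 ?_) h3).mono le_rfl ?_
      · simp only [if_true]
        exact h2
      · simp only [List.length_cons]
        omega
    · obtain ⟨h1, h2⟩ := round_last (x := x) (c := c) b i a l f p hd hL
        (Sum.inr (r false) : Unit ⊕ β) _ rfl
      have e3 : lp b e (a :: l) (f .T) = (f .T, b :: l, false) := by
        rw [lp, if_neg hab]
      have e4 : Function.update (Function.update f i ((b :: l).map .inl)) .T (f .T) =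
          Function.update f i ((b :: l).map .inl) := by
        have : f .T = Function.update f i ((b :: l).map .inl) .T := by
          rw [Function.update_of_ne hi.symm]
        rw [this, Function.update_eq_self]
      rw [e3, e4]
      have hne : ¬ ((.inl a : DG G) = .inl b) := by
        intro h
        exact hab (Sum.inl_injective h)
      refine (runs_iter_done (runs_bind (T' := 1) h1 ?_)).mono le_rfl ?_
      · simp only [if_neg hne]
        exact h2
      · simp only [List.length_cons]
        omega

theorem xfer_all {α : Type} (l acc : List α) :
    xfer (fun _ => false) l acc = ([], l.reverse ++ acc) := by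
  induction l generalizing acc with
  | nil => simp [xfer]
  | cons a l ih => simp [xfer, ih]

end DCnt

open DCnt in
theorem d_cnt (h : StXfer) : StCnt := by
  intro G _ _ x s D c l hD hT
  obtain ⟨p, f⟩ := D
  change f .T = [] at hT
  -- the transfer back
  have back : ∀ (b : Bool) (e : List Bool) (i : DN), i ≠ .T →
      (⟨p, Function.update (Function.update f i ((lp b e l (f .T)).2.1.map .inl)) .T
          (lp b e l (f .T)).1⟩ : Data (DG G) DN).le s → l.length + e.length ≤ s →
      Runs x (xferR (A := DA) (fun _ => false) DN.T i) s (3 * l.length + 2)
        ⟨p, Function.update (Function.update f i ((lp b e l (f .T)).2.1.map .inl)) .T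
          (lp b e l (f .T)).1⟩ c ()
        ⟨p, Function.update f i
          ((if (cstep b l).2 then (cstep b l).1 ++ e else (cstep b l).1).map .inl)⟩ c := by
    intro b e i hi hd hs
    have h1 := h DA (DG G) DN (fun _ => false) .T i hi.symm x s _ c hd (by
      show (Function.update (Function.update f i ((lp b e l (f .T)).2.1.map .inl)) .T
          (lp b e l (f .T)).1 .T).length +
        (Function.update (Function.update f i ((lp b e l (f .T)).2.1.map .inl)) .T
          (lp b e l (f .T)).1 i).length ≤ s
      rw [Function.update_self, Function.update_of_ne hi, Function.update_self, List.length_map]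
      have := (lp_length b e l (f .T)).1
      rw [hT] at this ⊢
      simp only [List.length_nil] at this
      omega)
    have e1 : (Function.update (Function.update f i ((lp b e l (f .T)).2.1.map .inl)) .T
          (lp b e l (f .T)).1 .T) = (lp b e l (f .T)).1 := Function.update_self _ _ _
    have e2 : (Function.update (Function.update f i ((lp b e l (f .T)).2.1.map .inl)) .T
          (lp b e l (f .T)).1 i) = (lp b e l (f .T)).2.1.map .inl := by
      rw [Function.update_of_ne hi, Function.update_self]
    simp only [e1, e2, xfer_all] at h1
    rw [lp_list, hT, List.reverse_nil, List.nil_append] at h1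
    have e5 : ∀ (m₁ m₂ m₃ : List (DG G)),
        Function.update (Function.update (Function.update (Function.update f i m₁) DN.T m₂)
          DN.T []) i m₃ = Function.update f i m₃ := by
      intro m₁ m₂ m₃
      funext k
      by_cases hk : k = i
      · subst hk
        rw [Function.update_self, Function.update_self]
      · rw [Function.update_of_ne hk, Function.update_of_ne hk]
        by_cases hk' : k = DN.T
        · subst hk'
          rw [Function.update_self, hT]
        · rw [Function.update_of_ne hk', Function.update_of_ne hk', Function.update_of_ne hk]
    rw [e5] at h1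
    rw [hT]
    refine h1.mono le_rfl ?_
    have := (lp_length b e l ([] : List (DG G))).2
    simp only [List.length_nil] at this
    omega
  constructor
  · intro b i hi hL
    change f i = l.map .inl at hL
    have hls : l.length ≤ s := by
      have := hD i
      change (f i).length ≤ s at this
      rw [hL] at this
      simpa using this
    have h1 := loop (x := x) (s := s) (c := c) b [] (by simp) i hi (β := Bool) (fun o => o)
      (pureR (.inr true)) (by
        intro f p hd hf _
        have e : Function.update f i (([] : List Bool).map .inl) = f := by
          rw [List.map_nil, ← hf, Function.update_eq_self]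
        rw [e]
        exact (runs_pure _ hd).mono le_rfl (by omega)) _ rfl l f p hD hL (by
        rw [hT]
        simp only [List.length_nil]
        omega)
    have h2 := back b [] i hi h1.le_end (by simp only [List.length_nil]; omega)
    have h3 := runs_pure (A := DA) (x := x) (c := c) (cstep b l).2 h2.le_end
    have h4 := runs_bind h2 (f := fun _ => pureR (cstep b l).2) h3
    have e6 : (if (cstep b l).2 then (cstep b l).1 ++ [] else (cstep b l).1) = (cstep b l).1 := by
      simp
    rw [e6] at h4
    rw [lp_flag] at h1
    have h5 := runs_bind h1 (f := fun fl => (xferR (fun _ => false) .T i).bind fun _ => pureR fl) h4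
    exact h5.mono le_rfl (by omega)
  · intro hL hls
    change f .N = l.map .inl at hL
    have h1 := loop (x := x) (s := s) (c := c) true [true] (by simp) .N (by decide) (β := Unit)
      (fun _ => ())
      ((push .N (.inl true)).bind fun _ => pureR (.inr ())) (by
        intro f p hd hf hs1
        have h := runs_push (A := DA) (x := x) (c := c) .N (.inl true : DG G) hd (by
          show (f .N).length + 1 ≤ s
          rw [hf]
          simpa using hs1)
        change Runs x (push .N (.inl true)) s 1 ⟨p, f⟩ c ()
          ⟨p, Function.update f .N (.inl true :: f .N)⟩ c at h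
        rw [hf] at h
        have h' := runs_bind h (f := fun _ => pureR (Sum.inr () : Unit ⊕ Unit))
          (runs_pure (Sum.inr () : Unit ⊕ Unit) h.le_end)
        exact h'.mono le_rfl (by omega)) _ rfl l f p hD hL (by
        rw [hT]
        simp only [List.length_nil, List.length_cons]
        omega)
    have h2 := back true [true] .N (by decide) h1.le_end (by
      simp only [List.length_cons, List.length_nil]
      omega)
    have h5 := runs_bind h1 (f := fun _ => xferR (fun _ => false) .T .N) h2
    exact h5.mono le_rfl (by omega)

end Pool.Agent.Lib.MP_9dcf40_lc
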