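import Pool.Agent.Lib.MP_9dcf40_lc.SpecD

/-!
# Binary counters on lists
-/

namespace Pool.Agent.Lib.MP_9dcf40_lc

namespace DCountAux

theorem length_cstep (b : Bool) (l : List Bool) : (cstep b l).1.length = l.length := by
  induction l with
  | nil => rfl
  | cons a l ih =>
    unfold cstep
    split_ifs
    · simp only [List.length_cons, ih]
    · simp only [List.length_cons]

theorem val_lt (l : List Bool) : val l < 2 ^ l.length := by
  induction l with
  | nil => simp [val]
  | cons a l ih =>
    rw [val, List.length_cons, pow_succ]
    split_ifs <;> omega

theorem val_true (k : ℕ) : val (List.replicate k true) + 1 = 2 ^ k := by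
  induction k with
  | zero => rfl
  | succ k ih =>
    rw [List.replicate_succ, val, pow_succ, if_pos rfl]
    omega

theorem val_false (k : ℕ) : val (List.replicate k false) = 0 := by
  induction k with
  | zero => rfl
  | succ k ih =>
    rw [List.replicate_succ, val, ih]
    rfl

theorem overflow (b : Bool) (l : List Bool) (h : (cstep b l).2 = true) :
    l = List.replicate l.length b ∧ (cstep b l).1 = List.replicate l.length (!b) := by
  induction l with
  | nil => exact ⟨rfl, rfl⟩
  | cons a l ih =>
    unfold cstep at h ⊢
    split_ifs at h ⊢ with hab
    · obtain ⟨h1, h2⟩ := ih h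
      refine ⟨?_, ?_⟩
      · rw [List.length_cons, List.replicate_succ, ← h1, hab]
      · rw [List.length_cons, List.replicate_succ, ← h2]

theorem inc (l : List Bool) (h : (cstep true l).2 = false) :
    val (cstep true l).1 = val l + 1 := by
  induction l with
  | nil => simp [cstep] at h
  | cons a l ih =>
    unfold cstep at h ⊢
    split_ifs at h ⊢ with hab
    · have h1 := ih h
      subst hab
      simp only [val, h1]
      simp
      omega
    · have ha : a = false := by simpa using hab
      subst ha
      simp only [val]
      simp
      omega

theorem dec (l : List Bool) (h : (cstep false l).2 = false) :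
    val (cstep false l).1 + 1 = val l := by
  induction l with
  | nil => simp [cstep] at h
  | cons a l ih =>
    unfold cstep at h ⊢
    split_ifs at h ⊢ with hab
    · have h1 := ih h
      subst hab
      simp only [val]
      simp
      omega
    · have ha : a = true := by simpa using hab
      subst ha
      simp only [val]
      simp
      omega

theorem cstep_replicate (b : Bool) (k : ℕ) :
    cstep b (List.replicate k b) = (List.replicate k (!b), true) := by
  induction k with
  | zero => rfl
  | succ k ih =>
    rw [List.replicate_succ, cstep, if_pos rfl, ih]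
    rfl

theorem val_append (l : List Bool) : val (l ++ [true]) = val l + 2 ^ l.length := by
  induction l with
  | nil => rfl
  | cons a l ih =>
    rw [List.cons_append, val, val, ih, List.length_cons, pow_succ]
    omega

theorem cinc_inv (l : List Bool) (h : 2 ^ l.length ≤ 2 * val l ∨ l = []) :
    val (cinc l) = val l + 1 ∧ 2 ^ (cinc l).length ≤ 2 * val (cinc l) := by
  unfold cinc
  split_ifs with hc
  · obtain ⟨h1, h2⟩ := overflow true l hc
    have h3 : val l + 1 = 2 ^ l.length := by
      have := val_true l.length
      rw [← h1] at this
      exact this
    rw [h2, val_append, List.length_append, List.length_replicate, Bool.not_true, val_false]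
    refine ⟨by omega, ?_⟩
    rw [List.length_singleton, pow_succ]
    omega
  · have hc' : (cstep true l).2 = false := by simpa using hc
    rcases h with h | h
    · rw [inc l hc', length_cstep]
      exact ⟨rfl, by omega⟩
    · subst h
      simp [cstep] at hc'

theorem iterate (n : ℕ) : val (cinc^[n] []) = n ∧
    (2 ^ (cinc^[n] []).length ≤ 2 * val (cinc^[n] []) ∨ cinc^[n] [] = []) := by
  induction n with
  | zero => exact ⟨rfl, Or.inr rfl⟩
  | succ n ih =>
    rw [Function.iterate_succ_apply']
    obtain ⟨h1, h2⟩ := cinc_inv _ ih.2
    exact ⟨by rw [h1, ih.1], Or.inl h2⟩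

theorem size_eq (n : ℕ) : (cinc^[n] []).length = Nat.size n := by
  obtain ⟨h1, h2⟩ := iterate n
  have h3 := val_lt (cinc^[n] [])
  rw [h1] at h2 h3
  refine le_antisymm ?_ (Nat.size_le.2 h3)
  rcases h2 with h2 | h2
  · by_contra hcon
    push Not at hcon
    have h4 : n < 2 ^ n.size := Nat.lt_size_self n
    have h5 : 2 ^ (n.size + 1) ≤ 2 ^ (cinc^[n] []).length := Nat.pow_le_pow_right (by norm_num) hcon
    rw [pow_succ] at h5
    omega
  · rw [h2]
    exact Nat.zero_le _

end DCountAux

open DCountAux in
theorem d_count : StCount :=
  ⟨length_cstep, val_lt, val_true, val_false, overflow true, inc, overflow false, dec,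
    cstep_replicate true, cstep_replicate false, size_eq⟩

end Pool.Agent.Lib.MP_9dcf40_lc
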