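import Pool.Agent.Lib.MP_9dcf40_lc.SpecD

/-!
# The virtual input head (`StHead`)
-/

set_option autoImplicit false

namespace Pool.Agent.Lib.MP_9dcf40_lc

open Rout

namespace DHead

section Gen

variable {A Γ ι β γ : Type} [DecidableEq ι]

/-- `Runs` with some time bound, the choices are not used. -/
def RE (x : List A) (R : Rout A Γ ι β) (s : ℕ) (d : Data Γ ι) (c : Str) (b : β)
    (d' : Data Γ ι) : Prop := ∃ T, Runs x R s T d c b d' c

theorem RE.bind [Finite β] {x : List A} {p : Rout A Γ ι β} {f : β → Rout A Γ ι γ} {s : ℕ}
    {d d₁ d' : Data Γ ι} {c : Str} {b : β} {g : γ} (h : RE x p s d c b d₁)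
    (h' : RE x (f b) s d₁ c g d') : RE x (p.bind f) s d c g d' := by
  obtain ⟨T, h⟩ := h
  obtain ⟨T', h'⟩ := h'
  exact ⟨T + T', runs_bind h h'⟩

theorem RE.pure {x : List A} {s : ℕ} {d : Data Γ ι} {c : Str} (b : β) (hd : d.le s) :
    RE x (Rout.pureR b) s d c b d := ⟨0, runs_pure b hd⟩

theorem RE.read {x : List A} {s : ℕ} {d : Data Γ ι} {c : Str} {a : InSym A} (hd : d.le s)
    (ha : inSym x d.pos = a) : RE x Rout.read s d c a d := by
  subst ha
  exact ⟨1, runs_read hd⟩

theorem RE.move {x : List A} {s : ℕ} {d : Data Γ ι} {c : Str} {p : ℕ} (dir : Dir) (hd : d.le s)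
    (hp : movePos x.length dir d.pos = p) : RE x (Rout.move dir) s d c () ⟨p, d.st⟩ := by
  subst hp
  exact ⟨1, runs_move dir hd⟩

theorem RE.le_end {x : List A} {R : Rout A Γ ι β} {s : ℕ} {d d' : Data Γ ι} {c : Str} {b : β}
    (h : RE x R s d c b d') : d'.le s := by
  obtain ⟨T, h⟩ := h
  exact h.le_end

theorem inSym_letter {x : List A} {p : ℕ} {a : A} (h : x[p]? = some a) :
    inSym x (p + 1) = .letter a := by
  simp [inSym, h]

theorem inSym_right {x : List A} {p : ℕ} (h : x.length ≤ p) :
    inSym x (p + 1) = .right := by
  have : x[p]? = none := List.getElem?_eq_none h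
  simp [inSym, this]

end Gen

theorem vword_len (x : List DA) (m : ℕ) (f : List DA) :
    (vword x m f).length = x.length + 2 ^ m + f.length := by
  simp [vword, pairL, padL]
  omega

theorem vword_x {x : List DA} {m : ℕ} {f : List DA} {i : ℕ} {a : DA} (h : x[i]? = some a) :
    (vword x m f)[i]? = some (.inl (some a)) := by
  have hi : i < x.length := (List.getElem?_eq_some_iff.1 h).1
  unfold vword pairL padL
  rw [List.getElem?_append_left (by
      simp only [List.length_map, List.length_append, List.length_replicate]
      exact Nat.lt_of_lt_of_le hi (Nat.le_add_right _ _)), List.getElem?_map,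
    List.getElem?_append_left (by simpa using hi), List.getElem?_map, h]
  rfl

theorem vword_pad {x : List DA} {m : ℕ} {f : List DA} {j : ℕ} (h : j < 2 ^ m) :
    (vword x m f)[x.length + j]? = some (.inl none) := by
  unfold vword pairL padL
  rw [List.getElem?_append_left (by simp; omega), List.getElem?_map,
    List.getElem?_append_right (by simp)]
  simp [h]

theorem vword_adv {x : List DA} {m : ℕ} {f : List DA} {k : ℕ} {a : DA} (h : f[k]? = some a) :
    (vword x m f)[x.length + 2 ^ m + k]? = some (.inr (bitOf a)) := by
  unfold vword pairL padL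
  rw [List.getElem?_append_right (by simp)]
  simp [h]

theorem le_upd {G : Type} {D : Data (DG G) DN} {s : ℕ} {l l' : List Bool} (hD : D.le s)
    (hP : D.st .P = l.map .inl) (hl : l'.length = l.length) (p : ℕ) :
    Data.le ⟨p, Function.update D.st .P (l'.map .inl)⟩ s := by
  intro j
  by_cases hj : j = .P
  · subst hj
    have h1 := hD .P
    rw [hP, List.length_map] at h1
    simpa [hl] using h1
  · show (Function.update D.st .P (l'.map .inl) j).length ≤ s
    rw [Function.update_of_ne hj]
    exact hD j

end DHead

open DHead in
theorem d_head (hC : StCount) (hN : StCnt) (hP : StPos) : StHead := by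
  obtain ⟨c1, c2, c3, c4, c5, c6, c7, c8, c9, c10, c11⟩ := hC
  intro G _ _ x f₁ f₂ f₃ m rest hF s D c μ l vp hD hT hDP hrep
  obtain ⟨hxeq, hn1, hn2, hn3⟩ := hF
  set R := List.replicate m DA.one ++ DA.hash :: rest with hR
  have hx1 : x.drop (f₁.length + 1) = f₂ ++ .hash :: (f₃ ++ .hash :: R) := by
    rw [hxeq, show f₁ ++ DA.hash :: (f₂ ++ DA.hash :: (f₃ ++ DA.hash :: R)) =
      (f₁ ++ [DA.hash]) ++ (f₂ ++ DA.hash :: (f₃ ++ DA.hash :: R)) by simp]
    exact List.drop_left' (by simp)
  have hx2 : x.drop (f₁.length + f₂.length + 2) = f₃ ++ .hash :: R := by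
    rw [hxeq, show f₁ ++ DA.hash :: (f₂ ++ DA.hash :: (f₃ ++ DA.hash :: R)) =
      (f₁ ++ [DA.hash] ++ f₂ ++ [DA.hash]) ++ (f₃ ++ DA.hash :: R) by simp]
    exact List.drop_left' (by simp; omega)
  have hlen : f₁.length + f₂.length + f₃.length + 3 ≤ x.length := by
    rw [hxeq]
    simp
    omega
  have hxh : x[f₁.length + f₂.length + 1]? = some .hash := by
    have h1 : x[f₁.length + 1 + f₂.length]? = (x.drop (f₁.length + 1))[f₂.length]? := by
      rw [List.getElem?_drop]
    rw [show f₁.length + f₂.length + 1 = f₁.length + 1 + f₂.length by ring, h1, hx1,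
      List.getElem?_append_right le_rfl]
    simp
  have hxk : ∀ k a, f₃[k]? = some a → x[f₁.length + f₂.length + 2 + k]? = some a := by
    intro k a h
    have hk : k < f₃.length := (List.getElem?_eq_some_iff.1 h).1
    rw [← List.getElem?_drop, hx2, List.getElem?_append_left hk, h]
  have hxe : x[f₁.length + f₂.length + 2 + f₃.length]? = some .hash := by
    rw [← List.getElem?_drop, hx2, List.getElem?_append_right le_rfl]
    simp
  have hfne : ∀ (k : ℕ) (a : DA), f₃[k]? = some a → a ≠ DA.hash := by
    intro k a h h'
    subst h'
    exact hn3 (List.mem_of_getElem? h)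
  have hupd : Function.update D.st .P (l.map .inl) = D.st := by
    rw [← hDP]
    exact Function.update_eq_self _ _
  have hDp : ∀ p : ℕ, Data.le (⟨p, D.st⟩ : Data (DG G) DN) s := fun p => hD
  have hcnt : ∀ (b : Bool) (p : ℕ), RE x (cntR (G := G) b .P) s ⟨p, D.st⟩ c (cstep b l).2
      ⟨p, Function.update D.st .P ((cstep b l).1.map .inl)⟩ := by
    intro b p
    exact ⟨_, (hN G x s ⟨p, D.st⟩ c l (hDp p) hT).1 b .P (by decide) hDP⟩
  have hvl := vword_len x m f₃
  have h2m : 1 ≤ 2 ^ m := Nat.one_le_two_pow
  refine ⟨?_, ?_⟩
  · -- the virtual symbol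
    cases μ with
    | mx =>
      obtain ⟨hp, hv, -⟩ := hrep
      subst hv
      refine RE.bind (RE.read hD rfl) ?_
      rcases Nat.eq_zero_or_pos D.pos with h0 | h0
      · rw [h0]
        exact RE.pure _ hD
      · obtain ⟨p, hpp⟩ : ∃ p, D.pos = p + 1 := ⟨D.pos - 1, by omega⟩
        have hlt : p < x.length := by omega
        have hxp : x[p]? = some x[p] := List.getElem?_eq_getElem hlt
        rw [hpp, inSym_letter hxp, inSym_letter (vword_x hxp)]
        exact RE.pure _ hD
    | mp =>
      obtain ⟨hp, hl, hv⟩ := hrep
      have h1 : val l < 2 ^ m := hl ▸ c2 l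
      rw [hv, show x.length + 1 + val l = x.length + val l + 1 by ring,
        inSym_letter (vword_pad h1)]
      exact RE.pure _ hD
    | mv =>
      obtain ⟨hl, k, hk, hp, hv⟩ := hrep
      rcases Nat.lt_or_ge k f₃.length with hk' | hk'
      · have hfk : f₃[k]? = some f₃[k] := List.getElem?_eq_getElem hk'
        have h1 : inSym x D.pos = .letter f₃[k] := by
          rw [hp, show f₁.length + f₂.length + 3 + k = f₁.length + f₂.length + 2 + k + 1 by ring]
          exact inSym_letter (hxk _ _ hfk)
        refine RE.bind (RE.read hD h1) ?_
        rw [hv, show x.length + 2 ^ m + 1 + k = x.length + 2 ^ m + k + 1 by ring,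
          inSym_letter (vword_adv hfk)]
        show RE x (pureR (if f₃[k] = DA.hash then (InSym.right : InSym VB)
          else InSym.letter (.inr (bitOf f₃[k])))) s D c _ D
        rw [if_neg (hfne _ _ hfk)]
        exact RE.pure _ hD
      · have hke : k = f₃.length := le_antisymm hk hk'
        have h1 : inSym x D.pos = .letter .hash := by
          rw [hp, hke, show f₁.length + f₂.length + 3 + f₃.length =
            f₁.length + f₂.length + 2 + f₃.length + 1 by ring]
          exact inSym_letter hxe
        refine RE.bind (RE.read hD h1) ?_
        rw [hv, show x.length + 2 ^ m + 1 + k = x.length + 2 ^ m + k + 1 by ring,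
          inSym_right (by rw [hvl, hke])]
        exact RE.pure _ hD
  · -- the moves
    suffices h : ∀ dir : Dir, ∃ (μ' : Mode) (p' : ℕ) (l' : List Bool),
        RE x (headR (G := G) μ dir) s D c μ' ⟨p', Function.update D.st .P (l'.map .inl)⟩ ∧
        HRep x f₁ f₂ f₃ m μ' p' l' (movePos (vword x m f₃).length dir vp) by
      intro dir
      obtain ⟨μ', p', l', ⟨T, h1⟩, h2⟩ := h dir
      exact ⟨T, μ', p', l', h1, h2⟩
    intro dir
    rw [hvl]
    have e0 : ∀ p : ℕ, (⟨p, Function.update D.st .P (l.map .inl)⟩ : Data (DG G) DN) =
        ⟨p, D.st⟩ := fun p => by rw [hupd]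
    cases dir with
    | stay =>
      refine ⟨μ, D.pos, l, ?_, hrep⟩
      rw [e0]
      exact RE.pure _ hD
    | right =>
      cases μ with
      | mx =>
        obtain ⟨hp, hv, hl⟩ := hrep
        subst hv
        by_cases hpn : D.pos = x.length
        · refine ⟨.mp, x.length + 1, (cstep true l).1, ?_, rfl, ?_, ?_⟩
          · refine RE.bind (RE.move (p := x.length + 1) .right hD ?_) ?_
            · rw [hpn]; exact min_self _
            refine RE.bind (RE.read (a := .right) (hDp _) (inSym_right le_rfl)) ?_
            rw [if_pos rfl]
            refine RE.bind (hcnt true _) ?_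
            exact RE.pure _ (hcnt true _).le_end
          · rw [c1, hl, List.length_replicate]
          · rw [hl, c9]
            show min (D.pos + 1) _ = _
            rw [c4]
            omega
        · have hlt : D.pos < x.length := by omega
          refine ⟨.mx, D.pos + 1, l, ?_, ?_, ?_, hl⟩
          · rw [e0]
            refine RE.bind (RE.move (p := D.pos + 1) .right hD ?_) ?_
            · show min (D.pos + 1) _ = _
              omega
            have hxp : x[D.pos]? = some x[D.pos] := List.getElem?_eq_getElem hlt
            refine RE.bind (RE.read (hDp _) (inSym_letter hxp)) ?_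
            rw [if_neg (by simp)]
            exact RE.pure _ (hDp _)
          · omega
          · show min (D.pos + 1) _ = _
            omega
      | mp =>
        obtain ⟨hp, hl, hv⟩ := hrep
        have hDe : D = ⟨D.pos, D.st⟩ := rfl
        cases ho : (cstep true l).2 with
        | true =>
          obtain ⟨h5, h6⟩ := c5 l ho
          have hval : val l + 1 = 2 ^ m := by
            rw [h5, c3, hl]
          refine ⟨.mv, f₁.length + f₂.length + 3, (cstep true l).1, ?_, ?_, 0, Nat.zero_le _, rfl,
            ?_⟩
          · refine RE.bind (hcnt true D.pos) ?_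
            rw [ho, if_pos rfl]
            have hle := (hcnt true 0).le_end
            have hle' : ∀ p, Data.le (⟨p, Function.update D.st .P ((cstep true l).1.map .inl)⟩ :
                Data (DG G) DN) s := fun p => hle
            refine RE.bind (b := ()) (d₁ := ⟨0, _⟩)
              (hP G x s _ c (hle' D.pos) (by show D.pos ≤ _; omega)).1 ?_
            refine RE.bind ((hP G x s _ c (hle' 0) (Nat.zero_le _)).2.2.1 f₁ _
              (Nat.zero_le _) (by rw [List.drop_zero]; exact hxeq) hn1) ?_
            refine RE.bind ((hP G x s _ c (hle' (0 + f₁.length + 1))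
              (by show 0 + f₁.length + 1 ≤ _; omega)).2.2.1 f₂ (f₃ ++ .hash :: R)
              (by show 0 + f₁.length + 1 ≤ _; omega)
              (by show x.drop (0 + f₁.length + 1) = _
                  rw [Nat.zero_add]; exact hx1) hn2) ?_
            refine RE.bind (RE.move (p := f₁.length + f₂.length + 3) .right (hle' _) ?_) ?_
            · show min (0 + f₁.length + 1 + f₂.length + 1 + 1) _ = _
              omega
            exact RE.pure _ (hle' _)
          · rw [h6, hl]
          · rw [hv]
            show min (x.length + 1 + val l + 1) _ = _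
            omega
        | false =>
          have h6 := c6 l ho
          have hlt := c2 (cstep true l).1
          rw [c1, hl] at hlt
          refine ⟨.mp, D.pos, (cstep true l).1, ?_, hp, ?_, ?_⟩
          · refine RE.bind (hcnt true D.pos) ?_
            rw [ho, if_neg (by simp)]
            exact RE.pure _ (hcnt true _).le_end
          · rw [c1, hl]
          · rw [hv, h6]
            show min (x.length + 1 + val l + 1) _ = _
            omega
      | mv =>
        obtain ⟨hl, k, hk, hp, hv⟩ := hrep
        rcases Nat.lt_or_ge k f₃.length with hk' | hk'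
        · have hfk : f₃[k]? = some f₃[k] := List.getElem?_eq_getElem hk'
          have h1 : inSym x D.pos = .letter f₃[k] := by
            rw [hp, show f₁.length + f₂.length + 3 + k = f₁.length + f₂.length + 2 + k + 1 by ring]
            exact inSym_letter (hxk _ _ hfk)
          refine ⟨.mv, D.pos + 1, l, ?_, hl, k + 1, hk', by omega, ?_⟩
          · rw [e0]
            refine RE.bind (RE.read hD h1) ?_
            rw [if_neg (by simpa using hfne _ _ hfk)]
            refine RE.bind (RE.move (p := D.pos + 1) .right hD ?_) ?_
            · show min (D.pos + 1) _ = _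
              omega
            exact RE.pure _ (hDp _)
          · rw [hv]
            show min (x.length + 2 ^ m + 1 + k + 1) _ = _
            omega
        · have hke : k = f₃.length := le_antisymm hk hk'
          have h1 : inSym x D.pos = .letter .hash := by
            rw [hp, hke, show f₁.length + f₂.length + 3 + f₃.length =
              f₁.length + f₂.length + 2 + f₃.length + 1 by ring]
            exact inSym_letter hxe
          refine ⟨.mv, D.pos, l, ?_, hl, k, hk, hp, ?_⟩
          · rw [e0]
            refine RE.bind (RE.read hD h1) ?_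
            rw [if_pos rfl]
            exact RE.pure _ hD
          · rw [hv]
            show min (x.length + 2 ^ m + 1 + k + 1) _ = _
            omega
    | left =>
      cases μ with
      | mx =>
        obtain ⟨hp, hv, hl⟩ := hrep
        subst hv
        refine ⟨.mx, D.pos - 1, l, ?_, ?_, rfl, hl⟩
        · rw [e0]
          exact RE.bind (RE.move .left hD rfl) (RE.pure _ (hDp _))
        · omega
      | mp =>
        obtain ⟨hp, hl, hv⟩ := hrep
        cases ho : (cstep false l).2 with
        | true =>
          obtain ⟨h5, h6⟩ := c7 l ho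
          have hval : val l = 0 := by
            rw [h5, c4]
          have hle := (hcnt false 0).le_end
          have hle' : ∀ p, Data.le (⟨p, Function.update D.st .P ((cstep false l).1.map .inl)⟩ :
              Data (DG G) DN) s := fun p => hle
          refine ⟨.mx, x.length, (cstep false l).1, ?_, le_rfl, ?_, ?_⟩
          · refine RE.bind (hcnt false D.pos) ?_
            rw [ho, if_pos rfl]
            refine RE.bind (RE.move (p := x.length) .left (hle' _) ?_) (RE.pure _ (hle' _))
            show D.pos - 1 = _
            omega
          · rw [hv, hval]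
            show x.length + 1 + 0 - 1 = _
            omega
          · rw [h6, hl]
        | false =>
          have h8 := c8 l ho
          refine ⟨.mp, D.pos, (cstep false l).1, ?_, hp, ?_, ?_⟩
          · refine RE.bind (hcnt false D.pos) ?_
            rw [ho, if_neg (by simp)]
            exact RE.pure _ (hcnt false _).le_end
          · rw [c1, hl]
          · rw [hv]
            show x.length + 1 + val l - 1 = _
            omega
      | mv =>
        obtain ⟨hl, k, hk, hp, hv⟩ := hrep
        rcases Nat.eq_zero_or_pos k with hk0 | hk0
        · have h1 : inSym x (D.pos - 1) = .letter .hash := by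
            rw [hp, hk0, show f₁.length + f₂.length + 3 + 0 - 1 =
              f₁.length + f₂.length + 1 + 1 by omega]
            exact inSym_letter hxh
          have hle := (hcnt false 0).le_end
          have hle' : ∀ p, Data.le (⟨p, Function.update D.st .P ((cstep false l).1.map .inl)⟩ :
              Data (DG G) DN) s := fun p => hle
          refine ⟨.mp, x.length + 1, (cstep false l).1, ?_, rfl, ?_, ?_⟩
          · refine RE.bind (RE.move (p := D.pos - 1) .left hD rfl) ?_
            refine RE.bind (RE.read (hDp _) h1) ?_
            rw [if_pos rfl]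
            refine RE.bind (hcnt false _) ?_
            refine RE.bind (b := ()) (d₁ := ⟨x.length + 1, _⟩)
              (hP G x s _ c (hle' (D.pos - 1)) (by show D.pos - 1 ≤ _; omega)).2.1 ?_
            exact RE.pure _ (hle' _)
          · rw [c1, hl, List.length_replicate]
          · have h3 := c3 m
            rw [hv, hl, c10]
            show x.length + 2 ^ m + 1 + k - 1 = x.length + 1 + val (List.replicate m true)
            omega
        · obtain ⟨j, rfl⟩ : ∃ j, k = j + 1 := ⟨k - 1, by omega⟩
          have hj : j < f₃.length := by omega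
          have hfk : f₃[j]? = some f₃[j] := List.getElem?_eq_getElem hj
          have h1 : inSym x (D.pos - 1) = .letter f₃[j] := by
            rw [hp, show f₁.length + f₂.length + 3 + (j + 1) - 1 =
              f₁.length + f₂.length + 2 + j + 1 by omega]
            exact inSym_letter (hxk _ _ hfk)
          refine ⟨.mv, D.pos - 1, l, ?_, hl, j, by omega, by omega, ?_⟩
          · rw [e0]
            refine RE.bind (RE.move (p := D.pos - 1) .left hD rfl) ?_
            refine RE.bind (RE.read (hDp _) h1) ?_
            rw [if_neg (by simpa using hfne _ _ hfk)]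
            exact RE.pure _ (hDp _)
          · rw [hv]
            show x.length + 2 ^ m + 1 + (j + 1) - 1 = _
            omega

end Pool.Agent.Lib.MP_9dcf40_lc
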