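import Pool.Agent.Lib.MP_9dcf40_lc.SpecD

/-!
# The format check of the diagonal machine
-/

set_option autoImplicit false
set_option linter.unusedSectionVars false

namespace Pool.Agent.Lib.MP_9dcf40_lc

open Rout

namespace DParseAux

theorem inSym_drop {x : List DA} {p : ℕ} {a : DA} {w : List DA} (h : x.drop p = a :: w) :
    inSym x (p + 1) = .letter a := by
  have h1 : x[p]? = some a := by
    have h2 : (x.drop p)[0]? = x[p + 0]? := List.getElem?_drop
    rw [h, Nat.add_zero] at h2
    rw [← h2]
    rfl
  simp only [inSym, h1]

theorem inSym_drop_nil {x : List DA} {p : ℕ} (h : x.drop p = []) :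
    inSym x (p + 1) = .right := by
  have h1 : x[p]? = none := by
    rw [List.getElem?_eq_none_iff]
    exact List.drop_eq_nil_iff.1 h
  simp only [inSym, h1]

theorem drop_succ {x : List DA} {p : ℕ} {a : DA} {w : List DA} (h : x.drop p = a :: w) :
    x.drop (p + 1) = w := by
  rw [← List.drop_drop, h]
  rfl

theorem lt_of_drop {x : List DA} {p : ℕ} {a : DA} {w : List DA} (h : x.drop p = a :: w) :
    p < x.length := by
  by_contra hcon
  rw [List.drop_eq_nil_iff.2 (by omega)] at h
  exact absurd h (by simp)

theorem movePos_right {n p : ℕ} (h : p ≤ n) : movePos n .right p = p + 1 := by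
  show min (p + 1) (n + 1) = p + 1
  omega

section

variable {G : Type} [Finite G]

/-- body of `fieldR` -/
def fbody : DR G (Unit ⊕ Bool) :=
  (move .right).bind fun _ => Rout.read.bind fun a =>
    if a = .letter .one then
      (pop .R).bind fun o =>
        match o with
        | none => pureR (.inr false)
        | some _ => (push .P (.inl true)).bind fun _ => pureR (.inl ())
    else if a = .letter .hash then pureR (.inr true) else pureR (.inr false)

theorem fieldR_eq : (fieldR : DR G Bool) = iter (τ := Unit) (fun _ => fbody) () := rfl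

theorem le_update {D : Data (DG G) DN} {s : ℕ} (hD : D.le s) (p : ℕ) (i : DN) (l : List (DG G))
    (hl : l.length ≤ s) : (⟨p, Function.update D.st i l⟩ : Data (DG G) DN).le s := by
  intro j
  show (Function.update D.st i l j).length ≤ s
  by_cases hj : j = i
  · subst hj; rw [Function.update_self]; exact hl
  · rw [Function.update_of_ne hj]; exact hD j

theorem le_pos {D : Data (DG G) DN} {s : ℕ} (hD : D.le s) (p : ℕ) :
    (⟨p, D.st⟩ : Data (DG G) DN).le s := hD

/-- reading another letter than `one` -/
theorem fbody_other {x : List DA} {s : ℕ} {D : Data (DG G) DN} {c : Str} (hD : D.le s)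
    (hp : D.pos ≤ x.length) {b : Bool} (h1 : inSym x (D.pos + 1) ≠ .letter .one)
    (h2 : b = decide (inSym x (D.pos + 1) = .letter .hash)) :
    Runs x (fbody (G := G)) s 2 D c (.inr b) ⟨D.pos + 1, D.st⟩ c := by
  have r1 := runs_move (x := x) (s := s) (d := D) (c := c) .right hD
  rw [movePos_right hp] at r1
  have r2 := runs_read (x := x) (s := s) (d := (⟨D.pos + 1, D.st⟩ : Data (DG G) DN)) (c := c) hD
  refine (runs_bind (T' := 1) r1 (runs_bind (T' := 0) r2 ?_))
  have e : (⟨D.pos + 1, D.st⟩ : Data (DG G) DN).pos = D.pos + 1 := rfl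
  rw [e, if_neg h1]
  by_cases h3 : inSym x (D.pos + 1) = .letter .hash
  · rw [if_pos h3, h2, decide_eq_true h3]
    exact runs_pure _ hD
  · rw [if_neg h3, h2, decide_eq_false h3]
    exact runs_pure _ hD

/-- reading `one` with nonempty `R` -/
theorem fbody_one {x : List DA} {s : ℕ} {D : Data (DG G) DN} {c : Str} (hD : D.le s)
    (hp : D.pos ≤ x.length) (h1 : inSym x (D.pos + 1) = .letter .one) {r : DG G} {R : List (DG G)}
    (hR : D.st .R = r :: R) (hP : (D.st .P).length + 1 ≤ s) :
    Runs x (fbody (G := G)) s 4 D c (.inl ()) ⟨D.pos + 1, Function.update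
      (Function.update D.st .R R) .P (.inl true :: D.st .P)⟩ c := by
  have r1 := runs_move (x := x) (s := s) (d := D) (c := c) .right hD
  rw [movePos_right hp] at r1
  have r2 := runs_read (x := x) (s := s) (d := (⟨D.pos + 1, D.st⟩ : Data (DG G) DN)) (c := c) hD
  refine (runs_bind (T' := 3) r1 (runs_bind (T' := 2) r2 ?_))
  have e : (⟨D.pos + 1, D.st⟩ : Data (DG G) DN).pos = D.pos + 1 := rfl
  rw [e, if_pos h1]
  have r3 := runs_pop (x := x) (s := s) (d := (⟨D.pos + 1, D.st⟩ : Data (DG G) DN)) (c := c)
    .R hD
  have e1 : (⟨D.pos + 1, D.st⟩ : Data (DG G) DN).st .R = r :: R := hR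
  rw [e1] at r3
  refine (runs_bind (T' := 1) r3 ?_)
  have hl : R.length ≤ s := by
    have := hD .R
    rw [hR, List.length_cons] at this
    omega
  have hD2 : (⟨D.pos + 1, Function.update D.st .R R⟩ : Data (DG G) DN).le s :=
    le_update hD _ _ _ hl
  have hP2 : ((⟨D.pos + 1, Function.update D.st .R R⟩ : Data (DG G) DN).st .P).length + 1 ≤ s := by
    show (Function.update D.st .R R .P).length + 1 ≤ s
    rw [Function.update_of_ne (by decide)]
    exact hP
  have r4 := runs_push (x := x) (s := s)
    (d := (⟨D.pos + 1, Function.update D.st .R R⟩ : Data (DG G) DN)) (c := c) .P (.inl true)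
    hD2 hP2
  have e2 : (⟨D.pos + 1, Function.update D.st .R R⟩ : Data (DG G) DN).st .P = D.st .P := by
    show Function.update D.st .R R .P = _
    rw [Function.update_of_ne (by decide)]
  rw [e2] at r4
  exact runs_bind (T' := 0) r4 (runs_pure _ r4.le_end)

/-- reading `one` with empty `R` -/
theorem fbody_fail {x : List DA} {s : ℕ} {D : Data (DG G) DN} {c : Str} (hD : D.le s)
    (hp : D.pos ≤ x.length) (h1 : inSym x (D.pos + 1) = .letter .one) (hR : D.st .R = []) :
    ∃ D', Runs x (fbody (G := G)) s 3 D c (.inr false) D' c := by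
  have r1 := runs_move (x := x) (s := s) (d := D) (c := c) .right hD
  rw [movePos_right hp] at r1
  have r2 := runs_read (x := x) (s := s) (d := (⟨D.pos + 1, D.st⟩ : Data (DG G) DN)) (c := c) hD
  refine ⟨⟨D.pos + 1, Function.update D.st .R []⟩,
    (runs_bind (T' := 2) r1 (runs_bind (T' := 1) r2 ?_))⟩
  have e : (⟨D.pos + 1, D.st⟩ : Data (DG G) DN).pos = D.pos + 1 := rfl
  rw [e, if_pos h1]
  have r3 := runs_pop (x := x) (s := s) (d := (⟨D.pos + 1, D.st⟩ : Data (DG G) DN)) (c := c)
    .R hD
  have e1 : (⟨D.pos + 1, D.st⟩ : Data (DG G) DN).st .R = [] := hR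
  rw [e1] at r3
  exact runs_bind (T' := 0) r3 (runs_pure _ r3.le_end)

theorem repl_head {m : ℕ} {a : DA} {w rest : List DA}
    (h : a :: w = List.replicate m DA.one ++ DA.hash :: rest) (ha : a = .one) :
    ∃ m', m = m' + 1 ∧ w = List.replicate m' DA.one ++ DA.hash :: rest := by
  cases m with
  | zero =>
    rw [List.replicate_zero, List.nil_append] at h
    rw [ha] at h
    simp at h
  | succ m =>
    refine ⟨m, rfl, ?_⟩
    rw [List.replicate_succ, List.cons_append] at h
    exact (List.cons.inj h).2

theorem repl_head_ne {m : ℕ} {a : DA} {w rest : List DA}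
    (h : a :: w = List.replicate m DA.one ++ DA.hash :: rest) (ha : a ≠ .one) :
    m = 0 ∧ a = .hash := by
  cases m with
  | zero =>
    rw [List.replicate_zero, List.nil_append] at h
    exact ⟨rfl, (List.cons.inj h).1⟩
  | succ m =>
    rw [List.replicate_succ, List.cons_append] at h
    exact absurd (List.cons.inj h).1 ha

theorem field_spec (x : List DA) (s : ℕ) (c : Str) : ∀ (w : List DA) (j k : ℕ)
    (D : Data (DG G) DN), D.le s → D.pos ≤ x.length → x.drop D.pos = w → j + k ≤ s →
    D.st .P = List.replicate j (.inl true) → D.st .R = List.replicate k (.inl false) →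
    (∀ m rest, w = List.replicate m DA.one ++ DA.hash :: rest → m ≤ k → ∃ T,
      Runs x (fieldR (G := G)) s T D c true
        ⟨D.pos + m + 1, Function.update (Function.update D.st .P
          (List.replicate (j + m) (.inl true))) .R (List.replicate (k - m) (.inl false))⟩ c) ∧
    ((¬ ∃ m rest, w = List.replicate m DA.one ++ DA.hash :: rest ∧ m ≤ k) →
      ∃ T D', Runs x (fieldR (G := G)) s T D c false D' c) := by
  intro w
  induction w with
  | nil =>
    intro j k D hD hp hw _ _ _
    constructor
    · intro m rest h
      exact absurd h (by simp)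
    · intro _
      have h1 : inSym x (D.pos + 1) = .right := inSym_drop_nil hw
      have r := fbody_other (c := c) (b := false) hD hp (by rw [h1]; simp) (by rw [h1]; simp)
      exact ⟨_, _, runs_iter_done (τ := Unit) (body := fun _ => fbody) r⟩
  | cons a w ih =>
    intro j k D hD hp hw hjk hP hR
    have h1 : inSym x (D.pos + 1) = .letter a := inSym_drop hw
    have hlt : D.pos < x.length := lt_of_drop hw
    by_cases ha : a = .one
    · have h1' : inSym x (D.pos + 1) = .letter .one := by rw [h1, ha]
      cases k with
      | zero =>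
        constructor
        · intro m rest h hm
          obtain ⟨m', hm', _⟩ := repl_head h ha
          omega
        · intro _
          obtain ⟨D', r⟩ := fbody_fail (c := c) hD hp h1' (by rw [hR]; rfl)
          exact ⟨_, _, runs_iter_done (τ := Unit) (body := fun _ => fbody) r⟩
      | succ k =>
        have hR' : D.st .R = .inl false :: List.replicate k (.inl false) := by
          rw [hR]; rfl
        have hPl : (D.st .P).length + 1 ≤ s := by
          rw [hP, List.length_replicate]; omega
        have r := fbody_one (c := c) hD hp h1' hR' hPl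
        have hD2 := r.le_end
        have hP2 : Function.update (Function.update D.st .R (List.replicate k (Sum.inl false)))
            .P (Sum.inl true :: D.st .P) .P = List.replicate (j + 1) (.inl true) := by
          rw [Function.update_self, hP]; rfl
        have hR2 : Function.update (Function.update D.st .R (List.replicate k (Sum.inl false)))
            .P (Sum.inl true :: D.st .P) .R = List.replicate k (.inl false) := by
          rw [Function.update_of_ne (by decide), Function.update_self]
        obtain ⟨i1, i2⟩ := ih (j + 1) k _ hD2 (by show D.pos + 1 ≤ x.length; omega)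
          (drop_succ hw) (by omega) hP2 hR2
        constructor
        · intro m rest h hm
          obtain ⟨m', hm', h'⟩ := repl_head h ha
          obtain ⟨T, r'⟩ := i1 m' rest h' (by omega)
          have r'' := runs_iter_step (τ := Unit) (body := fun _ => fbody) (t := ()) r r'
          refine ⟨4 + T + 1, ?_⟩
          refine Eq.subst (motive := fun z => Runs x (fieldR (G := G)) s (4 + T + 1) D c true z c)
            ?_ r''
          congr 1
          · show D.pos + 1 + m' + 1 = D.pos + m + 1
            omega
          · funext i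
            show Function.update (Function.update (Function.update (Function.update D.st .R
              (List.replicate k (Sum.inl false))) .P (Sum.inl true :: D.st .P)) .P
              (List.replicate (j + 1 + m') (.inl true))) .R
                (List.replicate (k - m') (.inl false)) i = _
            by_cases hi : i = .R
            · subst hi
              rw [Function.update_self, Function.update_self]
              congr 1
              omega
            · rw [Function.update_of_ne hi, Function.update_of_ne hi]
              by_cases hi2 : i = .P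
              · subst hi2
                rw [Function.update_self, Function.update_self]
                congr 1
                omega
              · rw [Function.update_of_ne hi2, Function.update_of_ne hi2,
                  Function.update_of_ne hi2, Function.update_of_ne hi]
        · intro hno
          have hno' : ¬ ∃ m rest, w = List.replicate m DA.one ++ DA.hash :: rest ∧ m ≤ k := by
            rintro ⟨m, rest, h, hm⟩
            refine hno ⟨m + 1, rest, ?_, by omega⟩
            rw [List.replicate_succ, List.cons_append, ← h, ha]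
          obtain ⟨T, D', r'⟩ := i2 hno'
          exact ⟨_, D', runs_iter_step (τ := Unit) (body := fun _ => fbody) (t := ()) r r'⟩
    · have h2 : inSym x (D.pos + 1) ≠ .letter .one := by
        rw [h1]
        intro h
        exact ha (InSym.letter.inj h)
      by_cases hh : a = .hash
      · have h3 : inSym x (D.pos + 1) = .letter .hash := by rw [h1, hh]
        have r := fbody_other (c := c) (b := true) hD hp h2 (by rw [h3]; simp)
        constructor
        · intro m rest h _
          obtain ⟨hm, _⟩ := repl_head_ne h ha
          subst hm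
          have r'' := runs_iter_done (τ := Unit) (body := fun _ => fbody) (t := ()) r
          refine ⟨2 + 1, ?_⟩
          refine Eq.subst (motive := fun z => Runs x (fieldR (G := G)) s (2 + 1) D c true z c)
            ?_ r''
          congr 1
          funext i
          by_cases hi : i = .R
          · subst hi
            rw [Function.update_self, hR]
            rfl
          · rw [Function.update_of_ne hi]
            by_cases hi2 : i = .P
            · subst hi2
              rw [Function.update_self, hP]
              rfl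
            · rw [Function.update_of_ne hi2]
        · intro hno
          refine absurd ⟨0, w, ?_, Nat.zero_le _⟩ hno
          rw [List.replicate_zero, List.nil_append, hh]
      · have h3 : inSym x (D.pos + 1) ≠ .letter .hash := by
          rw [h1]
          intro h
          exact hh (InSym.letter.inj h)
        have r := fbody_other (c := c) (b := false) hD hp h2 (by rw [decide_eq_false h3])
        constructor
        · intro m rest h _
          obtain ⟨_, h'⟩ := repl_head_ne h ha
          exact absurd h' hh
        · intro _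
          exact ⟨_, _, runs_iter_done (τ := Unit) (body := fun _ => fbody) r⟩

end

theorem drop_cut {x f r : List DA} {p : ℕ} (h : x.drop p = f ++ DA.hash :: r) :
    x.drop (p + f.length + 1) = r ∧ p + f.length + 1 ≤ x.length := by
  have h1 : x.drop (p + f.length) = DA.hash :: r := by
    rw [← List.drop_drop, h, List.drop_left]
  exact ⟨drop_succ h1, lt_of_drop h1⟩

end DParseAux

open DParseAux in
theorem d_parse (h : StPos) : StParse := by
  intro G _ x s k D c hD hk hpos hP hR
  obtain ⟨⟨T0, r0⟩, -, -, -⟩ := h G x s D c hD hpos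
  -- one `hashR` step
  have hash_ok : ∀ (p : ℕ) (f r : List DA), p ≤ x.length → x.drop p = f ++ .hash :: r →
      .hash ∉ f → ∃ T, Runs x (hashR (G := G)) s T ⟨p, D.st⟩ c true
        ⟨p + f.length + 1, D.st⟩ c := fun p f r hp hw hf =>
    (h G x s ⟨p, D.st⟩ c hD (le_trans hp (Nat.le_succ _))).2.2.1 f r hp hw hf
  have hash_no : ∀ p : ℕ, p ≤ x.length → .hash ∉ x.drop p → ∃ T D',
      Runs x (hashR (G := G)) s T ⟨p, D.st⟩ c false D' c := fun p hp hf => by
    obtain ⟨T, D', _, _, r⟩ :=
      (h G x s ⟨p, D.st⟩ c hD (le_trans hp (Nat.le_succ _))).2.2.2 hp hf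
    exact ⟨T, D', r⟩
  constructor
  · rintro f₁ f₂ f₃ m rest ⟨hx, hf₁, hf₂, hf₃⟩ hm
    have e0 : x.drop 0 = f₁ ++ .hash :: (f₂ ++ .hash :: (f₃ ++ .hash ::
      (List.replicate m .one ++ .hash :: rest))) := hx
    obtain ⟨T1, r1⟩ := hash_ok 0 f₁ _ (Nat.zero_le _) e0 hf₁
    obtain ⟨e1, p1⟩ := drop_cut e0
    obtain ⟨T2, r2⟩ := hash_ok _ f₂ _ p1 e1 hf₂
    obtain ⟨e2, p2⟩ := drop_cut e1
    obtain ⟨T3, r3⟩ := hash_ok _ f₃ _ p2 e2 hf₃
    obtain ⟨e3, p3⟩ := drop_cut e2
    obtain ⟨T4, r4⟩ := (field_spec x s c _ 0 k
      ⟨0 + f₁.length + 1 + f₂.length + 1 + f₃.length + 1, D.st⟩ hD p3 e3 (by omega) hP hR).1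
      m rest rfl hm
    obtain ⟨_, p4⟩ := drop_cut (f := List.replicate m .one) e3
    rw [List.length_replicate] at p4
    have p5 : 0 + f₁.length + 1 + f₂.length + 1 + f₃.length + 1 + m + 1 ≤ x.length + 1 :=
      le_trans p4 (Nat.le_succ _)
    rw [Nat.zero_add m] at r4
    exact ⟨_, _, p5, runs_bind r0 (runs_bind r1 (runs_bind r2 (runs_bind r3 r4)))⟩
  · intro hno
    by_cases m1 : DA.hash ∈ x
    · obtain ⟨f₁, w1, hx, hf₁⟩ := List.eq_append_cons_of_mem m1
      have e0 : x.drop 0 = f₁ ++ .hash :: w1 := hx
      obtain ⟨T1, r1⟩ := hash_ok 0 f₁ _ (Nat.zero_le _) e0 hf₁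
      obtain ⟨e1, p1⟩ := drop_cut e0
      by_cases m2 : DA.hash ∈ w1
      · obtain ⟨f₂, w2, hx2, hf₂⟩ := List.eq_append_cons_of_mem m2
        rw [hx2] at e1
        obtain ⟨T2, r2⟩ := hash_ok _ f₂ _ p1 e1 hf₂
        obtain ⟨e2, p2⟩ := drop_cut e1
        by_cases m3 : DA.hash ∈ w2
        · obtain ⟨f₃, w3, hx3, hf₃⟩ := List.eq_append_cons_of_mem m3
          rw [hx3] at e2
          obtain ⟨T3, r3⟩ := hash_ok _ f₃ _ p2 e2 hf₃
          obtain ⟨e3, p3⟩ := drop_cut e2
          have hno' : ¬ ∃ m rest, w3 = List.replicate m DA.one ++ DA.hash :: rest ∧ m ≤ k := by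
            rintro ⟨m, rest, hw, hm⟩
            refine hno ⟨f₁, f₂, f₃, m, rest, ⟨?_, hf₁, hf₂, hf₃⟩, hm⟩
            rw [hx, hx2, hx3, hw]
          obtain ⟨T4, D', r4⟩ :=
            (field_spec x s c _ 0 k ⟨0 + f₁.length + 1 + f₂.length + 1 + f₃.length + 1, D.st⟩ hD
              p3 e3 (by omega) hP hR).2 hno'
          exact ⟨_, D', runs_bind r0 (runs_bind r1 (runs_bind r2 (runs_bind r3 r4)))⟩
        · obtain ⟨T3, D', r3⟩ := hash_no _ p2 (by rw [e2]; exact m3)
          exact ⟨_, D', runs_bind r0 (runs_bind r1 (runs_bind r2 (runs_bind r3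
            (runs_pure _ r3.le_end))))⟩
      · obtain ⟨T2, D', r2⟩ := hash_no _ p1 (by rw [e1]; exact m2)
        exact ⟨_, D', runs_bind r0 (runs_bind r1 (runs_bind r2 (runs_pure _ r2.le_end)))⟩
    · obtain ⟨T1, D', r1⟩ := hash_no 0 (Nat.zero_le _) m1
      exact ⟨_, D', runs_bind r0 (runs_bind r1 (runs_pure _ r1.le_end))⟩

end Pool.Agent.Lib.MP_9dcf40_lc
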