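import Pool.Agent.Lib.MP_9dcf40_lc.SpecD

/-!
# The position routines of the diagonal machine
-/

namespace Pool.Agent.Lib.MP_9dcf40_lc

open Rout

namespace DPosAux

variable {G : Type} {x : List DA} {s : ℕ}

theorem inSym_zero (x : List DA) : inSym x 0 = .left := rfl

theorem inSym_succ_ne_left (x : List DA) (p : ℕ) : inSym x (p + 1) ≠ .left := by
  unfold inSym
  cases h : x[p]? <;> simp [h]

theorem inSym_some {x : List DA} {p : ℕ} {a : DA} (h : x[p]? = some a) :
    inSym x (p + 1) = .letter a := by
  unfold inSym
  simp [h]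

theorem inSym_last (x : List DA) : inSym x (x.length + 1) = .right := by
  unfold inSym
  simp

theorem toLeft (c : Str) (p : ℕ) : ∀ D : Data (DG G) DN, D.le s → D.pos = p →
    ∃ T, Runs x (toLeftR (G := G)) s T D c () ⟨0, D.st⟩ c := by
  induction p with
  | zero =>
    intro D hD hp
    have hp' : movePos x.length .left D.pos = 0 := by rw [hp]; rfl
    have h1 := runs_move (x := x) (c := c) Dir.left hD
    rw [hp'] at h1
    have h2 := runs_read (x := x) (c := c) (d := (⟨0, D.st⟩ : Data (DG G) DN)) (s := s) hD
    refine ⟨_, runs_iter_done (runs_bind h1 (runs_bind (T' := 0) h2 ?_))⟩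
    rw [if_pos (inSym_zero x)]
    exact runs_pure _ hD
  | succ p ih =>
    intro D hD hp
    have hp' : movePos x.length .left D.pos = p := by rw [hp]; rfl
    have h1 := runs_move (x := x) (c := c) Dir.left hD
    rw [hp'] at h1
    have h2 := runs_read (x := x) (c := c) (d := (⟨p, D.st⟩ : Data (DG G) DN)) (s := s) hD
    rcases Nat.eq_zero_or_pos p with h0 | h0
    · subst h0
      refine ⟨_, runs_iter_done (runs_bind h1 (runs_bind (T' := 0) h2 ?_))⟩
      rw [if_pos (inSym_zero x)]
      exact runs_pure _ hD
    · obtain ⟨q, rfl⟩ : ∃ q, p = q + 1 := ⟨p - 1, by omega⟩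
      obtain ⟨T, hT⟩ := ih ⟨q + 1, D.st⟩ hD rfl
      refine ⟨_, runs_iter_step (t' := ()) (runs_bind h1 (runs_bind (T' := 0) h2 ?_)) hT⟩
      rw [if_neg (inSym_succ_ne_left x q)]
      exact runs_pure _ hD

theorem toRight (c : Str) (k : ℕ) : ∀ D : Data (DG G) DN, D.le s → D.pos + k = x.length + 1 →
    ∃ T, Runs x (toRightR (G := G)) s T D c () ⟨x.length + 1, D.st⟩ c := by
  induction k with
  | zero =>
    intro D hD hp
    have hp' : movePos x.length .right D.pos = x.length + 1 := by
      show min (D.pos + 1) (x.length + 1) = _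
      omega
    have h1 := runs_move (x := x) (c := c) Dir.right hD
    rw [hp'] at h1
    have h2 := runs_read (x := x) (c := c) (d := (⟨x.length + 1, D.st⟩ : Data (DG G) DN))
      (s := s) hD
    refine ⟨_, runs_iter_done (runs_bind h1 (runs_bind (T' := 0) h2 ?_))⟩
    rw [if_pos (inSym_last x)]
    exact runs_pure _ hD
  | succ k ih =>
    intro D hD hp
    have hp' : movePos x.length .right D.pos = D.pos + 1 := by
      show min (D.pos + 1) (x.length + 1) = _
      omega
    have h1 := runs_move (x := x) (c := c) Dir.right hD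
    rw [hp'] at h1
    have h2 := runs_read (x := x) (c := c) (d := (⟨D.pos + 1, D.st⟩ : Data (DG G) DN))
      (s := s) hD
    rcases Nat.eq_zero_or_pos k with h0 | h0
    · subst h0
      have hp2 : D.pos + 1 = x.length + 1 := by omega
      rw [hp2] at h1 h2
      refine ⟨_, runs_iter_done (runs_bind h1 (runs_bind (T' := 0) h2 ?_))⟩
      rw [if_pos (inSym_last x)]
      exact runs_pure _ hD
    · have hlt : D.pos < x.length := by omega
      obtain ⟨T, hT⟩ := ih ⟨D.pos + 1, D.st⟩ hD (by show D.pos + 1 + k = _; omega)
      refine ⟨_, runs_iter_step (t' := ()) (runs_bind h1 (runs_bind (T' := 0) h2 ?_)) hT⟩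
      have hs : inSym x (D.pos + 1) = .letter x[D.pos] :=
        inSym_some (List.getElem?_eq_getElem hlt)
      rw [if_neg (by
        show ¬ inSym x (D.pos + 1) = .right
        rw [hs]; simp)]
      exact runs_pure _ hD

theorem hash_true (c : Str) (r : List DA) : ∀ (f : List DA) (D : Data (DG G) DN), D.le s →
    D.pos ≤ x.length → x.drop D.pos = f ++ .hash :: r → DA.hash ∉ f →
    ∃ T, Runs x (hashR (G := G)) s T D c true ⟨D.pos + f.length + 1, D.st⟩ c := by
  intro f
  induction f with
  | nil =>
    intro D hD hp hx hf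
    have hlt : D.pos < x.length := by
      by_contra h
      rw [List.drop_eq_nil_of_le (by omega)] at hx
      simp at hx
    have hg : x[D.pos]? = some DA.hash := by
      have := congrArg List.head? hx
      rw [List.head?_drop] at this
      simpa using this
    have hp' : movePos x.length .right D.pos = D.pos + 1 := by
      show min (D.pos + 1) (x.length + 1) = _
      omega
    have h1 := runs_move (x := x) (c := c) Dir.right hD
    rw [hp'] at h1
    have h2 := runs_read (x := x) (c := c) (d := (⟨D.pos + 1, D.st⟩ : Data (DG G) DN))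
      (s := s) hD
    refine ⟨_, runs_iter_done (runs_bind h1 (runs_bind (T' := 0) h2 ?_))⟩
    rw [if_pos (inSym_some hg)]
    exact runs_pure _ hD
  | cons a f ih =>
    intro D hD hp hx hf
    have hlt : D.pos < x.length := by
      by_contra h
      rw [List.drop_eq_nil_of_le (by omega)] at hx
      simp at hx
    have hg : x[D.pos]? = some a := by
      have := congrArg List.head? hx
      rw [List.head?_drop] at this
      simpa using this
    have ha : a ≠ .hash := fun h => hf (by rw [h]; exact List.mem_cons_self)
    have hp' : movePos x.length .right D.pos = D.pos + 1 := by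
      show min (D.pos + 1) (x.length + 1) = _
      omega
    have h1 := runs_move (x := x) (c := c) Dir.right hD
    rw [hp'] at h1
    have h2 := runs_read (x := x) (c := c) (d := (⟨D.pos + 1, D.st⟩ : Data (DG G) DN))
      (s := s) hD
    have hx' : x.drop (D.pos + 1) = f ++ .hash :: r := by
      rw [← List.tail_drop, hx]; rfl
    obtain ⟨T, hT⟩ := ih ⟨D.pos + 1, D.st⟩ hD (by show D.pos + 1 ≤ _; omega) hx'
      (fun h => hf (List.mem_cons_of_mem _ h))
    have e : (⟨D.pos + (a :: f).length + 1, D.st⟩ : Data (DG G) DN)
        = ⟨D.pos + 1 + f.length + 1, D.st⟩ := by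
      congr 1
      rw [List.length_cons]; omega
    rw [e]
    refine ⟨_, runs_iter_step (t' := ()) (runs_bind h1 (runs_bind (T' := 0) h2 ?_)) hT⟩
    have hs : inSym x (D.pos + 1) = .letter a := inSym_some hg
    rw [if_neg (by
      show ¬ inSym x (D.pos + 1) = .letter .hash
      rw [hs]; simpa using ha), if_neg (by
      show ¬ inSym x (D.pos + 1) = .right
      rw [hs]; simp)]
    exact runs_pure _ hD

theorem hash_false (c : Str) (k : ℕ) : ∀ (D : Data (DG G) DN), D.le s →
    D.pos + k = x.length → DA.hash ∉ x.drop D.pos →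
    ∃ T, Runs x (hashR (G := G)) s T D c false ⟨x.length + 1, D.st⟩ c := by
  induction k with
  | zero =>
    intro D hD hp hx
    have hp' : movePos x.length .right D.pos = x.length + 1 := by
      show min (D.pos + 1) (x.length + 1) = _
      omega
    have h1 := runs_move (x := x) (c := c) Dir.right hD
    rw [hp'] at h1
    have h2 := runs_read (x := x) (c := c) (d := (⟨x.length + 1, D.st⟩ : Data (DG G) DN))
      (s := s) hD
    refine ⟨_, runs_iter_done (runs_bind h1 (runs_bind (T' := 0) h2 ?_))⟩
    rw [if_neg (by
      show ¬ inSym x (x.length + 1) = .letter .hash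
      rw [inSym_last]; simp), if_pos (inSym_last x)]
    exact runs_pure _ hD
  | succ k ih =>
    intro D hD hp hx
    have hlt : D.pos < x.length := by omega
    have hdrop : x.drop D.pos = x[D.pos] :: x.drop (D.pos + 1) :=
      List.drop_eq_getElem_cons hlt
    rw [hdrop] at hx
    have ha : x[D.pos] ≠ .hash := fun h => hx (by rw [h]; exact List.mem_cons_self)
    have hp' : movePos x.length .right D.pos = D.pos + 1 := by
      show min (D.pos + 1) (x.length + 1) = _
      omega
    have h1 := runs_move (x := x) (c := c) Dir.right hD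
    rw [hp'] at h1
    have h2 := runs_read (x := x) (c := c) (d := (⟨D.pos + 1, D.st⟩ : Data (DG G) DN))
      (s := s) hD
    obtain ⟨T, hT⟩ := ih ⟨D.pos + 1, D.st⟩ hD (by show D.pos + 1 + k = _; omega)
      (fun h => hx (List.mem_cons_of_mem _ h))
    refine ⟨_, runs_iter_step (t' := ()) (runs_bind h1 (runs_bind (T' := 0) h2 ?_)) hT⟩
    have hs : inSym x (D.pos + 1) = .letter x[D.pos] :=
      inSym_some (List.getElem?_eq_getElem hlt)
    rw [if_neg (by
      show ¬ inSym x (D.pos + 1) = .letter .hash
      rw [hs]; simpa using ha), if_neg (by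
      show ¬ inSym x (D.pos + 1) = .right
      rw [hs]; simp)]
    exact runs_pure _ hD

end DPosAux

open DPosAux

/-- The position routines. -/
theorem d_pos : StPos := by
  intro G _ x s D c hD hp
  refine ⟨toLeft c D.pos D hD rfl, toRight c (x.length + 1 - D.pos) D hD (by omega), ?_, ?_⟩
  · intro f r h1 h2 h3
    exact hash_true c r f D hD h1 h2 h3
  · intro h1 h2
    obtain ⟨T, hT⟩ := hash_false c (x.length - D.pos) D hD (by omega) h2
    exact ⟨T, ⟨x.length + 1, D.st⟩, rfl, le_rfl, hT⟩

end Pool.Agent.Lib.MP_9dcf40_lc
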