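import Pool.Agent.Lib.MP_9dcf40_lc.SpecD

/-!
# Powers of the length of the counter
-/

namespace Pool.Agent.Lib.MP_9dcf40_lc

open Rout

namespace DPow

variable {G : Type}

/-- data with given contents of the stacks `N`, `R`, `R2`, `T` -/
def mk (D : Data (DG G) DN) (n r r2 t : List (DG G)) : Data (DG G) DN :=
  ⟨D.pos, fun i => match i with
    | .N => n
    | .R => r
    | .R2 => r2
    | .T => t
    | .P => D.st .P
    | .K => D.st .K
    | .WL => D.st .WL
    | .WR => D.st .WR⟩

theorem mk_le {D : Data (DG G) DN} {s : ℕ} (hD : D.le s) {n r r2 t : List (DG G)}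
    (hn : n.length ≤ s) (hr : r.length ≤ s) (hr2 : r2.length ≤ s) (ht : t.length ≤ s) :
    (mk D n r r2 t).le s := by
  intro i
  cases i
  · exact hn
  · exact hr
  · exact hr2
  · exact hD .P
  · exact hD .K
  · exact ht
  · exact hD .WL
  · exact hD .WR

theorem updN (D : Data (DG G) DN) (n r r2 t l : List (DG G)) :
    (⟨(mk D n r r2 t).pos, Function.update (mk D n r r2 t).st .N l⟩ : Data (DG G) DN)
      = mk D l r r2 t := by
  unfold mk
  congr 1
  funext i
  cases i <;> simp [Function.update]

theorem updR (D : Data (DG G) DN) (n r r2 t l : List (DG G)) :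
    (⟨(mk D n r r2 t).pos, Function.update (mk D n r r2 t).st .R l⟩ : Data (DG G) DN)
      = mk D n l r2 t := by
  unfold mk
  congr 1
  funext i
  cases i <;> simp [Function.update]

theorem updR2 (D : Data (DG G) DN) (n r r2 t l : List (DG G)) :
    (⟨(mk D n r r2 t).pos, Function.update (mk D n r r2 t).st .R2 l⟩ : Data (DG G) DN)
      = mk D n r l t := by
  unfold mk
  congr 1
  funext i
  cases i <;> simp [Function.update]

theorem updT (D : Data (DG G) DN) (n r r2 t l : List (DG G)) :
    (⟨(mk D n r r2 t).pos, Function.update (mk D n r r2 t).st .T l⟩ : Data (DG G) DN)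
      = mk D n r r2 l := by
  unfold mk
  congr 1
  funext i
  cases i <;> simp [Function.update]

theorem xfer_false (l m : List (DG G)) :
    xfer (fun _ => false) l m = ([], l.reverse ++ m) := by
  induction l generalizing m with
  | nil => rfl
  | cons a l ih =>
    rw [xfer, if_neg (by simp), ih]
    simp

set_option linter.unusedSectionVars false

variable [Finite G]

theorem xferTN (h : StXfer) {D : Data (DG G) DN} {s : ℕ} (hD : D.le s) (x : List DA) (c : Str)
    {n r r2 t : List (DG G)} (hnt : t.length + n.length ≤ s) (hr : r.length ≤ s)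
    (hr2 : r2.length ≤ s) :
    ∃ T, Runs x (xferR (Γ := DG G) (fun _ => false) DN.T DN.N) s T (mk D n r r2 t) c ()
      (mk D (t.reverse ++ n) r r2 []) c := by
  have h1 := h DA (DG G) DN (fun _ => false) DN.T DN.N (by decide) x s (mk D n r r2 t) c
    (mk_le hD (by omega) hr hr2 (by omega)) hnt
  have e : (⟨(mk D n r r2 t).pos, Function.update (Function.update (mk D n r r2 t).st .T
      (xfer (fun _ => false) ((mk D n r r2 t).st .T) ((mk D n r r2 t).st .N)).1) .N
      (xfer (fun _ => false) ((mk D n r r2 t).st .T) ((mk D n r r2 t).st .N)).2⟩ :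
        Data (DG G) DN) = mk D (t.reverse ++ n) r r2 [] := by
    have e1 : (mk D n r r2 t).st .T = t := rfl
    have e2 : (mk D n r r2 t).st .N = n := rfl
    rw [e1, e2, xfer_false]
    unfold mk
    congr 1
    funext i
    cases i <;> simp [Function.update]
  rw [e] at h1
  exact ⟨_, h1⟩

theorem xferR2R (h : StXfer) {D : Data (DG G) DN} {s : ℕ} (hD : D.le s) (x : List DA) (c : Str)
    {n r r2 t : List (DG G)} (hrr : r2.length + r.length ≤ s) (hn : n.length ≤ s)
    (ht : t.length ≤ s) :
    ∃ T, Runs x (xferR (Γ := DG G) (fun _ => false) DN.R2 DN.R) s T (mk D n r r2 t) c ()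
      (mk D n (r2.reverse ++ r) [] t) c := by
  have h1 := h DA (DG G) DN (fun _ => false) DN.R2 DN.R (by decide) x s (mk D n r r2 t) c
    (mk_le hD hn (by omega) (by omega) ht) hrr
  have e : (⟨(mk D n r r2 t).pos, Function.update (Function.update (mk D n r r2 t).st .R2
      (xfer (fun _ => false) ((mk D n r r2 t).st .R2) ((mk D n r r2 t).st .R)).1) .R
      (xfer (fun _ => false) ((mk D n r r2 t).st .R2) ((mk D n r r2 t).st .R)).2⟩ :
        Data (DG G) DN) = mk D n (r2.reverse ++ r) [] t := by
    have e1 : (mk D n r r2 t).st .R2 = r2 := rfl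
    have e2 : (mk D n r r2 t).st .R = r := rfl
    rw [e1, e2, xfer_false]
    unfold mk
    congr 1
    funext i
    cases i <;> simp [Function.update]
  rw [e] at h1
  exact ⟨_, h1⟩

theorem popN {D : Data (DG G) DN} {s : ℕ} (hD : D.le s) (x : List DA) (c : Str)
    {n r r2 t : List (DG G)} (hn : n.length ≤ s) (hr : r.length ≤ s) (hr2 : r2.length ≤ s)
    (ht : t.length ≤ s) :
    Runs x (pop (A := DA) (Γ := DG G) DN.N) s 1 (mk D n r r2 t) c n.head?
      (mk D n.tail r r2 t) c := by
  have h1 := runs_pop (A := DA) (x := x) (c := c) DN.N (mk_le hD hn hr hr2 ht)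
  have e : (mk D n r r2 t).st .N = n := rfl
  rw [e, updN] at h1
  exact h1

theorem popR {D : Data (DG G) DN} {s : ℕ} (hD : D.le s) (x : List DA) (c : Str)
    {n r r2 t : List (DG G)} (hn : n.length ≤ s) (hr : r.length ≤ s) (hr2 : r2.length ≤ s)
    (ht : t.length ≤ s) :
    Runs x (pop (A := DA) (Γ := DG G) DN.R) s 1 (mk D n r r2 t) c r.head?
      (mk D n r.tail r2 t) c := by
  have h1 := runs_pop (A := DA) (x := x) (c := c) DN.R (mk_le hD hn hr hr2 ht)
  have e : (mk D n r r2 t).st .R = r := rfl
  rw [e, updR] at h1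
  exact h1

theorem pushR2 {D : Data (DG G) DN} {s : ℕ} (hD : D.le s) (x : List DA) (c : Str)
    {n r r2 t : List (DG G)} (hn : n.length ≤ s) (hr : r.length ≤ s) (hr2 : r2.length + 1 ≤ s)
    (ht : t.length ≤ s) (a : DG G) :
    Runs x (push (A := DA) (Γ := DG G) DN.R2 a) s 1 (mk D n r r2 t) c ()
      (mk D n r (a :: r2) t) c := by
  have h1 := runs_push (A := DA) (x := x) (c := c) DN.R2 a (mk_le hD hn hr (by omega) ht)
    (show ((mk D n r r2 t).st .R2).length + 1 ≤ s from hr2)
  have e : (mk D n r r2 t).st .R2 = r2 := rfl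
  rw [e, updR2] at h1
  exact h1

theorem pushT {D : Data (DG G) DN} {s : ℕ} (hD : D.le s) (x : List DA) (c : Str)
    {n r r2 t : List (DG G)} (hn : n.length ≤ s) (hr : r.length ≤ s) (hr2 : r2.length ≤ s)
    (ht : t.length + 1 ≤ s) (a : DG G) :
    Runs x (push (A := DA) (Γ := DG G) DN.T a) s 1 (mk D n r r2 t) c ()
      (mk D n r r2 (a :: t)) c := by
  have h1 := runs_push (A := DA) (x := x) (c := c) DN.T a (mk_le hD hn hr hr2 (by omega))
    (show ((mk D n r r2 t).st .T).length + 1 ≤ s from ht)
  have e : (mk D n r r2 t).st .T = t := rfl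
  rw [e, updT] at h1
  exact h1

theorem pushR {D : Data (DG G) DN} {s : ℕ} (hD : D.le s) (x : List DA) (c : Str)
    {n r r2 t : List (DG G)} (hn : n.length ≤ s) (hr : r.length + 1 ≤ s) (hr2 : r2.length ≤ s)
    (ht : t.length ≤ s) (a : DG G) :
    Runs x (push (A := DA) (Γ := DG G) DN.R a) s 1 (mk D n r r2 t) c ()
      (mk D n (a :: r) r2 t) c := by
  have h1 := runs_push (A := DA) (x := x) (c := c) DN.R a (mk_le hD hn (by omega) hr2 ht)
    (show ((mk D n r r2 t).st .R).length + 1 ≤ s from hr)
  have e : (mk D n r r2 t).st .R = r := rfl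
  rw [e, updR] at h1
  exact h1

/-- the loop of `lenR` -/
theorem lenLoop {D : Data (DG G) DN} {s : ℕ} (hD : D.le s) (x : List DA) (c : Str)
    {r : List (DG G)} (hr : r.length ≤ s) (n : List (DG G)) : ∀ (r2 t : List (DG G)),
    n.length + t.length ≤ s → n.length + r2.length ≤ s →
    ∃ T, Runs x (iter (A := DA) (Γ := DG G) (ι := DN) (τ := Unit) (β := Unit)
      (fun _ => (pop .N).bind fun o =>
        match o with
        | none => pureR (.inr ())
        | some a => (push .T a).bind fun _ => (push .R2 (.inl false)).bind fun _ =>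
            pureR (.inl ())) ()) s T (mk D n r r2 t) c ()
      (mk D [] r (List.replicate n.length (.inl false) ++ r2) (n.reverse ++ t)) c := by
  induction n with
  | nil =>
    intro r2 t h1 h2
    have p1 := popN hD x c (n := []) (r := r) (r2 := r2) (t := t) (by simp) hr
      (by simpa using h2) (by simpa using h1)
    exact ⟨_, runs_iter_done (runs_bind p1
      (runs_pure _ (mk_le hD (by simp) hr (by simpa using h2) (by simpa using h1))))⟩
  | cons a n ih =>
    intro r2 t h1 h2
    simp only [List.length_cons] at h1 h2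
    have p1 := popN hD x c (n := a :: n) (r := r) (r2 := r2) (t := t) (by simp; omega) hr
      (by omega) (by omega)
    have p2 := pushT hD x c (n := n) (r := r) (r2 := r2) (t := t) (by omega) hr
      (by omega) (by omega) a
    have p3 := pushR2 hD x c (n := n) (r := r) (r2 := r2) (t := a :: t) (by omega) hr
      (by omega) (by simp; omega) (.inl false)
    obtain ⟨T, hT⟩ := ih (.inl false :: r2) (a :: t) (by simp; omega) (by simp; omega)
    have e1 : List.replicate n.length (Sum.inl false : DG G) ++ Sum.inl false :: r2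
        = List.replicate (a :: n).length (Sum.inl false : DG G) ++ r2 := by
      rw [List.length_cons, List.replicate_succ', List.append_assoc]
      rfl
    have e2 : n.reverse ++ a :: t = (a :: n).reverse ++ t := by simp
    rw [e1, e2] at hT
    refine ⟨_, runs_iter_step (runs_bind p1 (runs_bind p2 (runs_bind p3
      (runs_pure _ (mk_le hD (by omega) hr (by simp; omega) (by simp; omega)))))) hT⟩

theorem lenRun (h : StXfer) {D : Data (DG G) DN} {s : ℕ} (hD : D.le s) (x : List DA) (c : Str)
    {n r r2 : List (DG G)} (hr : r.length ≤ s) (h2 : n.length + r2.length ≤ s) :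
    ∃ T, Runs x (lenR (G := G)) s T (mk D n r r2 []) c ()
      (mk D n r (List.replicate n.length (.inl false) ++ r2) []) c := by
  obtain ⟨T1, h1⟩ := lenLoop hD x c hr n r2 [] (by simp; omega) h2
  obtain ⟨T2, h3⟩ := xferTN h hD x c (n := []) (r := r)
    (r2 := List.replicate n.length (.inl false) ++ r2) (t := n.reverse ++ [])
    (by simp; omega) hr (by simp; omega)
  refine ⟨T1 + T2, ?_⟩
  have e : (n.reverse ++ []).reverse ++ [] = n := by simp
  rw [e] at h3
  exact runs_bind h1 h3

/-- the loop of `mulR` -/
theorem mulLoop (h : StXfer) {D : Data (DG G) DN} {s : ℕ} (hD : D.le s) (x : List DA) (c : Str)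
    {n : List (DG G)} (k : ℕ) : ∀ (j : ℕ), (j + k * (n.length + 1)) ≤ s → n.length ≤ s →
    ∃ T, Runs x (iter (A := DA) (Γ := DG G) (ι := DN) (τ := Unit) (β := Unit)
      (fun _ => (pop .R).bind fun o =>
        match o with
        | none => pureR (.inr ())
        | some _ => (push .R2 (.inl false)).bind fun _ => lenR.bind fun _ =>
            pureR (.inl ())) ()) s T
      (mk D n (List.replicate k (.inl false)) (List.replicate j (.inl false)) []) c ()
      (mk D n [] (List.replicate (j + k * (n.length + 1)) (.inl false)) []) c := by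
  induction k with
  | zero =>
    intro j hj hn
    have p1 := popR hD x c (n := n) (r := []) (r2 := List.replicate j (.inl false)) (t := [])
      hn (by simp) (by simp; omega) (by simp)
    have e : List.replicate (j + 0 * (n.length + 1)) (Sum.inl false : DG G)
        = List.replicate j (.inl false) := by simp
    rw [e]
    exact ⟨_, runs_iter_done (runs_bind p1
      (runs_pure _ (mk_le hD hn (by simp) (by simp; omega) (by simp))))⟩
  | succ k ih =>
    intro j hj hn
    have hk : k ≤ k * (n.length + 1) := Nat.le_mul_of_pos_right k (by omega)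
    have e0 : (k + 1) * (n.length + 1) = k * (n.length + 1) + (n.length + 1) := by ring
    rw [e0] at hj
    have p1 := popR hD x c (n := n) (r := List.replicate (k + 1) (.inl false))
      (r2 := List.replicate j (.inl false)) (t := [])
      hn (by simp; omega) (by simp; omega) (by simp)
    have p2 := pushR2 hD x c (n := n) (r := List.replicate k (.inl false))
      (r2 := List.replicate j (.inl false)) (t := [])
      hn (by simp; omega) (by simp; omega) (by simp) (.inl false)
    obtain ⟨T1, p3⟩ := lenRun h hD x c (n := n) (r := List.replicate k (.inl false))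
      (r2 := .inl false :: List.replicate j (.inl false)) (by simp; omega) (by simp; omega)
    have e1 : List.replicate n.length (Sum.inl false : DG G)
        ++ Sum.inl false :: List.replicate j (Sum.inl false)
        = List.replicate (j + (n.length + 1)) (.inl false) := by
      rw [← List.replicate_succ, List.replicate_append_replicate]
      congr 1
      omega
    rw [e1] at p3
    obtain ⟨T2, p4⟩ := ih (j + (n.length + 1)) (by omega) hn
    have e2 : j + (n.length + 1) + k * (n.length + 1) = j + (k + 1) * (n.length + 1) := by ring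
    rw [e2] at p4
    refine ⟨_, runs_iter_step (runs_bind p1 (runs_bind p2 (runs_bind p3
      (runs_pure _ (mk_le hD hn (by simp; omega) (by simp; omega) (by simp)))))) p4⟩

theorem mulRun (h : StXfer) {D : Data (DG G) DN} {s : ℕ} (hD : D.le s) (x : List DA) (c : Str)
    {n : List (DG G)} (k : ℕ) (hk : k * (n.length + 1) ≤ s) (hn : n.length ≤ s) :
    ∃ T, Runs x (mulR (G := G)) s T (mk D n (List.replicate k (.inl false)) [] []) c ()
      (mk D n (List.replicate (k * (n.length + 1)) (.inl false)) [] []) c := by
  obtain ⟨T1, h1⟩ := mulLoop h hD x c k (n := n) 0 (by omega) hn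
  rw [Nat.zero_add] at h1
  obtain ⟨T2, h2⟩ := xferR2R h hD x c (n := n) (r := [])
    (r2 := List.replicate (k * (n.length + 1)) (.inl false)) (t := []) (by simpa using hk) hn
    (by simp)
  refine ⟨T1 + T2, ?_⟩
  have e : (List.replicate (k * (n.length + 1)) (Sum.inl false : DG G)).reverse ++ []
      = List.replicate (k * (n.length + 1)) (.inl false) := by simp
  rw [e] at h2
  exact runs_bind h1 h2

theorem mulsRun (h : StXfer) {D : Data (DG G) DN} {s : ℕ} (hD : D.le s) (x : List DA) (c : Str)
    {n : List (DG G)} (hn : n.length ≤ s) (e : ℕ) : ∀ k : ℕ, k * (n.length + 1) ^ e ≤ s →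
    ∃ T, Runs x (mulsR (G := G) e) s T (mk D n (List.replicate k (.inl false)) [] []) c ()
      (mk D n (List.replicate (k * (n.length + 1) ^ e) (.inl false)) [] []) c := by
  induction e with
  | zero =>
    intro k hk
    rw [pow_zero, mul_one] at hk ⊢
    exact ⟨0, runs_pure _ (mk_le hD hn (by simpa using hk) (by simp) (by simp))⟩
  | succ e ih =>
    intro k hk
    have e1 : k * (n.length + 1) ^ (e + 1) = k * (n.length + 1) * (n.length + 1) ^ e := by ring
    rw [e1] at hk ⊢
    have h2 : k * (n.length + 1) ≤ s :=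
      (Nat.le_mul_of_pos_right _ (by positivity)).trans hk
    obtain ⟨T1, p1⟩ := mulRun h hD x c k h2 hn
    obtain ⟨T2, p2⟩ := ih (k * (n.length + 1)) hk
    exact ⟨T1 + T2, runs_bind p1 p2⟩

theorem mk_self (D : Data (DG G) DN) (hT : D.st .T = []) (hR : D.st .R = [])
    (hR2 : D.st .R2 = []) : mk D (D.st .N) [] [] [] = D := by
  obtain ⟨p, f⟩ := D
  unfold mk
  congr 1
  funext i
  cases i
  · rfl
  · exact hR.symm
  · exact hR2.symm
  · rfl
  · rfl
  · exact hT.symm
  · rfl
  · rfl

end DPow

open DPow in
theorem d_pow (h : StXfer) : StPow := by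
  intro G _ x s e D c hD hT hR hR2 hs
  have hpos : 1 ≤ ((D.st .N).length + 1) ^ e := Nat.one_le_pow _ _ (by omega)
  have hn : (D.st .N).length ≤ s := hD .N
  have p1 := pushR hD x c (n := D.st .N) (r := []) (r2 := []) (t := []) hn (by simp; omega)
    (by simp) (by simp) (.inl false)
  obtain ⟨T, p2⟩ := mulsRun h hD x c hn e 1 (by omega)
  rw [Nat.one_mul] at p2
  refine ⟨1 + T, ?_⟩
  have p3 := runs_bind (f := fun _ => mulsR (G := G) e) p1 p2
  rw [mk_self D hT hR hR2] at p3
  have e1 : mk D (D.st .N) (List.replicate (((D.st .N).length + 1) ^ e) (.inl false)) [] []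
      = ⟨D.pos, Function.update D.st .R
        (List.replicate (((D.st .N).length + 1) ^ e) (.inl false))⟩ := by
    conv_rhs => rw [← mk_self D hT hR hR2]
    exact (updR D _ _ _ _ _).symm
  rw [e1] at p3
  exact p3

end Pool.Agent.Lib.MP_9dcf40_lc
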