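import Pool.Agent.Lib.MP_9dcf40_lc.SpecD

/-!
# The simulation of the machine `V` with a clock
-/

namespace Pool.Agent.Lib.MP_9dcf40_lc

open Rout

namespace DSimAux

/-- The body of the loop of `simR`. -/
def body (V : TM VB) [Finite V.G] [Finite V.Q] [DecidableEq V.G] (t : V.Q × Mode) :
    DR V.G ((V.Q × Mode) ⊕ Bool) :=
  match V.out t.1 with
  | some b => pureR (.inr (!b))
  | none => (cntR true .K).bind fun o => if o then pureR (.inr true) else
      (vstepR V t.1 t.2).bind fun t' => pureR (.inl t')

theorem simR_eq (V : TM VB) [Finite V.G] [Finite V.Q] [DecidableEq V.G] :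
    simR V = iter (body V) (V.start, .mx) := rfl

theorem body_some (V : TM VB) [Finite V.G] [Finite V.Q] [DecidableEq V.G] (q : V.Q) (μ : Mode)
    (b : Bool) (h : V.out q = some b) : body V (q, μ) = pureR (.inr (!b)) := by
  simp only [body, h]

theorem body_none (V : TM VB) [Finite V.G] [Finite V.Q] [DecidableEq V.G] (q : V.Q) (μ : Mode)
    (h : V.out q = none) : body V (q, μ) =
      (cntR true .K).bind fun o => if o then pureR (.inr true) else
        (vstepR V q μ).bind fun t' => pureR (.inl t') := by
  simp only [body, h]

theorem run_const (V : TM VB) (z : List VB) (ch : ℕ → Bool) (t : ℕ) (b : Bool)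
    (h : V.out (V.run z ch t).q = some b) : ∀ t', t ≤ t' → V.run z ch t' = V.run z ch t := by
  intro t' ht
  induction t', ht using Nat.le_induction with
  | base => rfl
  | succ t' _ ih =>
    show V.next z (ch t') (V.run z ch t') = _
    rw [ih]
    unfold TM.next
    rw [h]

theorem main (hC : StCount) (hN : StCnt) (hV : StVStep) (hZ : StZip) (V : TM VB) [Finite V.G]
    [Finite V.Q] [DecidableEq V.G] (x f₁ f₂ f₃ : List DA) (m : ℕ) (rest : List DA)
    (hx : DForm x f₁ f₂ f₃ m rest) (s k sV : ℕ) (hS : V.SpaceLe (vword x m f₃) sV)
    (hs : sV + 2 ≤ s) (c : Str) (r : ℕ) : ∀ t : ℕ, t + r + 1 = 2 ^ k →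
    (∀ t' < t, V.out (V.run (vword x m f₃) (fun _ => false) t').q = none) →
    ∀ (D : Data (DG V.G) DN) (μ : Mode) (l kl : List Bool), D.le s → D.st .T = [] →
    D.st .P = l.map .inl →
    HRep x f₁ f₂ f₃ m μ D.pos l (V.run (vword x m f₃) (fun _ => false) t).p →
    D.st .WL = (zrun V (vword x m f₃) t).1.map .inr →
    D.st .WR = (zrun V (vword x m f₃) t).2.map .inr →
    WRep V (V.run (vword x m f₃) (fun _ => false) t) (zrun V (vword x m f₃) t).1
      (zrun V (vword x m f₃) t).2 →
    D.st .K = kl.map .inl → kl.length = k → val kl = t →
    ∃ (T : ℕ) (b : Bool) (D' : Data (DG V.G) DN),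
      Runs x (iter (body V) ((V.run (vword x m f₃) (fun _ => false) t).q, μ)) s T D c b D' c ∧
      (b = false ↔ ∃ t' < 2 ^ k,
        V.out (V.run (vword x m f₃) (fun _ => false) t').q = some true) := by
  obtain ⟨c1, c2, c3, -, c5, c6, -⟩ := hC
  induction r with
  | zero =>
    intro t ht hnone D μ l kl hle hT hP hH hWL hWR hW hK hkl hval
    set z := vword x m f₃ with hz
    cases hout : V.out (V.run z (fun _ => false) t).q with
    | some b =>
      refine ⟨_, !b, D, runs_iter_done (T := 0) ?_, ?_⟩
      · rw [body_some V _ μ b hout]
        exact runs_pure _ hle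
      · constructor
        · intro hb
          refine ⟨t, by omega, ?_⟩
          rw [hout]
          cases b
          · simp at hb
          · rfl
        · rintro ⟨t', ht', h⟩
          rcases lt_or_ge t' t with h1 | h1
          · rw [hnone t' h1] at h
            simp at h
          · rw [run_const V z _ t b hout t' h1, hout] at h
            cases b
            · simp at h
            · rfl
    | none =>
      have hrun := (hN V.G x s D c kl hle hT).1 true .K (by decide) hK
      cases hov : (cstep true kl).2 with
      | true =>
        rw [hov] at hrun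
        refine ⟨_, true, ⟨D.pos, Function.update D.st .K ((cstep true kl).1.map .inl)⟩,
          runs_iter_done (T := 6 * kl.length + 10 + 0) ?_, ?_⟩
        · rw [body_none V _ μ hout]
          refine runs_bind hrun ?_
          rw [if_pos rfl]
          exact runs_pure _ hrun.le_end
        · simp only [Bool.true_eq_false, false_iff, not_exists, not_and]
          intro t' ht'
          rcases lt_or_ge t' t with h1 | h1
          · rw [hnone t' h1]
            simp
          · have : t' = t := by omega
            rw [this, hout]
            simp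
      | false =>
        exfalso
        have h1 := c6 kl hov
        have h2 := c2 (cstep true kl).1
        rw [c1, hkl, h1, hval] at h2
        omega
  | succ r ih =>
    intro t ht hnone D μ l kl hle hT hP hH hWL hWR hW hK hkl hval
    set z := vword x m f₃ with hz
    cases hout : V.out (V.run z (fun _ => false) t).q with
    | some b =>
      refine ⟨_, !b, D, runs_iter_done (T := 0) ?_, ?_⟩
      · rw [body_some V _ μ b hout]
        exact runs_pure _ hle
      · constructor
        · intro hb
          refine ⟨t, by omega, ?_⟩
          rw [hout]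
          cases b
          · simp at hb
          · rfl
        · rintro ⟨t', ht', h⟩
          rcases lt_or_ge t' t with h1 | h1
          · rw [hnone t' h1] at h
            simp at h
          · rw [run_const V z _ t b hout t' h1, hout] at h
            cases b
            · simp at h
            · rfl
    | none =>
      have hrun := (hN V.G x s D c kl hle hT).1 true .K (by decide) hK
      cases hov : (cstep true kl).2 with
      | true =>
        exfalso
        have h1 := (c5 kl hov).1
        have h2 := c3 k
        rw [hkl] at h1
        rw [← h1, hval] at h2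
        omega
      | false =>
        rw [hov] at hrun
        have hval' : val (cstep true kl).1 = t + 1 := by rw [c6 kl hov, hval]
        set D₁ : Data (DG V.G) DN := ⟨D.pos, Function.update D.st .K ((cstep true kl).1.map .inl)⟩
          with hD₁
        have hzip := hZ V z sV t hS
        obtain ⟨T₂, μ', p', l', hstep, hH', hW'⟩ := hV V x f₁ f₂ f₃ m rest hx s D₁ c μ l
          (V.run z (fun _ => false) t) (zrun V z t).1 (zrun V z t).2 hrun.le_end
          (by simp [hD₁, hT]) (by simp [hD₁, hP]) hH (by simp [hD₁, hWL]) (by simp [hD₁, hWR]) hW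
          (by omega) (by omega) (by omega) hout
        have hzr : zrun V z (t + 1) = zmove V
            (V.δ false (V.run z (fun _ => false) t).q (inSym z (V.run z (fun _ => false) t).p)
              ((V.run z (fun _ => false) t).T (V.run z (fun _ => false) t).h)).2.1
            (V.δ false (V.run z (fun _ => false) t).q (inSym z (V.run z (fun _ => false) t).p)
              ((V.run z (fun _ => false) t).T (V.run z (fun _ => false) t).h)).2.2.2
            (zrun V z t).1 (zrun V z t).2 := by
          conv_lhs => unfold zrun
          simp only [hout]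
        rw [← hz, ← hzr] at hstep hW'
        set D₂ : Data (DG V.G) DN := ⟨p', Function.update (Function.update (Function.update D₁.st
          .P (l'.map .inl)) .WL ((zrun V z (t + 1)).1.map .inr)) .WR
          ((zrun V z (t + 1)).2.map .inr)⟩ with hD₂
        obtain ⟨T₃, b, D', hfin, hiff⟩ := ih (t + 1) (by omega) (by
            intro t' ht'
            rcases Nat.lt_succ_iff_lt_or_eq.mp ht' with h1 | h1
            · exact hnone t' h1
            · rw [h1]
              exact hout) D₂ μ' l' (cstep true kl).1 hstep.le_end
          (by simp [hD₂, hD₁, hT]) (by simp [hD₂, hD₁]) hH' (by simp [hD₂]) (by simp [hD₂]) hW'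
          (by simp [hD₂, hD₁]) (by rw [c1, hkl]) hval'
        refine ⟨_, b, D', runs_iter_step (T := 6 * kl.length + 10 + (T₂ + 0)) ?_ hfin, hiff⟩
        rw [body_none V _ μ hout]
        refine runs_bind hrun ?_
        rw [if_neg (by decide)]
        exact runs_bind hstep (runs_pure _ hstep.le_end)

end DSimAux

open DSimAux

theorem d_sim (hC : StCount) (hN : StCnt) (hV : StVStep) (hZ : StZip) : StSim := by
  intro V _ _ _ x f₁ f₂ f₃ m rest hx s k sV D c hle hpos hT hP hWL hWR hK hS hs
  rw [simR_eq]
  have h1 : 1 ≤ 2 ^ k := Nat.one_le_two_pow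
  refine main hC hN hV hZ V x f₁ f₂ f₃ m rest hx s k sV hS hs c (2 ^ k - 1) 0 (by omega)
    (by intro t' ht'; omega) D .mx (List.replicate m true) (List.replicate k false) hle hT hP
    ?_ ?_ ?_ ?_ hK (by simp) (hC.2.2.2.1 k)
  · refine ⟨?_, ?_, rfl⟩
    · rw [hpos]
      exact Nat.zero_le _
    · rw [hpos]
      rfl
  · rw [hWL]
    rfl
  · rw [hWR]
    rfl
  · refine ⟨fun i => ?_, fun i => ?_⟩
    · simp [TM.run, TM.init, zrun]
    · simp [TM.run, TM.init, zrun]

end Pool.Agent.Lib.MP_9dcf40_lc
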