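import Pool.Agent.Lib.MP_9dcf40_lc.SpecD

/-!
# The diagonal machine: length of the input in binary
-/

namespace Pool.Agent.Lib.MP_9dcf40_lc

open Rout

namespace DSize

theorem len_cinc (hC : StCount) (p : ℕ) : (cinc^[p] []).length = Nat.size p :=
  hC.2.2.2.2.2.2.2.2.2.2 p

theorem le_of_len {G : Type} {s p : ℕ} {l : List Bool} (h : l.length ≤ s) :
    (⟨p, Function.update (fun _ => []) DN.N (l.map .inl)⟩ : Data (DG G) DN).le s := by
  intro i
  by_cases hi : i = DN.N
  · subst hi
    simpa using h
  · simp [Function.update_of_ne hi]

end DSize

theorem d_size (hC : StCount) (h : StCnt) : StSize := by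
  intro G _ _ x s c hs
  have key : ∀ k p : ℕ, p + k = x.length →
      ∃ T, Runs x (sizeR (G := G)) s T
        ⟨p, Function.update (fun _ => []) DN.N ((cinc^[p] []).map .inl)⟩ c ()
        ⟨x.length + 1, Function.update (fun _ => []) DN.N ((cinc^[x.length] []).map .inl)⟩ c := by
    intro k
    induction k with
    | zero =>
      intro p hp
      have hp' : p = x.length := by omega
      subst hp'
      have hle : (⟨x.length, Function.update (fun _ => []) DN.N
          ((cinc^[x.length] []).map .inl)⟩ : Data (DG G) DN).le s :=
        DSize.le_of_len (by rw [DSize.len_cinc hC]; omega)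
      have h1 := runs_move (x := x) (c := c) Dir.right hle
      have h2 := runs_read (x := x) (c := c) h1.le_end
      have e1 : movePos x.length Dir.right x.length = x.length + 1 := by simp [movePos]
      simp only [e1] at h1 h2
      have e2 : inSym x (x.length + 1) = .right := by
        simp [inSym]
      rw [e2] at h2
      have h3 : Runs x ((move .right).bind fun _ => Rout.read.bind fun a =>
          if a = .right then pureR (.inr ()) else (cincR (G := G)).bind fun _ => pureR (.inl ()))
          s (1 + (1 + 0)) ⟨x.length, Function.update (fun _ => []) DN.N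
          ((cinc^[x.length] []).map .inl)⟩ c (Sum.inr () : Unit ⊕ Unit)
          ⟨x.length + 1, Function.update (fun _ => []) DN.N
          ((cinc^[x.length] []).map .inl)⟩ c := by
        refine runs_bind h1 (runs_bind h2 ?_)
        rw [if_pos rfl]
        exact runs_pure _ h2.le_end
      exact ⟨_, runs_iter_done (τ := Unit) (body := fun _ => (move .right).bind fun _ =>
        Rout.read.bind fun a => if a = .right then pureR (.inr ()) else
          (cincR (G := G)).bind fun _ => pureR (.inl ())) (t := ()) h3⟩
    | succ k ih =>
      intro p hp
      have hlen : (cinc^[p] []).length + 1 ≤ s := by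
        rw [DSize.len_cinc hC]
        have : Nat.size p ≤ Nat.size x.length := Nat.size_le_size (by omega)
        omega
      have hle : (⟨p, Function.update (fun _ => []) DN.N
          ((cinc^[p] []).map .inl)⟩ : Data (DG G) DN).le s :=
        DSize.le_of_len (by omega)
      have h1 := runs_move (x := x) (c := c) Dir.right hle
      have h2 := runs_read (x := x) (c := c) h1.le_end
      have e1 : movePos x.length Dir.right p = p + 1 := by
        simp only [movePos]
        omega
      simp only [e1] at h1 h2
      have hpx : p < x.length := by omega
      have e2 : inSym x (p + 1) = .letter (x[p]) := by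
        simp [inSym, List.getElem?_eq_getElem hpx]
      rw [e2] at h2
      have h4 := (h G x s ⟨p + 1, Function.update (fun _ => []) DN.N
        ((cinc^[p] []).map .inl)⟩ c (cinc^[p] []) h1.le_end (by
          simp [Function.update_of_ne])).2 (by simp) hlen
      simp only [Function.update_idem] at h4
      have e3 : cinc (cinc^[p] []) = cinc^[p + 1] [] := by
        rw [Function.iterate_succ_apply']
      rw [e3] at h4
      have h3 : Runs x ((move .right).bind fun _ => Rout.read.bind fun a =>
          if a = .right then pureR (.inr ()) else (cincR (G := G)).bind fun _ => pureR (.inl ()))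
          s (1 + (1 + (6 * (cinc^[p] []).length + 10 + 0))) ⟨p, Function.update (fun _ => []) DN.N
          ((cinc^[p] []).map .inl)⟩ c (Sum.inl () : Unit ⊕ Unit)
          ⟨p + 1, Function.update (fun _ => []) DN.N
          ((cinc^[p + 1] []).map .inl)⟩ c := by
        refine runs_bind h1 (runs_bind h2 ?_)
        rw [if_neg (by simp)]
        exact runs_bind h4 (runs_pure _ h4.le_end)
      obtain ⟨T, hT⟩ := ih (p + 1) (by omega)
      exact ⟨_, runs_iter_step (τ := Unit) (body := fun _ => (move .right).bind fun _ =>
        Rout.read.bind fun a => if a = .right then pureR (.inr ()) else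
          (cincR (G := G)).bind fun _ => pureR (.inl ())) (t := ()) h3 hT⟩
  obtain ⟨T, hT⟩ := key x.length 0 (by omega)
  refine ⟨T, ?_⟩
  have e0 : (⟨0, Function.update (fun _ => []) DN.N ((cinc^[0] []).map .inl)⟩ : Data (DG G) DN)
      = .init := by
    have : Function.update (fun _ => []) DN.N ((cinc^[0] []).map Sum.inl)
        = (fun _ => ([] : List (DG G))) := by
      funext i
      by_cases hi : i = DN.N
      · subst hi
        simp
      · simp [Function.update_of_ne hi]
    rw [this]
    rfl
  rw [e0] at hT
  exact hT

end Pool.Agent.Lib.MP_9dcf40_lc
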