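import Pool.Agent.Lib.MP_9dcf40_lc.SpecD

/-!
# The diagonal machine is total
-/

namespace Pool.Agent.Lib.MP_9dcf40_lc

open Rout

namespace DTotalAux

theorem xfer_all {α : Type} (l acc : List α) :
    xfer (fun _ => false) l acc = ([], l.reverse ++ acc) := by
  induction l generalizing acc with
  | nil => rfl
  | cons a l ih =>
    show (if (false : Bool) = true then (l, a :: acc) else xfer (fun _ => false) l (a :: acc)) = _
    rw [if_neg (by simp), ih]
    simp

theorem cut_unique {f f' r r' : List DA} (h : f ++ .hash :: r = f' ++ .hash :: r')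
    (hf : .hash ∉ f) (hf' : .hash ∉ f') : f = f' ∧ r = r' := by
  induction f generalizing f' with
  | nil =>
    cases f' with
    | nil => simpa using h
    | cons a f' =>
      simp only [List.nil_append, List.cons_append, List.cons.injEq] at h
      exact absurd (by rw [h.1]; simp) hf'
  | cons a f ih =>
    cases f' with
    | nil =>
      simp only [List.nil_append, List.cons_append, List.cons.injEq] at h
      exact absurd (by rw [h.1]; simp) hf
    | cons b f' =>
      simp only [List.cons_append, List.cons.injEq] at h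
      obtain ⟨h1, h2⟩ := ih h.2 (fun h => hf (List.mem_cons_of_mem _ h))
        (fun h => hf' (List.mem_cons_of_mem _ h))
      exact ⟨by rw [h.1, h1], h2⟩

theorem form_unique {x f₁ f₂ f₃ rest f₁' f₂' f₃' rest' : List DA} {m m' : ℕ}
    (h : DForm x f₁ f₂ f₃ m rest) (h' : DForm x f₁' f₂' f₃' m' rest') : f₃ = f₃' ∧ m = m' := by
  obtain ⟨e, a1, a2, a3⟩ := h
  obtain ⟨e', b1, b2, b3⟩ := h'
  rw [e] at e'
  obtain ⟨-, e1⟩ := cut_unique e' a1 b1
  obtain ⟨-, e2⟩ := cut_unique e1 a2 b2
  obtain ⟨e3, e4⟩ := cut_unique e2 a3 b3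
  obtain ⟨e5, -⟩ := cut_unique e4 (fun h => by simpa using List.eq_of_mem_replicate h)
    (fun h => by simpa using List.eq_of_mem_replicate h)
  exact ⟨e3, by simpa using congrArg List.length e5⟩

theorem vword_length (x : List DA) (m : ℕ) (f : List DA) :
    (vword x m f).length = x.length + 2 ^ m + f.length := by
  simp [vword, pairL, padL, Nat.add_assoc]

end DTotalAux

open DTotalAux in
theorem d_total (hX : StXfer) (hC : StCount) (hS : StSize) (hW : StPow) (hP : StPos)
    (hF : StParse) (hM : StSim) : StDTotal := by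
  intro V _ _ _ d e x c s sV hV hd he h1 hsV
  obtain ⟨-, -, -, -, -, -, -, -, -, -, hlen⟩ := hC
  have hl : (cinc^[x.length] []).length = Nat.size x.length := hlen x.length
  set L : ℕ := Nat.size x.length with hL
  -- the length of the input
  obtain ⟨T1, r1⟩ := hS V.G x s c h1
  set D1 : Data (DG V.G) DN :=
    ⟨x.length + 1, Function.update (fun _ => []) .N ((cinc^[x.length] []).map .inl)⟩ with hD1
  have hN1 : (D1.st .N).length = L := by
    rw [hD1]
    simp [hl]
  -- the clock
  obtain ⟨T2, r2⟩ := hW V.G x s e D1 c r1.le_end (by rw [hD1]; rfl) (by rw [hD1]; rfl)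
    (by rw [hD1]; rfl) (by rw [hN1]; exact he)
  rw [hN1] at r2
  set D2 : Data (DG V.G) DN :=
    ⟨D1.pos, Function.update D1.st .R (List.replicate ((L + 1) ^ e) (.inl false))⟩ with hD2
  have hR2 : D2.st .R = List.replicate ((L + 1) ^ e) (.inl false) := by
    rw [hD2]; simp
  have hK2 : D2.st .K = [] := by
    rw [hD2, hD1]; rfl
  have r3 := hX DA (DG V.G) DN (fun _ => false) .R .K (by decide) x s D2 c r2.le_end
    (by rw [hR2, hK2]; simpa using he)
  rw [xfer_all, hR2, hK2] at r3
  simp only [List.reverse_replicate, List.append_nil] at r3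
  set D3 : Data (DG V.G) DN :=
    ⟨D2.pos, Function.update (Function.update D2.st .R []) .K
      (List.replicate ((L + 1) ^ e) (.inl false))⟩ with hD3
  have hN3 : (D3.st .N).length = L := by
    rw [← hN1, hD3, hD2]
    rfl
  obtain ⟨T4, r4⟩ := hW V.G x s d D3 c r3.le_end (by rw [hD3]; rfl) (by rw [hD3]; rfl)
    (by rw [hD3]; rfl) (by rw [hN3]; exact hd)
  rw [hN3] at r4
  set D4 : Data (DG V.G) DN :=
    ⟨D3.pos, Function.update D3.st .R (List.replicate ((L + 1) ^ d) (.inl false))⟩ with hD4
  have hR4 : D4.st .R = List.replicate ((L + 1) ^ d) (.inl false) := by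
    rw [hD4]; simp
  have hP4 : D4.st .P = [] := by
    rw [hD4]; rfl
  have hpos4 : D4.pos ≤ x.length + 1 := le_refl _
  obtain ⟨hok, hno⟩ := hF V.G x s ((L + 1) ^ d) D4 c r4.le_end hd hpos4 hP4 hR4
  have hpre : ∀ {T' : ℕ} {b : Bool} {D' : Data (DG V.G) DN},
      Runs x (parseR.bind fun ok => if ok then toLeftR.bind fun _ => simR V else pureR false)
        s T' D4 c b D' c → ∃ T, Runs x (diagR V d e) s T .init c b D' c :=
    fun h => ⟨_, runs_bind r1 (runs_bind r2 (runs_bind r3 (runs_bind r4 h)))⟩
  by_cases hex : ∃ f₁ f₂ f₃ m rest, DForm x f₁ f₂ f₃ m rest ∧ m ≤ (L + 1) ^ d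
  · obtain ⟨f₁, f₂, f₃, m, rest, hform, hm⟩ := hex
    obtain ⟨T5, p, hp, r5⟩ := hok f₁ f₂ f₃ m rest hform hm
    set D5 : Data (DG V.G) DN :=
      ⟨p, Function.update (Function.update D4.st .P (List.replicate m (.inl true))) .R
        (List.replicate ((L + 1) ^ d - m) (.inl false))⟩ with hD5
    obtain ⟨⟨T6, r6⟩, -⟩ := hP V.G x s D5 c r5.le_end hp
    set D6 : Data (DG V.G) DN := ⟨0, D5.st⟩ with hD6
    have hf3 : f₃.length ≤ x.length := by
      rw [hform.1]
      simp only [List.length_append, List.length_cons]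
      omega
    have hvl : (vword x m f₃).length ≤ 2 * x.length + 2 ^ (L + 1) ^ d := by
      rw [vword_length]
      have := Nat.pow_le_pow_right (show 0 < 2 by norm_num) hm
      omega
    obtain ⟨T7, b, D', r7, hb⟩ := hM V x f₁ f₂ f₃ m rest hform s ((L + 1) ^ e) sV D6 c r6.le_end
      rfl rfl (by rw [List.map_replicate]; rfl) rfl rfl (by rw [List.map_replicate]; rfl)
      (hV _ hvl) hsV
    obtain ⟨T, hr⟩ := hpre (runs_bind (f := fun ok => if ok then
      toLeftR.bind fun _ => simR V else pureR false) r5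
      (T' := T6 + T7) (g := b) (d' := D') (c' := c) (by
        show Runs x (if (true : Bool) = true then toLeftR.bind fun _ => simR V else pureR false)
          s (T6 + T7) D5 c b D' c
        rw [if_pos rfl]
        exact runs_bind r6 r7))
    refine ⟨T, b, D', hr, fun g₁ g₂ g₃ m' rest' hform' hm' => ?_⟩
    obtain ⟨e1, e2⟩ := form_unique hform hform'
    rw [← e1, ← e2]
    exact hb
  · obtain ⟨T5, D', r5⟩ := hno hex
    obtain ⟨T, hr⟩ := hpre (runs_bind (f := fun ok => if ok then
      toLeftR.bind fun _ => simR V else pureR false) r5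
      (T' := 0) (g := false) (d' := D') (c' := c) (by
        show Runs x (if (false : Bool) = true then toLeftR.bind fun _ => simR V else pureR false)
          s 0 D' c false D' c
        rw [if_neg (by simp)]
        exact runs_pure false r5.le_end))
    exact ⟨T, false, D', hr, fun g₁ g₂ g₃ m' rest' hform' hm' =>
      absurd ⟨g₁, g₂, g₃, m', rest', hform', hm'⟩ hex⟩

end Pool.Agent.Lib.MP_9dcf40_lc
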