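import Pool.Agent.Lib.MP_9dcf40_lc.SpecD

/-!
# The zipper lists are bounded by the number of visited squares
-/

namespace Pool.Agent.Lib.MP_9dcf40_lc

namespace DZip

private theorem step_h {A : Type} (M : TM A) (x : List A) (ch : ℕ → Bool) (t : ℕ) :
    (M.run x ch (t + 1)).h ≤ (M.run x ch t).h + 1 ∧
      (M.run x ch t).h ≤ (M.run x ch (t + 1)).h + 1 := by
  have e : M.run x ch (t + 1) = M.next x (ch t) (M.run x ch t) := rfl
  rw [e]
  unfold TM.next
  cases h : M.out (M.run x ch t).q with
  | some b => exact ⟨by simp, by simp⟩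
  | none =>
    simp only
    cases (M.δ (ch t) (M.run x ch t).q (inSym x (M.run x ch t).p)
      ((M.run x ch t).T (M.run x ch t).h)).2.2.2 <;> simp only [moveTape] <;>
      constructor <;> omega

private theorem ivt0 {h : ℕ → ℤ} (hs : ∀ t, h (t + 1) ≤ h t + 1 ∧ h t ≤ h (t + 1) + 1) :
    ∀ (t : ℕ) (m : ℤ), (h 0 ≤ m ∧ m ≤ h t) ∨ (h t ≤ m ∧ m ≤ h 0) → m ∈ Set.range h := by
  intro t
  induction t with
  | zero =>
    intro m hm
    exact ⟨0, by omega⟩
  | succ t ih =>
    intro m hm
    by_cases hm' : m = h (t + 1)
    · exact ⟨t + 1, hm'.symm⟩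
    · have := hs t
      exact ih m (by omega)

private theorem ivt {h : ℕ → ℤ} (hs : ∀ t, h (t + 1) ≤ h t + 1 ∧ h t ≤ h (t + 1) + 1)
    (u t : ℕ) : Set.Icc (h u) (h t) ⊆ Set.range h := by
  intro m hm
  rw [Set.mem_Icc] at hm
  by_cases h1 : h 0 ≤ m
  · exact ivt0 hs t m (by omega)
  · exact ivt0 hs u m (by omega)

private theorem dist {h : ℕ → ℤ} (hs : ∀ t, h (t + 1) ≤ h t + 1 ∧ h t ≤ h (t + 1) + 1)
    {s : ℕ} (hr : (Set.range h).encard ≤ s) (u t : ℕ) : h t - h u + 1 ≤ s := by
  have h1 := (Set.encard_le_encard (ivt hs u t)).trans hr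
  have h2 : (Set.Icc (h u) (h t)) = ((Finset.Icc (h u) (h t) : Finset ℤ) : Set ℤ) := by
    simp
  rw [h2, Set.encard_coe_eq_coe_finsetCard, Int.card_Icc] at h1
  have h3 : (h t + 1 - h u).toNat ≤ s := by exact_mod_cast h1
  omega

private theorem inv (V : TM VB) (z : List VB) (t : ℕ) :
    (∃ u : ℕ, (((zrun V z t).1.length : ℕ) : ℤ) ≤
      (V.run z (fun _ => false) t).h - (V.run z (fun _ => false) u).h) ∧
    (∃ u : ℕ, (((zrun V z t).2.length : ℕ) : ℤ) ≤
      (V.run z (fun _ => false) u).h - (V.run z (fun _ => false) t).h + 1) := by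
  induction t with
  | zero => exact ⟨⟨0, by simp [zrun]⟩, ⟨0, by simp [zrun]⟩⟩
  | succ t ih =>
    obtain ⟨⟨u, hu⟩, ⟨u', hu'⟩⟩ := ih
    have e : V.run z (fun _ => false) (t + 1) =
      V.next z false (V.run z (fun _ => false) t) := rfl
    cases h : V.out (V.run z (fun _ => false) t).q with
    | some b =>
      have e1 : V.run z (fun _ => false) (t + 1) = V.run z (fun _ => false) t := by
        rw [e]
        unfold TM.next
        rw [h]
      have e2 : zrun V z (t + 1) = zrun V z t := by
        rw [zrun]
        simp only [h]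
      rw [e1, e2]
      exact ⟨⟨u, hu⟩, ⟨u', hu'⟩⟩
    | none =>
      have e1 : (V.run z (fun _ => false) (t + 1)).h =
          moveTape (V.δ false (V.run z (fun _ => false) t).q
            (inSym z (V.run z (fun _ => false) t).p)
            ((V.run z (fun _ => false) t).T (V.run z (fun _ => false) t).h)).2.2.2
            (V.run z (fun _ => false) t).h := by
        rw [e]
        unfold TM.next
        rw [h]
      have e2 : zrun V z (t + 1) =
          zmove V (V.δ false (V.run z (fun _ => false) t).q
            (inSym z (V.run z (fun _ => false) t).p)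
            ((V.run z (fun _ => false) t).T (V.run z (fun _ => false) t).h)).2.1
            (V.δ false (V.run z (fun _ => false) t).q
            (inSym z (V.run z (fun _ => false) t).p)
            ((V.run z (fun _ => false) t).T (V.run z (fun _ => false) t).h)).2.2.2
            (zrun V z t).1 (zrun V z t).2 := by
        rw [zrun]
        simp only [h]
      rw [e2]
      generalize (V.δ false (V.run z (fun _ => false) t).q
            (inSym z (V.run z (fun _ => false) t).p)
            ((V.run z (fun _ => false) t).T (V.run z (fun _ => false) t).h)).2.1 = g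
      generalize (V.δ false (V.run z (fun _ => false) t).q
            (inSym z (V.run z (fun _ => false) t).p)
            ((V.run z (fun _ => false) t).T (V.run z (fun _ => false) t).h)).2.2.2 = dir at e1 ⊢
      cases dir with
      | stay =>
        simp only [moveTape] at e1
        simp only [zmove, List.length_cons, List.length_tail]
        refine ⟨⟨u, by omega⟩, ?_⟩
        by_cases h0 : (zrun V z t).2.length = 0
        · exact ⟨t + 1, by omega⟩
        · exact ⟨u', by omega⟩
      | right =>
        simp only [moveTape] at e1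
        simp only [zmove, List.length_cons, List.length_tail]
        refine ⟨⟨u, by omega⟩, ?_⟩
        by_cases h0 : (zrun V z t).2.length = 0
        · exact ⟨t + 1, by omega⟩
        · exact ⟨u', by omega⟩
      | left =>
        simp only [moveTape] at e1
        simp only [zmove, List.length_cons, List.length_tail]
        constructor
        · by_cases h0 : (zrun V z t).1.length = 0
          · exact ⟨t + 1, by omega⟩
          · exact ⟨u, by omega⟩
        · by_cases h0 : (zrun V z t).2.length = 0
          · exact ⟨t, by omega⟩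
          · exact ⟨u', by omega⟩

end DZip

theorem d_zip : StZip := by
  intro V z s t hs
  have hr := hs (fun _ => false)
  obtain ⟨⟨u, hu⟩, ⟨u', hu'⟩⟩ := DZip.inv V z t
  have hst := fun t => DZip.step_h V z (fun _ => false) t
  have h1 := DZip.dist (h := fun t => (V.run z (fun _ => false) t).h) hst hr u t
  have h2 := DZip.dist (h := fun t => (V.run z (fun _ => false) t).h) hst hr t u'
  constructor <;> omega

end Pool.Agent.Lib.MP_9dcf40_lc
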