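import Mathlib

/-!
# Turing machines with a read only input tape and a work tape, and complexity classes

All definitions of the final theorem. Languages are sets of finite words over a finite alphabet.
-/

namespace Pool.Agent.Lib.MP_9dcf40_lc

/-- What the input head sees: the left end marker, a letter of the input word, or the right end
marker. -/
inductive InSym (A : Type) : Type
  | left : InSym A
  | letter (a : A) : InSym A
  | right : InSym A
  deriving DecidableEq

/-- Directions. -/
inductive Dir : Type
  | left
  | stay
  | right
  deriving DecidableEq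

/-- The symbol at position `p` of the input tape of the word `x` of length `n`: position `0`
carries the left end marker, the positions `1, …, n` the letters, position `n + 1` the right end
marker. -/
def inSym {A : Type} (x : List A) (p : ℕ) : InSym A :=
  match p with
  | 0 => .left
  | p + 1 =>
    match x[p]? with
    | some a => .letter a
    | none => .right

/-- The new position of the input head; it never leaves the positions `0, …, n + 1`. -/
def movePos (n : ℕ) : Dir → ℕ → ℕ
  | .left, p => p - 1
  | .stay, p => p
  | .right, p => min (p + 1) (n + 1)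

/-- The new position of the head of the work tape, which is infinite in both directions. -/
def moveTape : Dir → ℤ → ℤ
  | .left, h => h - 1
  | .stay, h => h
  | .right, h => h + 1

/-- A Turing machine with input alphabet `A`, with a read only input tape and one work tape. `Q` is
the finite set of states, `G` the finite work alphabet. A state with `out q = some true` is
accepting, a state with `out q = some false` is rejecting, and the machine stops in both. In every
step one of the two transition functions `δ false` and `δ true` is applied (nondeterminism): given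
the state, the symbol under the input head and the symbol under the work head, it gives the new
state, the symbol written on the work tape, and the moves of the input head and of the work head. -/
structure TM (A : Type) : Type 1 where
  Q : Type
  G : Type
  finQ : Finite Q
  finG : Finite G
  start : Q
  blank : G
  out : Q → Option Bool
  δ : Bool → Q → InSym A → G → Q × G × Dir × Dir

/-- A configuration: state, position of the input head, position of the work head, work tape. -/
structure Cfg (Q G : Type) : Type where
  q : Q
  p : ℕ
  h : ℤ
  T : ℤ → G

namespace TM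

variable {A : Type}

/-- The initial configuration. -/
def init (M : TM A) : Cfg M.Q M.G := ⟨M.start, 0, 0, fun _ => M.blank⟩

/-- One step on the input word `x`, with the transition function `δ b`. -/
def next (M : TM A) (x : List A) (b : Bool) (c : Cfg M.Q M.G) : Cfg M.Q M.G :=
  match M.out c.q with
  | some _ => c
  | none =>
    let a := M.δ b c.q (inSym x c.p) (c.T c.h)
    { q := a.1
      p := movePos x.length a.2.2.1 c.p
      h := moveTape a.2.2.2 c.h
      T := Function.update c.T c.h a.2.1 }

/-- The configuration after `t` steps, when the choices in the steps are `ch 0, ch 1, …`. -/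
def run (M : TM A) (x : List A) (ch : ℕ → Bool) : ℕ → Cfg M.Q M.G
  | 0 => M.init
  | t + 1 => M.next x (ch t) (M.run x ch t)

/-- The machine is deterministic. -/
def IsDet (M : TM A) : Prop := M.δ true = M.δ false

/-- Some computation of `M` on `x` reaches an accepting state. -/
def Accepts (M : TM A) (x : List A) : Prop :=
  ∃ (ch : ℕ → Bool) (t : ℕ), M.out (M.run x ch t).q = some true

/-- Every computation of `M` on `x` stops after at most `T` steps. -/
def HaltsIn (M : TM A) (x : List A) (T : ℕ) : Prop :=
  ∀ ch : ℕ → Bool, M.out (M.run x ch T).q ≠ none

/-- In every computation of `M` on `x` at most `s` squares of the work tape are visited. -/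
def SpaceLe (M : TM A) (x : List A) (s : ℕ) : Prop :=
  ∀ ch : ℕ → Bool, (Set.range fun t => (M.run x ch t).h).encard ≤ s

end TM

/-- A complexity class: a set of languages over every finite alphabet. -/
abbrev LangClass : Type 1 := ∀ A : Type, Set (List A) → Prop

/-- The class `P`: languages accepted by deterministic machines in polynomial time. -/
def InP : LangClass := fun A L =>
  ∃ M : TM A, M.IsDet ∧ (∃ k : ℕ, ∀ x, M.HaltsIn x (x.length ^ k + k)) ∧ ∀ x, x ∈ L ↔ M.Accepts x

/-- The class `NP`: languages accepted by nondeterministic machines in polynomial time. -/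
def InNP : LangClass := fun A L =>
  ∃ M : TM A, (∃ k : ℕ, ∀ x, M.HaltsIn x (x.length ^ k + k)) ∧ ∀ x, x ∈ L ↔ M.Accepts x

/-- Deterministic time `2 ^ (k (log n + 1) ^ d)` for some `k`, where `d` is fixed (for `d = 1` this
is polynomial time). -/
def InQTime (d : ℕ) : LangClass := fun A L =>
  ∃ M : TM A, M.IsDet ∧ (∃ k : ℕ, ∀ x, M.HaltsIn x (2 ^ (k * (Nat.log 2 x.length + 1) ^ d))) ∧
    ∀ x, x ∈ L ↔ M.Accepts x

/-- Nondeterministic time `2 ^ (k (log n + 1) ^ d)` for some `k`, where `d` is fixed. -/
def InNQTime (d : ℕ) : LangClass := fun A L =>
  ∃ M : TM A, (∃ k : ℕ, ∀ x, M.HaltsIn x (2 ^ (k * (Nat.log 2 x.length + 1) ^ d))) ∧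
    ∀ x, x ∈ L ↔ M.Accepts x

/-- The class `POLYLOGSPACE`: languages accepted by deterministic machines which visit at most
`(log n) ^ k + k` squares of the work tape on the inputs of length `n`, for some `k`. (The machine
need not stop on the words outside the language.) -/
def InPolyL : LangClass := fun A L =>
  ∃ M : TM A, M.IsDet ∧ (∃ k : ℕ, ∀ x, M.SpaceLe x (Nat.log 2 x.length ^ k + k)) ∧
    ∀ x, x ∈ L ↔ M.Accepts x

/-- `C / F`: languages `L` for which there are a language `B` of the class `C` and advice words
`h n`, with a length function which satisfies `F`, such that `x ∈ L` iff the pair of `x` and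
`h |x|` is in `B`. The pair is the word `x` followed by the advice, in separate alphabets. -/
def Adv (C : LangClass) (F : (ℕ → ℕ) → Prop) : LangClass := fun A L =>
  ∃ (B : Set (List (A ⊕ Bool))) (h : ℕ → List Bool), C (A ⊕ Bool) B ∧
    F (fun n => (h n).length) ∧
    ∀ x : List A, x ∈ L ↔ x.map Sum.inl ++ (h x.length).map Sum.inr ∈ B

/-- The same as `Adv`, but the condition is required only for the words `x` of infinitely many
lengths. -/
def IoAdv (C : LangClass) (F : (ℕ → ℕ) → Prop) : LangClass := fun A L =>
  ∃ (B : Set (List (A ⊕ Bool))) (h : ℕ → List Bool), C (A ⊕ Bool) B ∧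
    F (fun n => (h n).length) ∧
    ∃ᶠ n in Filter.atTop, ∀ x : List A, x.length = n →
      (x ∈ L ↔ x.map Sum.inl ++ (h x.length).map Sum.inr ∈ B)

/-- Advice length `n ^ o(1)`. -/
def SubPoly (a : ℕ → ℕ) : Prop :=
  ∀ ε : ℝ, 0 < ε → ∀ᶠ n : ℕ in Filter.atTop, (a n : ℝ) ≤ (n : ℝ) ^ ε

/-- Polylogarithmic advice length. -/
def PolyLog (a : ℕ → ℕ) : Prop := ∃ k : ℕ, ∀ n : ℕ, a n ≤ Nat.log 2 n ^ k + k

/-- Advice length at most `n - n ^ ε` for some `ε > 0` and all large `n`. -/
def AlmostLin (a : ℕ → ℕ) : Prop :=
  ∃ ε : ℝ, 0 < ε ∧ ∀ᶠ n : ℕ in Filter.atTop, (a n : ℝ) ≤ (n : ℝ) - (n : ℝ) ^ ε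

/-- Inclusion of complexity classes (for languages over finite alphabets). -/
def Incl (C C' : LangClass) : Prop :=
  ∀ (A : Type) [Finite A] (L : Set (List A)), C A L → C' A L

end Pool.Agent.Lib.MP_9dcf40_lc
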