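import Pool.Agent.Lib.MP_9dcf40_lc.SpecF

/-!
# Number of configurations
-/

namespace Pool.Agent.Lib.MP_9dcf40_lc

namespace FClockAux

variable {B : Type} (V : TM B) (z : List B)

theorem run_det (hd : V.IsDet) (ch : ℕ → Bool) (t : ℕ) :
    V.run z ch t = V.run z (fun _ => false) t := by
  have hb : ∀ b, V.δ b = V.δ false := by
    intro b
    cases b
    · rfl
    · exact hd
  induction t with
  | zero => rfl
  | succ t ih =>
    rw [TM.run, TM.run, ih]
    unfold TM.next
    rw [hb (ch t)]

theorem next_cases (b : Bool) (c : Cfg V.Q V.G) :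
    V.next z b c = c ∨ ∃ (q : V.Q) (g : V.G) (d d' : Dir), V.next z b c =
      ⟨q, movePos z.length d c.p, moveTape d' c.h, Function.update c.T c.h g⟩ := by
  unfold TM.next
  cases h : V.out c.q with
  | some _ => exact Or.inl rfl
  | none => exact Or.inr ⟨_, _, _, _, rfl⟩

theorem movePos_le {n p : ℕ} (d : Dir) (h : p ≤ n + 1) : movePos n d p ≤ n + 1 := by
  cases d <;> simp only [movePos] <;> omega

theorem pos_le (t : ℕ) : (V.run z (fun _ => false) t).p ≤ z.length + 1 := by
  induction t with
  | zero => exact Nat.zero_le _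
  | succ t ih =>
    rw [TM.run]
    rcases next_cases V z false (V.run z (fun _ => false) t) with h | ⟨q, g, d, d', h⟩
    · rw [h]; exact ih
    · rw [h]; exact movePos_le d ih

theorem head_step (t : ℕ) :
    (V.run z (fun _ => false) (t + 1)).h ≤ (V.run z (fun _ => false) t).h + 1 ∧
      (V.run z (fun _ => false) t).h ≤ (V.run z (fun _ => false) (t + 1)).h + 1 := by
  rw [TM.run]
  rcases next_cases V z false (V.run z (fun _ => false) t) with h | ⟨q, g, d, d', h⟩
  · rw [h]; omega
  · rw [h]
    cases d' <;> simp only [moveTape] <;> omega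

theorem head_ivt (t : ℕ) (j : ℤ)
    (hj : (0 ≤ j ∧ j ≤ (V.run z (fun _ => false) t).h) ∨
      ((V.run z (fun _ => false) t).h ≤ j ∧ j ≤ 0)) :
    ∃ u, (V.run z (fun _ => false) u).h = j := by
  induction t with
  | zero =>
    refine ⟨0, ?_⟩
    have h0 : (V.run z (fun _ => false) 0).h = 0 := rfl
    rw [h0] at hj ⊢
    omega
  | succ t ih =>
    by_cases h : (V.run z (fun _ => false) (t + 1)).h = j
    · exact ⟨t + 1, h⟩
    · apply ih
      obtain ⟨h1, h2⟩ := head_step V z t
      omega

theorem head_le {s : ℕ} (hs : V.SpaceLe z s) (t : ℕ) :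
    -(s : ℤ) ≤ (V.run z (fun _ => false) t).h ∧ (V.run z (fun _ => false) t).h ≤ s := by
  have h1 := hs (fun _ => false)
  have h2 : ((Finset.uIcc 0 (V.run z (fun _ => false) t).h : Finset ℤ) : Set ℤ) ⊆
      Set.range fun t => (V.run z (fun _ => false) t).h := by
    intro j hj
    rw [Finset.mem_coe, Finset.mem_uIcc] at hj
    obtain ⟨u, hu⟩ := head_ivt V z t j (by
      rcases le_total 0 (V.run z (fun _ => false) t).h with h | h
      · rw [min_eq_left h, max_eq_right h] at hj
        exact Or.inl hj
      · rw [min_eq_right h, max_eq_left h] at hj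
        exact Or.inr hj)
    exact ⟨u, hu⟩
  have h3 := (Set.encard_le_encard h2).trans h1
  rw [Set.encard_coe_eq_coe_finsetCard, Int.card_uIcc] at h3
  have h4 : ((V.run z (fun _ => false) t).h - 0).natAbs + 1 ≤ s := by exact_mod_cast h3
  omega

theorem tape_blank {s : ℕ} (hs : V.SpaceLe z s) (t : ℕ) (i : ℤ) (hi : i < -(s : ℤ) ∨ (s : ℤ) < i) :
    (V.run z (fun _ => false) t).T i = V.blank := by
  induction t with
  | zero => rfl
  | succ t ih =>
    rw [TM.run]
    rcases next_cases V z false (V.run z (fun _ => false) t) with h | ⟨q, g, d, d', h⟩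
    · rw [h]; exact ih
    · rw [h]
      have hne : i ≠ (V.run z (fun _ => false) t).h := by
        have := head_le V z hs t
        omega
      show Function.update _ _ _ _ = _
      rw [Function.update_of_ne hne]
      exact ih

theorem run_shift {i j : ℕ} (h : V.run z (fun _ => false) i = V.run z (fun _ => false) j) (k : ℕ) :
    V.run z (fun _ => false) (i + k) = V.run z (fun _ => false) (j + k) := by
  induction k with
  | zero => exact h
  | succ k ih =>
    rw [← Nat.add_assoc, ← Nat.add_assoc, TM.run, TM.run, ih]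

/-- The data which determine a configuration of the run. -/
def enc (s : ℕ) (c : Cfg V.Q V.G) :
    V.Q × Fin (z.length + 2) × Fin (2 * s + 1) × (Fin (2 * s + 1) → V.G) :=
  (c.q, ⟨min c.p (z.length + 1), by omega⟩, ⟨min (c.h + s).toNat (2 * s), by omega⟩,
    fun i => c.T ((i : ℤ) - s))

theorem enc_inj {s : ℕ} (hs : V.SpaceLe z s) (i j : ℕ)
    (h : enc V z s (V.run z (fun _ => false) i) = enc V z s (V.run z (fun _ => false) j)) :
    V.run z (fun _ => false) i = V.run z (fun _ => false) j := by
  have hp := pos_le V z i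
  have hp' := pos_le V z j
  have hh := head_le V z hs i
  have hh' := head_le V z hs j
  have hT := tape_blank V z hs i
  have hT' := tape_blank V z hs j
  generalize V.run z (fun _ => false) i = c at *
  generalize V.run z (fun _ => false) j = c' at *
  obtain ⟨q, p, hd, T⟩ := c
  obtain ⟨q', p', hd', T'⟩ := c'
  simp only [enc, Prod.mk.injEq, Fin.mk.injEq] at h
  obtain ⟨h1, h2, h3, h4⟩ := h
  simp only at hp hp' hh hh' hT hT'
  have e1 : p = p' := by omega
  have e2 : hd = hd' := by omega
  have e3 : T = T' := by
    funext x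
    by_cases hx : x < -(s : ℤ) ∨ (s : ℤ) < x
    · rw [hT x hx, hT' x hx]
    · have h5 := congrFun h4 ⟨(x + s).toNat, by omega⟩
      simp only at h5
      have h6 : (((x + s).toNat : ℕ) : ℤ) - s = x := by omega
      rw [h6] at h5
      exact h5
  rw [h1, e1, e2, e3]

end FClockAux

open FClockAux in
theorem f_clock : StClock := by
  intro B V z s hdet hs hacc
  classical
  have hfQ := V.finQ
  have hfG := V.finG
  have hex : ∃ t, V.out (V.run z (fun _ => false) t).q = some true := by
    obtain ⟨ch, t, ht⟩ := hacc
    rw [run_det V z hdet] at ht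
    exact ⟨t, ht⟩
  refine ⟨Nat.find hex, ?_, Nat.find_spec hex⟩
  have hinj : Function.Injective fun i : Fin (Nat.find hex + 1) =>
      enc V z s (V.run z (fun _ => false) i) := by
    have key : ∀ i j : ℕ, i < j → j ≤ Nat.find hex →
        V.run z (fun _ => false) i ≠ V.run z (fun _ => false) j := by
      intro i j hij hj h
      have h1 := run_shift V z h (Nat.find hex - j)
      have h2 : j + (Nat.find hex - j) = Nat.find hex := by omega
      rw [h2] at h1
      have h3 := Nat.find_spec hex
      rw [← h1] at h3
      exact Nat.find_min hex (by omega) h3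
    intro i j hij
    have h1 := enc_inj V z hs i j hij
    rcases lt_trichotomy (i : ℕ) (j : ℕ) with h | h | h
    · exact absurd h1 (key _ _ h (by have := j.2; omega))
    · exact Fin.ext h
    · exact absurd h1.symm (key _ _ h (by have := i.2; omega))
  have hcard := Nat.card_le_card_of_injective _ hinj
  rw [Nat.card_fin, Nat.card_prod, Nat.card_prod, Nat.card_prod, Nat.card_fun, Nat.card_fin,
    Nat.card_fin] at hcard
  calc Nat.find hex < Nat.find hex + 1 := Nat.lt_succ_self _
    _ ≤ _ := hcard
    _ = _ := by ring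

end Pool.Agent.Lib.MP_9dcf40_lc
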