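import Pool.Agent.Lib.MP_9dcf40_lc.SpecF

/-!
# The diagonal language
-/

namespace Pool.Agent.Lib.MP_9dcf40_lc

open Filter

namespace FDiag

theorem spaceLe_mono {A : Type} {M : TM A} {z : List A} {s s' : ℕ} (h : M.SpaceLe z s)
    (hs : s ≤ s') : M.SpaceLe z s' := fun ch => (h ch).trans (by exact_mod_cast hs)

theorem logpow_mono {a b k : ℕ} (h : a ≤ b) : Nat.log 2 a ^ k + k ≤ Nat.log 2 b ^ k + k :=
  Nat.add_le_add_right (Nat.pow_le_pow_left (Nat.log_mono_right h) k) k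

theorem vword_length (x : List DA) (m : ℕ) (f : List DA) :
    (vword x m f).length = x.length + 2 ^ m + f.length := by
  simp [vword, pairL, padL, Nat.add_assoc]

theorem dform_length {x f₁ f₂ f₃ rest : List DA} {m : ℕ} (h : DForm x f₁ f₂ f₃ m rest) :
    f₃.length ≤ x.length := by
  rw [h.1]
  simp
  omega

end FDiag

open FDiag in
theorem f_diag (hC : StCompD) (hT : StDTotal) (hK : StClock) (hN : StNumD) : StDiag := by
  classical
  intro V k d hdet hsp
  have : Finite V.Q := V.finQ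
  have : Finite V.G := V.finG
  obtain ⟨e, hlarge, k', hk'⟩ := hN (Nat.card V.Q) (Nat.card V.G) k d
  obtain ⟨M, hMdet, hM⟩ := hC DA (DG V.G) DN (diagR V d e)
  -- the space bound
  have hV : ∀ (n : ℕ) (z : List VB), z.length ≤ 2 * n + 2 ^ (Nat.size n + 1) ^ d →
      V.SpaceLe z (Nat.log 2 (2 * n + 2 ^ (Nat.size n + 1) ^ d) ^ k + k) := fun n z hz =>
    spaceLe_mono (hsp z) (logpow_mono hz)
  have key : ∀ x : List DA, ∃ b : Bool, (M.Accepts x ↔ b = true) ∧
      M.SpaceLe x (Nat.log 2 x.length ^ k' + k') ∧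
      ∀ f₁ f₂ f₃ m rest, DForm x f₁ f₂ f₃ m rest → m ≤ (Nat.size x.length + 1) ^ d →
      (b = false ↔ ∃ t < 2 ^ (Nat.size x.length + 1) ^ e,
        V.out (V.run (vword x m f₃) (fun _ => false) t).q = some true) := by
    intro x
    have hb := hk' x.length
    set sV : ℕ := Nat.log 2 (2 * x.length + 2 ^ (Nat.size x.length + 1) ^ d) ^ k + k with hsV
    set P₁ : ℕ := (Nat.size x.length + 1) ^ d with hP₁
    set P₂ : ℕ := (Nat.size x.length + 1) ^ e with hP₂
    obtain ⟨T, b, D', hR, hiff⟩ := hT V d e x (fun _ => false)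
      (P₁ + P₂ + Nat.size x.length + sV + 3) sV (fun z hz => hV x.length z hz)
      (by omega) (by omega) (by omega) (by omega)
    obtain ⟨-, hacc, hspx⟩ := hM x _ T b D' (fun _ => false) hR
    exact ⟨b, hacc, spaceLe_mono hspx (by omega), hiff⟩
  refine ⟨{x | M.Accepts x}, ⟨M, hMdet, ⟨k', fun x => ?_⟩, fun x => Iff.rfl⟩, ?_⟩
  · obtain ⟨b, -, h, -⟩ := key x
    exact h
  filter_upwards [hlarge] with n hn x hx f₁ f₂ f₃ m rest hD hm
  subst hx
  obtain ⟨b, hacc, -, hiff⟩ := key x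
  have h1 := hiff f₁ f₂ f₃ m rest hD hm
  have hlen : (vword x m f₃).length ≤ 2 * x.length + 2 ^ (Nat.size x.length + 1) ^ d := by
    rw [vword_length]
    have h2 := dform_length hD
    have h3 : 2 ^ m ≤ 2 ^ (Nat.size x.length + 1) ^ d := Nat.pow_le_pow_right (by norm_num) hm
    omega
  have h4 : V.Accepts (vword x m f₃) ↔ ∃ t < 2 ^ (Nat.size x.length + 1) ^ e,
      V.out (V.run (vword x m f₃) (fun _ => false) t).q = some true := by
    constructor
    · intro ha
      obtain ⟨t, ht, ho⟩ := hK VB V (vword x m f₃) _ hdet (hsp _) ha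
      exact ⟨t, lt_of_lt_of_le ht (hn _ hlen), ho⟩
    · rintro ⟨t, -, ho⟩
      exact ⟨_, t, ho⟩
  show M.Accepts x ↔ _
  rw [hacc, h4, ← h1]
  simp

end Pool.Agent.Lib.MP_9dcf40_lc
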