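import Pool.Agent.Lib.MP_9dcf40_lc.SpecF

/-!
# First main statement
-/

namespace Pool.Agent.Lib.MP_9dcf40_lc

open Filter

namespace FMain1Aux

theorem next_eq {A : Type} (M : TM A) (x : List A) (b : Bool) (c : Cfg M.Q M.G)
    (h : M.out c.q ≠ none) : M.next x b c = c := by
  unfold TM.next
  cases h' : M.out c.q with
  | none => exact absurd h' h
  | some _ => rfl

theorem halts_succ {A : Type} (M : TM A) (x : List A) (T : ℕ) (h : M.HaltsIn x T) :
    M.HaltsIn x (T + 1) := by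
  intro ch
  show M.out (M.next x (ch T) (M.run x ch T)).q ≠ none
  rw [next_eq M x (ch T) _ (h ch)]
  exact h ch

theorem halts_mono {A : Type} (M : TM A) (x : List A) {T T' : ℕ} (hT : T ≤ T')
    (h : M.HaltsIn x T) : M.HaltsIn x T' := by
  induction hT with
  | refl => exact h
  | step _ ih => exact halts_succ M x _ ih

theorem pairL_length {α : Type} (x : List α) (w : List Bool) :
    (pairL x w).length = x.length + w.length := by
  simp [pairL]

theorem core (hC : StContr) (hN : StNumPoly) (nd : Bool) (C : LangClass)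
    (hCM : ∀ B' : Set (List DB), C DB B' → ∃ M : TM DB, (nd = false → M.IsDet) ∧
      (∃ k : ℕ, ∀ x, M.HaltsIn x (x.length ^ k + k)) ∧ ∀ x, x ∈ B' ↔ M.Accepts x)
    (B : Set (List VB)) (v : ℕ → List Bool) (hB : InPolyL VB B)
    (hv : ∀ y, y ∈ KU nd ↔ pairL y (v y.length) ∈ B) (hsub : SubPoly fun n => (v n).length) :
    ∃ D : Set (List DA), InPolyL DA D ∧ ¬ IoAdv C AlmostLin DA D := by
  obtain ⟨D, hD, hM⟩ := hC nd B v 2 hB hv
  refine ⟨D, hD, ?_⟩
  rintro ⟨B', h', hB', hlin, hfreq⟩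
  obtain ⟨M, hdet, ⟨k, hk⟩, hacc⟩ := hCM B' hB'
  obtain ⟨C₀, hC₀⟩ := hM M hdet
  have hnum := hN C₀ k (fun n => (v n).length) (fun n => (h' n).length) hsub hlin
  obtain ⟨n, hx, hn1, m, hm, hm1, hm2⟩ := (hfreq.and_eventually (hC₀.and hnum)).exists
  obtain ⟨x, hxn, hne⟩ := hn1 (h' n) m hm hm1 (fun x hxn => by
    refine halts_mono M _ ?_ (hk (pairL x (h' n)))
    rw [pairL_length, hxn]
    exact hm2)
  apply hne
  have h1 := hx x hxn
  rw [hxn] at h1
  exact h1.trans (hacc _)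

end FMain1Aux

open FMain1Aux in
theorem f_main1 (hC : StContr) (hN : StNumPoly) (hD : StKD) (hK : StKN) : StMain1 := by
  constructor
  · intro hincl
    obtain ⟨B, v, hB, hsub, hv⟩ := hincl (Option DA) KD hD
    exact core hC hN false InP (fun B' ⟨M, hdet, hk, hacc⟩ => ⟨M, fun _ => hdet, hk, hacc⟩)
      B v hB hv hsub
  · intro hincl
    obtain ⟨B, v, hB, hsub, hv⟩ := hincl (Option DA) KN hK
    exact core hC hN true InNP
      (fun B' ⟨M, hk, hacc⟩ => ⟨M, fun h => absurd h (by simp), hk, hacc⟩) B v hB hv hsub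

end Pool.Agent.Lib.MP_9dcf40_lc
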