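import Pool.Agent.Lib.MP_9dcf40_lc.SpecF

/-!
# Second main statement
-/

set_option autoImplicit false

namespace Pool.Agent.Lib.MP_9dcf40_lc

open Filter

namespace FMain2

theorem halts_mono {A : Type} (M : TM A) (z : List A) {T T' : ℕ} (h : M.HaltsIn z T)
    (hT : T ≤ T') : M.HaltsIn z T' := by
  intro ch
  induction T', hT using Nat.le_induction with
  | base => exact h ch
  | succ t _ ih =>
    have h1 : M.run z ch (t + 1) = M.next z (ch t) (M.run z ch t) := rfl
    rw [h1]
    rcases ho : M.out (M.run z ch t).q with _ | b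
    · exact absurd ho ih
    · have h2 : M.next z (ch t) (M.run z ch t) = M.run z ch t := by
        unfold TM.next
        rw [ho]
      rw [h2, ho]
      exact Option.some_ne_none b

theorem length_pairL {α : Type} (x : List α) (w : List Bool) :
    (pairL x w).length = x.length + w.length := by
  simp [pairL]

/-- the common part of the two claims -/
theorem main (hC : StContr) (hN : StNumQ) (nd : Bool) (d : ℕ)
    (hK : Adv InPolyL PolyLog (Option DA) (KU nd)) :
    ∃ D : Set (List DA), InPolyL DA D ∧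
      ∀ (M : TM DB) (k : ℕ) (h : ℕ → List Bool), (nd = false → M.IsDet) →
        (∀ x, M.HaltsIn x (2 ^ (k * (Nat.log 2 x.length + 1) ^ d))) →
        AlmostLin (fun n => (h n).length) →
        ¬ ∃ᶠ n in atTop, ∀ x : List DA, x.length = n →
          (x ∈ D ↔ M.Accepts (pairL x (h x.length))) := by
  obtain ⟨B, v, hB, hv, hiff⟩ := hK
  obtain ⟨D, hD, hM⟩ := hC nd B v (d + 1) hB hiff
  refine ⟨D, hD, fun M k h hdet hk hal hfreq => ?_⟩
  obtain ⟨C₀, hC₀⟩ := hM M hdet
  have hN' := hN C₀ k d (fun n => (v n).length) (fun n => (h n).length) hv hal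
  obtain ⟨n, hn1, hn2, m, hm, hm1, hm2⟩ := (hfreq.and_eventually (hC₀.and hN')).exists
  obtain ⟨x, hx, hne⟩ := hn2 (h n) m hm hm1 (fun x hx => by
    refine halts_mono M _ (hk _) ?_
    rw [length_pairL, hx]
    exact hm2)
  apply hne
  have := hn1 x hx
  rwa [hx] at this

end FMain2

open FMain2 in
theorem f_main2 (hC : StContr) (hN : StNumQ) (hD : StKD) (hK : StKN) : StMain2 := by
  constructor
  · intro hI d
    have h1 : Adv InPolyL PolyLog (Option DA) (KU false) := hI (Option DA) KD hD
    obtain ⟨D, hD1, hD2⟩ := main hC hN false d h1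
    refine ⟨D, hD1, ?_⟩
    rintro ⟨B', h, ⟨M, hdet, ⟨k, hk⟩, hacc⟩, hal, hfreq⟩
    refine hD2 M k h (fun _ => hdet) hk hal (hfreq.mono fun n hn x hx => ?_)
    rw [hn x hx, hacc]
    rfl
  · intro hI d
    have h1 : Adv InPolyL PolyLog (Option DA) (KU true) := hI (Option DA) KN hK
    obtain ⟨D, hD1, hD2⟩ := main hC hN true d h1
    refine ⟨D, hD1, ?_⟩
    rintro ⟨B', h, ⟨M, ⟨k, hk⟩, hacc⟩, hal, hfreq⟩
    refine hD2 M k h (fun hh => absurd hh (by simp)) hk hal (hfreq.mono fun n hn x hx => ?_)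
    rw [hn x hx, hacc]
    rfl

end Pool.Agent.Lib.MP_9dcf40_lc
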