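import Pool.Agent.Lib.MP_9dcf40_lc.SpecF

/-!
# Monotonicity of the advice classes
-/

namespace Pool.Agent.Lib.MP_9dcf40_lc

open Filter

namespace FMono

theorem natLog_le (n : ℕ) (hn : 1 ≤ n) : (Nat.log 2 n : ℝ) ≤ Real.log n / Real.log 2 := by
  have h1 : (2 : ℝ) ^ Nat.log 2 n ≤ n := by
    exact_mod_cast Nat.pow_log_le_self 2 (by omega)
  have h2 : (0 : ℝ) < Real.log 2 := Real.log_pos (by norm_num)
  rw [le_div_iff₀ h2, ← Real.log_pow]
  exact Real.log_le_log (by positivity) h1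

theorem polyLog_subPoly (a : ℕ → ℕ) (h : PolyLog a) : SubPoly a := by
  obtain ⟨k, hk⟩ := h
  intro ε hε
  have h2 : (0 : ℝ) < Real.log 2 := Real.log_pos (by norm_num)
  have h1 := (isLittleO_log_rpow_rpow_atTop (k : ℝ) hε).bound
    (show (0 : ℝ) < (Real.log 2) ^ k / 2 by positivity)
  have h3 := tendsto_natCast_atTop_atTop.eventually h1
  have h4 : ∀ᶠ n : ℕ in atTop, (2 * k : ℝ) ≤ (n : ℝ) ^ ε :=
    ((tendsto_rpow_atTop hε).comp tendsto_natCast_atTop_atTop).eventually_ge_atTop _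
  filter_upwards [h3, h4, eventually_ge_atTop 1] with n e3 e4 hn
  have hn' : (1 : ℝ) ≤ n := by exact_mod_cast hn
  have hlog : 0 ≤ Real.log n := Real.log_nonneg hn'
  have e5 : (a n : ℝ) ≤ (Nat.log 2 n : ℝ) ^ k + k := by exact_mod_cast hk n
  have e6 : (Nat.log 2 n : ℝ) ^ k ≤ (Real.log n / Real.log 2) ^ k :=
    pow_le_pow_left₀ (by positivity) (natLog_le n hn) k
  rw [div_pow] at e6
  have e7 : Real.log n ^ k ≤ Real.log 2 ^ k / 2 * (n : ℝ) ^ ε := by
    rw [Real.norm_of_nonneg (by positivity), Real.norm_of_nonneg (by positivity),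
      Real.rpow_natCast] at e3
    exact e3
  have e8 : Real.log n ^ k / Real.log 2 ^ k ≤ (n : ℝ) ^ ε / 2 := by
    rw [div_le_iff₀ (by positivity)]
    refine e7.trans (le_of_eq ?_)
    ring
  linarith

theorem subPoly_almostLin (a : ℕ → ℕ) (h : SubPoly a) : AlmostLin a := by
  refine ⟨1 / 2, by norm_num, ?_⟩
  filter_upwards [h (1 / 2) (by norm_num), eventually_ge_atTop 4] with n h1 hn
  have hn' : (4 : ℝ) ≤ n := by exact_mod_cast hn
  have h2 : 2 * (n : ℝ) ^ (1 / 2 : ℝ) ≤ n := by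
    rw [← Real.sqrt_eq_rpow]
    have h3 : Real.sqrt n * Real.sqrt n = n := Real.mul_self_sqrt (by linarith)
    have h4 : 2 ≤ Real.sqrt n := by
      rw [show (2 : ℝ) = Real.sqrt 4 by
        rw [show (4 : ℝ) = 2 ^ 2 by norm_num, Real.sqrt_sq (by norm_num)]]
      exact Real.sqrt_le_sqrt hn'
    nlinarith
  linarith

end FMono

theorem f_mono : StMono := by
  refine ⟨FMono.polyLog_subPoly, FMono.subPoly_almostLin, ⟨0, fun n => Nat.zero_le _⟩, ?_⟩
  rintro C F F' A L hFF ⟨B, h, hB, hF, hx⟩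
  refine ⟨⟨B, h, hB, hFF _ hF, hx⟩, ⟨B, h, hB, hFF _ hF, ?_⟩⟩
  exact Frequently.of_forall fun n x _ => hx x

end Pool.Agent.Lib.MP_9dcf40_lc
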