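import Pool.Agent.Lib.MP_9dcf40_lc.SpecF

/-!
# Numbers for polynomial time
-/

namespace Pool.Agent.Lib.MP_9dcf40_lc

open Filter

namespace FNumPoly

theorem two_pow_size_le {n : ℕ} (hn : 1 ≤ n) : 2 ^ Nat.size n ≤ 2 * n := by
  have h1 : Nat.size n ≠ 0 := by
    intro h
    have := Nat.size_eq_zero.1 h
    omega
  obtain ⟨s, hs⟩ := Nat.exists_eq_succ_of_ne_zero h1
  have h2 : 2 ^ s ≤ n := by
    apply Nat.lt_size.1
    omega
  rw [hs, pow_succ]
  omega

theorem size_le_log {n : ℕ} (hn : 1 ≤ n) :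
    ((Nat.size n : ℕ) : ℝ) ≤ 1 + 2 * Real.log n := by
  have h1 : ((2 : ℝ)) ^ Nat.size n ≤ 2 * (n : ℝ) := by
    exact_mod_cast two_pow_size_le hn
  have hn0 : (0 : ℝ) < n := by exact_mod_cast hn
  have h2 : (Nat.size n : ℝ) * Real.log 2 ≤ Real.log 2 + Real.log n := by
    have h3 := Real.log_le_log (by positivity) h1
    rwa [Real.log_pow, Real.log_mul (by norm_num) hn0.ne'] at h3
  have h4 : (1 / 2 : ℝ) ≤ Real.log 2 := by
    have := Real.log_two_gt_d9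
    linarith
  have h5 : 0 ≤ Real.log n := Real.log_natCast_nonneg n
  have h6 : 0 < Real.log 2 := by linarith
  by_contra hc
  push Not at hc
  have h7 : 2 * Real.log n * Real.log 2 < ((Nat.size n : ℝ) - 1) * Real.log 2 := by
    apply mul_lt_mul_of_pos_right _ h6
    linarith
  nlinarith

/-- The exponent `m` is eventually smaller than a power of `n`. -/
theorem eventually_m (k : ℕ) {δ : ℝ} (hδ : 0 < δ) :
    ∀ᶠ n : ℕ in atTop, (((k + 2) * (Nat.size n + 1) : ℕ) : ℝ) ≤ (n : ℝ) ^ δ := by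
  have h1 := (isLittleO_log_rpow_atTop hδ).def
    (show (0 : ℝ) < 1 / (4 * ((k : ℝ) + 2)) by positivity)
  have h2 := tendsto_natCast_atTop_atTop (R := ℝ) |>.eventually h1
  have h3 := (Real.tendsto_log_atTop.comp (tendsto_natCast_atTop_atTop (R := ℝ))).eventually
    (eventually_ge_atTop (1 : ℝ))
  filter_upwards [h2, h3, eventually_ge_atTop 1] with n hn2 hn3 hn1
  have hn0 : (0 : ℝ) < n := by exact_mod_cast hn1
  have h4 : Real.log n ≤ 1 / (4 * ((k : ℝ) + 2)) * (n : ℝ) ^ δ := by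
    have h5 : ‖Real.log (n : ℝ)‖ = Real.log n := by
      rw [Real.norm_eq_abs, abs_of_nonneg (Real.log_natCast_nonneg n)]
    have h6 : ‖(n : ℝ) ^ δ‖ = (n : ℝ) ^ δ := by
      rw [Real.norm_eq_abs, abs_of_nonneg (Real.rpow_nonneg hn0.le _)]
    rw [h5, h6] at hn2
    exact hn2
  have h7 : (1 : ℝ) ≤ Real.log n := hn3
  have h8 := size_le_log hn1
  have h9 : (0 : ℝ) < (k : ℝ) + 2 := by positivity
  have h10 : 4 * ((k : ℝ) + 2) * Real.log n ≤ (n : ℝ) ^ δ := by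
    have h11 := mul_le_mul_of_nonneg_left h4 (show 0 ≤ 4 * ((k : ℝ) + 2) by positivity)
    have h12 : 4 * ((k : ℝ) + 2) * (1 / (4 * ((k : ℝ) + 2)) * (n : ℝ) ^ δ) = (n : ℝ) ^ δ := by
      field_simp
    rwa [h12] at h11
  push_cast
  calc ((k : ℝ) + 2) * ((Nat.size n : ℝ) + 1) ≤ ((k : ℝ) + 2) * (4 * Real.log n) := by
        apply mul_le_mul_of_nonneg_left _ h9.le
        linarith
    _ = 4 * ((k : ℝ) + 2) * Real.log n := by ring
    _ ≤ (n : ℝ) ^ δ := h10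

/-- The length `N = n + 2 ^ m` is polynomial in `n`. -/
theorem N_le (k : ℕ) {n : ℕ} (hn : 4 ≤ n) :
    n + 2 ^ ((k + 2) * (Nat.size n + 1)) ≤ n ^ (2 * k + 5) := by
  have h1 : 2 ^ (Nat.size n + 1) ≤ n ^ 2 := by
    have := two_pow_size_le (n := n) (by omega)
    rw [pow_succ]
    nlinarith
  have h2 : 2 ^ ((k + 2) * (Nat.size n + 1)) ≤ n ^ (2 * k + 4) := by
    calc 2 ^ ((k + 2) * (Nat.size n + 1)) = (2 ^ (Nat.size n + 1)) ^ (k + 2) := by
          rw [← pow_mul, mul_comm]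
      _ ≤ (n ^ 2) ^ (k + 2) := Nat.pow_le_pow_left h1 _
      _ = n ^ (2 * k + 4) := by rw [← pow_mul]; congr 1
  have h3 : n ≤ n ^ (2 * k + 4) := Nat.le_self_pow (by omega) n
  calc n + 2 ^ ((k + 2) * (Nat.size n + 1)) ≤ n ^ (2 * k + 4) + n ^ (2 * k + 4) := by omega
    _ = n ^ (2 * k + 4) * 2 := by ring
    _ ≤ n ^ (2 * k + 4) * n := Nat.mul_le_mul_left _ (by omega)
    _ = n ^ (2 * k + 5) := by rw [← pow_succ]

/-- The time bound. -/
theorem time_le (k : ℕ) {n b : ℕ} (hb : b ≤ n) :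
    (n + b) ^ k + k ≤ 2 ^ ((k + 2) * (Nat.size n + 1)) := by
  have h1 : n < 2 ^ Nat.size n := Nat.lt_size_self n
  have h2 : n + b ≤ 2 ^ (Nat.size n + 1) := by
    rw [pow_succ]; omega
  have h3 : (n + b) ^ k ≤ 2 ^ (k * (Nat.size n + 1)) := by
    calc (n + b) ^ k ≤ (2 ^ (Nat.size n + 1)) ^ k := Nat.pow_le_pow_left h2 _
      _ = 2 ^ (k * (Nat.size n + 1)) := by rw [← pow_mul, mul_comm]
  have h4 : k ≤ 2 ^ (k * (Nat.size n + 1)) := by
    calc k ≤ 2 ^ k := Nat.lt_two_pow_self.le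
      _ ≤ 2 ^ (k * (Nat.size n + 1)) := by
        apply Nat.pow_le_pow_right (by norm_num)
        exact Nat.le_mul_of_pos_right _ (by omega)
  calc (n + b) ^ k + k ≤ 2 ^ (k * (Nat.size n + 1)) + 2 ^ (k * (Nat.size n + 1)) := by omega
    _ = 2 ^ (k * (Nat.size n + 1) + 1) := by rw [pow_succ]; ring
    _ ≤ 2 ^ ((k + 2) * (Nat.size n + 1)) := by
      apply Nat.pow_le_pow_right (by norm_num)
      nlinarith

end FNumPoly

open FNumPoly in
theorem f_numpoly : StNumPoly := by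
  intro C₀ k a b ha hb
  obtain ⟨ε, hε, hb⟩ := hb
  set δ : ℝ := min ε (1 / 2) with hδdef
  have hδ : 0 < δ := lt_min hε (by norm_num)
  have hδε : δ ≤ ε := min_le_left _ _
  set K : ℕ := 2 * k + 5 with hK
  have hKpos : (0 : ℝ) < (K : ℝ) := by rw [hK]; positivity
  set ε' : ℝ := δ / (2 * K) with hε'
  have hε'pos : 0 < ε' := by positivity
  obtain ⟨N₀, hN₀⟩ := eventually_atTop.1 (ha ε' hε'pos)
  have hx : Tendsto (fun n : ℕ => (n : ℝ) ^ (δ / 2)) atTop atTop :=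
    (tendsto_rpow_atTop (half_pos hδ)).comp tendsto_natCast_atTop_atTop
  filter_upwards [hb, eventually_m k (half_pos hδ), hx.eventually (eventually_ge_atTop (3 : ℝ)),
    hx.eventually (eventually_ge_atTop (C₀ : ℝ)), eventually_ge_atTop 4,
    eventually_ge_atTop N₀, eventually_ge_atTop (2 ^ (k + 2))] with n hbn hm h3 hC h4 hN hk
  have hn1 : (1 : ℝ) ≤ n := by
    have : 1 ≤ n := by omega
    exact_mod_cast this
  have hn0 : (0 : ℝ) < n := by linarith
  have hbδ : (b n : ℝ) ≤ (n : ℝ) - (n : ℝ) ^ δ := by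
    have := Real.rpow_le_rpow_of_exponent_le hn1 hδε
    linarith
  have hbn' : b n ≤ n := by
    have h5 : (0 : ℝ) ≤ (n : ℝ) ^ δ := Real.rpow_nonneg hn0.le _
    have h6 : (b n : ℝ) ≤ (n : ℝ) := by linarith
    exact_mod_cast h6
  refine ⟨(k + 2) * (Nat.size n + 1), ?_, ?_, time_le k hbn'⟩
  · have h5 : k + 2 < Nat.size n := Nat.lt_size.2 hk
    rw [sq]
    apply Nat.mul_le_mul_right
    omega
  · have hNle := N_le k h4
    have hage : N₀ ≤ n + 2 ^ ((k + 2) * (Nat.size n + 1)) := le_trans hN (Nat.le_add_right _ _)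
    have haN := hN₀ _ hage
    have haN' : (a (n + 2 ^ ((k + 2) * (Nat.size n + 1))) : ℝ) ≤ (n : ℝ) ^ (δ / 2) := by
      refine haN.trans ?_
      have h5 : ((n + 2 ^ ((k + 2) * (Nat.size n + 1)) : ℕ) : ℝ) ≤ (n : ℝ) ^ K := by
        exact_mod_cast hNle
      calc ((n + 2 ^ ((k + 2) * (Nat.size n + 1)) : ℕ) : ℝ) ^ ε' ≤ ((n : ℝ) ^ K) ^ ε' :=
            Real.rpow_le_rpow (Nat.cast_nonneg _) h5 hε'pos.le
        _ = (n : ℝ) ^ (δ / 2) := by
          rw [← Real.rpow_natCast, ← Real.rpow_mul hn0.le]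
          congr 1
          rw [hε']
          field_simp
    have hsq : (n : ℝ) ^ δ = (n : ℝ) ^ (δ / 2) * (n : ℝ) ^ (δ / 2) := by
      rw [← Real.rpow_add hn0]
      congr 1
      ring
    have hfin : (C₀ : ℝ) + b n + a (n + 2 ^ ((k + 2) * (Nat.size n + 1))) +
        (((k + 2) * (Nat.size n + 1) : ℕ) : ℝ) ≤ n := by
      have h6 : 3 * (n : ℝ) ^ (δ / 2) ≤ (n : ℝ) ^ δ := by
        rw [hsq]
        apply mul_le_mul_of_nonneg_right h3
        linarith
      linarith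
    exact_mod_cast hfin

end Pool.Agent.Lib.MP_9dcf40_lc
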