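import Pool.Agent.Lib.MP_9dcf40_lc.SpecF

/-!
# Empty advice
-/

namespace Pool.Agent.Lib.MP_9dcf40_lc

namespace FTriv

variable {A : Type}

/-- translation of letters -/
def cl (a₀ : A) : A ⊕ Bool → A
  | .inl a => a
  | .inr _ => a₀

/-- translation of input symbols -/
def cs (a₀ : A) : InSym (A ⊕ Bool) → InSym A
  | .left => .left
  | .letter a => .letter (cl a₀ a)
  | .right => .right

theorem inSym_map (a₀ : A) (z : List (A ⊕ Bool)) (p : ℕ) :
    inSym (z.map (cl a₀)) p = cs a₀ (inSym z p) := by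
  cases p with
  | zero => rfl
  | succ p =>
    simp only [inSym, List.getElem?_map]
    cases z[p]? <;> rfl

/-- the translated machine -/
def tr (a₀ : A) (M : TM A) : TM (A ⊕ Bool) where
  Q := M.Q
  G := M.G
  finQ := M.finQ
  finG := M.finG
  start := M.start
  blank := M.blank
  out := M.out
  δ := fun b q a g => M.δ b q (cs a₀ a) g

theorem run_tr (a₀ : A) (M : TM A) (z : List (A ⊕ Bool)) (ch : ℕ → Bool) (t : ℕ) :
    ((tr a₀ M).run z ch t : Cfg M.Q M.G) = M.run (z.map (cl a₀)) ch t := by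
  induction t with
  | zero => rfl
  | succ t ih =>
    change ((tr a₀ M).next z (ch t) ((tr a₀ M).run z ch t) : Cfg M.Q M.G)
      = M.next (z.map (cl a₀)) (ch t) (M.run (z.map (cl a₀)) ch t)
    have key : ∀ cf : Cfg M.Q M.G, ((tr a₀ M).next z (ch t) cf : Cfg M.Q M.G)
        = M.next (z.map (cl a₀)) (ch t) cf := by
      intro cf
      unfold TM.next
      rw [inSym_map, List.length_map]
      rfl
    rw [← ih]
    exact key _

theorem acc_tr (a₀ : A) (M : TM A) (z : List (A ⊕ Bool)) :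
    (tr a₀ M).Accepts z ↔ M.Accepts (z.map (cl a₀)) := by
  constructor
  · rintro ⟨ch, t, h⟩
    refine ⟨ch, t, ?_⟩
    rw [← run_tr a₀ M z ch t]
    exact h
  · rintro ⟨ch, t, h⟩
    refine ⟨ch, t, ?_⟩
    rw [← run_tr a₀ M z ch t] at h
    exact h

theorem halts_tr (a₀ : A) (M : TM A) (z : List (A ⊕ Bool)) (T : ℕ)
    (h : M.HaltsIn (z.map (cl a₀)) T) : (tr a₀ M).HaltsIn z T := by
  intro ch
  have := h ch
  rw [← run_tr a₀ M z ch T] at this
  exact this

theorem space_tr (a₀ : A) (M : TM A) (z : List (A ⊕ Bool)) (s : ℕ)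
    (h : M.SpaceLe (z.map (cl a₀)) s) : (tr a₀ M).SpaceLe z s := by
  intro ch
  have := h ch
  have e : (fun t => (M.run (z.map (cl a₀)) ch t).h)
      = fun t => ((tr a₀ M).run z ch t).h := by
    funext t
    rw [← run_tr a₀ M z ch t]
  rw [e] at this
  exact this

theorem map_inl (a₀ : A) (x : List A) :
    (x.map Sum.inl ++ ([] : List Bool).map Sum.inr).map (cl a₀) = x := by
  simp [List.map_map, Function.comp_def, cl]

end FTriv

open FTriv in
theorem f_triv : StTriv := by
  intro A a₀ L F hF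
  refine ⟨?_, ?_, ?_⟩
  · rintro ⟨M, hdet, ⟨k, hk⟩, hL⟩
    refine ⟨{z | (tr a₀ M).Accepts z}, fun _ => [], ⟨tr a₀ M, ?_, ⟨k, ?_⟩, fun z => Iff.rfl⟩, hF,
      ?_⟩
    · unfold TM.IsDet at hdet ⊢
      funext q a g
      exact congrFun (congrFun (congrFun hdet q) (cs a₀ a)) g
    · intro z
      have := halts_tr a₀ M z _ (hk (z.map (cl a₀)))
      simpa only [List.length_map] using this
    · intro x
      rw [Set.mem_ofPred_eq, acc_tr, map_inl]
      exact hL x
  · rintro ⟨M, ⟨k, hk⟩, hL⟩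
    refine ⟨{z | (tr a₀ M).Accepts z}, fun _ => [], ⟨tr a₀ M, ⟨k, ?_⟩, fun z => Iff.rfl⟩, hF,
      ?_⟩
    · intro z
      have := halts_tr a₀ M z _ (hk (z.map (cl a₀)))
      simpa only [List.length_map] using this
    · intro x
      rw [Set.mem_ofPred_eq, acc_tr, map_inl]
      exact hL x
  · rintro ⟨M, hdet, ⟨k, hk⟩, hL⟩
    refine ⟨{z | (tr a₀ M).Accepts z}, fun _ => [], ⟨tr a₀ M, ?_, ⟨k, ?_⟩, fun z => Iff.rfl⟩, hF,
      ?_⟩
    · unfold TM.IsDet at hdet ⊢
      funext q a g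
      exact congrFun (congrFun (congrFun hdet q) (cs a₀ a)) g
    · intro z
      have := space_tr a₀ M z _ (hk (z.map (cl a₀)))
      simpa only [List.length_map] using this
    · intro x
      rw [Set.mem_ofPred_eq, acc_tr, map_inl]
      exact hL x

end Pool.Agent.Lib.MP_9dcf40_lc
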