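import Pool.Agent.Lib.MP_9dcf40_lc.SpecA

/-!
# Simulation of one instruction of a routine by the compiled Turing machine
-/

namespace Pool.Agent.Lib.MP_9dcf40_lc

namespace Macro

variable {A Γ ι : Type}

/-- `cf` goes to `cf'` in `n` steps, for all choices, and the head stays in `[0, s]`. -/
def Reach (M : TM A) (x : List A) (s : ℕ) (cf : Cfg M.Q M.G) (n : ℕ) (cf' : Cfg M.Q M.G) : Prop :=
  ∀ ch : ℕ → Bool, M.runFrom x ch cf n = cf' ∧
    ∀ m ≤ n, 0 ≤ (M.runFrom x ch cf m).h ∧ (M.runFrom x ch cf m).h ≤ s

theorem Reach.refl {M : TM A} {x : List A} {s : ℕ} {cf : Cfg M.Q M.G} (h0 : 0 ≤ cf.h)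
    (hs : cf.h ≤ s) : Reach M x s cf 0 cf := by
  intro ch
  refine ⟨rfl, fun m hm => ?_⟩
  obtain rfl : m = 0 := by omega
  exact ⟨h0, hs⟩

theorem Reach.snoc {M : TM A} {x : List A} {s n : ℕ} {cf cf' cf'' : Cfg M.Q M.G}
    (h : Reach M x s cf n cf') (hn : ∀ b, M.next x b cf' = cf'') (h0 : 0 ≤ cf''.h)
    (hs : cf''.h ≤ s) : Reach M x s cf (n + 1) cf'' := by
  intro ch
  obtain ⟨h1, h2⟩ := h ch
  have h3 : M.runFrom x ch cf (n + 1) = cf'' := by
    show M.next x (ch n) (M.runFrom x ch cf n) = cf''
    rw [h1]
    exact hn _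
  refine ⟨h3, fun m hm => ?_⟩
  rcases Nat.lt_or_ge n m with h4 | h4
  · obtain rfl : m = n + 1 := by omega
    rw [h3]
    exact ⟨h0, hs⟩
  · exact h2 m h4

section

variable [Finite Γ] [Finite ι] [DecidableEq ι] {R : Rout A Γ ι Bool} {nd : Bool} {x : List A}

/-- One step of the compiled machine in a state which is not halting. -/
theorem next_eq (b : Bool) (q : CQ R.S) (p : ℕ) (h : ℤ) (T : ℤ → CG Γ ι)
    (r : CQ R.S × CG Γ ι × Dir × Dir) (hq : compOut R.S q = none)
    (hr : compδ R nd b q (inSym x p) (T h) = r) :
    (compTM R nd).next x b (⟨q, p, h, T⟩ : Cfg (CQ R.S) (CG Γ ι)) =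
      (⟨r.1, movePos x.length r.2.2.1 p, moveTape r.2.2.2 h, Function.update T h r.2.1⟩ :
        Cfg (CQ R.S) (CG Γ ι)) := by
  subst hr
  show (match compOut R.S q with
    | some _ => (⟨q, p, h, T⟩ : Cfg (CQ R.S) (CG Γ ι))
    | none => _) = _
  rw [hq]
  rfl

/-- The walk to the right. -/
theorem walk_right {s : ℕ} {σ : R.S} {p : ℕ} {T : ℤ → CG Γ ι} (len : ℕ) (hlen : len ≤ s)
    (hstep : ∀ (b : Bool) (j : ℕ), j < len →
      compδ R nd b (.run (.inl σ)) (inSym x p) (T j) =
        (.run (.inl σ), T j, .stay, .right)) (k : ℕ) (hk : k ≤ len) :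
    Reach (compTM R nd) x s (⟨.run (.inl σ), p, 0, T⟩ : Cfg (CQ R.S) (CG Γ ι)) k
      (⟨.run (.inl σ), p, k, T⟩ : Cfg (CQ R.S) (CG Γ ι)) := by
  induction k with
  | zero =>
    refine Reach.refl (M := compTM R nd) le_rfl ?_
    show (0 : ℤ) ≤ s
    positivity
  | succ k ih =>
    refine Reach.snoc (ih (by omega)) (fun b => ?_) ?_ ?_
    · rw [next_eq b _ _ _ _ _ rfl (hstep b k (by omega))]
      simp only [movePos, moveTape, Function.update_eq_self, Nat.cast_add, Nat.cast_one]
    · show (0 : ℤ) ≤ ((k + 1 : ℕ) : ℤ)
      positivity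
    · show ((k + 1 : ℕ) : ℤ) ≤ s
      exact_mod_cast (hk.trans hlen)

/-- The walk to the left. -/
theorem walk_left {s : ℕ} {t : R.S ⊕ Bool} {p : ℕ} {T : ℤ → CG Γ ι} (len : ℕ) (hlen : len ≤ s)
    (hT : ∀ j : ℕ, (T j).1 = decide (j = 0)) {cf : Cfg (CQ R.S) (CG Γ ι)} {n : ℕ}
    (h : Reach (compTM R nd) x s cf n (⟨.back t, p, len, T⟩ : Cfg (CQ R.S) (CG Γ ι))) :
    Reach (compTM R nd) x s cf (n + len + 1) (⟨.run t, p, 0, T⟩ : Cfg (CQ R.S) (CG Γ ι)) := by
  have key : ∀ k ≤ len, Reach (compTM R nd) x s cf (n + k)
      (⟨.back t, p, ((len - k : ℕ) : ℤ), T⟩ : Cfg (CQ R.S) (CG Γ ι)) := by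
    intro k
    induction k with
    | zero => intro _; exact h
    | succ k ih =>
      intro hk
      refine Reach.snoc (ih (by omega)) (fun b => ?_) ?_ ?_
      · have h1 : compδ R nd b (.back t) (inSym x p) (T ((len - k : ℕ) : ℤ)) =
            (.back t, T ((len - k : ℕ) : ℤ), .stay, .left) := by
          have h2 : (T ((len - k : ℕ) : ℤ)).1 = false := by
            rw [hT]
            simp only [decide_eq_false_iff_not]
            omega
          simp only [compδ, h2, Bool.false_eq_true, if_false]
        rw [next_eq b _ _ _ _ _ rfl h1]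
        have h3 : ((len - k : ℕ) : ℤ) - 1 = ((len - (k + 1) : ℕ) : ℤ) := by omega
        simp only [movePos, moveTape, Function.update_eq_self, h3]
      · show (0 : ℤ) ≤ ((len - (k + 1) : ℕ) : ℤ)
        positivity
      · show ((len - (k + 1) : ℕ) : ℤ) ≤ s
        have : len - (k + 1) ≤ s := by omega
        exact_mod_cast this
  have h1 := key len le_rfl
  rw [Nat.sub_self] at h1
  refine Reach.snoc h1 (fun b => ?_) ?_ ?_
  · have h2 : compδ R nd b (.back t) (inSym x p) (T ((0 : ℕ) : ℤ)) =
        (.run t, T ((0 : ℕ) : ℤ), .stay, .stay) := by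
      have h3 : (T ((0 : ℕ) : ℤ)).1 = true := by
        rw [hT]
        rfl
      simp only [compδ, h3, if_true]
    rw [next_eq b _ _ _ _ _ rfl h2]
    simp only [movePos, moveTape, Function.update_eq_self, Nat.cast_zero]
  · show (0 : ℤ) ≤ 0
    exact le_rfl
  · show (0 : ℤ) ≤ s
    positivity

end

theorem getElem?_append_last {l : List Γ} (a : Γ) (j : ℕ) :
    (l ++ [a])[j]? = if j = l.length then some a else l[j]? := by
  split_ifs with h
  · subst h
    simp
  · rcases Nat.lt_or_ge j l.length with h1 | h1
    · rw [List.getElem?_append_left h1]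
    · have h2 : l.length < j := by omega
      rw [List.getElem?_eq_none (by simp; omega), List.getElem?_eq_none (by omega)]

end Macro

open Macro in
/-- Simulation of one instruction. -/
theorem macro_step : StMacro := by
  intro A Γ ι _ _ _ R nd x s σ d c u d₁ c₁ b hds hd₁s hst hc cf hq hrep
  obtain ⟨q, p, h, T⟩ := cf
  obtain ⟨hp, hh, hT⟩ := hrep
  dsimp only at hq hp hh hT
  subst hq hh
  subst hp
  cases hprog : R.prog σ with
  | push i a t =>
    rw [hprog] at hst
    simp only [stepIns, Prod.mk.injEq] at hst
    obtain ⟨rfl, rfl, rfl⟩ := hst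
    set len := (d.st i).length with hlendef
    have hlen : len + 1 ≤ s := by
      have := hd₁s i
      simpa [hlendef] using this
    have h1 := walk_right (R := R) (nd := nd) (x := x) (s := s) (σ := σ) (p := d.pos) (T := T) len
      (by omega) (by
        intro b j hj
        have h2 : ∃ y, (T j).2 i = some y := by
          rw [hT j]
          refine ⟨(d.st i).reverse[j]'(by rw [List.length_reverse]; exact hj), ?_⟩
          exact List.getElem?_eq_getElem _
        obtain ⟨y, hy⟩ := h2
        simp only [compδ, hprog, hy]) len le_rfl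
    have h2 : (T len).2 i = none := by
      rw [hT len]
      exact List.getElem?_eq_none (by simp [hlendef])
    have h3 := Reach.snoc (cf'' := (⟨.back t, d.pos, len, Function.update T (len : ℤ)
        ((T len).1, Function.update (T len).2 i (some a))⟩ : Cfg (CQ R.S) (CG Γ ι))) h1
      (fun b => by
        rw [next_eq b _ _ _ _ (.back t, ((T len).1, Function.update (T len).2 i (some a)),
          .stay, .stay) rfl (by simp only [compδ, hprog, h2])]
        simp only [movePos, moveTape])
      (by show (0 : ℤ) ≤ (len : ℤ); positivity)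
      (by show (len : ℤ) ≤ s; exact_mod_cast (by omega : len ≤ s))
    have hT' : ∀ j : ℕ, (Function.update T (len : ℤ)
        ((T len).1, Function.update (T len).2 i (some a)) (j : ℤ)) =
        (decide (j = 0), fun i' => (Function.update d.st i (a :: d.st i) i').reverse[j]?) := by
      intro j
      by_cases hj : j = len
      · subst hj
        rw [Function.update_self, hT]
        refine Prod.ext rfl ?_
        funext i'
        by_cases hi : i' = i
        · subst hi
          simp only [Function.update_self, List.reverse_cons]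
          rw [getElem?_append_last, if_pos (by simp [hlendef])]
        · simp only [Function.update_of_ne hi]
      · rw [Function.update_of_ne (by exact_mod_cast hj), hT]
        refine Prod.ext rfl ?_
        funext i'
        by_cases hi : i' = i
        · subst hi
          simp only [Function.update_self, List.reverse_cons]
          rw [getElem?_append_last, if_neg (by simpa [hlendef] using hj)]
        · simp only [Function.update_of_ne hi]
    have h4 := walk_left (R := R) (nd := nd) len (by omega) (fun j => by rw [hT' j]) h3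
    refine ⟨_, _, ?_, ?_, ?_, ?_, fun ch _ => h4 ch⟩
    · omega
    · omega
    · rfl
    · exact ⟨rfl, rfl, hT'⟩
  | pop i f =>
    rw [hprog] at hst
    simp only [stepIns, Prod.mk.injEq] at hst
    obtain ⟨rfl, rfl, rfl⟩ := hst
    cases hl : d.st i with
    | nil =>
      have h2 : (T ((0 : ℕ) : ℤ)).2 i = none := by
        rw [hT 0]
        show (d.st i).reverse[0]? = none
        rw [hl]
        rfl
      have h3 : (T ((0 : ℕ) : ℤ)).1 = true := by
        rw [hT 0]
        rfl
      have h1 := Reach.snoc (M := compTM R nd) (x := x) (s := s) (n := 0)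
        (cf := (⟨.run (.inl σ), d.pos, 0, T⟩ : Cfg (CQ R.S) (CG Γ ι)))
        (cf'' := (⟨.run (f none), d.pos, 0, T⟩ : Cfg (CQ R.S) (CG Γ ι)))
        (Reach.refl (M := compTM R nd) le_rfl (by show (0 : ℤ) ≤ s; positivity))
        (fun b => by
          rw [next_eq b _ _ _ _ (.run (f none), T ((0 : ℕ) : ℤ), .stay, .stay) rfl
            (by
              simp only [Nat.cast_zero] at h2 h3
              simp only [compδ, hprog, h2, h3, if_true, Nat.cast_zero])]
          simp only [movePos, moveTape, Nat.cast_zero, Function.update_eq_self])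
        le_rfl (by show (0 : ℤ) ≤ s; positivity)
      refine ⟨_, _, ?_, ?_, ?_, ?_, fun ch _ => h1 ch⟩
      · omega
      · omega
      · rfl
      · refine ⟨rfl, rfl, fun j => ?_⟩
        show T j = _
        rw [hT j]
        refine Prod.ext rfl ?_
        funext i'
        by_cases hi : i' = i
        · subst hi
          simp [hl]
        · simp only [Function.update_of_ne hi]
    | cons a l =>
      set len := l.length with hlendef
      have hlen : len + 1 ≤ s := by
        have := hds i
        rw [hl] at this
        simpa [hlendef] using this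
      have h1 := walk_right (R := R) (nd := nd) (x := x) (s := s) (σ := σ) (p := d.pos) (T := T)
        (len + 1) (by omega) (by
          intro b j hj
          have h2 : ∃ y, (T j).2 i = some y := by
            rw [hT j]
            refine ⟨(d.st i).reverse[j]'(by
              rw [List.length_reverse, hl, List.length_cons]; exact hj), ?_⟩
            exact List.getElem?_eq_getElem _
          obtain ⟨y, hy⟩ := h2
          simp only [compδ, hprog, hy]) (len + 1) le_rfl
      have h2 : (T ((len + 1 : ℕ) : ℤ)).2 i = none := by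
        rw [hT (len + 1)]
        exact List.getElem?_eq_none (by simp [hl, hlendef])
      have h2' : (T ((len + 1 : ℕ) : ℤ)).1 = false := by
        rw [hT (len + 1)]
        simp
      have h3 := Reach.snoc (cf'' := (⟨.popg σ, d.pos, len, T⟩ : Cfg (CQ R.S) (CG Γ ι))) h1
        (fun b => by
          rw [next_eq b _ _ _ _ (.popg σ, T ((len + 1 : ℕ) : ℤ), .stay, .left) rfl
            (by simp only [compδ, hprog, h2, h2', Bool.false_eq_true, if_false])]
          simp only [movePos, moveTape, Function.update_eq_self]
          congr 1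
          push_cast
          ring)
        (by show (0 : ℤ) ≤ (len : ℤ); positivity)
        (by show (len : ℤ) ≤ s; exact_mod_cast (by omega : len ≤ s))
      have h4 : (T len).2 i = some a := by
        rw [hT len]
        simp only [hl, List.reverse_cons]
        rw [getElem?_append_last, if_pos (by simp [hlendef])]
      have h5 := Reach.snoc (cf'' := (⟨.back (f (some a)), d.pos, len, Function.update T (len : ℤ)
          ((T len).1, Function.update (T len).2 i none)⟩ : Cfg (CQ R.S) (CG Γ ι))) h3
        (fun b => by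
          rw [next_eq b _ _ _ _ (.back (f (some a)), ((T len).1, Function.update (T len).2 i none),
            .stay, .stay) rfl (by simp only [compδ, hprog, h4])]
          simp only [movePos, moveTape])
        (by show (0 : ℤ) ≤ (len : ℤ); positivity)
        (by show (len : ℤ) ≤ s; exact_mod_cast (by omega : len ≤ s))
      have hT' : ∀ j : ℕ, (Function.update T (len : ℤ)
          ((T len).1, Function.update (T len).2 i none) (j : ℤ)) =
          (decide (j = 0), fun i' => (Function.update d.st i (d.st i).tail i').reverse[j]?) := by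
        intro j
        by_cases hj : j = len
        · subst hj
          rw [Function.update_self, hT]
          refine Prod.ext rfl ?_
          funext i'
          by_cases hi : i' = i
          · subst hi
            simp only [Function.update_self, hl, List.tail_cons]
            rw [List.getElem?_eq_none (by simp [hlendef])]
          · simp only [Function.update_of_ne hi]
        · rw [Function.update_of_ne (by exact_mod_cast hj), hT]
          refine Prod.ext rfl ?_
          funext i'
          by_cases hi : i' = i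
          · subst hi
            simp only [Function.update_self, hl, List.tail_cons, List.reverse_cons]
            rw [getElem?_append_last, if_neg (by simpa [hlendef] using hj)]
          · simp only [Function.update_of_ne hi]
      have h6 := walk_left (R := R) (nd := nd) len (by omega) (fun j => by rw [hT' j]) h5
      refine ⟨_, _, ?_, ?_, ?_, ?_, fun ch _ => h6 ch⟩
      · omega
      · omega
      · rfl
      · rw [hl] at hT'
        exact ⟨rfl, rfl, hT'⟩
  | read f =>
    rw [hprog] at hst
    simp only [stepIns, Prod.mk.injEq] at hst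
    obtain ⟨rfl, rfl, rfl⟩ := hst
    have h1 := Reach.snoc (M := compTM R nd) (x := x) (s := s) (n := 0)
      (cf := (⟨.run (.inl σ), d.pos, 0, T⟩ : Cfg (CQ R.S) (CG Γ ι)))
      (cf'' := (⟨.run (f (inSym x d.pos)), d.pos, 0, T⟩ : Cfg (CQ R.S) (CG Γ ι)))
      (Reach.refl (M := compTM R nd) le_rfl (by show (0 : ℤ) ≤ s; positivity))
      (fun b => by
        rw [next_eq b _ _ _ _ (.run (f (inSym x d.pos)), T 0, .stay, .stay) rfl
          (by simp only [compδ, hprog])]
        simp only [movePos, moveTape, Function.update_eq_self])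
      le_rfl (by show (0 : ℤ) ≤ s; positivity)
    exact ⟨_, _, by omega, by omega, rfl, ⟨rfl, rfl, hT⟩, fun ch _ => h1 ch⟩
  | move dir t =>
    rw [hprog] at hst
    simp only [stepIns, Prod.mk.injEq] at hst
    obtain ⟨rfl, rfl, rfl⟩ := hst
    have h1 := Reach.snoc (M := compTM R nd) (x := x) (s := s) (n := 0)
      (cf := (⟨.run (.inl σ), d.pos, 0, T⟩ : Cfg (CQ R.S) (CG Γ ι)))
      (cf'' := (⟨.run t, movePos x.length dir d.pos, 0, T⟩ : Cfg (CQ R.S) (CG Γ ι)))
      (Reach.refl (M := compTM R nd) le_rfl (by show (0 : ℤ) ≤ s; positivity))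
      (fun b => by
        rw [next_eq b _ _ _ _ (.run t, T 0, dir, .stay) rfl
          (by simp only [compδ, hprog])]
        simp only [moveTape, Function.update_eq_self])
      le_rfl (by show (0 : ℤ) ≤ s; positivity)
    exact ⟨_, _, by omega, by omega, rfl, ⟨rfl, rfl, hT⟩, fun ch _ => h1 ch⟩
  | choose f =>
    rw [hprog] at hst
    simp only [stepIns, Prod.mk.injEq] at hst
    obtain ⟨rfl, rfl, rfl⟩ := hst
    refine ⟨1, (⟨.run (f (nd && b)), d.pos, 0, T⟩ : Cfg (CQ R.S) (CG Γ ι)), le_rfl, by omega,
      by rw [hc], ⟨rfl, rfl, hT⟩, fun ch hch => ?_⟩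
    have h1 : (compTM R nd).runFrom x ch (⟨.run (.inl σ), d.pos, 0, T⟩ : Cfg (CQ R.S) (CG Γ ι)) 1 =
        (⟨.run (f (nd && b)), d.pos, 0, T⟩ : Cfg (CQ R.S) (CG Γ ι)) := by
      show (compTM R nd).next x (ch 0) (⟨.run (.inl σ), d.pos, 0, T⟩ : Cfg (CQ R.S) (CG Γ ι)) = _
      rw [hch, next_eq b _ _ _ _ (.run (f (nd && b)), T 0, .stay, .stay) rfl
        (by simp only [compδ, hprog])]
      simp only [movePos, moveTape, Function.update_eq_self]
    refine ⟨h1, fun m hm => ?_⟩
    rcases Nat.le_one_iff_eq_zero_or_eq_one.mp hm with rfl | rfl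
    · show (0 : ℤ) ≤ 0 ∧ (0 : ℤ) ≤ s
      exact ⟨le_rfl, by positivity⟩
    · rw [h1]
      show (0 : ℤ) ≤ 0 ∧ (0 : ℤ) ≤ s
      exact ⟨le_rfl, by positivity⟩
  | nop t =>
    rw [hprog] at hst
    simp only [stepIns, Prod.mk.injEq] at hst
    obtain ⟨rfl, rfl, rfl⟩ := hst
    have h1 := Reach.snoc (M := compTM R nd) (x := x) (s := s) (n := 0)
      (cf := (⟨.run (.inl σ), d.pos, 0, T⟩ : Cfg (CQ R.S) (CG Γ ι)))
      (cf'' := (⟨.run t, d.pos, 0, T⟩ : Cfg (CQ R.S) (CG Γ ι)))
      (Reach.refl (M := compTM R nd) le_rfl (by show (0 : ℤ) ≤ s; positivity))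
      (fun b => by
        rw [next_eq b _ _ _ _ (.run t, T 0, .stay, .stay) rfl
          (by simp only [compδ, hprog])]
        simp only [movePos, moveTape, Function.update_eq_self])
      le_rfl (by show (0 : ℤ) ≤ s; positivity)
    exact ⟨_, _, by omega, by omega, rfl, ⟨rfl, rfl, hT⟩, fun ch _ => h1 ch⟩

end Pool.Agent.Lib.MP_9dcf40_lc
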