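import Pool.Agent.Lib.MP_9dcf40_lc.SpecU2

/-!
# The universal machine is correct
-/

set_option autoImplicit false

namespace Pool.Agent.Lib.MP_9dcf40_lc

namespace UCorr

theorem pre_padL (x : List DA) (r : ℕ) : pre (padL x r) = x := by
  unfold pre padL
  rw [List.takeWhile_append_of_pos (by simp)]
  have h : (List.replicate r (none : Option DA)).takeWhile Option.isSome = [] := by
    cases r <;> simp [List.replicate_succ]
  rw [h, List.append_nil]
  simp [List.filterMap_map]

theorem length_padL (x : List DA) (r : ℕ) : (padL x r).length = x.length + r := by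
  simp [padL]

theorem cutHash_append (l₁ l₂ : List DA) (h : DA.hash ∉ l₁) :
    cutHash (l₁ ++ .hash :: l₂) = some (l₁, l₂) := by
  induction l₁ with
  | nil => simp [cutHash]
  | cons a l ih =>
    rw [List.mem_cons, not_or] at h
    rw [List.cons_append, cutHash, if_neg (Ne.symm h.1), ih h.2]
    rfl

theorem outL_ne (o : Option Bool) : outL o ≠ .hash := by
  rcases o with _ | b
  · simp [outL]
  · cases b <;> simp [outL]

theorem dirL_ne (d : Dir) : dirL d ≠ .hash := by cases d <;> simp [dirL]

theorem numL_not (n : ℕ) : DA.hash ∉ numL n := by
  simp [numL]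

theorem entry_not (F : FM DB) (b : Bool) (q : Fin (F.a + 1)) (a : InSym DB) (s : Fin (F.b + 1)) :
    DA.hash ∉ entry F b q a s := by
  unfold entry
  intro h
  rw [List.mem_append, List.mem_append] at h
  rcases h with (h | h) | h
  · simp only [List.mem_cons, List.not_mem_nil, or_false] at h
    rcases h with h | h | h
    · exact outL_ne _ h.symm
    · exact dirL_ne _ h.symm
    · exact dirL_ne _ h.symm
  · exact numL_not _ h
  · exact numL_not _ h

theorem table_not (F : FM DB) : DA.hash ∉ table F := by
  unfold table blockIn blockSym
  intro h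
  simp only [List.mem_flatMap, List.mem_append, List.mem_singleton] at h
  obtain ⟨q, _, h | h⟩ := h
  · obtain ⟨k, _, h | h⟩ := h
    · obtain ⟨s, _, h | h⟩ := h
      · exact entry_not F _ _ _ _ h
      · exact absurd h (by decide)
    · exact absurd h (by decide)
  · exact absurd h (by decide)

theorem code_not (F : FM DB) : DA.hash ∉ code F := by
  unfold code
  rw [List.mem_cons, not_or]
  exact ⟨fun h => outL_ne _ h.symm, table_not F⟩

theorem bits_not (w : List Bool) : DA.hash ∉ w.map bitL := by
  intro h
  rw [List.mem_map] at h
  obtain ⟨b, _, h⟩ := h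
  cases b <;> simp [bitL] at h

theorem bitOf_bitL (w : List Bool) : (w.map bitL).map bitOf = w := by
  rw [List.map_map]
  conv_rhs => rw [← List.map_id w]
  refine List.map_congr_left fun b _ => ?_
  cases b <;> simp [bitL, bitOf]

/-- run from a configuration, the first step first -/
def runF {B : Type} (M : TM B) (z : List B) : Cfg M.Q M.G → Str → ℕ → Cfg M.Q M.G
  | cf, _, 0 => cf
  | cf, c, t + 1 => runF M z (M.next z (c 0) cf) (fun n => c (n + 1)) t

theorem runF_succ {B : Type} (M : TM B) (z : List B) (t : ℕ) :
    ∀ (cf : Cfg M.Q M.G) (c : Str), runF M z cf c (t + 1) = M.next z (c t) (runF M z cf c t) := by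
  induction t with
  | zero => intro cf c; rfl
  | succ t ih =>
    intro cf c
    rw [runF, ih, runF]

theorem run_eq {B : Type} (M : TM B) (z : List B) (c : Str) (t : ℕ) :
    M.run z c t = runF M z M.init c t := by
  induction t with
  | zero => rfl
  | succ t ih => rw [TM.run, ih, runF_succ]

theorem next_halt {B : Type} (M : TM B) (z : List B) (b : Bool) (cf : Cfg M.Q M.G) {o : Bool}
    (h : M.out cf.q = some o) : M.next z b cf = cf := by
  unfold TM.next
  rw [h]

theorem runF_halt {B : Type} (M : TM B) (z : List B) {o : Bool} (t : ℕ) :
    ∀ (cf : Cfg M.Q M.G) (c : Str), M.out cf.q = some o → runF M z cf c t = cf := by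
  induction t with
  | zero => intro cf c _; rfl
  | succ t ih =>
    intro cf c h
    rw [runF, next_halt M z (c 0) cf h]
    exact ih cf _ h

theorem ug_inj {a b : DA} (h : some (ug a) = some (ug b)) : a = b := by
  simpa [ug] using h

/-- the main loop -/
theorem loop (h : StUSim) (F : FM DB) (z : List DB) (r : ℕ) :
    ∀ (c : Str) (cf : Cfg (Fin (F.a + 1)) (Fin (F.b + 1))) (u : UD), URep F z cf u →
      F.out cf.q = none →
      (uLoop r c u = true ↔ ∃ t ≤ r, F.out (runF F.toTM z cf c t).q = some true) := by
  induction r with
  | zero =>
    intro c cf u _ hn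
    constructor
    · intro hh
      simp [uLoop] at hh
    · rintro ⟨t, ht, h1⟩
      have h0 : t = 0 := by omega
      subst h0
      rw [runF, hn] at h1
      exact absurd h1 (by simp)
  | succ r ih =>
    intro c cf u hu hn
    obtain ⟨h1, h2⟩ := h F z (c 0) cf u hu hn
    have hex : (∃ t ≤ r + 1, F.out (runF F.toTM z cf c t).q = some true) ↔
        ∃ t ≤ r, F.out (runF F.toTM z (F.toTM.next z (c 0) cf) (fun n => c (n + 1)) t).q
          = some true := by
      constructor
      · rintro ⟨t, ht, h3⟩
        cases t with
        | zero =>
          rw [runF, hn] at h3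
          exact absurd h3 (by simp)
        | succ t => exact ⟨t, by omega, h3⟩
      · rintro ⟨t, ht, h3⟩
        exact ⟨t + 1, by omega, h3⟩
    rw [hex, uLoop]
    rcases ho : F.out (F.toTM.next z (c 0) cf).q with _ | o
    · rw [ho] at h2
      rw [if_neg, if_neg]
      · exact ih _ _ _ h1 ho
      · rw [h2]
        intro h3
        exact absurd (ug_inj h3) (by simp [outL])
      · rw [h2]
        intro h3
        exact absurd (ug_inj h3) (by simp [outL])
    · have hst : ∀ t, F.out (runF F.toTM z (F.toTM.next z (c 0) cf) (fun n => c (n + 1)) t).q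
          = some o := by
        intro t
        rw [runF_halt F.toTM z t _ _ ho]
        exact ho
      rw [ho] at h2
      cases o with
      | true =>
        rw [if_pos (by rw [h2]; rfl)]
        exact ⟨fun _ => ⟨0, Nat.zero_le _, hst 0⟩, fun _ => rfl⟩
      | false =>
        rw [if_neg, if_pos (by rw [h2]; rfl)]
        · constructor
          · intro h3
            exact absurd h3 (by simp)
          · rintro ⟨t, _, h3⟩
            rw [hst t] at h3
            exact absurd h3 (by simp)
        · rw [h2]
          intro h3
          exact absurd (ug_inj h3) (by simp [outL])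

end UCorr

open UCorr in
theorem u_corr (h : StUSim) : StUCorr := by
  intro F w rest r c
  set x : List DA := instX F w rest with hx
  set z : List DB := pairL x w with hz
  have hcut1 : cutHash x = some (code F, w.map bitL ++ .hash :: rest) :=
    cutHash_append _ _ (code_not F)
  have hcut2 : cutHash (w.map bitL ++ .hash :: rest) = some (w.map bitL, rest) :=
    cutHash_append _ _ (bits_not w)
  have hparse : uParse (padL x r) =
      some ⟨[], ((code F).map ug).reverse, [], [], itape z, [], []⟩ := by
    unfold uParse
    rw [pre_padL, hcut1]
    simp only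
    rw [hcut2]
    simp only
    rw [bitOf_bitL]
  have hlen : (padL x r).length - (pre (padL x r)).length = r := by
    rw [pre_padL, length_padL]
    omega
  have hpop : uPopC (uRewind ⟨[], ((code F).map ug).reverse, [], [], itape z, [], []⟩).2 =
      (some (ug (outL (F.out 0))),
        ⟨(table F).map ug, [ug (outL (F.out 0))], [], [], itape z, [], []⟩) := by
    unfold uPopC uRewind
    simp [code]
  have hev : uEval (padL x r) c =
      if some (ug (outL (F.out 0))) = some (ug .one) then true
      else if some (ug (outL (F.out 0))) = some (ug .dl) then false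
      else uLoop r c ⟨(table F).map ug, [ug (outL (F.out 0))], [], [], itape z, [], []⟩ := by
    unfold uEval
    rw [hparse]
    simp only
    rw [hpop, hlen]
  have hrun : ∀ t, F.toTM.run z c t = runF F.toTM z F.toTM.init c t := run_eq F.toTM z c
  simp only [hrun]
  rw [hev]
  have hrep : URep F z F.toTM.init
      ⟨(table F).map ug, [ug (outL (F.out 0))], [], [], itape z, [], []⟩ := by
    refine ⟨?_, ?_, Nat.zero_le _, ?_, ?_, [], [], rfl, rfl, ?_, ?_⟩
    · simp [code]
    · show ([] : List UG) = List.replicate ((0 : Fin (F.a + 1)) : ℕ) (ug .one)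
      simp
    · show ([] : List UG) = ((itape z).take 0).reverse
      simp
    · show itape z = (itape z).drop 0
      simp
    · intro i
      show (((0 : Fin (F.b + 1))) : ℕ) = ([] : List ℕ)[i]?.getD 0
      simp
    · intro i
      show (((0 : Fin (F.b + 1))) : ℕ) = ([] : List ℕ)[i]?.getD 0
      simp
  have hq : F.toTM.init.q = (0 : Fin (F.a + 1)) := rfl
  rcases ho : F.out 0 with _ | o
  · rw [if_neg, if_neg]
    · rw [ho] at hrep
      exact loop h F z r c F.toTM.init _ hrep ho
    · intro h3
      exact absurd (ug_inj h3) (by simp [outL])
    · intro h3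
      exact absurd (ug_inj h3) (by simp [outL])
  · have hst : ∀ t, F.toTM.out (runF F.toTM z F.toTM.init c t).q = some o := by
      intro t
      rw [runF_halt (o := o) F.toTM z t _ _ ho]
      exact ho
    cases o with
    | true =>
      rw [if_pos (show some (ug (outL (some true))) = some (ug .one) from rfl)]
      exact ⟨fun _ => ⟨0, Nat.zero_le _, hst 0⟩, fun _ => rfl⟩
    | false =>
      rw [if_neg, if_pos (show some (ug (outL (some false))) = some (ug .dl) from rfl)]
      · constructor
        · intro h3
          exact absurd h3 (by simp)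
        · rintro ⟨t, _, h3⟩
          have h4 := (hst t).symm.trans h3
          exact absurd h4 (by simp)
      · intro h3
        exact absurd (ug_inj h3) (by simp [outL])

end Pool.Agent.Lib.MP_9dcf40_lc
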