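import Pool.Agent.Lib.MP_9dcf40_lc.SpecU2

/-!
# The start phase of the universal machine
-/

namespace Pool.Agent.Lib.MP_9dcf40_lc

open Rout

namespace UInit

/-- The list does not start with a letter `some a`. -/
def Stp (l : List (Option DA)) : Prop := ∀ a t, l ≠ some a :: t

theorem pre_split (y : List (Option DA)) : ∃ y', y = (pre y).map some ++ y' ∧ Stp y' := by
  induction y with
  | nil => exact ⟨[], rfl, fun a t h => by cases h⟩
  | cons a y ih =>
    cases a with
    | none => exact ⟨none :: y, rfl, fun a t h => by cases h⟩
    | some a =>
      obtain ⟨y', h1, h2⟩ := ih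
      refine ⟨y', ?_, h2⟩
      have h3 : pre (some a :: y) = a :: pre y := by
        simp [pre, List.takeWhile_cons]
      rw [h3, List.map_cons, List.cons_append, ← h1]

theorem cutHash_some {l cd l' : List DA} (h : cutHash l = some (cd, l')) :
    l = cd ++ .hash :: l' := by
  induction l generalizing cd l' with
  | nil => cases h
  | cons a l ih =>
    unfold cutHash at h
    by_cases ha : a = .hash
    · rw [if_pos ha] at h
      obtain ⟨rfl, rfl⟩ : [] = cd ∧ l = l' := by simpa using h
      rw [ha]
      rfl
    · rw [if_neg ha] at h
      cases hc : cutHash l with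
      | none => rw [hc] at h; cases h
      | some r =>
        rw [hc] at h
        obtain ⟨rfl, rfl⟩ : a :: r.1 = cd ∧ r.2 = l' := by simpa using h
        rw [List.cons_append, ← ih (cd := r.1) (l' := r.2) hc]

theorem inSym_letter {y : List (Option DA)} {p : ℕ} {a : Option DA} {t : List (Option DA)}
    (h : y.drop p = a :: t) : inSym y (p + 1) = .letter a := by
  have h1 : y[p]? = some a := by
    rw [← List.head?_drop, h]
    rfl
  simp [inSym, h1]

theorem inSym_stop {y : List (Option DA)} {p : ℕ} (h : Stp (y.drop p)) (a : DA) :
    inSym y (p + 1) ≠ .letter (some a) := by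
  intro h1
  cases hd : y.drop p with
  | nil =>
    have h2 : y[p]? = none := by
      rw [← List.head?_drop, hd]
      rfl
    simp [inSym, h2] at h1
  | cons b t =>
    rw [inSym_letter hd] at h1
    obtain rfl : b = some a := by simpa using h1
    exact h a t hd

theorem move_right {n p : ℕ} (h : p ≤ n) : movePos n .right p = p + 1 := by
  simp only [movePos]
  omega

theorem drop_lt {y : List (Option DA)} {p : ℕ} {a : Option DA} {t : List (Option DA)}
    (h : y.drop p = a :: t) : p < y.length := by
  by_contra hcon
  rw [List.drop_eq_nil_of_le (by omega)] at h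
  cases h

/-! ## Fields -/

def fieldBody (i : UN) (f : DA → UG) : UR (Unit ⊕ Bool) :=
  (move .right).bind fun _ => Rout.read.bind fun a =>
    match a with
    | .letter (some a) =>
      if a = .hash then pureR (.inr true) else (push i (f a)).bind fun _ => pureR (.inl ())
    | _ => pureR (.inr false)

theorem uFieldR_eq (i : UN) (f : DA → UG) :
    uFieldR i f = iter (τ := Unit) (fun _ => fieldBody i f) () := rfl

variable {y : List (Option DA)} {S p : ℕ} {st : UN → List UG} {c : Str}

theorem body_stop (i : UN) (f : DA → UG) (hp : p ≤ y.length) (hy : Stp (y.drop p))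
    (hd : (⟨p, st⟩ : Data UG UN).le S) :
    Runs y (fieldBody i f) S 2 ⟨p, st⟩ c (.inr false) ⟨p + 1, st⟩ c := by
  have hm := runs_move (x := y) (c := c) .right hd
  simp only [move_right hp] at hm
  have hd' : (⟨p + 1, st⟩ : Data UG UN).le S := hd
  have hr := runs_read (x := y) (c := c) hd'
  simp only at hr
  refine (runs_bind hm (runs_bind hr (T' := 0) ?_)).mono le_rfl (by omega)
  have hs := inSym_stop hy
  generalize inSym y (p + 1) = w at hs ⊢
  rcases w with _ | (_ | a) | _
  · exact runs_pure _ hd'
  · exact runs_pure _ hd'
  · exact absurd rfl (hs a)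
  · exact runs_pure _ hd'

theorem body_hash (i : UN) (f : DA → UG) {t : List (Option DA)} (hy : y.drop p = some .hash :: t)
    (hd : (⟨p, st⟩ : Data UG UN).le S) :
    Runs y (fieldBody i f) S 2 ⟨p, st⟩ c (.inr true) ⟨p + 1, st⟩ c := by
  have hm := runs_move (x := y) (c := c) .right hd
  simp only [move_right (drop_lt hy).le] at hm
  have hd' : (⟨p + 1, st⟩ : Data UG UN).le S := hd
  have hr := runs_read (x := y) (c := c) hd'
  simp only [inSym_letter hy] at hr
  refine (runs_bind hm (runs_bind hr (T' := 0) ?_)).mono le_rfl (by omega)
  exact runs_pure _ hd'

theorem body_letter (i : UN) (f : DA → UG) {a : DA} {t : List (Option DA)}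
    (hy : y.drop p = some a :: t) (ha : a ≠ .hash) (hd : (⟨p, st⟩ : Data UG UN).le S)
    (hi : (st i).length + 1 ≤ S) :
    Runs y (fieldBody i f) S 3 ⟨p, st⟩ c (.inl ())
      ⟨p + 1, Function.update st i (f a :: st i)⟩ c := by
  have hm := runs_move (x := y) (c := c) .right hd
  simp only [move_right (drop_lt hy).le] at hm
  have hd' : (⟨p + 1, st⟩ : Data UG UN).le S := hd
  have hr := runs_read (x := y) (c := c) hd'
  simp only [inSym_letter hy] at hr
  have hq := runs_push (x := y) (c := c) i (f a) hd' hi
  have hpu := runs_pure (x := y) (c := c) (Sum.inl () : Unit ⊕ Bool) hq.le_end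
  refine (runs_bind hm (runs_bind hr (T' := 1 + 0) ?_)).mono le_rfl (by omega)
  show Runs y (if a = DA.hash then (pureR (Sum.inr true) : UR (Unit ⊕ Bool)) else
    (push i (f a)).bind fun _ => pureR (Sum.inl ())) S (1 + 0) _ c _ _ c
  rw [if_neg ha]
  exact runs_bind hq hpu

theorem field_some (i : UN) (f : DA → UG) (l : List DA) :
    ∀ (p : ℕ) (st : UN → List UG) (y' : List (Option DA)) (cd l' : List DA),
    y.drop p = l.map some ++ y' → cutHash l = some (cd, l') → (⟨p, st⟩ : Data UG UN).le S →
    (st i).length + l.length ≤ S →
    Runs y (uFieldR i f) S (4 * l.length) ⟨p, st⟩ c true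
      ⟨p + cd.length + 1, Function.update st i ((cd.map f).reverse ++ st i)⟩ c := by
  induction l with
  | nil => intro p st y' cd l' _ h; cases h
  | cons a l ih =>
    intro p st y' cd l' hy h hd hi
    unfold cutHash at h
    rw [List.map_cons, List.cons_append] at hy
    by_cases ha : a = .hash
    · rw [if_pos ha] at h
      obtain ⟨rfl, rfl⟩ : [] = cd ∧ l = l' := by simpa using h
      rw [ha] at hy
      have h1 := runs_iter_done (τ := Unit) (body := fun _ => fieldBody i f) (t := ())
        (body_hash (c := c) i f hy hd)
      rw [← uFieldR_eq] at h1
      have h2 : Function.update st i (((([] : List DA).map f)).reverse ++ st i) = st := by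
        simp
      rw [h2]
      exact h1.mono le_rfl (by rw [List.length_cons]; omega)
    · rw [if_neg ha] at h
      cases hc : cutHash l with
      | none => rw [hc] at h; cases h
      | some r =>
        rw [hc] at h
        obtain ⟨rfl, rfl⟩ : a :: r.1 = cd ∧ r.2 = l' := by simpa using h
        have hi' : (st i).length + 1 ≤ S := by
          rw [List.length_cons] at hi
          omega
        have hb := body_letter (c := c) i f hy ha hd hi'
        have hy2 : y.drop (p + 1) = l.map some ++ y' := by
          rw [← List.drop_drop, hy]
          rfl
        have h3 := ih (p + 1) (Function.update st i (f a :: st i)) y' r.1 r.2 hy2 hc hb.le_end (by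
          rw [Function.update_self, List.length_cons]
          rw [List.length_cons] at hi
          omega)
        rw [uFieldR_eq] at h3 ⊢
        have h4 := runs_iter_step (τ := Unit) (body := fun _ => fieldBody i f) (t := ())
          (t' := ()) hb h3
        have h5 : Function.update (Function.update st i (f a :: st i)) i
            ((r.1.map f).reverse ++ Function.update st i (f a :: st i) i)
            = Function.update st i (((a :: r.1).map f).reverse ++ st i) := by
          rw [Function.update_self, Function.update_idem]
          simp
        rw [h5] at h4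
        have h6 : p + 1 + r.1.length + 1 = p + (a :: r.1).length + 1 := by
          rw [List.length_cons]
          omega
        rw [h6] at h4
        exact h4.mono le_rfl (by rw [List.length_cons]; omega)

theorem field_none (i : UN) (f : DA → UG) (l : List DA) :
    ∀ (p : ℕ) (st : UN → List UG) (y' : List (Option DA)), p ≤ y.length →
    y.drop p = l.map some ++ y' → Stp y' → cutHash l = none → (⟨p, st⟩ : Data UG UN).le S →
    (st i).length + l.length ≤ S →
    ∃ d', Runs y (uFieldR i f) S (4 * l.length + 3) ⟨p, st⟩ c false d' c := by
  induction l with
  | nil =>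
    intro p st y' hp hy hs _ hd _
    have h1 := runs_iter_done (τ := Unit) (body := fun _ => fieldBody i f) (t := ())
      (body_stop (c := c) i f hp (by rw [hy]; exact hs) hd)
    rw [← uFieldR_eq] at h1
    exact ⟨_, h1⟩
  | cons a l ih =>
    intro p st y' hp hy hs h hd hi
    unfold cutHash at h
    rw [List.map_cons, List.cons_append] at hy
    by_cases ha : a = .hash
    · rw [if_pos ha] at h
      cases h
    · rw [if_neg ha] at h
      have hc : cutHash l = none := by
        cases hc : cutHash l with
        | none => rfl
        | some r => rw [hc] at h; cases h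
      have hi' : (st i).length + 1 ≤ S := by
        rw [List.length_cons] at hi
        omega
      have hb := body_letter (c := c) i f hy ha hd hi'
      have hy2 : y.drop (p + 1) = l.map some ++ y' := by
        rw [← List.drop_drop, hy]
        rfl
      obtain ⟨d', h3⟩ := ih (p + 1) (Function.update st i (f a :: st i)) y' (drop_lt hy) hy2 hs hc
        hb.le_end (by
          rw [Function.update_self, List.length_cons]
          rw [List.length_cons] at hi
          omega)
      rw [uFieldR_eq] at h3 ⊢
      exact ⟨d', (runs_iter_step (τ := Unit) (body := fun _ => fieldBody i f) (t := ())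
        (t' := ()) hb h3).mono le_rfl (by rw [List.length_cons]; omega)⟩

/-! ## Moving right -/

def rightBody : UR (Unit ⊕ Unit) :=
  (move .right).bind fun _ => Rout.read.bind fun a =>
    match a with
    | .letter (some _) => pureR (.inl ())
    | _ => pureR (.inr ())

theorem uRightR_eq : uRightR = iter (τ := Unit) (fun _ => rightBody) () := rfl

theorem right_stop (hp : p ≤ y.length) (hy : Stp (y.drop p))
    (hd : (⟨p, st⟩ : Data UG UN).le S) :
    Runs y rightBody S 2 ⟨p, st⟩ c (.inr ()) ⟨p + 1, st⟩ c := by
  have hm := runs_move (x := y) (c := c) .right hd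
  simp only [move_right hp] at hm
  have hd' : (⟨p + 1, st⟩ : Data UG UN).le S := hd
  have hr := runs_read (x := y) (c := c) hd'
  simp only at hr
  refine (runs_bind hm (runs_bind hr (T' := 0) ?_)).mono le_rfl (by omega)
  have hs := inSym_stop hy
  generalize inSym y (p + 1) = w at hs ⊢
  rcases w with _ | (_ | a) | _
  · exact runs_pure _ hd'
  · exact runs_pure _ hd'
  · exact absurd rfl (hs a)
  · exact runs_pure _ hd'

theorem right_letter {a : DA} {t : List (Option DA)} (hy : y.drop p = some a :: t)
    (hd : (⟨p, st⟩ : Data UG UN).le S) :
    Runs y rightBody S 2 ⟨p, st⟩ c (.inl ()) ⟨p + 1, st⟩ c := by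
  have hm := runs_move (x := y) (c := c) .right hd
  simp only [move_right (drop_lt hy).le] at hm
  have hd' : (⟨p + 1, st⟩ : Data UG UN).le S := hd
  have hr := runs_read (x := y) (c := c) hd'
  simp only [inSym_letter hy] at hr
  refine (runs_bind hm (runs_bind hr (T' := 0) ?_)).mono le_rfl (by omega)
  exact runs_pure _ hd'

theorem right_run (l : List DA) : ∀ (p : ℕ) (y' : List (Option DA)), p ≤ y.length →
    y.drop p = l.map some ++ y' → Stp y' → (⟨p, st⟩ : Data UG UN).le S →
    Runs y uRightR S (3 * l.length + 3) ⟨p, st⟩ c () ⟨p + l.length + 1, st⟩ c := by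
  induction l with
  | nil =>
    intro p y' hp hy hs hd
    have h1 := runs_iter_done (τ := Unit) (body := fun _ => rightBody) (t := ())
      (right_stop (c := c) hp (by rw [hy]; exact hs) hd)
    rw [← uRightR_eq] at h1
    exact h1
  | cons a l ih =>
    intro p y' hp hy hs hd
    rw [List.map_cons, List.cons_append] at hy
    have hb := right_letter (c := c) hy hd
    have hy2 : y.drop (p + 1) = l.map some ++ y' := by
      rw [← List.drop_drop, hy]
      rfl
    have h3 := ih (p + 1) y' (drop_lt hy) hy2 hs hb.le_end
    rw [uRightR_eq] at h3 ⊢
    have h4 := runs_iter_step (τ := Unit) (body := fun _ => rightBody) (t := ())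
      (t' := ()) hb h3
    have h6 : p + 1 + l.length + 1 = p + (a :: l).length + 1 := by
      rw [List.length_cons]
      omega
    rw [h6] at h4
    exact h4.mono le_rfl (by rw [List.length_cons]; omega)

/-! ## Moving left -/

def leftBody : UR (Unit ⊕ Unit) :=
  (move .left).bind fun _ => Rout.read.bind fun a =>
    match a with
    | .letter (some a) => (push .IR (.letter (.inl a))).bind fun _ => pureR (.inl ())
    | _ => pureR (.inr ())

theorem uLeftR_eq : uLeftR = iter (τ := Unit) (fun _ => leftBody) () := rfl

theorem left_run (l : List DA) : ∀ (st : UN → List UG) (y' : List (Option DA)),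
    y = l.map some ++ y' → (⟨l.length + 1, st⟩ : Data UG UN).le S →
    (st .IR).length + l.length ≤ S →
    Runs y uLeftR S (4 * l.length + 3) ⟨l.length + 1, st⟩ c ()
      ⟨0, Function.update st .IR (l.map (fun a => .letter (.inl a)) ++ st .IR)⟩ c := by
  induction l using List.reverseRecOn with
  | nil =>
    intro st y' hy hd hi
    have hm := runs_move (x := y) (c := c) .left hd
    have hd' : (⟨0, st⟩ : Data UG UN).le S := hd
    have hr := runs_read (x := y) (c := c) hd'
    have hb : Runs y leftBody S 2 ⟨([] : List DA).length + 1, st⟩ c (.inr ()) ⟨0, st⟩ c := by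
      refine (runs_bind hm (runs_bind hr (T' := 0) ?_)).mono le_rfl (by omega)
      exact runs_pure _ hd'
    have h1 := runs_iter_done (τ := Unit) (body := fun _ => leftBody) (t := ()) hb
    rw [← uLeftR_eq] at h1
    have h2 : Function.update st .IR (([] : List DA).map (fun a => InSym.letter (.inl a))
        ++ st .IR) = st := by simp
    rw [h2]
    exact h1
  | append_singleton l a ih =>
    intro st y' hy hd hi
    have hlen : (l ++ [a]).length = l.length + 1 := by simp
    have hm := runs_move (x := y) (c := c) .left hd
    have hd' : (⟨l.length + 1, st⟩ : Data UG UN).le S := hd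
    have hm2 : movePos y.length .left ((l ++ [a]).length + 1) = l.length + 1 := by
      simp only [movePos, hlen]
      omega
    simp only [hm2] at hm
    have hr := runs_read (x := y) (c := c) hd'
    have hdrop : y.drop l.length = some a :: y' := by
      rw [hy, List.map_append, List.append_assoc]
      have : l.length = (l.map some).length := by simp
      rw [this, List.drop_left]
      rfl
    simp only [inSym_letter hdrop] at hr
    have hi' : (st .IR).length + 1 ≤ S := by
      rw [hlen] at hi
      omega
    have hq := runs_push (x := y) (c := c) UN.IR (.letter (.inl a)) hd' hi'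
    have hb : Runs y leftBody S 3 ⟨(l ++ [a]).length + 1, st⟩ c (.inl ())
        ⟨l.length + 1, Function.update st .IR (.letter (.inl a) :: st .IR)⟩ c := by
      refine (runs_bind hm (runs_bind hr (T' := 1 + 0) ?_)).mono le_rfl (by omega)
      exact runs_bind hq (runs_pure _ hq.le_end)
    have h3 := ih (Function.update st .IR (.letter (.inl a) :: st .IR)) (some a :: y')
      (by rw [hy, List.map_append, List.append_assoc]; rfl) hb.le_end (by
        rw [Function.update_self, List.length_cons]
        rw [hlen] at hi
        omega)
    rw [uLeftR_eq] at h3 ⊢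
    have h4 := runs_iter_step (τ := Unit) (body := fun _ => leftBody) (t := ())
      (t' := ()) hb h3
    have h5 : Function.update (Function.update st .IR (.letter (.inl a) :: st .IR)) UN.IR
        (l.map (fun a => InSym.letter (.inl a))
          ++ Function.update st .IR (.letter (.inl a) :: st .IR) .IR)
        = Function.update st .IR ((l ++ [a]).map (fun a => InSym.letter (.inl a)) ++ st .IR) := by
      rw [Function.update_self, Function.update_idem]
      simp
    rw [h5] at h4
    exact h4.mono le_rfl (by rw [hlen]; omega)

theorem xfer_false {α : Type} (l acc : List α) :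
    xfer (fun _ => false) l acc = ([], l.reverse ++ acc) := by
  induction l generalizing acc with
  | nil => rfl
  | cons a l ih =>
    show (if false = true then (l, a :: acc) else xfer (fun _ => false) l (a :: acc)) = _
    rw [if_neg (by decide), ih, List.reverse_cons, List.append_assoc]
    rfl

end UInit

open UInit

theorem u_init (h : StXfer) : StUInit := by
  intro y c S hS
  obtain ⟨y', hy, hstp⟩ := pre_split y
  set x := pre y with hx
  have hxl : x.length ≤ y.length := by
    rw [hy]
    simp
  let st0 : UN → List UG := fun _ => []
  have hd0 : (⟨0, st0⟩ : Data UG UN).le S := fun i => Nat.zero_le _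
  have hy0 : y.drop 0 = x.map some ++ y' := by rw [List.drop_zero]; exact hy
  cases hc1 : cutHash x with
  | none =>
    have hp : uParse y = none := by
      unfold uParse
      rw [← hx, hc1]
    obtain ⟨d', hr⟩ := field_none (S := S) (c := c) .Cb ug x 0 st0 y' (Nat.zero_le _) hy0 hstp hc1
      hd0 (by simp [st0]; omega)
    refine ⟨d', ?_, fun u hu => by rw [hp] at hu; cases hu⟩
    rw [hp]
    unfold uInitR
    refine Runs.mono (T := 4 * x.length + 3 + 0) (runs_bind hr (T' := 0) ?_) le_rfl (by omega)
    exact runs_pure false hr.le_end
  | some r1 =>
    obtain ⟨cd, l⟩ := r1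
    have hxe := cutHash_some hc1
    have hlen1 : x.length = cd.length + 1 + l.length := by
      rw [hxe]
      simp
      omega
    have hr1 := field_some (S := S) (c := c) .Cb ug x 0 st0 y' cd l hy0 hc1 hd0
      (by simp [st0]; omega)
    set st1 : UN → List UG := Function.update st0 .Cb ((cd.map ug).reverse ++ st0 .Cb) with hst1
    have hy1 : y.drop (0 + cd.length + 1) = l.map some ++ y' := by
      have e1 : y = (cd ++ [DA.hash]).map some ++ (l.map some ++ y') := by
        rw [hy]
        conv_lhs => rw [hxe]
        simp
      have e2 : 0 + cd.length + 1 = ((cd ++ [DA.hash]).map some).length := by simp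
      rw [e2]
      conv_lhs => rw [e1]
      exact List.drop_left
    have hX1 : (st1 .X).length = 0 := by
      simp [hst1, st0]
    cases hc2 : cutHash l with
    | none =>
      have hp : uParse y = none := by
        unfold uParse
        rw [← hx, hc1]
        simp only [hc2]
      obtain ⟨d', hr⟩ := field_none (S := S) (c := c) .X (fun a => .letter (.inr (bitOf a))) l _
        st1 y' (by omega) hy1 hstp hc2 hr1.le_end (by omega)
      refine ⟨d', ?_, fun u hu => by rw [hp] at hu; cases hu⟩
      rw [hp]
      unfold uInitR
      refine Runs.mono (T := 4 * x.length + (4 * l.length + 3 + 0))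
        (runs_bind hr1 (T' := 4 * l.length + 3 + 0) ?_) le_rfl (by omega)
      rw [if_pos rfl]
      refine runs_bind hr (T' := 0) ?_
      exact runs_pure false hr.le_end
    | some r2 =>
      obtain ⟨w, l2⟩ := r2
      have hle := cutHash_some hc2
      have hlen2 : l.length = w.length + 1 + l2.length := by
        rw [hle]
        simp
        omega
      have hr2 := field_some (S := S) (c := c) .X (fun a => .letter (.inr (bitOf a))) l _ st1 y'
        w l2 hy1 hc2 hr1.le_end (by omega)
      set st2 : UN → List UG := Function.update st1 .X
        ((w.map fun a => InSym.letter (.inr (bitOf a))).reverse ++ st1 .X) with hst2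
      have hy2 : y.drop (0 + cd.length + 1 + w.length + 1) = l2.map some ++ y' := by
        rw [show 0 + cd.length + 1 + w.length + 1 = (0 + cd.length + 1) + (w.length + 1) by ring,
          ← List.drop_drop, hy1]
        have e1 : l.map some ++ y' = (w ++ [DA.hash]).map some ++ (l2.map some ++ y') := by
          rw [hle]
          simp
        have e2 : w.length + 1 = ((w ++ [DA.hash]).map some).length := by simp
        rw [e1, e2]
        exact List.drop_left
      have hIR2 : st2 .IR = [] := by
        simp [hst2, hst1, st0]
      have hX2 : st2 .X = (w.map fun a => InSym.letter (.inr (bitOf a))).reverse := by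
        simp [hst2, hst1, st0]
      have hr3 := runs_push (x := y) (c := c) UN.IR (.right : UG) hr2.le_end (by
        show (st2 .IR).length + 1 ≤ S
        rw [hIR2]
        simp
        omega)
      simp only at hr3
      rw [hIR2] at hr3
      set st3 : UN → List UG := Function.update st2 .IR [.right] with hst3
      have hX3 : st3 .X = (w.map fun a => InSym.letter (.inr (bitOf a))).reverse := by
        rw [hst3, Function.update_of_ne (by decide), hX2]
      have hIR3 : st3 .IR = [.right] := by
        rw [hst3, Function.update_self]
      have hr4 := h (Option DA) UG UN (fun _ => false) .X .IR (by decide) y S _ c hr3.le_end (by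
        show (st3 .X).length + (st3 .IR).length ≤ S
        rw [hX3, hIR3]
        simp
        omega)
      simp only [xfer_false] at hr4
      have hlenX : (st3 .X).length = w.length := by rw [hX3]; simp
      rw [hlenX] at hr4
      set st4 : UN → List UG := Function.update (Function.update st3 .X []) .IR
        ((st3 .X).reverse ++ st3 .IR) with hst4
      have hr5 := right_run (c := c) l2 _ y' (by omega) hy2 hstp hr4.le_end
      have hpos : 0 + cd.length + 1 + w.length + 1 + l2.length + 1 = x.length + 1 := by omega
      rw [hpos] at hr5
      have hIR4 : st4 .IR = (w.map fun a => InSym.letter (.inr (bitOf a))) ++ [.right] := by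
        rw [hst4, Function.update_self, hX3, hIR3, List.reverse_reverse]
      have hr6 := left_run (c := c) x st4 y' hy hr5.le_end (by
        rw [hIR4]
        simp
        omega)
      set st5 : UN → List UG := Function.update st4 .IR
        (x.map (fun a => InSym.letter (.inl a)) ++ st4 .IR) with hst5
      have hIR5 : st5 .IR = x.map (fun a => InSym.letter (.inl a)) ++
          ((w.map fun a => InSym.letter (.inr (bitOf a))) ++ [.right]) := by
        rw [hst5, Function.update_self, hIR4]
      have hr7 := runs_push (x := y) (c := c) UN.IR (.left : UG) hr6.le_end (by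
        show (st5 .IR).length + 1 ≤ S
        rw [hIR5]
        simp
        omega)
      simp only at hr7
      have hr8 := right_run (c := c) x 0 y' (Nat.zero_le _) hy0 hstp hr7.le_end
      rw [Nat.zero_add] at hr8
      have hp : uParse y = some ⟨[], (cd.map ug).reverse, [], [],
          itape (pairL x (w.map bitOf)), [], []⟩ := by
        unfold uParse
        rw [← hx, hc1]
        simp only [hc2]
      refine ⟨⟨x.length + 1, Function.update st5 .IR (.left :: st5 .IR)⟩, ?_, fun u hu => ?_⟩
      · rw [hp]
        unfold uInitR
        refine (runs_bind hr1 (runs_bind hr2 (runs_bind hr3 (runs_bind hr4 (runs_bind hr5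
          (runs_bind hr6 (runs_bind hr7 (runs_bind hr8
            (runs_pure true hr8.le_end))))))))).mono le_rfl ?_
        omega
      · rw [hp] at hu
        obtain rfl : (⟨[], (cd.map ug).reverse, [], [],
          itape (pairL x (w.map bitOf)), [], []⟩ : UD) = u := by simpa using hu
        congr 1
        funext i
        cases i
        case IR =>
          rw [Function.update_self, hIR5]
          simp [UD.st, itape, pairL, Function.comp_def]
        all_goals
          simp [hst5, hst4, hst3, hst2, hst1, st0, UD.st]

end Pool.Agent.Lib.MP_9dcf40_lc
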