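import Pool.Agent.Lib.MP_9dcf40_lc.SpecU2

/-!
# The universal languages are in P and NP
-/

namespace Pool.Agent.Lib.MP_9dcf40_lc

namespace UK

/-- A halting configuration is fixed. -/
private theorem next_halt {A : Type} (M : TM A) (x : List A) (b : Bool) (c : Cfg M.Q M.G)
    (h : M.out c.q ≠ none) : M.next x b c = c := by
  unfold TM.next
  cases h' : M.out c.q with
  | none => exact absurd h' h
  | some r => rfl

private theorem run_halt {A : Type} (M : TM A) (x : List A) (ch : ℕ → Bool) (T : ℕ)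
    (h : M.out (M.run x ch T).q ≠ none) (j : ℕ) : M.run x ch (T + j) = M.run x ch T := by
  induction j with
  | zero => rfl
  | succ j ih =>
    show M.next x (ch (T + j)) (M.run x ch (T + j)) = _
    rw [ih]
    exact next_halt M x _ _ h

private theorem haltsIn_mono {A : Type} {M : TM A} {x : List A} {T T' : ℕ}
    (h : M.HaltsIn x T) (hT : T ≤ T') : M.HaltsIn x T' := by
  intro ch
  obtain ⟨j, rfl⟩ := Nat.exists_eq_add_of_le hT
  rw [run_halt M x ch T (h ch) j]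
  exact h ch

private theorem num (k n : ℕ) :
    ((n ^ k + k) + 1) * (2 * (n ^ k + k) + 2) ≤
      n ^ (4 * k + 5 + 2 * (k + 2) ^ 2) + (4 * k + 5 + 2 * (k + 2) ^ 2) := by
  rcases Nat.lt_or_ge n 2 with hn | hn
  · have h1 : n ^ k ≤ 1 := pow_le_one₀ (Nat.zero_le n) (by omega)
    calc ((n ^ k + k) + 1) * (2 * (n ^ k + k) + 2) ≤ ((1 + k) + 1) * (2 * (1 + k) + 2) :=
          Nat.mul_le_mul (by omega) (by omega)
      _ = 2 * (k + 2) ^ 2 := by ring
      _ ≤ _ := by omega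
  · have h1 : k + 2 ≤ n ^ (k + 2) :=
      (Nat.lt_two_pow_self (n := k + 2)).le.trans (Nat.pow_le_pow_left hn _)
    have h2 : 1 ≤ n ^ k := Nat.one_le_pow _ _ (by omega)
    have h3 : n ^ k + k + 1 ≤ n ^ (2 * k + 2) := by
      calc n ^ k + k + 1 ≤ n ^ k * (k + 2) := by nlinarith
        _ ≤ n ^ k * n ^ (k + 2) := Nat.mul_le_mul_left _ h1
        _ = n ^ (2 * k + 2) := by rw [← pow_add]; ring_nf
    calc ((n ^ k + k) + 1) * (2 * (n ^ k + k) + 2) = 2 * ((n ^ k + k + 1) * (n ^ k + k + 1)) := by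
          ring
      _ ≤ n * (n ^ (2 * k + 2) * n ^ (2 * k + 2)) :=
          Nat.mul_le_mul hn (Nat.mul_le_mul h3 h3)
      _ = n ^ (4 * k + 5) := by rw [← pow_add, ← pow_succ']; ring_nf
      _ ≤ n ^ (4 * k + 5 + 2 * (k + 2) ^ 2) :=
          Nat.pow_le_pow_right (by omega) (by omega)
      _ ≤ _ := Nat.le_add_right _ _

end UK

theorem k_d (hC : StCompD) (h : StUTotal) : StKD := by
  obtain ⟨k, hk⟩ := h
  obtain ⟨M, hM, hM'⟩ := hC (Option DA) UG UN uR
  refine ⟨M, hM, ⟨4 * k + 5 + 2 * (k + 2) ^ 2, fun x => ?_⟩, fun x => ?_⟩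
  · obtain ⟨d', c', hr⟩ := hk x (fun _ => false)
    exact UK.haltsIn_mono (hM' x _ _ _ _ _ hr).1 (UK.num k x.length)
  · obtain ⟨d', c', hr⟩ := hk x (fun _ => false)
    exact (hM' x _ _ _ _ _ hr).2.1.symm

theorem k_n (hC : StCompN) (h : StUTotal) : StKN := by
  obtain ⟨k, hk⟩ := h
  obtain ⟨M, hM'⟩ := hC (Option DA) UG UN uR
  refine ⟨M, ⟨4 * k + 5 + 2 * (k + 2) ^ 2, fun x => ?_⟩, fun x => ?_⟩
  · exact UK.haltsIn_mono (hM' x _ _ (uEval x) (fun c => hk x c)).1 (UK.num k x.length)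
  · exact (hM' x _ _ (uEval x) (fun c => hk x c)).2.symm

end Pool.Agent.Lib.MP_9dcf40_lc
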