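import Pool.Agent.Lib.MP_9dcf40_lc.SpecU

/-!
# The universal machine: table lookup
-/

namespace Pool.Agent.Lib.MP_9dcf40_lc

namespace ULookupAux

/-- Skipping the first `i` blocks of a concatenation of blocks. -/
theorem skip_list {α : Type} (h : StUSkip) (e : DA) (L : List α) (f : α → List DA)
    (hf : ∀ x ∈ L, e ∉ f x) (i : ℕ) (hi : i < L.length) (u : UD) (rest : List UG)
    (hC : u.C = (L.flatMap fun x => f x ++ [e]).map ug ++ rest) :
    ∃ R Cb' : List UG, (uSkipN e i u).2 = { u with C := (f L[i]).map ug ++ R, Cb := Cb' } ∧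
      Cb'.reverse ++ ((f L[i]).map ug ++ R) = u.Cb.reverse ++ u.C := by
  have hL : L = L.take i ++ L[i] :: L.drop (i + 1) := by
    rw [← List.drop_eq_getElem_cons hi, List.take_append_drop]
  have hlen : ((L.take i).map f).length = i := by
    rw [List.length_map, List.length_take]
    omega
  have e1 : (((L.take i).map f).flatMap fun B => B ++ [e]) =
      (L.take i).flatMap fun x => f x ++ [e] := by
    rw [List.flatMap_map]
  have hC' : u.C = ((((L.take i).map f).flatMap fun B => B ++ [e]).map ug) ++
      ((f L[i]).map ug ++ (ug e :: (((L.drop (i + 1)).flatMap fun x => f x ++ [e]).map ug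
        ++ rest))) := by
    rw [hC, e1]
    conv_lhs => rw [hL]
    simp only [List.flatMap_append, List.flatMap_cons, List.map_append, List.map_cons,
      List.map_nil, List.append_assoc, List.singleton_append, List.cons_append, List.nil_append]
  have hbs : ∀ B ∈ (L.take i).map f, e ∉ B := by
    intro B hB
    obtain ⟨x, hx, rfl⟩ := List.mem_map.1 hB
    exact hf x (List.mem_of_mem_take hx)
  have hk := h e ((L.take i).map f) u _ hbs hC'
  rw [hlen] at hk
  refine ⟨_, _, hk, ?_⟩
  rw [hC', List.reverse_append, List.reverse_reverse]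
  simp only [List.append_assoc]

theorem outL_ne (o : Option Bool) : outL o ≠ .eState ∧ outL o ≠ .eIn ∧ outL o ≠ .eSym := by
  rcases o with _ | b
  · decide
  · cases b <;> decide

theorem dirL_ne (o : Dir) : dirL o ≠ .eState ∧ dirL o ≠ .eIn ∧ dirL o ≠ .eSym := by
  cases o <;> decide

theorem mem_numL {n : ℕ} {e : DA} (h : e ∈ numL n) : e = .one ∨ e = .zero := by
  unfold numL at h
  rw [List.mem_append] at h
  rcases h with h | h
  · exact Or.inl (List.eq_of_mem_replicate h)
  · exact Or.inr (by simpa using h)

theorem mem_entry {F : FM DB} {b : Bool} {q : Fin (F.a + 1)} {a : InSym DB} {s : Fin (F.b + 1)}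
    {e : DA} (h : e ∈ entry F b q a s) : e ≠ .eState ∧ e ≠ .eIn ∧ e ≠ .eSym := by
  unfold entry at h
  simp only [List.mem_append, List.mem_cons, List.not_mem_nil, or_false] at h
  rcases h with ((h | h | h) | h) | h
  · rw [h]; exact outL_ne _
  · rw [h]; exact dirL_ne _
  · rw [h]; exact dirL_ne _
  · rcases mem_numL h with h | h <;> rw [h] <;> decide
  · rcases mem_numL h with h | h <;> rw [h] <;> decide

theorem mem_blockSym {F : FM DB} {q : Fin (F.a + 1)} {k : Bool × InSym DB}
    {e : DA} (h : e ∈ blockSym F q k) : e ≠ .eState ∧ e ≠ .eIn := by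
  unfold blockSym at h
  obtain ⟨s, -, hs⟩ := List.mem_flatMap.1 h
  rw [List.mem_append, List.mem_singleton] at hs
  rcases hs with hs | hs
  · exact ⟨(mem_entry hs).1, (mem_entry hs).2.1⟩
  · rw [hs]; decide

theorem mem_blockIn {F : FM DB} {q : Fin (F.a + 1)} {e : DA} (h : e ∈ blockIn F q) :
    e ≠ .eState := by
  unfold blockIn at h
  obtain ⟨s, -, hs⟩ := List.mem_flatMap.1 h
  rw [List.mem_append, List.mem_singleton] at hs
  rcases hs with hs | hs
  · exact (mem_blockSym hs).1
  · rw [hs]; decide

theorem num1_replicate (n : ℕ) : num1 (List.replicate n (ug .one)) = n := by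
  induction n with
  | zero => rfl
  | succ n ih => simp [List.replicate_succ, num1, ih]

theorem rst_replicate (n : ℕ) : rst (List.replicate n (ug .one)) = [] := by
  induction n with
  | zero => rfl
  | succ n ih => simp [List.replicate_succ, rst, ih]

end ULookupAux

open ULookupAux in
theorem u_lookup (h : StUSkip) : StULookup := by
  intro F b q a s u hcode hQ hIR hWR
  -- rewinding and removing the first letter
  have h1 : (uPopC (uRewind u).2).2 =
      { u with C := (table F).map ug, Cb := [ug (outL (F.out 0))] } := by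
    simp only [uRewind, uPopC, hcode, code, List.map_cons]
  -- the block of the state
  have hq : (q : ℕ) < (List.finRange (F.a + 1)).length := by
    rw [List.length_finRange]; exact q.2
  obtain ⟨R1, Cb1, e1, c1⟩ := skip_list h .eState (List.finRange (F.a + 1)) (blockIn F)
    (fun x _ hx => (mem_blockIn hx) rfl) q hq
    { u with C := (table F).map ug, Cb := [ug (outL (F.out 0))], Q := [] } []
    (by simp only [table, List.append_nil])
  have g1 : (List.finRange (F.a + 1))[(q : ℕ)] = q := by
    rw [List.getElem_finRange]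
    exact Fin.ext rfl
  rw [g1] at e1 c1
  have h2 : (uSkipQ (uPopC (uRewind u).2).2).2 =
      { u with C := (blockIn F q).map ug ++ R1, Cb := Cb1, Q := [] } := by
    rw [h1]
    unfold uSkipQ
    simp only [hQ, num1_replicate, rst_replicate]
    rw [e1]
  -- the block of the choice and the input symbol
  have hcur : (uCur (uSkipQ (uPopC (uRewind u).2).2).2).1.getD .right = a := by
    rw [h2]
    simp only [uCur, hIR, Option.getD_some]
  have hk : keys.idxOf (b, a) < keys.length := List.idxOf_lt_length_iff.2 (mem_keys (b, a))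
  obtain ⟨R2, Cb2, e2, c2⟩ := skip_list h .eIn keys (blockSym F q)
    (fun x _ hx => (mem_blockSym hx).2 rfl) _ hk
    { u with C := (blockIn F q).map ug ++ R1, Cb := Cb1, Q := [] } R1
    (by simp only [blockIn])
  have g2 : keys[keys.idxOf (b, a)] = (b, a) := List.getElem_idxOf hk
  rw [g2] at e2 c2
  -- the entry of the work symbol
  have hs : (s : ℕ) < (List.finRange (F.b + 1)).length := by
    rw [List.length_finRange]; exact s.2
  obtain ⟨R3, Cb3, e3, c3⟩ := skip_list h .eSym (List.finRange (F.b + 1))
    (fun s => entry F b q a s)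
    (fun x _ hx => (mem_entry hx).2.2 rfl) s hs
    { u with C := (blockSym F q (b, a)).map ug ++ R2, Cb := Cb2, Q := [], WR := rst u.WR } R2
    (by simp only [blockSym])
  have g3 : (List.finRange (F.b + 1))[(s : ℕ)] = s := by
    rw [List.getElem_finRange]
    exact Fin.ext rfl
  rw [g3] at e3 c3
  refine ⟨R3, Cb3, ?_, ?_⟩
  · rw [hcur, h2, e2]
    unfold uSkipW
    simp only [hWR]
    rw [e3]
  · rw [c3]
    show Cb2.reverse ++ ((blockSym F q (b, a)).map ug ++ R2) = _
    rw [c2]
    show Cb1.reverse ++ ((blockIn F q).map ug ++ R1) = _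
    rw [c1]
    rfl

end Pool.Agent.Lib.MP_9dcf40_lc
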