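import Pool.Agent.Lib.MP_9dcf40_lc.SpecU2

/-!
# The main loop of the universal routine
-/

namespace Pool.Agent.Lib.MP_9dcf40_lc

namespace UMain

open Rout

theorem st_length_le (u : UD) (i : UN) : (u.st i).length ≤ u.size := by
  cases i <;> simp only [UD.st, UD.size, List.length_nil] <;> omega

theorem data_le {u : UD} {S : ℕ} (h : u.size ≤ S) (p : ℕ) :
    (⟨p, u.st⟩ : Data UG UN).le S := fun i => (st_length_le u i).trans h

/-- The body of the main loop. -/
def body : UR (Unit ⊕ Bool) := Rout.read.bind fun a =>
    if a = .right then pureR (.inr false) else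
      (move .right).bind fun _ => choose.bind fun b => (uStepR b).bind fun f =>
        if f = some (ug .one) then pureR (.inr true)
        else if f = some (ug .dl) then pureR (.inr false) else pureR (.inl ())

theorem uMainR_eq : uMainR = iter (τ := Unit) (fun _ => body) () := rfl

/-- The result of one round. -/
def res (f : Option UG) : Unit ⊕ Bool :=
  if f = some (ug .one) then .inr true else if f = some (ug .dl) then .inr false else .inl ()

theorem inSym_letter {A : Type} (y : List A) {p : ℕ} (h1 : 1 ≤ p) (h2 : p ≤ y.length) :
    inSym y p ≠ .right := by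
  obtain ⟨p, rfl⟩ := Nat.exists_eq_add_of_le' h1
  have h3 : y[p]? = some (y[p]'(by omega)) := List.getElem?_eq_getElem _
  simp only [inSym, h3]
  exact fun h => by cases h

theorem inSym_end {A : Type} (y : List A) : inSym y (y.length + 1) = .right := by
  have h3 : y[y.length]? = none := List.getElem?_eq_none le_rfl
  simp only [inSym, h3]

/-- One round of the main loop. -/
theorem body_runs (h : StUStep) {y : List (Option DA)} {K S p : ℕ} {u : UD} {c : Str}
    (hK : u.klen = K) (hp1 : 1 ≤ p) (hp : p ≤ y.length) (hS : u.size + (2 * K + 2) ≤ S) :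
    Runs y body S (300 * (S + 1) ^ 2 + 3) ⟨p, u.st⟩ c (res (uStep (c 0) u).1)
      ⟨p + 1, (uStep (c 0) u).2.st⟩ (fun n => c (n + 1)) := by
  have hle : (⟨p, u.st⟩ : Data UG UN).le S := data_le (by omega) p
  have hle' : (⟨p + 1, u.st⟩ : Data UG UN).le S := data_le (by omega) (p + 1)
  have h1 := runs_read (x := y) (c := c) hle
  have h2 := runs_move (x := y) (c := c) .right hle
  have h3 : movePos y.length .right p = p + 1 := by
    simp only [movePos]
    omega
  rw [show movePos y.length .right (⟨p, u.st⟩ : Data UG UN).pos = p + 1 from h3] at h2
  obtain ⟨h4, h5, h6⟩ := h K (c 0) y u (p + 1) (fun n => c (n + 1)) S hK hS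
  have h7 : Runs y (if (uStep (c 0) u).1 = some (ug .one) then pureR (.inr true)
        else if (uStep (c 0) u).1 = some (ug .dl) then pureR (.inr false)
          else pureR (.inl ()) : UR (Unit ⊕ Bool)) S 0 ⟨p + 1, (uStep (c 0) u).2.st⟩
        (fun n => c (n + 1)) (res (uStep (c 0) u).1) ⟨p + 1, (uStep (c 0) u).2.st⟩
        (fun n => c (n + 1)) := by
    unfold res
    have h8 : (⟨p + 1, (uStep (c 0) u).2.st⟩ : Data UG UN).le S := data_le (by omega) (p + 1)
    split_ifs
    · exact runs_pure _ h8
    · exact runs_pure _ h8
    · exact runs_pure _ h8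
  have h8 := runs_bind (f := fun f => (if f = some (ug .one) then pureR (.inr true)
        else if f = some (ug .dl) then pureR (.inr false) else pureR (.inl ()) :
          UR (Unit ⊕ Bool))) h6 h7
  have h9 := runs_bind (f := fun b => (uStepR b).bind fun f =>
        (if f = some (ug .one) then pureR (.inr true)
        else if f = some (ug .dl) then pureR (.inr false) else pureR (.inl ()) :
          UR (Unit ⊕ Bool))) (runs_choose (x := y) (c := c) hle') h8
  have h10 := runs_bind (f := fun _ => choose.bind fun b => (uStepR b).bind fun f =>
        (if f = some (ug .one) then pureR (.inr true)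
        else if f = some (ug .dl) then pureR (.inr false) else pureR (.inl ()) :
          UR (Unit ⊕ Bool))) h2 h9
  have h11 : Runs y (if inSym y p = .right then pureR (.inr false) else
      (move .right).bind fun _ => choose.bind fun b => (uStepR b).bind fun f =>
        (if f = some (ug .one) then pureR (.inr true)
        else if f = some (ug .dl) then pureR (.inr false) else pureR (.inl ()) :
          UR (Unit ⊕ Bool))) S (1 + (1 + (300 * (S + 1) ^ 2 + 0))) ⟨p, u.st⟩ c
        (res (uStep (c 0) u).1) ⟨p + 1, (uStep (c 0) u).2.st⟩ (fun n => c (n + 1)) := by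
    rw [if_neg (inSym_letter y hp1 hp)]
    exact h10
  have h12 := runs_bind (f := fun a => (if a = .right then pureR (.inr false) else
      (move .right).bind fun _ => choose.bind fun b => (uStepR b).bind fun f =>
        if f = some (ug .one) then pureR (.inr true)
        else if f = some (ug .dl) then pureR (.inr false) else pureR (.inl ()) :
          UR (Unit ⊕ Bool))) h1 h11
  exact h12.mono le_rfl (by omega)

end UMain

open UMain in
/-- The main loop. -/
theorem u_main (h : StUStep) : StUMain := by
  intro y K S p u c hK hp1 hp hS
  rw [uMainR_eq]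
  obtain ⟨n, hn⟩ : ∃ n, y.length + 1 - p = n := ⟨_, rfl⟩
  induction n generalizing p u c with
  | zero =>
    obtain rfl : p = y.length + 1 := by omega
    have hle : (⟨y.length + 1, u.st⟩ : Data UG UN).le S := data_le (by omega) _
    have h1 := runs_read (x := y) (c := c) hle
    have h2 : Runs y (if inSym y (y.length + 1) = .right then Rout.pureR (.inr false) else
      (Rout.move .right).bind fun _ => Rout.choose.bind fun b => (uStepR b).bind fun f =>
        if f = some (ug .one) then Rout.pureR (.inr true)
        else if f = some (ug .dl) then Rout.pureR (.inr false) else Rout.pureR (.inl ()) :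
          UR (Unit ⊕ Bool)) S 0 ⟨y.length + 1, u.st⟩ c (.inr false) ⟨y.length + 1, u.st⟩ c := by
      rw [if_pos (inSym_end y)]
      exact runs_pure _ hle
    have h3 := runs_bind (f := fun a => (if a = .right then Rout.pureR (.inr false) else
      (Rout.move .right).bind fun _ => Rout.choose.bind fun b => (uStepR b).bind fun f =>
        if f = some (ug .one) then Rout.pureR (.inr true)
        else if f = some (ug .dl) then Rout.pureR (.inr false) else Rout.pureR (.inl ()) :
          UR (Unit ⊕ Bool))) h1 h2
    have h4 := runs_iter_done (body := fun _ : Unit => body) (t := ()) h3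
    refine ⟨⟨y.length + 1, u.st⟩, c, ?_⟩
    rw [hn]
    refine h4.mono le_rfl ?_
    have h5 : y.length + 2 - (y.length + 1) = 1 := by omega
    rw [h5, one_mul]
    omega
  | succ n ih =>
    have hp' : p ≤ y.length := by omega
    have hstep : u.size + (2 * K + 2) ≤ S := by
      rw [hn] at hS
      have : (n + 1) * (2 * K + 2) = n * (2 * K + 2) + (2 * K + 2) := by ring
      omega
    have h1 := body_runs h (c := c) hK hp1 hp' hstep
    obtain ⟨h4, h5, -⟩ := h K (c 0) y u (p + 1) (fun n => c (n + 1)) S hK hstep
    have ht : (y.length + 2 - p) * (300 * (S + 1) ^ 2 + 10) =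
        (300 * (S + 1) ^ 2 + 10) + (y.length + 2 - (p + 1)) * (300 * (S + 1) ^ 2 + 10) := by
      have : y.length + 2 - p = 1 + (y.length + 2 - (p + 1)) := by omega
      rw [this, add_mul, one_mul]
    have hloop : uLoop (y.length + 1 - p) c u =
        if (uStep (c 0) u).1 = some (ug .one) then true
        else if (uStep (c 0) u).1 = some (ug .dl) then false
        else uLoop n (fun n => c (n + 1)) (uStep (c 0) u).2 := by
      rw [hn]
      rfl
    rw [hloop, ht]
    by_cases e1 : (uStep (c 0) u).1 = some (ug .one)
    · rw [if_pos e1]
      have e2 : res (uStep (c 0) u).1 = .inr true := by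
        unfold res
        rw [if_pos e1]
      rw [e2] at h1
      exact ⟨_, _, (runs_iter_done (body := fun _ : Unit => body) (t := ()) h1).mono le_rfl
        (by omega)⟩
    · rw [if_neg e1]
      by_cases e3 : (uStep (c 0) u).1 = some (ug .dl)
      · rw [if_pos e3]
        have e2 : res (uStep (c 0) u).1 = .inr false := by
          unfold res
          rw [if_neg e1, if_pos e3]
        rw [e2] at h1
        exact ⟨_, _, (runs_iter_done (body := fun _ : Unit => body) (t := ()) h1).mono le_rfl
          (by omega)⟩
      · rw [if_neg e3]
        have e2 : res (uStep (c 0) u).1 = .inl () := by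
          unfold res
          rw [if_neg e1, if_neg e3]
        rw [e2] at h1
        have hn' : y.length + 1 - (p + 1) = n := by omega
        have hS' : (uStep (c 0) u).2.size + (y.length + 1 - (p + 1)) * (2 * K + 2) ≤ S := by
          rw [hn']
          rw [hn] at hS
          have : (n + 1) * (2 * K + 2) = n * (2 * K + 2) + (2 * K + 2) := by ring
          omega
        obtain ⟨d', c', h6⟩ := ih (p + 1) (uStep (c 0) u).2 (fun n => c (n + 1)) h4 (by omega)
          (by omega) hS' hn'
        rw [hn'] at h6
        exact ⟨d', c', (runs_iter_step (body := fun _ : Unit => body) (t := ()) (t' := ())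
          h1 h6).mono le_rfl (by omega)⟩

end Pool.Agent.Lib.MP_9dcf40_lc
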