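import Pool.Agent.Lib.MP_9dcf40_lc.SpecU

/-!
# Normal form of a machine (helper72)
-/

namespace Pool.Agent.Lib.MP_9dcf40_lc

namespace UNormAux

theorem exists_equiv {α : Type} [Finite α] (a₀ : α) :
    ∃ (n : ℕ) (e : α ≃ Fin (n + 1)), e a₀ = 0 := by
  have hne : Nonempty α := ⟨a₀⟩
  have hpos : 0 < Nat.card α := Nat.card_pos
  obtain ⟨n, hn⟩ := Nat.exists_eq_succ_of_ne_zero hpos.ne'
  have e0 : α ≃ Fin (n + 1) := (Finite.equivFin α).trans (finCongr hn)
  refine ⟨n, e0.trans (Equiv.swap (e0 a₀) 0), ?_⟩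
  simp

end UNormAux

theorem u_norm : StNorm := by
  intro B M
  have := M.finQ
  have := M.finG
  obtain ⟨a, eQ, hQ⟩ := UNormAux.exists_equiv M.start
  obtain ⟨b, eG, hG⟩ := UNormAux.exists_equiv M.blank
  let F : FM B :=
    { a := a
      b := b
      out := fun q => M.out (eQ.symm q)
      δ := fun c q s g =>
        let r := M.δ c (eQ.symm q) s (eG.symm g)
        (eQ r.1, eG r.2.1, r.2.2.1, r.2.2.2) }
  have key : ∀ (x : List B) (ch : ℕ → Bool) (t : ℕ),
      F.toTM.run x ch t = (⟨eQ (M.run x ch t).q, (M.run x ch t).p, (M.run x ch t).h,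
        fun i => eG ((M.run x ch t).T i)⟩ : Cfg F.toTM.Q F.toTM.G) := by
    intro x ch t
    induction t with
    | zero =>
      show (⟨0, 0, 0, fun _ => 0⟩ : Cfg (Fin (a + 1)) (Fin (b + 1))) = ⟨eQ M.start, 0, 0,
        fun _ => eG M.blank⟩
      rw [hQ, hG]
    | succ t ih =>
      show F.toTM.next x (ch t) (F.toTM.run x ch t) = _
      rw [ih]
      have hrun : M.run x ch (t + 1) = M.next x (ch t) (M.run x ch t) := rfl
      rw [hrun]
      generalize M.run x ch t = c
      have hout : F.toTM.out (eQ c.q) = M.out c.q := by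
        show M.out (eQ.symm (eQ c.q)) = M.out c.q
        rw [Equiv.symm_apply_apply]
      unfold TM.next
      show (match F.toTM.out (eQ c.q) with
        | some _ => _
        | none => _) = _
      rw [hout]
      cases h : M.out c.q with
      | some v => rfl
      | none =>
        have hδ : F.toTM.δ (ch t) (eQ c.q) (inSym x c.p) (eG (c.T c.h)) =
            (eQ (M.δ (ch t) c.q (inSym x c.p) (c.T c.h)).1,
              eG (M.δ (ch t) c.q (inSym x c.p) (c.T c.h)).2.1,
              (M.δ (ch t) c.q (inSym x c.p) (c.T c.h)).2.2.1,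
              (M.δ (ch t) c.q (inSym x c.p) (c.T c.h)).2.2.2) := by
          show (eQ (M.δ (ch t) (eQ.symm (eQ c.q)) (inSym x c.p) (eG.symm (eG (c.T c.h)))).1,
              eG (M.δ (ch t) (eQ.symm (eQ c.q)) (inSym x c.p) (eG.symm (eG (c.T c.h)))).2.1,
              (M.δ (ch t) (eQ.symm (eQ c.q)) (inSym x c.p) (eG.symm (eG (c.T c.h)))).2.2.1,
              (M.δ (ch t) (eQ.symm (eQ c.q)) (inSym x c.p) (eG.symm (eG (c.T c.h)))).2.2.2) = _
          rw [Equiv.symm_apply_apply, Equiv.symm_apply_apply]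
        show (⟨_, _, _, _⟩ : Cfg F.toTM.Q F.toTM.G) = ⟨_, _, _, _⟩
        have hT : Function.update (fun i => eG (c.T i)) c.h
            (eG (M.δ (ch t) c.q (inSym x c.p) (c.T c.h)).2.1) =
            fun i => eG (Function.update c.T c.h
              (M.δ (ch t) c.q (inSym x c.p) (c.T c.h)).2.1 i) := by
          funext i
          by_cases hi : i = c.h
          · subst hi
            simp
          · simp [hi]
        have hδ' : F.δ (ch t) (eQ c.q) (inSym x c.p) (eG (c.T c.h)) =
            (eQ (M.δ (ch t) c.q (inSym x c.p) (c.T c.h)).1,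
              eG (M.δ (ch t) c.q (inSym x c.p) (c.T c.h)).2.1,
              (M.δ (ch t) c.q (inSym x c.p) (c.T c.h)).2.2.1,
              (M.δ (ch t) c.q (inSym x c.p) (c.T c.h)).2.2.2) := hδ
        simp only []
        rw [hδ', Cfg.mk.injEq]
        exact ⟨rfl, rfl, rfl, hT⟩
  refine ⟨F, fun x ch t => ?_⟩
  rw [key]
  show M.out (eQ.symm (eQ (M.run x ch t).q)) = _
  rw [Equiv.symm_apply_apply]

end Pool.Agent.Lib.MP_9dcf40_lc
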