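import Pool.Agent.Lib.MP_9dcf40_lc.SpecU

/-!
# The pieces of one step of the universal machine, part A
-/

namespace Pool.Agent.Lib.MP_9dcf40_lc

open Rout

namespace UPA

theorem xfer_false {α : Type} (l acc : List α) :
    xfer (fun _ => false) l acc = ([], l.reverse ++ acc) := by
  induction l generalizing acc with
  | nil => rfl
  | cons a l ih =>
    show (if false = true then (l, a :: acc) else xfer (fun _ => false) l (a :: acc)) = _
    rw [if_neg (by decide), ih, List.reverse_cons, List.append_assoc]
    rfl

theorem xfer_len {α : Type} (stop : α → Bool) (l acc : List α) :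
    (xfer stop l acc).1.length + (xfer stop l acc).2.length = l.length + acc.length := by
  induction l generalizing acc with
  | nil => rfl
  | cons a l ih =>
    show ((if stop a then (l, a :: acc) else xfer stop l (a :: acc)) : List α × List α).1.length +
      ((if stop a then (l, a :: acc) else xfer stop l (a :: acc)) : List α × List α).2.length = _
    by_cases h : stop a
    · rw [if_pos h]
      simp only [List.length_cons]
      omega
    · rw [if_neg h, ih]
      simp only [List.length_cons]
      omega

theorem le_size (u : UD) (i : UN) : (u.st i).length ≤ u.size := by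
  cases i <;> simp only [UD.st, UD.size, List.length_nil] <;> omega

theorem data_le {u : UD} {p S : ℕ} (h : u.size ≤ S) : (⟨p, u.st⟩ : Data UG UN).le S :=
  fun i => (le_size u i).trans h

theorem imp_rewind (h : StXfer) (K : ℕ) : UImp K uRewindR uRewind 0 (fun S => 3 * S + 6) := by
  intro y u p c S hk hS
  have hC : u.Cb.length ≤ u.size := le_size u .Cb
  have hr := h (Option DA) UG UN (fun _ => false) .Cb .C (by decide) y S ⟨p, u.st⟩ c
    (data_le (by omega)) (by
      show u.Cb.length + u.C.length ≤ S
      simp only [UD.size] at hS
      omega)
  refine ⟨?_, ?_, ?_⟩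
  · simp only [UD.klen, uRewind, List.length_append, List.length_reverse, List.length_nil] at hk ⊢
    omega
  · simp only [UD.size, uRewind, List.length_append, List.length_reverse, List.length_nil]
    omega
  · refine (show Runs y uRewindR S (3 * (u.st .Cb).length + 2) ⟨p, u.st⟩ c ()
      ⟨p, (uRewind u).2.st⟩ c from ?_).mono le_rfl ?_
    · have he : (uRewind u).2.st = Function.update (Function.update u.st .Cb
          (xfer (fun _ => false) (u.st .Cb) (u.st .C)).1) .C
          (xfer (fun _ => false) (u.st .Cb) (u.st .C)).2 := by
        rw [xfer_false]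
        funext i
        cases i <;> rfl
      rw [he]
      exact hr
    · show 3 * u.Cb.length + 2 ≤ 3 * S + 6
      omega

theorem imp_skip (h : StXfer) (K : ℕ) (e : DA) :
    UImp K (uSkipR e) (uSkip e) 0 (fun S => 3 * S + 6) := by
  intro y u p c S hk hS
  have hC : u.C.length ≤ u.size := le_size u .C
  have hr := h (Option DA) UG UN (fun a => decide (a = ug e)) .C .Cb (by decide) y S ⟨p, u.st⟩ c
    (data_le (by omega)) (by
      show u.C.length + u.Cb.length ≤ S
      simp only [UD.size] at hS
      omega)
  have hl := xfer_len (fun a => decide (a = ug e)) u.C u.Cb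
  refine ⟨?_, ?_, ?_⟩
  · simp only [UD.klen, uSkip] at hk ⊢
    omega
  · simp only [UD.size, uSkip]
    omega
  · refine (show Runs y (uSkipR e) S (3 * (u.st .C).length + 2) ⟨p, u.st⟩ c ()
      ⟨p, (uSkip e u).2.st⟩ c from ?_).mono le_rfl ?_
    · have he : (uSkip e u).2.st = Function.update (Function.update u.st .C
          (xfer (fun a => decide (a = ug e)) (u.st .C) (u.st .Cb)).1) .Cb
          (xfer (fun a => decide (a = ug e)) (u.st .C) (u.st .Cb)).2 := by
        funext i
        cases i <;> rfl
      rw [he]
      exact hr
    · show 3 * u.C.length + 2 ≤ 3 * S + 6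
      omega

theorem imp_repeat (h : StXfer) (K : ℕ) (e : DA) (n : ℕ) :
    UImp K (repeatR (uSkipR e) n) (uSkipN e n) 0 (fun S => n * (3 * S + 6)) := by
  induction n with
  | zero =>
    intro y u p c S hk hS
    refine ⟨hk, le_rfl, ?_⟩
    exact (runs_pure () (data_le (by omega))).mono le_rfl (Nat.zero_le _)
  | succ n ih =>
    intro y u p c S hk hS
    obtain ⟨a1, a2, a3⟩ := imp_skip h K e y u p c S hk hS
    obtain ⟨b1, b2, b3⟩ := ih y (uSkip e u).2 p c S a1 (by omega)
    refine ⟨b1, ?_, ?_⟩
    · show (uSkipN e n (uSkip e u).2).2.size ≤ _
      omega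
    · refine (runs_bind a3 b3).mono le_rfl ?_
      show 3 * S + 6 + n * (3 * S + 6) ≤ (n + 1) * (3 * S + 6)
      exact le_of_eq (by ring)

theorem imp_popC (K : ℕ) : UImp K uPopCR uPopC 0 (fun S => 3 * S + 6) := by
  intro y u p c S hk hS
  have hd : (⟨p, u.st⟩ : Data UG UN).le S := data_le (by omega)
  have hp := runs_pop (x := y) (c := c) UN.C hd
  rcases hu : u.C with _ | ⟨a, l⟩
  · have h1 : uPopC u = (none, u) := by
      unfold uPopC
      rw [hu]
    rw [h1]
    refine ⟨hk, le_rfl, ?_⟩
    have h2 : (u.st .C).head? = none := by
      show u.C.head? = none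
      rw [hu]
      rfl
    have h3 : Function.update u.st UN.C (u.st .C).tail = u.st := by
      have : (u.st .C).tail = u.st .C := by
        show u.C.tail = u.C
        rw [hu]
        rfl
      rw [this, Function.update_eq_self]
    simp only [h2, h3] at hp
    refine Runs.mono (s := S) (T := 1 + 0) ?_ le_rfl (by show _ ≤ 3 * S + 6; omega)
    unfold uPopCR
    refine runs_bind hp ?_
    exact runs_pure none hd
  · have h1 : uPopC u = (some a, { u with C := l, Cb := a :: u.Cb }) := by
      unfold uPopC
      rw [hu]
    rw [h1]
    have hsz : ({ u with C := l, Cb := a :: u.Cb } : UD).size = u.size := by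
      simp only [UD.size, hu, List.length_cons]
      omega
    refine ⟨?_, by rw [hsz]; omega, ?_⟩
    · simp only [UD.klen, hu, List.length_cons] at hk ⊢
      omega
    · have h2 : (u.st .C).head? = some a := by
        show u.C.head? = some a
        rw [hu]
        rfl
      have h3 : Function.update u.st UN.C (u.st .C).tail = ({ u with C := l } : UD).st := by
        funext i
        cases i
        case C =>
          show u.C.tail = l
          rw [hu]
          rfl
        all_goals rfl
      simp only [h2, h3] at hp
      have hd2 : (⟨p, ({ u with C := l } : UD).st⟩ : Data UG UN).le S := by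
        refine data_le ?_
        simp only [UD.size, hu, List.length_cons] at hS ⊢
        omega
      have hq := runs_push (x := y) (c := c) UN.Cb a hd2 (by
        show u.Cb.length + 1 ≤ S
        simp only [UD.size, hu, List.length_cons] at hS
        omega)
      have h4 : Function.update ({ u with C := l } : UD).st UN.Cb
          (a :: ({ u with C := l } : UD).st .Cb) = ({ u with C := l, Cb := a :: u.Cb } : UD).st := by
        funext i
        cases i <;> rfl
      simp only [h4] at hq
      exact (runs_bind hp (runs_bind hq (runs_pure (some a) (data_le (by rw [hsz]; omega))))).mono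
        le_rfl (by show _ ≤ 3 * S + 6; omega)

theorem imp_cur (K : ℕ) : UImp K uCurR uCur 0 (fun S => 3 * S + 6) := by
  intro y u p c S hk hS
  have hd : (⟨p, u.st⟩ : Data UG UN).le S := data_le (by omega)
  have hp := runs_pop (x := y) (c := c) UN.IR hd
  refine ⟨hk, le_rfl, ?_⟩
  rcases hu : u.IR with _ | ⟨a, l⟩
  · have h1 : uCur u = (none, u) := by
      unfold uCur
      rw [hu]
      rfl
    rw [h1]
    have h2 : (u.st .IR).head? = none := by
      show u.IR.head? = none
      rw [hu]
      rfl
    have h3 : Function.update u.st UN.IR (u.st .IR).tail = u.st := by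
      have : (u.st .IR).tail = u.st .IR := by
        show u.IR.tail = u.IR
        rw [hu]
        rfl
      rw [this, Function.update_eq_self]
    simp only [h2, h3] at hp
    refine Runs.mono (s := S) (T := 1 + 0) ?_ le_rfl (by show _ ≤ 3 * S + 6; omega)
    unfold uCurR
    refine runs_bind hp ?_
    exact runs_pure none hd
  · have h1 : uCur u = (some a, u) := by
      unfold uCur
      rw [hu]
      rfl
    rw [h1]
    have h2 : (u.st .IR).head? = some a := by
      show u.IR.head? = some a
      rw [hu]
      rfl
    have h3 : Function.update u.st UN.IR (u.st .IR).tail = ({ u with IR := l } : UD).st := by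
      funext i
      cases i
      case IR =>
        show u.IR.tail = l
        rw [hu]
        rfl
      all_goals rfl
    simp only [h2, h3] at hp
    have hd2 : (⟨p, ({ u with IR := l } : UD).st⟩ : Data UG UN).le S := by
      refine data_le ?_
      simp only [UD.size, hu, List.length_cons] at hS ⊢
      omega
    have hq := runs_push (x := y) (c := c) UN.IR a hd2 (by
      show l.length + 1 ≤ S
      simp only [UD.size, hu, List.length_cons] at hS
      omega)
    have h4 : Function.update ({ u with IR := l } : UD).st UN.IR
        (a :: ({ u with IR := l } : UD).st .IR) = u.st := by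
      funext i
      cases i
      case IR =>
        show a :: l = u.IR
        rw [hu]
      all_goals rfl
    simp only [h4] at hq
    exact (runs_bind hp (runs_bind hq (runs_pure (some a) hd))).mono le_rfl (by show _ ≤ 3 * S + 6; omega)

end UPA

open UPA in
theorem u_a (h : StXfer) : StUA := fun K =>
  ⟨imp_rewind h K, imp_popC K, imp_skip h K, imp_repeat h K, imp_cur K⟩

end Pool.Agent.Lib.MP_9dcf40_lc
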