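import Pool.Agent.Lib.MP_9dcf40_lc.SpecU

/-!
# The universal machine: pieces of one step, part B
-/

namespace Pool.Agent.Lib.MP_9dcf40_lc

namespace UPB

private theorem st_le (u : UD) (i : UN) : (u.st i).length ≤ u.size := by
  cases i <;> simp only [UD.st, UD.size, List.length_nil] <;> omega

private theorem aux (i : UN) (set : List UG → UD → UD) (e : DA) (K : ℕ)
    (hst : ∀ l u, (set l u).st = Function.update u.st i l)
    (hk : ∀ l u, (set l u).klen = u.klen)
    (hsz : ∀ a l u, (set (a :: l) u).size = (set l u).size + 1)
    (hsk : ∀ l u, (uSkip e (set l u)).2 = set l (uSkip e u).2)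
    (hU : UImp K (uSkipR e) (uSkip e) 0 (fun S => 3 * S + 6)) :
    ∀ (l : List UG) (y : List (Option DA)) (u : UD) (p : ℕ) (c : Str) (S : ℕ), u.klen = K →
      (set l u).size ≤ S →
      (uSkipN e (num1 l) (set (rst l) u)).2.klen = K ∧
      (uSkipN e (num1 l) (set (rst l) u)).2.size ≤ (set l u).size ∧
      Runs y (forOnesR i (uSkipR e)) S ((l.length + 1) * (3 * S + 6)) ⟨p, (set l u).st⟩ c ()
        ⟨p, (uSkipN e (num1 l) (set (rst l) u)).2.st⟩ c := by
  intro l
  have hpop : ∀ (l : List UG) (u : UD) (y : List (Option DA)) (p : ℕ) (c : Str) (S : ℕ),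
      (set l u).size ≤ S →
      Runs y (Rout.pop i) S 1 ⟨p, (set l u).st⟩ c l.head? ⟨p, (set l.tail u).st⟩ c := by
    intro l u y p c S hS
    have hle : Data.le (⟨p, (set l u).st⟩ : Data UG UN) S := fun j => (st_le _ j).trans hS
    have h := runs_pop (x := y) (c := c) i hle
    have e1 : ((⟨p, (set l u).st⟩ : Data UG UN).st i) = l := by
      show (set l u).st i = l
      rw [hst, Function.update_self]
    rw [e1] at h
    have e2 : Function.update (⟨p, (set l u).st⟩ : Data UG UN).st i l.tail = (set l.tail u).st := by
      show Function.update (set l u).st i l.tail = (set l.tail u).st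
      rw [hst, hst, Function.update_idem]
    rw [e2] at h
    exact h
  induction l with
  | nil =>
    intro y u p c S hK hS
    refine ⟨(hk _ _).trans hK, le_rfl, ?_⟩
    have h1 := hpop [] u y p c S hS
    have hle : Data.le (⟨p, (set [] u).st⟩ : Data UG UN) S := fun j => (st_le _ j).trans hS
    refine Runs.mono (runs_iter_done (runs_bind h1 (g := (Sum.inr () : Unit ⊕ Unit)) (T' := 0) ?_)) le_rfl ?_
    · rw [if_neg (by simp)]
      exact runs_pure _ hle
    · simp only [List.length_nil]
      omega
  | cons a l ih =>
    intro y u p c S hK hS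
    have h1 := hpop (a :: l) u y p c S hS
    have hsz1 := hsz a l u
    have hle : Data.le (⟨p, (set l u).st⟩ : Data UG UN) S :=
      fun j => (st_le _ j).trans (by omega)
    by_cases ha : a = ug .one
    · have en : num1 (a :: l) = num1 l + 1 := by simp [num1, ha]
      have er : rst (a :: l) = rst l := by simp [rst, ha]
      have e3 : (uSkipN e (num1 (a :: l)) (set (rst (a :: l)) u)) =
          uSkipN e (num1 l) (set (rst l) (uSkip e u).2) := by
        rw [en, er]
        show uSkipN e (num1 l) (uSkip e (set (rst l) u)).2 = _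
        rw [hsk]
      rw [e3]
      obtain ⟨k1, k2, k3⟩ := hU y (set l u) p c (S - 1) ((hk _ _).trans hK) (by omega)
      rw [hsk] at k1 k2 k3
      rw [hk] at k1
      obtain ⟨i1, i2, i3⟩ := ih y (uSkip e u).2 p c S k1 (by omega)
      refine ⟨i1, by omega, ?_⟩
      have hle2 : Data.le (⟨p, (set l (uSkip e u).2).st⟩ : Data UG UN) S :=
        fun j => (st_le _ j).trans (by omega)
      have hb : Runs y ((Rout.pop i).bind fun o =>
          if o = some (ug .one) then (uSkipR e).bind fun _ => Rout.pureR (.inl ())
          else Rout.pureR (.inr ())) S (1 + (3 * (S - 1) + 6 + 0)) ⟨p, (set (a :: l) u).st⟩ c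
          (Sum.inl () : Unit ⊕ Unit) ⟨p, (set l (uSkip e u).2).st⟩ c := by
        refine runs_bind h1 ?_
        rw [if_pos (by simp [ha])]
        refine runs_bind (Runs.mono k3 (by omega) le_rfl) ?_
        exact runs_pure _ hle2
      refine Runs.mono (runs_iter_step hb i3) le_rfl ?_
      simp only [List.length_cons]
      have : (l.length + 1 + 1) * (3 * S + 6) = (l.length + 1) * (3 * S + 6) + (3 * S + 6) := by
        ring
      omega
    · have en : num1 (a :: l) = 0 := by simp [num1, ha]
      have er : rst (a :: l) = l := by simp [rst, ha]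
      rw [en, er]
      refine ⟨(hk _ _).trans hK, ?_, ?_⟩
      · show (set l u).size ≤ _
        omega
      · refine Runs.mono (runs_iter_done (runs_bind h1 (g := (Sum.inr () : Unit ⊕ Unit)) (T' := 0) ?_)) le_rfl ?_
        · rw [if_neg (by simpa using ha)]
          exact runs_pure _ hle
        · have : 1 * (3 * S + 6) ≤ ((a :: l).length + 1) * (3 * S + 6) :=
            Nat.mul_le_mul_right _ (by omega)
          omega

end UPB


theorem u_b (h : StUA) : StUB := by
  intro K
  constructor
  · intro y u p c S hK hS
    obtain ⟨k1, k2, k3⟩ := UPB.aux .Q (fun l u => { u with Q := l }) .eState K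
      (fun l u => by funext j; cases j <;> rfl) (fun l u => rfl)
      (fun a l u => by simp only [UD.size, List.length_cons]; omega) (fun l u => rfl)
      ((h K).2.2.1 .eState) u.Q y u p c S hK (by simpa using hS)
    refine ⟨k1, k2, ?_⟩
    have hQ : u.Q.length ≤ S := by
      have := UPB.st_le u .Q
      simp only [UD.st] at this
      omega
    exact Runs.mono k3 le_rfl (Nat.mul_le_mul_right _ (by omega))
  · intro y u p c S hK hS
    obtain ⟨k1, k2, k3⟩ := UPB.aux .WR (fun l u => { u with WR := l }) .eSym K
      (fun l u => by funext j; cases j <;> rfl) (fun l u => rfl)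
      (fun a l u => by simp only [UD.size, List.length_cons]; omega) (fun l u => rfl)
      ((h K).2.2.1 .eSym) u.WR y u p c S hK (by simpa using hS)
    refine ⟨k1, k2, ?_⟩
    have hQ : u.WR.length ≤ S := by
      have := UPB.st_le u .WR
      simp only [UD.st] at this
      omega
    exact Runs.mono k3 le_rfl (Nat.mul_le_mul_right _ (by omega))

end Pool.Agent.Lib.MP_9dcf40_lc
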