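import Pool.Agent.Lib.MP_9dcf40_lc.SpecU

/-!
# The universal machine: pieces C (copy of unary numbers)
-/

namespace Pool.Agent.Lib.MP_9dcf40_lc

namespace UPC

open Rout

/-- The stop condition of the copy loop. -/
abbrev stp : UG → Bool := fun a => decide (a ≠ ug .one)

/-- The stacks after the copy loop. -/
def res (j : UN) (l : List UG) (st : UN → List UG) : UN → List UG :=
  Function.update (Function.update (Function.update st .C (xfer stp l (st .Cb)).1) .Cb
    (xfer stp l (st .Cb)).2) j (List.replicate (num1 l) (ug .one) ++ st j)

theorem xfer_len (l acc : List UG) :
    (xfer stp l acc).1.length + (xfer stp l acc).2.length = l.length + acc.length := by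
  induction l generalizing acc with
  | nil => simp [xfer]
  | cons a l ih =>
    unfold xfer
    split_ifs with h
    · simp only [List.length_cons]; omega
    · rw [ih]; simp only [List.length_cons]; omega

theorem num1_le (l : List UG) : num1 l ≤ l.length := by
  induction l with
  | nil => simp [num1]
  | cons a l ih =>
    unfold num1
    split_ifs
    · simp only [List.length_cons]; omega
    · exact Nat.zero_le _

theorem copy (y : List (Option DA)) (j : UN) (hj : j ≠ .C) (hj' : j ≠ .Cb) (s : ℕ) (c : Str) :
    ∀ (l : List UG) (d : Data UG UN), d.st .C = l → d.le s →
      l.length + (d.st .Cb).length ≤ s → (d.st j).length + num1 l ≤ s →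
      Runs y (uCopyR j) s (4 * l.length + 2) d c () ⟨d.pos, res j l d.st⟩ c := by
  intro l
  induction l with
  | nil =>
    intro d hl hd _ _
    have h1 : Runs y (pop UN.C : UR (Option UG)) s 1 d c (d.st .C).head?
        ⟨d.pos, Function.update d.st .C (d.st .C).tail⟩ c := runs_pop .C hd
    rw [hl] at h1
    have h2 := runs_bind (f := fun o : Option UG => match o with
      | none => (pureR (.inr ()) : UR (Unit ⊕ Unit))
      | some a => (push .Cb a).bind fun _ =>
        if a = ug .one then (push j (ug .one)).bind fun _ => pureR (.inl ()) else
          pureR (.inr ())) h1 (runs_pure (Sum.inr ()) h1.le_end)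
    have h3 : Runs y (uCopyR j) s (1 + 0 + 1) d c ()
        ⟨d.pos, Function.update d.st .C ([] : List UG).tail⟩ c :=
      runs_iter_done (body := fun _ : Unit => (pop UN.C).bind fun o : Option UG => match o with
        | none => (pureR (.inr ()) : UR (Unit ⊕ Unit))
        | some a => (push .Cb a).bind fun _ =>
          if a = ug .one then (push j (ug .one)).bind fun _ => pureR (.inl ()) else
            pureR (.inr ())) (t := ()) h2
    have h4 : res j [] d.st = Function.update d.st .C ([] : List UG).tail := by
      funext i
      unfold res
      by_cases hi : i = j
      · subst hi
        simp [num1, hj]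
      · rw [Function.update_of_ne hi]
        cases i <;> simp [xfer, hl]
    rw [h4]
    exact h3.mono le_rfl (by simp)
  | cons a l ih =>
    intro d hl hd hlen hnum
    have h1 : Runs y (pop UN.C : UR (Option UG)) s 1 d c (d.st .C).head?
        ⟨d.pos, Function.update d.st .C (d.st .C).tail⟩ c := runs_pop .C hd
    rw [hl] at h1
    simp only [List.head?_cons, List.tail_cons] at h1
    have hle1 := h1.le_end
    have h2 : Runs y (push UN.Cb a : UR Unit) s 1
        ⟨d.pos, Function.update d.st .C l⟩ c ()
        ⟨d.pos, Function.update (Function.update d.st .C l) .Cb
          (a :: (Function.update d.st .C l) .Cb)⟩ c :=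
      runs_push .Cb a hle1 (by
        simp only [List.length_cons] at hlen
        simp only [ne_eq, reduceCtorEq, not_false_eq_true, Function.update_of_ne]
        omega)
    have hle2 := h2.le_end
    by_cases ha : a = ug .one
    · have hn1 : num1 (a :: l) = num1 l + 1 := by simp [num1, ha]
      rw [hn1] at hnum
      set d2 : Data UG UN := ⟨d.pos, Function.update (Function.update d.st .C l) .Cb
          (a :: (Function.update d.st .C l) .Cb)⟩ with hd2
      have hd2j : d2.st j = d.st j := by
        simp only [hd2]
        rw [Function.update_of_ne hj', Function.update_of_ne hj]
      have h3 : Runs y (push j (ug .one) : UR Unit) s 1 d2 c ()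
          ⟨d2.pos, Function.update d2.st j (ug .one :: d2.st j)⟩ c :=
        runs_push j (ug .one) hle2 (by rw [hd2j]; omega)
      have hle3 := h3.le_end
      set d3 : Data UG UN := ⟨d2.pos, Function.update d2.st j (ug .one :: d2.st j)⟩ with hd3
      have h4 : Runs y ((pop UN.C).bind fun o : Option UG => match o with
          | none => (pureR (.inr ()) : UR (Unit ⊕ Unit))
          | some a => (push .Cb a).bind fun _ =>
            if a = ug .one then (push j (ug .one)).bind fun _ => pureR (.inl ()) else
              pureR (.inr ())) s (1 + (1 + (1 + 0))) d c (Sum.inl ()) d3 c := by
        refine runs_bind h1 (runs_bind h2 ?_)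
        simp only [ha, if_true]
        exact runs_bind h3 (runs_pure _ hle3)
      have e1 : d3.st .C = l := by
        simp only [hd3, hd2]
        rw [Function.update_of_ne (Ne.symm hj)]
        simp
      have e2 : d3.st .Cb = a :: d.st .Cb := by
        simp only [hd3, hd2]
        rw [Function.update_of_ne (Ne.symm hj')]
        simp
      have e3 : d3.st j = ug .one :: d.st j := by
        simp only [hd3]
        rw [Function.update_self, hd2j]
      have h5 := ih d3 e1 hle3 (by
          rw [e2]
          simp only [List.length_cons] at hlen ⊢
          omega) (by
          rw [e3]
          simp only [List.length_cons]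
          omega)
      have h6 : Runs y (uCopyR j) s (1 + (1 + (1 + 0)) + (4 * l.length + 2) + 1) d c ()
          ⟨d3.pos, res j l d3.st⟩ c := runs_iter_step (body := fun _ : Unit =>
          (pop UN.C).bind fun o : Option UG => match o with
        | none => (pureR (.inr ()) : UR (Unit ⊕ Unit))
        | some a => (push .Cb a).bind fun _ =>
          if a = ug .one then (push j (ug .one)).bind fun _ => pureR (.inl ()) else
            pureR (.inr ())) (t := ()) (t' := ()) h4 h5
      have h7 : res j l d3.st = res j (a :: l) d.st := by
        funext i
        unfold res
        by_cases hi : i = j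
        · subst hi
          rw [Function.update_self, Function.update_self, e3, hn1, List.replicate_succ',
            List.append_assoc]
          rfl
        · rw [Function.update_of_ne hi, Function.update_of_ne hi, e2]
          have hx : xfer stp (a :: l) (d.st .Cb) = xfer stp l (a :: d.st .Cb) := by
            conv_lhs => unfold xfer
            simp [stp, ha]
          rw [hx]
          by_cases h8 : i = .Cb
          · subst h8
            rw [Function.update_self, Function.update_self]
          · rw [Function.update_of_ne h8, Function.update_of_ne h8]
            by_cases h9 : i = .C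
            · subst h9
              rw [Function.update_self, Function.update_self]
            · rw [Function.update_of_ne h9, Function.update_of_ne h9]
              simp only [hd3, hd2]
              rw [Function.update_of_ne hi, Function.update_of_ne h8, Function.update_of_ne h9]
      rw [← h7]
      refine h6.mono le_rfl ?_
      simp only [List.length_cons]
      omega
    · have hn1 : num1 (a :: l) = 0 := by simp [num1, ha]
      have h4 : Runs y ((pop UN.C).bind fun o : Option UG => match o with
          | none => (pureR (.inr ()) : UR (Unit ⊕ Unit))
          | some a => (push .Cb a).bind fun _ =>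
            if a = ug .one then (push j (ug .one)).bind fun _ => pureR (.inl ()) else
              pureR (.inr ())) s (1 + (1 + 0)) d c (Sum.inr ())
          ⟨d.pos, Function.update (Function.update d.st .C l) .Cb
          (a :: (Function.update d.st .C l) .Cb)⟩ c := by
        refine runs_bind h1 (runs_bind h2 ?_)
        simp only [ha, if_false]
        exact runs_pure _ hle2
      have h5 : Runs y (uCopyR j) s (1 + (1 + 0) + 1) d c ()
          ⟨d.pos, Function.update (Function.update d.st .C l) .Cb
          (a :: (Function.update d.st .C l) .Cb)⟩ c :=
        runs_iter_done (body := fun _ : Unit => (pop UN.C).bind fun o : Option UG => match o with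
        | none => (pureR (.inr ()) : UR (Unit ⊕ Unit))
        | some a => (push .Cb a).bind fun _ =>
          if a = ug .one then (push j (ug .one)).bind fun _ => pureR (.inl ()) else
            pureR (.inr ())) (t := ()) h4
      have h6 : res j (a :: l) d.st = Function.update (Function.update d.st .C l) .Cb
          (a :: (Function.update d.st .C l) .Cb) := by
        funext i
        unfold res
        have hx : xfer stp (a :: l) (d.st .Cb) = (l, a :: d.st .Cb) := by
          unfold xfer
          simp [stp, ha]
        rw [hx]
        by_cases hi : i = j
        · subst hi
          rw [Function.update_self, hn1, Function.update_of_ne hj', Function.update_of_ne hj]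
          simp
        · rw [Function.update_of_ne hi]
          by_cases h8 : i = .Cb
          · subst h8
            rw [Function.update_self, Function.update_self]
            simp
          · rw [Function.update_of_ne h8, Function.update_of_ne h8]
      rw [h6]
      refine h5.mono le_rfl ?_
      simp only [List.length_cons]
      omega

theorem le_st (u : UD) (p S : ℕ) (h : u.size ≤ S) : (⟨p, u.st⟩ : Data UG UN).le S := by
  intro i
  unfold UD.size at h
  cases i <;> simp only [UD.st, List.length_nil] <;> omega

end UPC

open UPC Rout in
theorem u_c : StUC := by
  intro K
  constructor
  · intro y u p c S hK hS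
    have hn := num1_le u.C
    have hx := xfer_len u.C u.Cb
    unfold UD.klen at hK
    have hsz : u.size = u.C.length + u.Cb.length + u.Q.length + u.IL.length + u.IR.length +
      u.WL.length + u.WR.length := rfl
    refine ⟨?_, ?_, ?_⟩
    · show (xfer stp u.C u.Cb).1.length + (xfer stp u.C u.Cb).2.length = K
      omega
    · show (xfer stp u.C u.Cb).1.length + (xfer stp u.C u.Cb).2.length +
        (List.replicate (num1 u.C) (ug .one) ++ u.Q).length + u.IL.length + u.IR.length +
        u.WL.length + u.WR.length ≤ u.size + K
      rw [List.length_append, List.length_replicate]
      omega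
    · have h1 := copy y .Q (by decide) (by decide) S c u.C ⟨p, u.st⟩ rfl
        (le_st u p S (by omega)) (by show u.C.length + u.Cb.length ≤ S; omega)
        (by show u.Q.length + num1 u.C ≤ S; omega)
      have h2 : res .Q u.C u.st = (uNumQ u).2.st := by
        funext i
        unfold res
        cases i <;> rfl
      simp only at h1
      rw [h2] at h1
      refine h1.mono le_rfl ?_
      show 4 * u.C.length + 2 ≤ 4 * S + 6
      omega
  · intro y u p c S hK hS
    have hn := num1_le u.C
    have hx := xfer_len u.C u.Cb
    unfold UD.klen at hK
    have hsz : u.size = u.C.length + u.Cb.length + u.Q.length + u.IL.length + u.IR.length +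
      u.WL.length + u.WR.length := rfl
    refine ⟨?_, ?_, ?_⟩
    · show (xfer stp u.C u.Cb).1.length + (xfer stp u.C u.Cb).2.length = K
      omega
    · show (xfer stp u.C u.Cb).1.length + (xfer stp u.C u.Cb).2.length + u.Q.length +
        u.IL.length + u.IR.length + u.WL.length +
        (List.replicate (num1 u.C) (ug .one) ++ ug .zero :: u.WR).length ≤ u.size + (K + 1)
      rw [List.length_append, List.length_replicate, List.length_cons]
      omega
    · have hp : Runs y (push UN.WR (ug .zero) : UR Unit) S 1 ⟨p, u.st⟩ c ()
          ⟨p, Function.update u.st .WR (ug .zero :: u.st .WR)⟩ c :=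
        runs_push .WR (ug .zero) (le_st u p S (by omega))
          (by show u.WR.length + 1 ≤ S; omega)
      have h1 := copy y .WR (by decide) (by decide) S c u.C
        ⟨p, Function.update u.st .WR (ug .zero :: u.st .WR)⟩
        (by simp [UD.st]) hp.le_end
        (by
          simp only [ne_eq, reduceCtorEq, not_false_eq_true, Function.update_of_ne]
          show u.C.length + u.Cb.length ≤ S
          omega)
        (by
          simp only [Function.update_self, List.length_cons]
          show u.WR.length + 1 + num1 u.C ≤ S
          omega)
      have h2 : res .WR u.C (Function.update u.st .WR (ug .zero :: u.st .WR)) =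
          (uNumW u).2.st := by
        funext i
        unfold res
        cases i <;> rfl
      simp only at h1
      rw [h2] at h1
      have h3 := runs_bind (f := fun _ : Unit => uCopyR .WR) hp h1
      refine h3.mono le_rfl ?_
      show 1 + (4 * u.C.length + 2) ≤ 4 * S + 7
      omega

end Pool.Agent.Lib.MP_9dcf40_lc
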