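import Pool.Agent.Lib.MP_9dcf40_lc.SpecU

/-!
# The universal machine: moves
-/

namespace Pool.Agent.Lib.MP_9dcf40_lc

namespace UPD

open Rout

theorem le_of_size {u : UD} {S : ℕ} (h : u.size ≤ S) (p : ℕ) :
    (⟨p, u.st⟩ : Data UG UN).le S := by
  intro i
  unfold UD.size at h
  cases i <;> simp only [UD.st, List.length_nil] <;> omega

theorem num_rst (l : List UG) : num1 l + (rst l).length ≤ l.length := by
  induction l with
  | nil => simp [num1, rst]
  | cons a l ih =>
    unfold num1 rst
    split_ifs <;> simp only [List.length_cons] <;> omega

theorem forOnes_push {i j : UN} (hij : i ≠ j) (x : List (Option DA)) (s : ℕ) :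
    ∀ (l : List UG) (d : Data UG UN) (c : Str), d.st i = l → d.le s →
      l.length + (d.st j).length ≤ s →
      Runs x (forOnesR i (Rout.push j (ug .one))) s (3 * l.length + 2) d c ()
        ⟨d.pos, Function.update (Function.update d.st i (rst l)) j
          (List.replicate (num1 l) (ug .one) ++ d.st j)⟩ c := by
  intro l
  induction l with
  | nil =>
    intro d c hl hd hs
    have h1 := runs_pop (x := x) (c := c) i hd
    rw [hl] at h1
    have h2 : Runs x ((Rout.pop i).bind fun o => if o = some (ug .one) then
        (Rout.push j (ug .one)).bind fun _ => pureR (.inl ()) else pureR (.inr ())) s (1 + 0) d c
        (Sum.inr () : Unit ⊕ Unit) ⟨d.pos, Function.update d.st i []⟩ c := by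
      refine runs_bind h1 ?_
      exact runs_pure _ h1.le_end
    have h3 := runs_iter_done (τ := Unit) (body := fun _ => (Rout.pop i).bind fun o =>
      if o = some (ug .one) then
        (Rout.push j (ug .one)).bind fun _ => pureR (.inl ()) else pureR (.inr ())) (t := ()) h2
    refine Runs.mono ?_ le_rfl (by simp : 1 + 0 + 1 ≤ 3 * ([] : List UG).length + 2)
    have h4 : Function.update (Function.update d.st i (rst [])) j
        (List.replicate (num1 []) (ug .one) ++ d.st j) = Function.update d.st i [] := by
      funext k
      by_cases hk : k = j
      · subst hk
        rw [Function.update_self, Function.update_of_ne (Ne.symm hij)]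
        simp [num1]
      · rw [Function.update_of_ne hk]
        rfl
    rw [h4]
    exact h3
  | cons a l ih =>
    intro d c hl hd hs
    have h1 := runs_pop (x := x) (c := c) i hd
    rw [hl] at h1
    simp only [List.head?_cons, List.tail_cons] at h1
    by_cases ha : a = ug .one
    · subst ha
      have hlen : (Function.update d.st i l j).length + 1 ≤ s := by
        rw [Function.update_of_ne (Ne.symm hij)]
        simp only [List.length_cons] at hs
        omega
      have h2 := runs_push (x := x) (c := c) j (ug .one) h1.le_end hlen
      simp only [Function.update_of_ne (Ne.symm hij)] at h2
      set d2 : Data UG UN := ⟨d.pos, Function.update (Function.update d.st i l) j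
        (ug .one :: d.st j)⟩ with hd2
      have h3 : Runs x ((Rout.pop i).bind fun o => if o = some (ug .one) then
          (Rout.push j (ug .one)).bind fun _ => pureR (.inl ()) else pureR (.inr ())) s
          (1 + (1 + 0)) d c (Sum.inl () : Unit ⊕ Unit) d2 c := by
        refine runs_bind h1 ?_
        rw [if_pos rfl]
        exact runs_bind h2 (runs_pure _ h2.le_end)
      have hd2i : d2.st i = l := by
        simp only [hd2, Function.update_of_ne hij, Function.update_self]
      have hd2j : d2.st j = ug .one :: d.st j := by
        simp only [hd2, Function.update_self]
      have h4 := ih d2 c hd2i h2.le_end (by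
        rw [hd2j]
        simp only [List.length_cons] at hs ⊢
        omega)
      have h5 := runs_iter_step (τ := Unit) (body := fun _ => (Rout.pop i).bind fun o =>
        if o = some (ug .one) then
          (Rout.push j (ug .one)).bind fun _ => pureR (.inl ()) else pureR (.inr ())) (t := ())
        h3 h4
      refine Runs.mono ?_ le_rfl (by simp only [List.length_cons]; omega :
        1 + (1 + 0) + (3 * l.length + 2) + 1 ≤ 3 * (ug .one :: l).length + 2)
      have h6 : Function.update (Function.update d.st i (rst (ug .one :: l))) j
          (List.replicate (num1 (ug .one :: l)) (ug .one) ++ d.st j)
          = Function.update (Function.update d2.st i (rst l)) j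
            (List.replicate (num1 l) (ug .one) ++ d2.st j) := by
        have e1 : rst (ug .one :: l) = rst l := by simp [rst]
        have e2 : num1 (ug .one :: l) = num1 l + 1 := by simp [num1]
        rw [e1, e2, hd2j]
        funext k
        by_cases hk : k = j
        · subst hk
          rw [Function.update_self, Function.update_self, List.replicate_succ']
          simp
        · rw [Function.update_of_ne hk, Function.update_of_ne hk]
          by_cases hk2 : k = i
          · subst hk2
            rw [Function.update_self, Function.update_self]
          · rw [Function.update_of_ne hk2, Function.update_of_ne hk2, hd2]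
            simp only [Function.update_of_ne hk, Function.update_of_ne hk2]
      rw [h6]
      exact h5
    · have h2 : Runs x ((Rout.pop i).bind fun o => if o = some (ug .one) then
          (Rout.push j (ug .one)).bind fun _ => pureR (.inl ()) else pureR (.inr ())) s (1 + 0) d c
          (Sum.inr () : Unit ⊕ Unit) ⟨d.pos, Function.update d.st i l⟩ c := by
        refine runs_bind h1 ?_
        rw [if_neg (by simpa using ha)]
        exact runs_pure _ h1.le_end
      have h3 := runs_iter_done (τ := Unit) (body := fun _ => (Rout.pop i).bind fun o =>
        if o = some (ug .one) then
          (Rout.push j (ug .one)).bind fun _ => pureR (.inl ()) else pureR (.inr ())) (t := ()) h2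
      refine Runs.mono ?_ le_rfl (by simp only [List.length_cons]; omega :
        1 + 0 + 1 ≤ 3 * (a :: l).length + 2)
      have h4 : Function.update (Function.update d.st i (rst (a :: l))) j
          (List.replicate (num1 (a :: l)) (ug .one) ++ d.st j) = Function.update d.st i l := by
        have e1 : rst (a :: l) = l := by
          unfold rst
          rw [if_neg ha]
        have e2 : num1 (a :: l) = 0 := by
          unfold num1
          rw [if_neg ha]
        rw [e1, e2]
        funext k
        by_cases hk : k = j
        · subst hk
          rw [Function.update_self, Function.update_of_ne (Ne.symm hij)]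
          simp
        · rw [Function.update_of_ne hk]
      rw [h4]
      exact h3

end UPD

open UPD Rout in
theorem u_d : StUD := by
  intro K
  constructor
  · intro m y u p c S hK hS
    have hle : (⟨p, u.st⟩ : Data UG UN).le S := le_of_size (by omega) p
    have hsz : u.size ≤ S := by omega
    unfold uMoveIR uMoveI
    by_cases hm : m = some (ug .dr)
    · simp only [if_pos hm]
      have h1 := runs_pop (x := y) (c := c) UN.IR hle
      cases hIR : u.IR with
      | nil =>
        refine ⟨hK, by simp, ?_⟩
        have e1 : (⟨p, u.st⟩ : Data UG UN).st UN.IR = [] := hIR
        rw [e1] at h1
        have e2 : Function.update u.st UN.IR [] = u.st := by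
          rw [← hIR]
          exact Function.update_eq_self UN.IR u.st
        simp only [List.head?_nil, List.tail_nil, e2] at h1
        refine Runs.mono (runs_bind h1 (runs_pure _ h1.le_end)) le_rfl (by omega)
      | cons a l =>
        have e1 : (⟨p, u.st⟩ : Data UG UN).st UN.IR = a :: l := hIR
        rw [e1] at h1
        simp only [List.head?_cons, List.tail_cons] at h1
        have hlen : l.length + 1 + u.IL.length ≤ u.size := by
          unfold UD.size
          rw [hIR, List.length_cons]
          omega
        by_cases ha : a = InSym.right
        · simp only [if_pos ha]
          refine ⟨hK, by simp, ?_⟩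
          have h2 := runs_push (x := y) (c := c) UN.IR a h1.le_end (by
            simp only [Function.update_self]
            omega)
          have e2 : Function.update (Function.update u.st UN.IR l) UN.IR
              (a :: Function.update u.st UN.IR l UN.IR) = u.st := by
            rw [Function.update_self, Function.update_idem, ← hIR]
            exact Function.update_eq_self UN.IR u.st
          simp only [e2] at h2
          refine Runs.mono (runs_bind h1 ?_) le_rfl (by omega : 1 + 1 ≤ 3 * S + 6)
          simp only [if_pos ha]
          exact h2
        · simp only [if_neg ha]
          refine ⟨hK, ?_, ?_⟩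
          · unfold UD.size
            simp only [hIR, List.length_cons]
            omega
          · have h2 := runs_push (x := y) (c := c) UN.IL a h1.le_end (by
              simp only [Function.update_of_ne (show UN.IL ≠ UN.IR by decide)]
              change u.IL.length + 1 ≤ S
              omega)
            have e2 : Function.update (Function.update u.st UN.IR l) UN.IL
                (a :: Function.update u.st UN.IR l UN.IL)
                = UD.st { u with IR := l, IL := a :: u.IL } := by
              funext k
              cases k <;> rfl
            simp only [e2] at h2
            refine Runs.mono (runs_bind h1 ?_) le_rfl (by omega : 1 + 1 ≤ 3 * S + 6)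
            simp only [if_neg ha]
            exact h2
    · simp only [if_neg hm]
      by_cases hm2 : m = some (ug .dl)
      · simp only [if_pos hm2]
        have h1 := runs_pop (x := y) (c := c) UN.IL hle
        cases hIL : u.IL with
        | nil =>
          refine ⟨hK, by simp, ?_⟩
          have e1 : (⟨p, u.st⟩ : Data UG UN).st UN.IL = [] := hIL
          rw [e1] at h1
          have e2 : Function.update u.st UN.IL [] = u.st := by
            rw [← hIL]
            exact Function.update_eq_self UN.IL u.st
          simp only [List.head?_nil, List.tail_nil, e2] at h1
          refine Runs.mono (runs_bind h1 (runs_pure _ h1.le_end)) le_rfl (by omega)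
        | cons a l =>
          have e1 : (⟨p, u.st⟩ : Data UG UN).st UN.IL = a :: l := hIL
          rw [e1] at h1
          simp only [List.head?_cons, List.tail_cons] at h1
          have hlen : l.length + 1 + u.IR.length ≤ u.size := by
            unfold UD.size
            rw [hIL, List.length_cons]
            omega
          refine ⟨hK, ?_, ?_⟩
          · unfold UD.size
            simp only [hIL, List.length_cons]
            omega
          · have h2 := runs_push (x := y) (c := c) UN.IR a h1.le_end (by
              simp only [Function.update_of_ne (show UN.IR ≠ UN.IL by decide)]
              change u.IR.length + 1 ≤ S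
              omega)
            have e2 : Function.update (Function.update u.st UN.IL l) UN.IR
                (a :: Function.update u.st UN.IL l UN.IR)
                = UD.st { u with IL := l, IR := a :: u.IR } := by
              funext k
              cases k <;> rfl
            simp only [e2] at h2
            exact Runs.mono (runs_bind h1 h2) le_rfl (by omega : 1 + 1 ≤ 3 * S + 6)
      · simp only [if_neg hm2]
        exact ⟨hK, by simp, (runs_pure _ hle).mono le_rfl (by omega)⟩
  · intro m y u p c S hK hS
    have hle : (⟨p, u.st⟩ : Data UG UN).le S := le_of_size (by omega) p
    unfold uMoveWR uMoveW
    have hlen : u.WR.length + u.WL.length ≤ u.size := by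
      unfold UD.size
      omega
    by_cases hm : m = some (ug .dr)
    · simp only [if_pos hm]
      refine ⟨hK, ?_, ?_⟩
      · have h1 := num_rst u.WR
        unfold UD.size
        simp only [List.length_append, List.length_replicate, List.length_cons]
        omega
      · have h1 := runs_push (x := y) (c := c) UN.WL (ug .zero) hle (by
          change u.WL.length + 1 ≤ S
          omega)
        have h2 := forOnes_push (show UN.WR ≠ UN.WL by decide) y S u.WR _ c
          (show (⟨p, Function.update u.st UN.WL (ug .zero :: u.st UN.WL)⟩ : Data UG UN).st UN.WR
            = u.WR from rfl) h1.le_end (by
              simp only [Function.update_self, List.length_cons]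
              change u.WR.length + (u.WL.length + 1) ≤ S
              omega)
        have e2 : Function.update (Function.update
            (Function.update u.st UN.WL (ug .zero :: u.st UN.WL)) UN.WR (rst u.WR)) UN.WL
            (List.replicate (num1 u.WR) (ug .one) ++
              Function.update u.st UN.WL (ug .zero :: u.st UN.WL) UN.WL)
            = UD.st { u with WR := rst u.WR
                             WL := List.replicate (num1 u.WR) (ug .one) ++ ug .zero :: u.WL } := by
          funext k
          cases k <;> rfl
        simp only [e2] at h2
        exact Runs.mono (runs_bind h1 h2) le_rfl (by omega)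
    · simp only [if_neg hm]
      by_cases hm2 : m = some (ug .dl)
      · simp only [if_pos hm2]
        refine ⟨hK, ?_, ?_⟩
        · have h1 := num_rst u.WL
          unfold UD.size
          simp only [List.length_append, List.length_replicate, List.length_cons]
          omega
        · have h1 := runs_push (x := y) (c := c) UN.WR (ug .zero) hle (by
            change u.WR.length + 1 ≤ S
            omega)
          have h2 := forOnes_push (show UN.WL ≠ UN.WR by decide) y S u.WL _ c
            (show (⟨p, Function.update u.st UN.WR (ug .zero :: u.st UN.WR)⟩ : Data UG UN).st UN.WL
              = u.WL from rfl) h1.le_end (by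
                simp only [Function.update_self, List.length_cons]
                change u.WL.length + (u.WR.length + 1) ≤ S
                omega)
          have e2 : Function.update (Function.update
              (Function.update u.st UN.WR (ug .zero :: u.st UN.WR)) UN.WL (rst u.WL)) UN.WR
              (List.replicate (num1 u.WL) (ug .one) ++
                Function.update u.st UN.WR (ug .zero :: u.st UN.WR) UN.WR)
              = UD.st { u with WL := rst u.WL
                               WR := List.replicate (num1 u.WL) (ug .one) ++ ug .zero :: u.WR } := by
            funext k
            cases k <;> rfl
          simp only [e2] at h2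
          exact Runs.mono (runs_bind h1 h2) le_rfl (by omega)
      · simp only [if_neg hm2]
        exact ⟨hK, by simp, (runs_pure _ hle).mono le_rfl (by omega)⟩

end Pool.Agent.Lib.MP_9dcf40_lc
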