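import Pool.Agent.Lib.MP_9dcf40_lc.SpecU

/-!
# One step of the universal machine simulates one step
-/

namespace Pool.Agent.Lib.MP_9dcf40_lc

namespace USim

theorem num1_rep (n : ℕ) (l : List UG) :
    num1 (List.replicate n (ug .one) ++ ug .zero :: l) = n := by
  induction n with
  | zero => simp [num1]
  | succ n ih =>
    rw [List.replicate_succ, List.cons_append]
    simp [num1, ih]

theorem rst_rep (n : ℕ) (l : List UG) :
    rst (List.replicate n (ug .one) ++ ug .zero :: l) = l := by
  induction n with
  | zero => simp [rst]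
  | succ n ih =>
    rw [List.replicate_succ, List.cons_append]
    simp [rst, ih]

theorem xfer_rep (n : ℕ) (l acc : List UG) :
    xfer (fun a => decide (a ≠ ug .one)) (List.replicate n (ug .one) ++ ug .zero :: l) acc
      = (l, ug .zero :: (List.replicate n (ug .one) ++ acc)) := by
  induction n generalizing acc with
  | zero => simp [xfer]
  | succ n ih =>
    rw [List.replicate_succ, List.cons_append]
    have h1 : xfer (fun a => decide (a ≠ ug .one))
        (ug .one :: (List.replicate n (ug .one) ++ ug .zero :: l)) acc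
        = xfer (fun a => decide (a ≠ ug .one))
          (List.replicate n (ug .one) ++ ug .zero :: l) (ug .one :: acc) := by
      simp [xfer]
    rw [h1, ih]
    have h2 : List.replicate n (ug .one) ++ ug .one :: acc
        = ug .one :: List.replicate n (ug .one) ++ acc := by
      rw [← List.replicate_succ, List.replicate_succ', List.append_assoc]
      rfl
    rw [h2]

theorem wenc_nil : wenc [] = [] := rfl

theorem wenc_cons (s : ℕ) (l : List ℕ) :
    wenc (s :: l) = List.replicate s (ug .one) ++ ug .zero :: wenc l := by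
  simp [wenc]

theorem num1_wenc (l : List ℕ) : num1 (wenc l) = l.headD 0 := by
  cases l with
  | nil => rfl
  | cons s l => rw [wenc_cons, num1_rep]; rfl

theorem rst_wenc (l : List ℕ) : rst (wenc l) = wenc l.tail := by
  cases l with
  | nil => rfl
  | cons s l => rw [wenc_cons, rst_rep]; rfl

/-- The second part of a step. -/
def tailStep (u₄ : UD) : Option UG × UD :=
  let r₅ := uPopC u₄
  let r₆ := uPopC r₅.2
  let r₇ := uPopC r₆.2
  let u₈ := (uNumQ r₇.2).2
  let u₉ := (uNumW u₈).2
  let u₁₀ := (uMoveI r₆.1 u₉).2
  (r₅.1, (uMoveW r₇.1 u₁₀).2)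

theorem uStep_eq (b : Bool) (u : UD) : uStep b u = tailStep
    (uSkipW (uSkipN .eIn (keys.idxOf (b, (uCur (uSkipQ (uPopC (uRewind u).2).2).2).1.getD .right))
      (uSkipQ (uPopC (uRewind u).2).2).2).2).2 := rfl

theorem tail_eq (C' Cb' IL IR WL WR : List UG) (o di dw : DA) (n m : ℕ) :
    tailStep ⟨ug o :: ug di :: ug dw :: (List.replicate n (ug .one) ++ ug .zero ::
      (List.replicate m (ug .one) ++ ug .zero :: C')), Cb', [], IL, IR, WL, WR⟩
      = (some (ug o), (uMoveW (some (ug dw)) (uMoveI (some (ug di))
        ⟨C', ug .zero :: (List.replicate m (ug .one) ++ ug .zero ::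
          (List.replicate n (ug .one) ++ ug dw :: ug di :: ug o :: Cb')),
          List.replicate n (ug .one), IL, IR, WL,
          List.replicate m (ug .one) ++ ug .zero :: WR⟩).2).2) := by
  unfold tailStep
  simp only [uPopC, uNumQ, uNumW, num1_rep, xfer_rep, List.append_nil]

theorem moveW_eq (u : UD) (d : Dir) (l r : List ℕ) (s : ℕ) (hl : u.WL = wenc l)
    (hr : u.WR = wenc (s :: r)) :
    (uMoveW (some (ug (dirL d))) u).2 =
      match d with
      | .left => { u with WL := wenc l.tail, WR := wenc (l.headD 0 :: s :: r) }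
      | .stay => u
      | .right => { u with WL := wenc (s :: l), WR := wenc r } := by
  cases d with
  | left =>
    unfold uMoveW
    rw [if_neg (by simp [dirL]), if_pos (by simp [dirL])]
    simp only [hl, hr, num1_wenc, rst_wenc, wenc_cons]
  | stay =>
    unfold uMoveW
    rw [if_neg (by simp [dirL]), if_neg (by simp [dirL])]
  | right =>
    unfold uMoveW
    rw [if_pos (by simp [dirL])]
    simp only [hl, hr, num1_wenc, rst_wenc, wenc_cons, num1_rep, rst_rep]

theorem itape_length (z : List DB) : (itape z).length = z.length + 2 := by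
  simp [itape]

theorem itape_get (z : List DB) (p : ℕ) (hp : p ≤ z.length + 1) :
    (itape z)[p]? = some (inSym z p) := by
  cases p with
  | zero => simp [itape, inSym]
  | succ p =>
    rw [itape, List.getElem?_cons_succ]
    by_cases h : p < z.length
    · rw [List.getElem?_append_left (by simpa using h)]
      simp [inSym, h]
    · have hp' : p = z.length := by omega
      subst hp'
      simp [inSym]

theorem itape_drop (z : List DB) (p : ℕ) (hp : p ≤ z.length + 1) :
    (itape z).drop p = inSym z p :: (itape z).drop (p + 1) := by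
  have h1 : p < (itape z).length := by rw [itape_length]; omega
  have h2 := itape_get z p hp
  rw [List.getElem?_eq_getElem h1] at h2
  rw [List.drop_eq_getElem_cons h1]
  rw [Option.some.inj h2]

theorem itape_take (z : List DB) (p : ℕ) (hp : p ≤ z.length + 1) :
    (itape z).take (p + 1) = (itape z).take p ++ [inSym z p] := by
  have h1 : p < (itape z).length := by rw [itape_length]; omega
  have h2 := itape_get z p hp
  rw [List.take_succ, h2]
  rfl

theorem inSym_right (z : List DB) (p : ℕ) (hp : p ≤ z.length + 1) :
    inSym z p = .right ↔ p = z.length + 1 := by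
  cases p with
  | zero => simp [inSym]
  | succ p =>
    by_cases h : p < z.length
    · simp [inSym, h]
      omega
    · have hp' : p = z.length := by omega
      subst hp'
      simp [inSym]

theorem moveI_eq (z : List DB) (p : ℕ) (hp : p ≤ z.length + 1) (d : Dir) (u : UD)
    (hL : u.IL = ((itape z).take p).reverse) (hR : u.IR = (itape z).drop p) :
    (uMoveI (some (ug (dirL d))) u).2 =
      { u with
        IL := ((itape z).take (movePos z.length d p)).reverse
        IR := (itape z).drop (movePos z.length d p) } := by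
  cases d with
  | left =>
    unfold uMoveI
    rw [if_neg (by simp [dirL]), if_pos (by simp [dirL])]
    cases p with
    | zero =>
      have h0 : u.IL = [] := by rw [hL]; simp
      rw [h0]
      simp only [movePos]
      rw [← hL, ← hR]
    | succ p =>
      have h0 : u.IL = inSym z p :: ((itape z).take p).reverse := by
        rw [hL, itape_take z p (by omega)]
        simp
      have h1 : u.IR = (itape z).drop (p + 1) := hR
      rw [h0]
      simp only [movePos, Nat.add_sub_cancel]
      rw [h1, ← itape_drop z p (by omega)]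
  | stay =>
    unfold uMoveI
    rw [if_neg (by simp [dirL]), if_neg (by simp [dirL])]
    simp only [movePos]
    rw [← hL, ← hR]
  | right =>
    unfold uMoveI
    rw [if_pos (by simp [dirL])]
    have h0 : u.IR = inSym z p :: (itape z).drop (p + 1) := by
      rw [hR, itape_drop z p hp]
    rw [h0]
    by_cases he : p = z.length + 1
    · simp only [(inSym_right z p hp).2 he, if_true]
      have h1 : movePos z.length .right p = p := by simp only [movePos]; omega
      rw [h1, ← hL, ← hR]
    · have hne : inSym z p ≠ .right := fun h => he ((inSym_right z p hp).1 h)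
      simp only [hne, if_false]
      have h1 : movePos z.length .right p = p + 1 := by simp only [movePos]; omega
      rw [h1, itape_take z p hp, hL]
      simp

theorem movePos_le (n : ℕ) (d : Dir) (p : ℕ) (hp : p ≤ n + 1) : movePos n d p ≤ n + 1 := by
  cases d <;> simp only [movePos] <;> omega

end USim

open USim

theorem u_sim (h : StULookup) : StUSim := by
  intro F z b cf u hrep hout
  obtain ⟨hcode, hQ, hp, hIL, hIR, l, r, hWL, hWR, hTr, hTl⟩ := hrep
  have hhead : u.IR.head? = some (inSym z cf.p) := by
    rw [hIR, itape_drop z cf.p hp]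
    rfl
  have hnum : num1 u.WR = ((cf.T cf.h : Fin (F.b + 1)) : ℕ) := by
    rw [hWR, num1_wenc]
    have h1 := hTr 0
    rw [Nat.cast_zero, add_zero] at h1
    rw [h1]
    cases r <;> rfl
  obtain ⟨C', Cb', hu4, hcode'⟩ := h F b cf.q (inSym z cf.p) (cf.T cf.h) u hcode hQ hhead hnum
  have hnext : F.toTM.next z b cf =
      { q := (F.δ b cf.q (inSym z cf.p) (cf.T cf.h)).1
        p := movePos z.length (F.δ b cf.q (inSym z cf.p) (cf.T cf.h)).2.2.1 cf.p
        h := moveTape (F.δ b cf.q (inSym z cf.p) (cf.T cf.h)).2.2.2 cf.h
        T := Function.update cf.T cf.h (F.δ b cf.q (inSym z cf.p) (cf.T cf.h)).2.1 } := by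
    unfold TM.next
    simp only [FM.toTM]
    rw [hout]
  unfold entry at hu4 hcode'
  rw [hnext]
  generalize F.δ b cf.q (inSym z cf.p) (cf.T cf.h) = e at hu4 hcode' ⊢
  obtain ⟨q', s', di, dw⟩ := e
  simp only at hu4 hcode' ⊢
  have hent : (([outL (F.out q'), dirL di, dirL dw] ++ numL q' ++ numL s').map ug : List UG) ++ C'
      = ug (outL (F.out q')) :: ug (dirL di) :: ug (dirL dw) ::
        (List.replicate (q' : ℕ) (ug .one) ++ ug .zero ::
          (List.replicate (s' : ℕ) (ug .one) ++ ug .zero :: C')) := by
    simp [numL]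
  rw [hent] at hu4 hcode'
  have hstep : uStep b u = (some (ug (outL (F.out q'))), (uMoveW (some (ug (dirL dw)))
      (uMoveI (some (ug (dirL di)))
        ⟨C', ug .zero :: (List.replicate (s' : ℕ) (ug .one) ++ ug .zero ::
          (List.replicate (q' : ℕ) (ug .one) ++ ug (dirL dw) :: ug (dirL di) ::
            ug (outL (F.out q')) :: Cb')),
          List.replicate (q' : ℕ) (ug .one), u.IL, u.IR, u.WL,
          List.replicate (s' : ℕ) (ug .one) ++ ug .zero :: rst u.WR⟩).2).2) := by
    rw [uStep_eq, hu4]
    exact tail_eq _ _ _ _ _ _ _ _ _ _ _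
  rw [hstep]
  refine ⟨?_, rfl⟩
  simp only
  rw [moveI_eq z cf.p hp di (⟨C', _, _, u.IL, u.IR, u.WL, _⟩ : UD) hIL hIR]
  have hwr : List.replicate (s' : ℕ) (ug .one) ++ ug .zero :: rst u.WR
      = wenc ((s' : ℕ) :: r.tail) := by
    rw [wenc_cons, hWR, rst_wenc]
  rw [moveW_eq (⟨C', _, _, _, _, u.WL, _⟩ : UD) dw l r.tail (s' : ℕ) hWL hwr]
  -- the code
  have hc : (ug .zero :: (List.replicate (s' : ℕ) (ug .one) ++ ug .zero ::
          (List.replicate (q' : ℕ) (ug .one) ++ ug (dirL dw) :: ug (dirL di) ::
            ug (outL (F.out q')) :: Cb'))).reverse ++ C' = (code F).map ug := by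
    rw [← hcode']
    simp [List.reverse_cons, List.reverse_append, List.reverse_replicate]
  have hpl := movePos_le z.length di cf.p hp
  have hne : ∀ i : ℕ, cf.h - 1 - i ≠ cf.h := fun i => by omega
  have hne' : ∀ i : ℕ, cf.h + 1 + i ≠ cf.h := fun i => by omega
  have htail : ∀ (l : List ℕ) (i : ℕ), l.tail[i]?.getD 0 = l[i + 1]?.getD 0 := by
    intro l i
    cases l <;> simp
  cases dw with
  | stay =>
    refine ⟨hc, rfl, hpl, rfl, rfl, l, (s' : ℕ) :: r.tail, hWL, hwr, fun i => ?_, fun i => ?_⟩
    · show ((Function.update cf.T cf.h s' (cf.h + i) : Fin (F.b + 1)) : ℕ) = _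
      cases i with
      | zero => simp
      | succ i =>
        rw [Function.update_of_ne (by omega), hTr (i + 1), List.getElem?_cons_succ, htail]
    · show ((Function.update cf.T cf.h s' (cf.h - 1 - i) : Fin (F.b + 1)) : ℕ) = _
      rw [Function.update_of_ne (hne i), hTl i]
  | right =>
    refine ⟨hc, rfl, hpl, rfl, rfl, (s' : ℕ) :: l, r.tail, rfl, rfl, fun i => ?_, fun i => ?_⟩
    · show ((Function.update cf.T cf.h s' (cf.h + 1 + i) : Fin (F.b + 1)) : ℕ) = _
      rw [Function.update_of_ne (hne' i), htail]
      have h1 := hTr (i + 1)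
      rw [← h1]
      congr 2
      push_cast
      ring
    · show ((Function.update cf.T cf.h s' (cf.h + 1 - 1 - i) : Fin (F.b + 1)) : ℕ) = _
      cases i with
      | zero => simp
      | succ i =>
        have h1 : cf.h + 1 - 1 - ((i + 1 : ℕ) : ℤ) = cf.h - 1 - i := by push_cast; ring
        rw [h1, Function.update_of_ne (hne i), hTl i, List.getElem?_cons_succ]
  | left =>
    refine ⟨hc, rfl, hpl, rfl, rfl, l.tail, l.headD 0 :: (s' : ℕ) :: r.tail, rfl, rfl,
      fun i => ?_, fun i => ?_⟩
    · show ((Function.update cf.T cf.h s' (cf.h - 1 + i) : Fin (F.b + 1)) : ℕ) = _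
      cases i with
      | zero =>
        rw [Function.update_of_ne (by simp)]
        have h1 := hTl 0
        simp only [Nat.cast_zero, sub_zero, add_zero] at h1 ⊢
        rw [h1]
        cases l <;> rfl
      | succ i =>
        rw [List.getElem?_cons_succ]
        have h1 : cf.h - 1 + ((i + 1 : ℕ) : ℤ) = cf.h + i := by push_cast; ring
        rw [h1]
        cases i with
        | zero => simp
        | succ i =>
          rw [Function.update_of_ne (by omega), hTr (i + 1), List.getElem?_cons_succ, htail]
    · show ((Function.update cf.T cf.h s' (cf.h - 1 - 1 - i) : Fin (F.b + 1)) : ℕ) = _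
      have h1 : cf.h - 1 - 1 - (i : ℤ) = cf.h - 1 - ((i + 1 : ℕ) : ℤ) := by push_cast; ring
      rw [h1, Function.update_of_ne (hne (i + 1)), hTl (i + 1), htail]

end Pool.Agent.Lib.MP_9dcf40_lc
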