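import Pool.Agent.Lib.MP_9dcf40_lc.SpecU

/-!
# One step of the universal routine
-/

namespace Pool.Agent.Lib.MP_9dcf40_lc

namespace UStepAux

open Rout

variable {β γ : Type} {K : ℕ}

theorem st_le (u : UD) (S : ℕ) (h : u.size ≤ S) (p : ℕ) : (⟨p, u.st⟩ : Data UG UN).le S := by
  intro i
  unfold UD.size at h
  cases i
  · show u.C.length ≤ S
    omega
  · show u.Cb.length ≤ S
    omega
  · show u.Q.length ≤ S
    omega
  · show u.IL.length ≤ S
    omega
  · show u.IR.length ≤ S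
    omega
  · show u.WL.length ≤ S
    omega
  · show u.WR.length ≤ S
    omega
  · show ([] : List UG).length ≤ S
    exact Nat.zero_le _

theorem uimp_pure (b : β) : UImp K (pureR b : UR β) (fun u => (b, u)) 0 (fun _ => 0) := by
  intro y u p c S hk hs
  exact ⟨hk, Nat.le_refl _, runs_pure b (st_le u S (by omega) p)⟩

theorem uimp_bind [Finite β] {R : UR β} {F : UD → β × UD} {g : ℕ} {T : ℕ → ℕ}
    {f : β → UR γ} {G : β → UD → γ × UD} {g' : ℕ} {T' : ℕ → ℕ}
    (h : UImp K R F g T) (h' : ∀ b, UImp K (f b) (G b) g' T') :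
    UImp K (R.bind f) (fun u => G (F u).1 (F u).2) (g + g') (fun S => T S + T' S) := by
  intro y u p c S hk hs
  obtain ⟨h1, h2, h3⟩ := h y u p c S hk (by omega)
  obtain ⟨k1, k2, k3⟩ := h' (F u).1 y (F u).2 p c S h1 (by omega)
  refine ⟨k1, ?_, runs_bind h3 k3⟩
  show (G (F u).1 (F u).2).2.size ≤ u.size + (g + g')
  omega

theorem uimp_mono {R : UR β} {F F' : UD → β × UD} {g g' : ℕ} {T T' : ℕ → ℕ}
    (h : UImp K R F g T) (hF : ∀ u, F u = F' u) (hg : g ≤ g') (hT : ∀ S, T S ≤ T' S) :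
    UImp K R F' g' T' := by
  intro y u p c S hk hs
  obtain ⟨h1, h2, h3⟩ := h y u p c S hk (by omega)
  rw [hF u] at h1 h2 h3
  exact ⟨h1, by omega, h3.mono (Nat.le_refl _) (hT S)⟩

theorem idx_le (k : Bool × InSym DB) : keys.idxOf k ≤ 24 := by
  have h : keys.idxOf k ≤ keys.length := List.idxOf_le_length
  have h2 : keys.length = 24 := by decide
  omega

end UStepAux

open Rout UStepAux in
theorem u_step (hA : StUA) (hB : StUB) (hC : StUC) (hD : StUD) : StUStep := by
  intro K b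
  obtain ⟨hRew, hPop, hSk, hRep, hCur⟩ := hA K
  obtain ⟨hSQ, hSW⟩ := hB K
  obtain ⟨hNQ, hNW⟩ := hC K
  obtain ⟨hMI, hMW⟩ := hD K
  have hRep' : ∀ a : Option UG,
      UImp K (repeatR (uSkipR .eIn) (keys.idxOf (b, a.getD .right)))
        (uSkipN .eIn (keys.idxOf (b, a.getD .right))) 0 (fun S => 24 * (3 * S + 6)) := by
    intro a
    refine uimp_mono (hRep .eIn _) (fun _ => rfl) (Nat.le_refl _) fun S => ?_
    exact Nat.mul_le_mul_right _ (idx_le _)
  have h := uimp_bind hRew fun _ => uimp_bind hPop fun _ => uimp_bind hSQ fun _ =>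
    uimp_bind hCur fun a => uimp_bind (hRep' a) fun _ => uimp_bind hSW fun _ =>
    uimp_bind hPop fun f => uimp_bind hPop fun dI => uimp_bind hPop fun dW =>
    uimp_bind hNQ fun _ => uimp_bind hNW fun _ => uimp_bind (hMI dI) fun _ =>
    uimp_bind (hMW dW) fun _ => uimp_pure f
  refine uimp_mono h (fun _ => rfl) (by omega) fun S => ?_
  nlinarith [Nat.zero_le S, Nat.zero_le (S * S)]

end Pool.Agent.Lib.MP_9dcf40_lc
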