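import Pool.Agent.Lib.MP_9dcf40_lc.UInit

/-!
# The universal machine stops in polynomial time on every input
-/

namespace Pool.Agent.Lib.MP_9dcf40_lc

open Rout

namespace UTotal

theorem pre_length (y : List (Option DA)) : (pre y).length ≤ y.length := by
  obtain ⟨y', hy, -⟩ := UInit.pre_split y
  conv_rhs => rw [hy]
  simp

theorem parse_size {y : List (Option DA)} {u : UD} (h : uParse y = some u) :
    u.klen ≤ y.length ∧ u.size ≤ 2 * y.length + 2 := by
  have hl := pre_length y
  unfold uParse at h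
  cases hc1 : cutHash (pre y) with
  | none => rw [hc1] at h; cases h
  | some r1 =>
    obtain ⟨cd, l⟩ := r1
    rw [hc1] at h
    simp only at h
    cases hc2 : cutHash l with
    | none => rw [hc2] at h; cases h
    | some r2 =>
      obtain ⟨w, l2⟩ := r2
      rw [hc2] at h
      simp only at h
      have h1 := congrArg List.length (UInit.cutHash_some hc1)
      have h2 := congrArg List.length (UInit.cutHash_some hc2)
      simp only [List.length_append, List.length_cons] at h1 h2
      obtain rfl : (⟨[], (cd.map ug).reverse, [], [],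
          itape (pairL (pre y) (w.map bitOf)), [], []⟩ : UD) = u := by simpa using h
      constructor
      · simp [UD.klen]
        omega
      · simp [UD.size, itape, pairL]
        omega

theorem poly_le (k : ℕ) (hk : 1280000 ≤ k) (n : ℕ) : 40000 * (n + 1) ^ 5 ≤ n ^ k + k := by
  rcases Nat.lt_or_ge n 2 with hn | hn
  · have h1 : (n + 1) ^ 5 ≤ 2 ^ 5 := Nat.pow_le_pow_left (by omega) 5
    have h2 : (2 : ℕ) ^ 5 = 32 := by norm_num
    omega
  · have h1 : (n + 1) ^ 5 ≤ (2 * n) ^ 5 := Nat.pow_le_pow_left (by omega) 5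
    have h2 : (2 * n) ^ 5 = 32 * n ^ 5 := by ring
    have h3 : 2 ^ 21 ≤ n ^ 21 := Nat.pow_le_pow_left hn 21
    have h4 : n ^ 26 ≤ n ^ k := Nat.pow_le_pow_right (by omega) (by omega)
    have h5 : n ^ 26 = n ^ 21 * n ^ 5 := by ring
    have h6 : 2 ^ 21 * n ^ 5 ≤ n ^ 21 * n ^ 5 := Nat.mul_le_mul_right _ h3
    have h7 : (2 : ℕ) ^ 21 = 2097152 := by norm_num
    rw [h7] at h6
    rw [h2] at h1
    omega

end UTotal

open UTotal

theorem u_total (hI : StUInit) (hA : StUA) (hM : StUMain) : StUTotal := by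
  obtain ⟨k, hk⟩ : ∃ k : ℕ, k = 1280000 := ⟨_, rfl⟩
  refine ⟨k, fun y c => ?_⟩
  set n := y.length with hn
  set S := 10 * (n + 1) ^ 2 with hS
  have hx := pre_length y
  have hSn : 2 * n + 3 ≤ S := by nlinarith
  have hkn := poly_le k hk.ge n
  have hn1 : 1 ≤ n + 1 := by omega
  have hpow2 : (n + 1) ^ 2 ≤ (n + 1) ^ 5 := Nat.pow_le_pow_right hn1 (by norm_num)
  have hpow1 : n + 1 ≤ (n + 1) ^ 5 := by
    calc n + 1 = (n + 1) ^ 1 := (pow_one _).symm
      _ ≤ (n + 1) ^ 5 := Nat.pow_le_pow_right hn1 (by norm_num)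
  have hSk : S ≤ n ^ k + k := by
    refine le_trans ?_ hkn
    omega
  obtain ⟨d', hr1, hd'⟩ := hI y c S hSn
  cases hp : uParse y with
  | none =>
    rw [hp] at hr1
    have he : uEval y c = false := by
      unfold uEval
      rw [hp]
    refine ⟨d', c, ?_⟩
    rw [he]
    refine Runs.mono (s := S) (T := 30 * (n + 2) + 0) (runs_bind hr1 (T' := 0) ?_) hSk (by omega)
    exact runs_pure false hr1.le_end
  | some u =>
    rw [hp] at hr1
    rw [hd' u hp] at hr1
    obtain ⟨hkl, hsz⟩ := parse_size hp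
    obtain ⟨hA1, hA2, -, -, -⟩ := hA u.klen
    obtain ⟨a1, a2, a3⟩ := hA1 y u ((pre y).length + 1) c S rfl (by omega)
    obtain ⟨b1, b2, b3⟩ := hA2 y (uRewind u).2 ((pre y).length + 1) c S a1 (by omega)
    have he : uEval y c = if (uPopC (uRewind u).2).1 = some (ug .one) then true
        else if (uPopC (uRewind u).2).1 = some (ug .dl) then false
        else uLoop (y.length - (pre y).length) c (uPopC (uRewind u).2).2 := by
      unfold uEval
      rw [hp]
    have hsize : (uPopC (uRewind u).2).2.size +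
        (y.length + 1 - ((pre y).length + 1)) * (2 * u.klen + 2) ≤ S := by
      have h1 : (y.length + 1 - ((pre y).length + 1)) * (2 * u.klen + 2) ≤ n * (2 * n + 2) :=
        Nat.mul_le_mul (by omega) (by omega)
      nlinarith
    obtain ⟨d₂, c₂, hm⟩ := hM y u.klen S ((pre y).length + 1) (uPopC (uRewind u).2).2 c b1
      (by omega) (by omega) hsize
    have hidx : y.length + 1 - ((pre y).length + 1) = y.length - (pre y).length := by omega
    rw [hidx] at hm
    -- the time
    set T3 := (y.length + 2 - ((pre y).length + 1)) * (300 * (S + 1) ^ 2 + 10) with hT3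
    have hT3le : T3 ≤ 36310 * (n + 1) ^ 5 := by
      have h1 : y.length + 2 - ((pre y).length + 1) ≤ n + 1 := by omega
      have h2 : S + 1 ≤ 11 * (n + 1) ^ 2 := by nlinarith
      have h3 : (S + 1) ^ 2 ≤ (11 * (n + 1) ^ 2) ^ 2 := Nat.pow_le_pow_left h2 2
      have h4 : (11 * (n + 1) ^ 2) ^ 2 = 121 * (n + 1) ^ 4 := by ring
      have h5 : 1 ≤ (n + 1) ^ 4 := Nat.one_le_pow _ _ (by omega)
      have h6 : 300 * (S + 1) ^ 2 + 10 ≤ 36310 * (n + 1) ^ 4 := by omega
      calc T3 ≤ (n + 1) * (36310 * (n + 1) ^ 4) := Nat.mul_le_mul h1 h6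
        _ = 36310 * (n + 1) ^ 5 := by ring
    have htime : 30 * (n + 2) + ((3 * S + 6) + ((3 * S + 6) + T3)) ≤ n ^ k + k := by
      refine le_trans ?_ hkn
      have h1 : 6 * S = 60 * (n + 1) ^ 2 := by rw [hS]; ring
      omega
    rw [he]
    have hrun : ∀ (res : Bool) (d₃ : Data UG UN) (c₃ : Str),
        Runs y ((fun f => if f = some (ug .one) then pureR true
          else if f = some (ug .dl) then pureR false else uMainR : Option UG → UR Bool)
            (uPopC (uRewind u).2).1) S T3
          ⟨(pre y).length + 1, (uPopC (uRewind u).2).2.st⟩ c res d₃ c₃ →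
        Runs y uR (n ^ k + k) (n ^ k + k) .init c res d₃ c₃ := by
      intro res d₃ c₃ h
      refine Runs.mono (s := S) (T := 30 * (n + 2) + ((3 * S + 6) + ((3 * S + 6) + T3)))
        (runs_bind hr1 (T' := (3 * S + 6) + ((3 * S + 6) + T3)) ?_) hSk htime
      rw [if_pos (show (some u).isSome = true from rfl)]
      exact runs_bind a3 (runs_bind b3 h)
    by_cases h1 : (uPopC (uRewind u).2).1 = some (ug .one)
    · rw [if_pos h1]
      refine ⟨_, _, hrun true ⟨(pre y).length + 1, (uPopC (uRewind u).2).2.st⟩ c ?_⟩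
      simp only [if_pos h1]
      exact (runs_pure true b3.le_end).mono le_rfl (Nat.zero_le _)
    · rw [if_neg h1]
      by_cases h2 : (uPopC (uRewind u).2).1 = some (ug .dl)
      · rw [if_pos h2]
        refine ⟨_, _, hrun false ⟨(pre y).length + 1, (uPopC (uRewind u).2).2.st⟩ c ?_⟩
        simp only [if_neg h1, if_pos h2]
        exact (runs_pure false b3.le_end).mono le_rfl (Nat.zero_le _)
      · rw [if_neg h2]
        refine ⟨d₂, c₂, hrun _ _ _ ?_⟩
        simp only [if_neg h1, if_neg h2]
        exact hm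

end Pool.Agent.Lib.MP_9dcf40_lc
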