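import Pool.Agent.Lib.MP_9dcf40_lc.SpecU

/-!
# The transfer loop
-/

namespace Pool.Agent.Lib.MP_9dcf40_lc

private theorem xfer_upd {Γ ι : Type} [DecidableEq ι] {i j : ι} (hij : i ≠ j)
    (f : ι → List Γ) (l₁ l₂ m₁ m₂ : List Γ) :
    Function.update (Function.update (Function.update (Function.update f i l₁) j l₂) i m₁) j m₂ =
      Function.update (Function.update f i m₁) j m₂ := by
  funext k
  by_cases hj : k = j
  · subst hj
    simp
  · rw [Function.update_of_ne hj, Function.update_of_ne hj]
    by_cases hi : k = i
    · subst hi
      simp
    · rw [Function.update_of_ne hi, Function.update_of_ne hj, Function.update_of_ne hi,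
        Function.update_of_ne hi]

private theorem xfer_le {Γ ι : Type} [DecidableEq ι] {f : ι → List Γ} {p s : ℕ}
    (hd : (⟨p, f⟩ : Data Γ ι).le s) (i : ι) (l : List Γ) (hl : l.length ≤ s) :
    (⟨p, Function.update f i l⟩ : Data Γ ι).le s := by
  intro k
  show (Function.update f i l k).length ≤ s
  by_cases hk : k = i
  · subst hk
    rw [Function.update_self]
    exact hl
  · rw [Function.update_of_ne hk]
    exact hd k

/-- The generic transfer loop. -/
theorem u_xfer : StXfer := by
  intro A Γ ι _ _ stop i j hij x s d c hd hs
  obtain ⟨p, f⟩ := d
  change (f i).length + (f j).length ≤ s at hs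
  show Runs x (xferR stop i j) s (3 * (f i).length + 2) ⟨p, f⟩ c ()
    ⟨p, Function.update (Function.update f i (xfer stop (f i) (f j)).1) j
      (xfer stop (f i) (f j)).2⟩ c
  generalize hL : f i = L at hs ⊢
  induction L generalizing f with
  | nil =>
    have h1 : Runs x (Rout.pop i) s 1 ⟨p, f⟩ c (none : Option Γ)
        ⟨p, Function.update f i []⟩ c := by
      have h := runs_pop (A := A) (x := x) (c := c) i hd
      change Runs x (Rout.pop i) s 1 ⟨p, f⟩ c (f i).head? ⟨p, Function.update f i (f i).tail⟩ c at h
      rw [hL] at h
      exact h
    have e1 : Function.update (Function.update f i (xfer stop [] (f j)).1) j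
        (xfer stop [] (f j)).2 = Function.update f i [] := by
      show Function.update (Function.update f i []) j (f j) = Function.update f i []
      have : f j = Function.update f i [] j := by rw [Function.update_of_ne hij.symm]
      rw [this, Function.update_eq_self]
    rw [e1]
    have h2 := runs_iter_done (body := fun _ : Unit => (Rout.pop i).bind fun o =>
      match o with
      | none => Rout.pureR (A := A) (.inr ())
      | some a => (Rout.push j a).bind fun _ =>
        Rout.pureR (if stop a then (.inr () : Unit ⊕ Unit) else .inl ())) (t := ())
      (runs_bind h1 (runs_pure (Sum.inr () : Unit ⊕ Unit) h1.le_end))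
    exact h2.mono le_rfl (by simp)
  | cons a l ih =>
    have hs' : l.length + 1 + (f j).length ≤ s := hs
    have h1 : Runs x (Rout.pop i) s 1 ⟨p, f⟩ c (some a) ⟨p, Function.update f i l⟩ c := by
      have h := runs_pop (A := A) (x := x) (c := c) i hd
      change Runs x (Rout.pop i) s 1 ⟨p, f⟩ c (f i).head? ⟨p, Function.update f i (f i).tail⟩ c at h
      rw [hL] at h
      exact h
    have e2 : Function.update f i l j = f j := Function.update_of_ne hij.symm _ _
    have h2 : Runs x (Rout.push j a) s 1 ⟨p, Function.update f i l⟩ c ()
        ⟨p, Function.update (Function.update f i l) j (a :: f j)⟩ c := by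
      have h := runs_push (A := A) (x := x) (c := c) j a h1.le_end (by
        show (Function.update f i l j).length + 1 ≤ s
        rw [e2]
        omega)
      change Runs x (Rout.push j a) s 1 ⟨p, Function.update f i l⟩ c ()
        ⟨p, Function.update (Function.update f i l) j (a :: Function.update f i l j)⟩ c at h
      rw [e2] at h
      exact h
    by_cases hst : stop a = true
    · have e3 : xfer stop (a :: l) (f j) = (l, a :: f j) := by
        rw [xfer, if_pos hst]
      rw [e3]
      have h3 := runs_iter_done (body := fun _ : Unit => (Rout.pop i).bind fun o =>
        match o with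
        | none => Rout.pureR (A := A) (.inr ())
        | some a => (Rout.push j a).bind fun _ =>
          Rout.pureR (if stop a then (.inr () : Unit ⊕ Unit) else .inl ())) (t := ())
        (b := ()) (runs_bind h1 (runs_bind h2 (by
          rw [if_pos hst]
          exact runs_pure (Sum.inr () : Unit ⊕ Unit) h2.le_end)))
      refine h3.mono le_rfl ?_
      simp only [List.length_cons]
      omega
    · have e3 : xfer stop (a :: l) (f j) = xfer stop l (a :: f j) := by
        rw [xfer, if_neg hst]
      rw [e3]
      have e4 : Function.update (Function.update f i l) j (a :: f j) i = l := by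
        rw [Function.update_of_ne hij, Function.update_self]
      have e5 : Function.update (Function.update f i l) j (a :: f j) j = a :: f j :=
        Function.update_self _ _ _
      have h4 := ih (Function.update (Function.update f i l) j (a :: f j)) h2.le_end e4 (by
        rw [e5]
        simp only [List.length_cons]
        omega)
      rw [e5, xfer_upd hij] at h4
      have h3 := runs_iter_step (body := fun _ : Unit => (Rout.pop i).bind fun o =>
        match o with
        | none => Rout.pureR (A := A) (.inr ())
        | some a => (Rout.push j a).bind fun _ =>
          Rout.pureR (if stop a then (.inr () : Unit ⊕ Unit) else .inl ())) (t := ())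
        (t' := ()) (b := ()) (runs_bind h1 (runs_bind h2 (by
          rw [if_neg hst]
          exact runs_pure (Sum.inl () : Unit ⊕ Unit) h2.le_end))) h4
      refine h3.mono le_rfl ?_
      simp only [List.length_cons]
      omega

end Pool.Agent.Lib.MP_9dcf40_lc
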