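import Pool.Agent.Lib.MP_9dcf40_lc.CompD
import Pool.Agent.Lib.MP_9dcf40_lc.CompN
import Pool.Agent.Lib.MP_9dcf40_lc.Macro
import Pool.Agent.Lib.MP_9dcf40_lc.DCnt
import Pool.Agent.Lib.MP_9dcf40_lc.DCount
import Pool.Agent.Lib.MP_9dcf40_lc.DHead
import Pool.Agent.Lib.MP_9dcf40_lc.DParse
import Pool.Agent.Lib.MP_9dcf40_lc.DPos
import Pool.Agent.Lib.MP_9dcf40_lc.DPow
import Pool.Agent.Lib.MP_9dcf40_lc.DSim
import Pool.Agent.Lib.MP_9dcf40_lc.DSize
import Pool.Agent.Lib.MP_9dcf40_lc.DTotal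
import Pool.Agent.Lib.MP_9dcf40_lc.DVStep
import Pool.Agent.Lib.MP_9dcf40_lc.DZip
import Pool.Agent.Lib.MP_9dcf40_lc.FClock
import Pool.Agent.Lib.MP_9dcf40_lc.FContr
import Pool.Agent.Lib.MP_9dcf40_lc.FDiag
import Pool.Agent.Lib.MP_9dcf40_lc.FMain1
import Pool.Agent.Lib.MP_9dcf40_lc.FMain2
import Pool.Agent.Lib.MP_9dcf40_lc.FMono
import Pool.Agent.Lib.MP_9dcf40_lc.FNumD
import Pool.Agent.Lib.MP_9dcf40_lc.FNumPoly
import Pool.Agent.Lib.MP_9dcf40_lc.FNumQ
import Pool.Agent.Lib.MP_9dcf40_lc.FTriv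
import Pool.Agent.Lib.MP_9dcf40_lc.UCorr
import Pool.Agent.Lib.MP_9dcf40_lc.UInit
import Pool.Agent.Lib.MP_9dcf40_lc.UK
import Pool.Agent.Lib.MP_9dcf40_lc.ULookup
import Pool.Agent.Lib.MP_9dcf40_lc.UMain
import Pool.Agent.Lib.MP_9dcf40_lc.UNorm
import Pool.Agent.Lib.MP_9dcf40_lc.UPA
import Pool.Agent.Lib.MP_9dcf40_lc.UPB
import Pool.Agent.Lib.MP_9dcf40_lc.UPC
import Pool.Agent.Lib.MP_9dcf40_lc.UPD
import Pool.Agent.Lib.MP_9dcf40_lc.USim
import Pool.Agent.Lib.MP_9dcf40_lc.USkip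
import Pool.Agent.Lib.MP_9dcf40_lc.UStep
import Pool.Agent.Lib.MP_9dcf40_lc.UTotal
import Pool.Agent.Lib.MP_9dcf40_lc.UXfer

/-!
# Assembly
-/

namespace Pool.Agent.Lib.MP_9dcf40_lc

theorem all_comp_d : StCompD := comp_d macro_step
theorem all_comp_n : StCompN := comp_n macro_step
theorem all_ua : StUA := u_a u_xfer
theorem all_ustep : StUStep := u_step all_ua (u_b all_ua) u_c u_d
theorem all_umain : StUMain := u_main all_ustep
theorem all_utotal : StUTotal := u_total (u_init u_xfer) all_ua all_umain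
theorem all_ucorr : StUCorr := u_corr (u_sim (u_lookup u_skip))
theorem all_kd : StKD := k_d all_comp_d all_utotal
theorem all_kn : StKN := k_n all_comp_n all_utotal
theorem all_cnt : StCnt := d_cnt u_xfer
theorem all_head : StHead := d_head d_count all_cnt d_pos
theorem all_sim : StSim := d_sim d_count all_cnt (d_vstep all_head) d_zip
theorem all_total : StDTotal :=
  d_total u_xfer d_count (d_size d_count all_cnt) (d_pow u_xfer) d_pos (d_parse d_pos) all_sim
theorem all_diag : StDiag := f_diag all_comp_d all_total f_clock f_numd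
theorem all_contr : StContr := f_contr all_diag u_norm all_ucorr
theorem all_main1 : StMain1 := f_main1 all_contr f_numpoly all_kd all_kn
theorem all_main2 : StMain2 := f_main2 all_contr f_numq all_kd all_kn

end Pool.Agent.Lib.MP_9dcf40_lc
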