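import Pool.Agent.Lib.MP_9dcf40_lc.Defs

/-!
# Stack machines with finite control, written as routines

A *routine* is a finite control for a device with a read only input tape (with one head) and
finitely many stacks (indexed by `ι`, with stack alphabet `Γ`). It may stop with a result in a type
`β`. Routines are composed with `pureR`, `bind` and `iter`.
-/

namespace Pool.Agent.Lib.MP_9dcf40_lc

/-- The data of a stack machine: position of the input head, and the stacks (the head of a list is
the top of the stack). -/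
structure Data (Γ ι : Type) : Type where
  pos : ℕ
  st : ι → List Γ

/-- The initial data: the head is on the left end marker and the stacks are empty. -/
def Data.init {Γ ι : Type} : Data Γ ι := ⟨0, fun _ => []⟩

/-- All stacks have length at most `s`. -/
def Data.le {Γ ι : Type} (d : Data Γ ι) (s : ℕ) : Prop := ∀ i, (d.st i).length ≤ s

/-- The future choices (read by `choose` only). -/
abbrev Str : Type := ℕ → Bool

/-- Instructions, with targets in `X`. `pop` removes the top of a stack, the target depends on the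
removed symbol (`none` if the stack was empty). -/
inductive Ins (A Γ ι X : Type) : Type
  | push (i : ι) (a : Γ) (t : X)
  | pop (i : ι) (f : Option Γ → X)
  | read (f : InSym A → X)
  | move (d : Dir) (t : X)
  | choose (f : Bool → X)
  | nop (t : X)

variable {A Γ ι β γ τ X Y : Type}

def Ins.map (g : X → Y) : Ins A Γ ι X → Ins A Γ ι Y
  | .push i a t => .push i a (g t)
  | .pop i f => .pop i fun o => g (f o)
  | .read f => .read fun a => g (f a)
  | .move d t => .move d (g t)
  | .choose f => .choose fun b => g (f b)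
  | .nop t => .nop (g t)

/-- The effect of an instruction on the input `x`. -/
def stepIns [DecidableEq ι] (x : List A) :
    Ins A Γ ι X → Data Γ ι → Str → X × Data Γ ι × Str
  | .push i a t, d, c => (t, ⟨d.pos, Function.update d.st i (a :: d.st i)⟩, c)
  | .pop i f, d, c => (f (d.st i).head?, ⟨d.pos, Function.update d.st i (d.st i).tail⟩, c)
  | .read f, d, c => (f (inSym x d.pos), d, c)
  | .move dir t, d, c => (t, ⟨movePos x.length dir d.pos, d.st⟩, c)
  | .choose f, d, c => (f (c 0), d, fun n => c (n + 1))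
  | .nop t, d, c => (t, d, c)

/-- A routine with results in `β`. -/
structure Rout (A Γ ι β : Type) : Type 1 where
  S : Type
  fin : Finite S
  start : S ⊕ β
  prog : S → Ins A Γ ι (S ⊕ β)

/-- `Exec x prog s u d c n b d' c'`: from the control state `u` and the data `d`, with the future
choices `c`, the program `prog` stops after `n` steps with result `b`, data `d'` and future choices
`c'`, and all stacks have length at most `s` all the time. -/
inductive Exec [DecidableEq ι] (x : List A) {S : Type} (prog : S → Ins A Γ ι (S ⊕ β)) (s : ℕ) :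
    S ⊕ β → Data Γ ι → Str → ℕ → β → Data Γ ι → Str → Prop
  | done (b : β) (d : Data Γ ι) (c : Str) : d.le s → Exec x prog s (.inr b) d c 0 b d c
  | step (σ : S) (d : Data Γ ι) (c : Str) (u : S ⊕ β) (d₁ : Data Γ ι) (c₁ : Str) (n : ℕ) (b : β)
      (d' : Data Γ ι) (c' : Str) : d.le s → stepIns x (prog σ) d c = (u, d₁, c₁) →
      Exec x prog s u d₁ c₁ n b d' c' → Exec x prog s (.inl σ) d c (n + 1) b d' c'

/-- The routine `R`, started with `d`, `c`, stops after at most `T` steps with `b`, `d'`, `c'`, and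
all stacks have length at most `s` all the time. -/
def Runs [DecidableEq ι] (x : List A) (R : Rout A Γ ι β) (s T : ℕ) (d : Data Γ ι) (c : Str) (b : β)
    (d' : Data Γ ι) (c' : Str) : Prop := ∃ n ≤ T, Exec x R.prog s R.start d c n b d' c'

namespace Rout

/-- Stop at once with result `b`. -/
def pureR (b : β) : Rout A Γ ι β :=
  ⟨Empty, inferInstance, .inr b, fun e => e.elim⟩

/-- A single instruction. -/
def prim (i : Ins A Γ ι β) : Rout A Γ ι β :=
  ⟨Unit, inferInstance, .inl (), fun _ => i.map .inr⟩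

def push (i : ι) (a : Γ) : Rout A Γ ι Unit := prim (.push i a ())
def pop (i : ι) : Rout A Γ ι (Option Γ) := prim (.pop i id)
def read : Rout A Γ ι (InSym A) := prim (.read id)
def move (d : Dir) : Rout A Γ ι Unit := prim (.move d ())
def choose : Rout A Γ ι Bool := prim (.choose id)

/-- Target conversion for `bind`, second part. -/
def bconv' (p : Rout A Γ ι β) (f : β → Rout A Γ ι γ) (b : β) :
    (f b).S ⊕ γ → (p.S ⊕ Σ b, (f b).S) ⊕ γ
  | .inl σ => .inl (.inr ⟨b, σ⟩)
  | .inr g => .inr g

/-- Target conversion for `bind`. -/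
def bconv (p : Rout A Γ ι β) (f : β → Rout A Γ ι γ) : p.S ⊕ β → (p.S ⊕ Σ b, (f b).S) ⊕ γ
  | .inl σ => .inl (.inl σ)
  | .inr b => bconv' p f b (f b).start

/-- The program of `bind`. -/
def bprog (p : Rout A Γ ι β) (f : β → Rout A Γ ι γ) :
    (p.S ⊕ Σ b, (f b).S) → Ins A Γ ι ((p.S ⊕ Σ b, (f b).S) ⊕ γ)
  | .inl σ => (p.prog σ).map (bconv p f)
  | .inr ⟨b, σ⟩ => ((f b).prog σ).map (bconv' p f b)

/-- First `p`, then `f b` where `b` is the result of `p`. -/
def bind [Finite β] (p : Rout A Γ ι β) (f : β → Rout A Γ ι γ) : Rout A Γ ι γ where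
  S := p.S ⊕ Σ b, (f b).S
  fin := by
    have := p.fin
    have := fun b => (f b).fin
    infer_instance
  start := bconv p f p.start
  prog := bprog p f

/-- Target conversion for `iter`. -/
def iconv (body : τ → Rout A Γ ι (τ ⊕ β)) (t : τ) :
    (body t).S ⊕ (τ ⊕ β) → (τ ⊕ Σ t, (body t).S) ⊕ β
  | .inl σ => .inl (.inr ⟨t, σ⟩)
  | .inr (.inl t') => .inl (.inl t')
  | .inr (.inr b) => .inr b

/-- The program of `iter`. -/
def iprog (body : τ → Rout A Γ ι (τ ⊕ β)) :
    (τ ⊕ Σ t, (body t).S) → Ins A Γ ι ((τ ⊕ Σ t, (body t).S) ⊕ β)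
  | .inl t => .nop (iconv body t (body t).start)
  | .inr ⟨t, σ⟩ => ((body t).prog σ).map (iconv body t)

/-- Loop with a finite state: run `body t`; if the result is `inl t'`, go on with `t'`, if it is
`inr b`, stop with `b`. (Each round costs one step more.) -/
def iter [Finite τ] (body : τ → Rout A Γ ι (τ ⊕ β)) (t₀ : τ) : Rout A Γ ι β where
  S := τ ⊕ Σ t, (body t).S
  fin := by
    have := fun t => (body t).fin
    infer_instance
  start := .inl (.inl t₀)
  prog := iprog body

end Rout

section Lemmas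

variable [DecidableEq ι] {x : List A} {s s' T T' n : ℕ} {d d' d₁ d₂ : Data Γ ι} {c c' c₁ c₂ : Str}

theorem stepIns_map (g : X → Y) (i : Ins A Γ ι X) (d : Data Γ ι) (c : Str) :
    stepIns x (i.map g) d c = (g (stepIns x i d c).1, (stepIns x i d c).2) := by
  cases i <;> rfl

theorem Exec.mono {S : Type} {prog : S → Ins A Γ ι (S ⊕ β)} {u b}
    (h : Exec x prog s u d c n b d' c') (hs : s ≤ s') : Exec x prog s' u d c n b d' c' := by
  induction h with
  | done b d c hd => exact .done b d c fun i => (hd i).trans hs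
  | step σ d c u d₁ c₁ n b d' c' hd he _ ih =>
    exact .step σ d c u d₁ c₁ n b d' c' (fun i => (hd i).trans hs) he ih

theorem Runs.mono {R : Rout A Γ ι β} {b} (h : Runs x R s T d c b d' c') (hs : s ≤ s')
    (hT : T ≤ T') : Runs x R s' T' d c b d' c' := by
  obtain ⟨n, hn, h⟩ := h
  exact ⟨n, hn.trans hT, h.mono hs⟩

theorem Exec.le_start {S : Type} {prog : S → Ins A Γ ι (S ⊕ β)} {u b}
    (h : Exec x prog s u d c n b d' c') : d.le s := by
  cases h <;> assumption

theorem Exec.le_end {S : Type} {prog : S → Ins A Γ ι (S ⊕ β)} {u b}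
    (h : Exec x prog s u d c n b d' c') : d'.le s := by
  induction h <;> assumption

theorem Runs.le_start {R : Rout A Γ ι β} {b} (h : Runs x R s T d c b d' c') : d.le s := by
  obtain ⟨_, _, h⟩ := h
  exact h.le_start

theorem Runs.le_end {R : Rout A Γ ι β} {b} (h : Runs x R s T d c b d' c') : d'.le s := by
  obtain ⟨_, _, h⟩ := h
  exact h.le_end

/-- The result is determined. -/
theorem Exec.det {S : Type} {prog : S → Ins A Γ ι (S ⊕ β)} {u b b₁ n₁}
    (h : Exec x prog s u d c n b d' c')
    (h₁ : Exec x prog s' u d c n₁ b₁ d₁ c₁) : n = n₁ ∧ b = b₁ ∧ d' = d₁ ∧ c' = c₁ := by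
  induction h generalizing n₁ with
  | done b d c hd =>
    cases h₁
    exact ⟨rfl, rfl, rfl, rfl⟩
  | step σ d c u d₂ c₂ n b d' c' hd he _ ih =>
    cases h₁ with
    | step _ _ _ u' d₃ c₃ m _ _ _ _ he' h₂ =>
      rw [he] at he'
      obtain ⟨rfl, rfl, rfl⟩ : u = u' ∧ d₂ = d₃ ∧ c₂ = c₃ := by
        simpa using he'
      obtain ⟨e1, e2, e3, e4⟩ := ih h₂
      exact ⟨by rw [e1], e2, e3, e4⟩

theorem Runs.det {R : Rout A Γ ι β} {b b₁} (h : Runs x R s T d c b d' c')
    (h₁ : Runs x R s' T' d c b₁ d₁ c₁) : b = b₁ ∧ d' = d₁ ∧ c' = c₁ := by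
  obtain ⟨_, _, h⟩ := h
  obtain ⟨_, _, h₁⟩ := h₁
  exact (h.det h₁).2

theorem runs_pure (b : β) (hd : d.le s) : Runs x (Rout.pureR b) s 0 d c b d c :=
  ⟨0, le_rfl, .done b d c hd⟩

theorem exec_bind_right (p : Rout A Γ ι β) (f : β → Rout A Γ ι γ) (b : β)
    {u : (f b).S ⊕ γ} {g : γ} (h : Exec x (f b).prog s u d c n g d' c') :
    Exec x (Rout.bprog p f) s (Rout.bconv' p f b u) d c n g d' c' := by
  induction h with
  | done g d c hd => exact .done g d c hd
  | step σ d c u d₁ c₁ n g d' c' hd he _ ih =>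
    refine .step (.inr ⟨b, σ⟩) d c _ d₁ c₁ n g d' c' hd ?_ ih
    show stepIns x (((f b).prog σ).map (Rout.bconv' p f b)) d c = _
    rw [stepIns_map, he]

theorem exec_bind (p : Rout A Γ ι β) (f : β → Rout A Γ ι γ) {u : p.S ⊕ β} {b : β}
    {m : ℕ} {g : γ} (h : Exec x p.prog s u d c n b d₁ c₁)
    (h' : Exec x (f b).prog s (f b).start d₁ c₁ m g d' c') :
    Exec x (Rout.bprog p f) s (Rout.bconv p f u) d c (n + m) g d' c' := by
  induction h with
  | done b d c hd =>
    rw [Nat.zero_add]
    exact exec_bind_right p f b h'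
  | step σ d c u d₁ c₁ n b d' c' hd he _ ih =>
    rw [Nat.add_right_comm]
    refine .step (.inl σ) d c _ d₁ c₁ _ g _ _ hd ?_ (ih h')
    show stepIns x ((p.prog σ).map (Rout.bconv p f)) d c = _
    rw [stepIns_map, he]

theorem runs_bind [Finite β] {p : Rout A Γ ι β} {f : β → Rout A Γ ι γ} {b : β} {g : γ}
    (h : Runs x p s T d c b d₁ c₁) (h' : Runs x (f b) s T' d₁ c₁ g d' c') :
    Runs x (p.bind f) s (T + T') d c g d' c' := by
  obtain ⟨n, hn, h⟩ := h
  obtain ⟨m, hm, h'⟩ := h'
  exact ⟨n + m, by omega, exec_bind p f h h'⟩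

theorem runs_prim (i : Ins A Γ ι β) (hd : d.le s) (hd' : (stepIns x i d c).2.1.le s) :
    Runs x (Rout.prim i) s 1 d c (stepIns x i d c).1 (stepIns x i d c).2.1
      (stepIns x i d c).2.2 := by
  refine ⟨1, le_rfl, ?_⟩
  refine .step () d c _ _ _ 0 _ _ _ hd ?_ (.done _ _ _ hd')
  show stepIns x (i.map Sum.inr) d c = _
  rw [stepIns_map]

theorem exec_iter_body (body : τ → Rout A Γ ι (τ ⊕ β)) (t : τ)
    {u : (body t).S ⊕ (τ ⊕ β)} {r : τ ⊕ β} {m : ℕ} {b : β}
    (h : Exec x (body t).prog s u d c n r d₁ c₁)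
    (h' : Exec x (Rout.iprog body) s (Rout.iconv body t (.inr r)) d₁ c₁ m b d' c') :
    Exec x (Rout.iprog body) s (Rout.iconv body t u) d c (n + m) b d' c' := by
  induction h with
  | done r d c hd =>
    rw [Nat.zero_add]
    exact h'
  | step σ d c u d₁ c₁ n r d' c' hd he _ ih =>
    rw [Nat.add_right_comm]
    refine .step (.inr ⟨t, σ⟩) d c _ d₁ c₁ _ _ _ _ hd ?_ (ih h')
    show stepIns x (((body t).prog σ).map (Rout.iconv body t)) d c = _
    rw [stepIns_map, he]

theorem runs_iter_step [Finite τ] {body : τ → Rout A Γ ι (τ ⊕ β)} {t t' : τ} {b : β}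
    (h : Runs x (body t) s T d c (.inl t') d₁ c₁)
    (h' : Runs x (Rout.iter body t') s T' d₁ c₁ b d' c') :
    Runs x (Rout.iter body t) s (T + T' + 1) d c b d' c' := by
  obtain ⟨n, hn, h⟩ := h
  obtain ⟨m, hm, h'⟩ := h'
  refine ⟨n + m + 1, by omega, ?_⟩
  show Exec x (Rout.iprog body) s (Sum.inl (Sum.inl t)) d c (n + m + 1) b d' c'
  exact .step (.inl t) d c _ d c _ _ _ _ h.le_start rfl (exec_iter_body body t h h')

theorem runs_iter_done [Finite τ] {body : τ → Rout A Γ ι (τ ⊕ β)} {t : τ} {b : β}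
    (h : Runs x (body t) s T d c (.inr b) d' c') :
    Runs x (Rout.iter body t) s (T + 1) d c b d' c' := by
  obtain ⟨n, hn, h⟩ := h
  refine ⟨n + 1, by omega, ?_⟩
  show Exec x (Rout.iprog body) s (Sum.inl (Sum.inl t)) d c (n + 0 + 1) b d' c'
  exact .step (.inl t) d c _ d c _ _ _ _ h.le_start rfl
    (exec_iter_body body t h (m := 0) (.done b d' c' h.le_end))

theorem runs_push (i : ι) (a : Γ) (hd : d.le s) (h : (d.st i).length + 1 ≤ s) :
    Runs x (Rout.push i a) s 1 d c () ⟨d.pos, Function.update d.st i (a :: d.st i)⟩ c := by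
  refine runs_prim (.push i a ()) hd fun j => ?_
  show (Function.update d.st i (a :: d.st i) j).length ≤ s
  by_cases hj : j = i
  · subst hj; simpa using h
  · rw [Function.update_of_ne hj]; exact hd j

theorem runs_pop (i : ι) (hd : d.le s) :
    Runs x (Rout.pop i) s 1 d c (d.st i).head?
      ⟨d.pos, Function.update d.st i (d.st i).tail⟩ c := by
  refine runs_prim (.pop i id) hd fun j => ?_
  show (Function.update d.st i (d.st i).tail j).length ≤ s
  by_cases hj : j = i
  · subst hj
    have := hd j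
    simp only [Function.update_self, List.length_tail]
    omega
  · rw [Function.update_of_ne hj]; exact hd j

theorem runs_read (hd : d.le s) : Runs x Rout.read s 1 d c (inSym x d.pos) d c :=
  runs_prim (.read id) hd hd

theorem runs_move (dir : Dir) (hd : d.le s) :
    Runs x (Rout.move dir) s 1 d c () ⟨movePos x.length dir d.pos, d.st⟩ c :=
  runs_prim (.move dir ()) hd hd

theorem runs_choose (hd : d.le s) :
    Runs x Rout.choose s 1 d c (c 0) d fun n => c (n + 1) :=
  runs_prim (.choose id) hd hd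

end Lemmas

end Pool.Agent.Lib.MP_9dcf40_lc
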