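import Pool.Agent.Lib.MP_9dcf40_lc.Rout

/-!
# The compiler from routines to Turing machines: definitions and statements

The stack number `i` of the routine is stored on a track of the work tape: the cell `j ≥ 0` holds
the `j`-th symbol from the bottom. The cell `0` carries a marker. Between two instructions the work
head is on the cell `0`.
-/

namespace Pool.Agent.Lib.MP_9dcf40_lc

variable {A Γ ι : Type}

/-- States of the compiled machine: `init` (writes the marker), `run u` (control state `u` of the
routine, also used while the head walks to the right), `back u` (walk to the left, then `run u`),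
`popg σ` (remove the top symbol). -/
inductive CQ (S : Type) : Type
  | init
  | run (u : S ⊕ Bool)
  | back (u : S ⊕ Bool)
  | popg (σ : S)

theorem finite_CQ (S : Type) [Finite S] : Finite (CQ S) := by
  have h : Function.Injective
      (fun q : CQ S => (match q with
        | .init => none
        | .run u => some (.inl u)
        | .back u => some (.inr (.inl u))
        | .popg σ => some (.inr (.inr σ)) : Option ((S ⊕ Bool) ⊕ ((S ⊕ Bool) ⊕ S)))) := by
    intro a b hab
    cases a <;> cases b <;> simp_all
  exact Finite.of_injective _ h

/-- Work alphabet of the compiled machine: a marker bit and the tracks. -/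
abbrev CG (Γ ι : Type) : Type := Bool × (ι → Option Γ)

/-- Transition functions of the compiled machine. If `nd = false` the machine is deterministic and
uses the choice `false` at every instruction `choose`. -/
def compδ [DecidableEq ι] (R : Rout A Γ ι Bool) (nd b : Bool) :
    CQ R.S → InSym A → CG Γ ι → CQ R.S × CG Γ ι × Dir × Dir
  | .init, _, g => (.run R.start, (true, g.2), .stay, .stay)
  | .run (.inr r), _, g => (.run (.inr r), g, .stay, .stay)
  | .run (.inl σ), a, g =>
    match R.prog σ with
    | .push i s t =>
      match g.2 i with
      | some _ => (.run (.inl σ), g, .stay, .right)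
      | none => (.back t, (g.1, Function.update g.2 i (some s)), .stay, .stay)
    | .pop i f =>
      match g.2 i with
      | some _ => (.run (.inl σ), g, .stay, .right)
      | none =>
        if g.1 then (.run (f none), g, .stay, .stay) else (.popg σ, g, .stay, .left)
    | .read f => (.run (f a), g, .stay, .stay)
    | .move d t => (.run t, g, d, .stay)
    | .choose f => (.run (f (nd && b)), g, .stay, .stay)
    | .nop t => (.run t, g, .stay, .stay)
  | .back t, _, g => if g.1 then (.run t, g, .stay, .stay) else (.back t, g, .stay, .left)
  | .popg σ, _, g =>
    match R.prog σ with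
    | .pop i f => (.back (f (g.2 i)), (g.1, Function.update g.2 i none), .stay, .stay)
    | _ => (.run R.start, g, .stay, .stay)

def compOut (S : Type) : CQ S → Option Bool
  | .run (.inr r) => some r
  | _ => none

/-- The compiled machine. -/
def compTM [Finite Γ] [Finite ι] [DecidableEq ι] (R : Rout A Γ ι Bool) (nd : Bool) : TM A where
  Q := CQ R.S
  G := CG Γ ι
  finQ := by
    have := R.fin
    exact finite_CQ R.S
  finG := inferInstance
  start := .init
  blank := (false, fun _ => none)
  out := compOut R.S
  δ := compδ R nd

/-- The configuration reached from `cf` after `t` steps with the choices `ch`. -/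
def TM.runFrom (M : TM A) (x : List A) (ch : ℕ → Bool) (cf : Cfg M.Q M.G) : ℕ → Cfg M.Q M.G
  | 0 => cf
  | t + 1 => M.next x (ch t) (M.runFrom x ch cf t)

/-- The configuration `cf` represents the data `d`, and the work head is on the cell `0`. -/
def Rep {Q : Type} (d : Data Γ ι) (cf : Cfg Q (CG Γ ι)) : Prop :=
  cf.p = d.pos ∧ cf.h = 0 ∧ ∀ j : ℕ, cf.T j = (decide (j = 0), fun i => (d.st i).reverse[j]?)

/-- Simulation of one instruction.

Proof. `read`, `move`, `choose`, `nop`: one step, `n = 1`. `push i a t`, `len = (d.st i).length`:
the head walks to the right in the state `run (inl σ)` for `len` steps (the track `i` is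
`some _` on the cells `0, …, len - 1`: induction on the number of cells), on the cell `len` the
track `i` is `none`, the symbol is written (one step, state `back t`), then `len` steps to the left
in the state `back t` (the marker is only on cell `0`), and one step into `run t`. So
`n = 2 len + 2`, and `len + 1 ≤ s` because `d₁.le s`. The new tape represents the new stack since
`(a :: l).reverse = l.reverse ++ [a]`. `pop i f`: if the stack is empty, on cell `0` the track is
`none` and the marker is set, `n = 1`. Otherwise `len ≥ 1` steps to the right, one step to the left
into `popg σ`, on the cell `len - 1` the symbol is erased (state `back (f (some a))`, `a` the top),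
`len - 1` steps to the left and one more into `run`: `n = 2 len + 2`. (None of the states passed is
halting, so `next` is given by `compδ`; `compTM.out` is `none` on them.) -/
def StMacro : Prop := ∀ (A Γ ι : Type) [Finite Γ] [Finite ι] [DecidableEq ι] (R : Rout A Γ ι Bool)
  (nd : Bool) (x : List A) (s : ℕ) (σ : R.S) (d : Data Γ ι) (c : Str) (u : R.S ⊕ Bool)
  (d₁ : Data Γ ι) (c₁ : Str) (b : Bool), d.le s → d₁.le s →
  stepIns x (R.prog σ) d c = (u, d₁, c₁) → c 0 = (nd && b) →
  ∀ cf : Cfg (CQ R.S) (CG Γ ι), cf.q = .run (.inl σ) → Rep d cf →
  ∃ (n : ℕ) (cf' : Cfg (CQ R.S) (CG Γ ι)), 1 ≤ n ∧ n ≤ 2 * s + 2 ∧ cf'.q = .run u ∧ Rep d₁ cf' ∧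
    ∀ ch : ℕ → Bool, ch 0 = b → (compTM R nd).runFrom x ch cf n = cf' ∧
      ∀ m ≤ n, 0 ≤ ((compTM R nd).runFrom x ch cf m).h ∧
        ((compTM R nd).runFrom x ch cf m).h ≤ s

/-- The deterministic compiler (from `StMacro`).

Proof. `M = compTM R false`; `IsDet` is clear (`false && b = false`). The first step of the run
leads from `init` to a configuration with state `run R.start` which represents `Data.init` (the
marker is written; `[].reverse[j]? = none`). Then by induction on `Exec` (use `StMacro` with the
constant stream `fun _ => false`; `c 0 = false`, and the stream stays constant): from every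
configuration with state `run u` representing `d` the machine reaches in at most `n (2 s + 2)` steps
a configuration with state `run (inr b)`, and the head stays in `[0, s]`. Halting configurations
are fixed, so the run is constant from then on (lemma: `run (t + k) = runFrom (shifted choices)
(run t) k`). `SpaceLe`: the visited squares are in `Set.Icc 0 s`, whose `encard` is `s + 1`.
The run does not depend on the choices. -/
def StCompD : Prop := ∀ (A Γ ι : Type) [Finite Γ] [Finite ι] [DecidableEq ι]
  (R : Rout A Γ ι Bool), ∃ M : TM A, M.IsDet ∧
    ∀ (x : List A) (s T : ℕ) (b : Bool) (d' : Data Γ ι) (c' : Str),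
      Runs x R s T .init (fun _ => false) b d' c' →
        M.HaltsIn x ((T + 1) * (2 * s + 2)) ∧ (M.Accepts x ↔ b = true) ∧ M.SpaceLe x (s + 2)

/-- The nondeterministic compiler (from `StMacro`).

Proof. `M = compTM R true`. (1) For every `ch`, every `u`, `d`, every configuration `cf` with state
`run u` representing `d`, and every `N` there is a stream `c` such that: if
`Exec x R.prog s u d c n b d' c'` and `n ≤ N` then with the choices `ch` the machine reaches the
state `run (inr b)` from `cf` in at most `n (2 s + 2)` steps. Induction on `N`: if `u = inr b`
nothing is to do. If `u = inl σ`: the target and the data `d₁` after the instruction depend only on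
the first choice `c 0` (and only if it is `choose`); take `c 0 = ch 0`. If `d₁.le s` fails there is
no `Exec` (`Exec.le_start`), take any `c`. Otherwise `StMacro` gives `n₁` and `cf'`, apply the
induction hypothesis to `ch' k = ch (n₁ + k)` and get `c₁`; if the instruction is `choose` let `c` be
`ch 0` followed by `c₁`; otherwise let `c = c₁`: here `StMacro` wants `c 0 = ch 0`, but for
these instructions `stepIns` does not look at `c`, so apply `StMacro` with another stream whose
first value is `ch 0` (the first two components of `stepIns` are the same). (2) For every `c` with
`Exec x R.prog s u d c n b d' c'` and every `cf` as before there is a `ch` such that the machine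
reaches `run (inr b)` from `cf` in at most `n (2 s + 2)` steps: induction on `Exec`, with
`ch 0 = c 0`, anything for `0 < k < n₁`, then the sequence of the induction hypothesis for `cf'`
(`runFrom … n` depends only on the first `n` choices). From (1): all computations stop in time, and
if one accepts then `b c = true` for some `c`; from (2) the converse. -/
def StCompN : Prop := ∀ (A Γ ι : Type) [Finite Γ] [Finite ι] [DecidableEq ι]
  (R : Rout A Γ ι Bool), ∃ M : TM A, ∀ (x : List A) (s T : ℕ) (b : Str → Bool),
    (∀ c, ∃ d' c', Runs x R s T .init c (b c) d' c') →
      M.HaltsIn x ((T + 1) * (2 * s + 2)) ∧ (M.Accepts x ↔ ∃ c, b c = true)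

end Pool.Agent.Lib.MP_9dcf40_lc
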