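import Pool.Agent.Lib.MP_9dcf40_lc.SpecU2

/-!
# The diagonal machine: definitions and statements

For a deterministic machine `V` with input alphabet `Option DA ⊕ Bool` and numbers `d`, `e`, the
diagonal machine works on words `x = f₁ # f₂ # f₃ # 1 ^ m # rest` and simulates `V` on the virtual
word `vword x m f₃`, that is `x`, then `2 ^ m` letters `none`, then the advice bits `f₃`, for
`2 ^ ((size n + 1) ^ e)` steps; the answer is negated.
-/

namespace Pool.Agent.Lib.MP_9dcf40_lc

open Rout

/-- The input alphabet of `V`. -/
abbrev VB : Type := Option DA ⊕ Bool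

/-- The virtual word. -/
def vword (x : List DA) (m : ℕ) (f : List DA) : List VB := pairL (padL x (2 ^ m)) (f.map bitOf)

/-! ## Binary counters (lowest digit first) -/

/-- The value of a counter. -/
def val : List Bool → ℕ
  | [] => 0
  | a :: l => (if a then 1 else 0) + 2 * val l

/-- `cstep true` adds one, `cstep false` subtracts one; with overflow (underflow) flag. -/
def cstep (b : Bool) : List Bool → List Bool × Bool
  | [] => ([], true)
  | a :: l => if a = b then ((!b) :: (cstep b l).1, (cstep b l).2) else (b :: l, false)

/-- Add one, with a new digit if necessary. -/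
def cinc (l : List Bool) : List Bool :=
  if (cstep true l).2 then (cstep true l).1 ++ [true] else (cstep true l).1

/-- Properties of the counters. (Induction on `l`. For the last part: `val (cinc l) = val l + 1`, the
last digit of `cinc^[n] []` is `true` for `n ≥ 1`, so `2 ^ (length - 1) ≤ n < 2 ^ length`.) -/
def StCount : Prop :=
  (∀ b l, (cstep b l).1.length = l.length) ∧
  (∀ l, val l < 2 ^ l.length) ∧
  (∀ k, val (List.replicate k true) + 1 = 2 ^ k) ∧
  (∀ k, val (List.replicate k false) = 0) ∧
  (∀ l, (cstep true l).2 = true → l = List.replicate l.length true ∧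
    (cstep true l).1 = List.replicate l.length false) ∧
  (∀ l, (cstep true l).2 = false → val (cstep true l).1 = val l + 1) ∧
  (∀ l, (cstep false l).2 = true → l = List.replicate l.length false ∧
    (cstep false l).1 = List.replicate l.length true) ∧
  (∀ l, (cstep false l).2 = false → val (cstep false l).1 + 1 = val l) ∧
  (∀ k, cstep true (List.replicate k true) = (List.replicate k false, true)) ∧
  (∀ k, cstep false (List.replicate k false) = (List.replicate k true, true)) ∧
  ∀ n : ℕ, (cinc^[n] []).length = Nat.size n

/-! ## Stacks and routines -/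

/-- Names of the stacks: `N` the counter of the length, `R`, `R2` regions, `P` the pad counter, `K`
the clock, `T` auxiliary, `WL`, `WR` the work tape of `V`. -/
inductive DN : Type
  | N | R | R2 | P | K | T | WL | WR
  deriving DecidableEq, Fintype

section Routines

variable {G : Type} [Finite G]

/-- Stack alphabet: digits, and work symbols of `V`. -/
abbrev DG (G : Type) : Type := Bool ⊕ G

/-- Routines of the diagonal machine. -/
abbrev DR (G β : Type) : Type 1 := Rout DA (DG G) DN β

/-- One counter step on the stack `i` (auxiliary stack `T`), result: overflow flag. -/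
def cntR [DecidableEq G] (b : Bool) (i : DN) : DR G Bool :=
  (iter (τ := Unit) (fun _ => (pop i).bind fun o =>
    match o with
    | none => pureR (.inr true)
    | some a => if a = .inl b then (push .T (.inl (!b))).bind fun _ => pureR (.inl ())
        else (push i (.inl b)).bind fun _ => pureR (.inr false)) ()).bind fun f =>
  (xferR (fun _ => false) .T i).bind fun _ => pureR f

/-- Add one on the stack `N`, with a new digit if necessary. -/
def cincR [DecidableEq G] : DR G Unit :=
  (iter (τ := Unit) (fun _ => (pop .N).bind fun o =>
    match o with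
    | none => (push .N (.inl true)).bind fun _ => pureR (.inr ())
    | some a => if a = .inl true then (push .T (.inl false)).bind fun _ => pureR (.inl ())
        else (push .N (.inl true)).bind fun _ => pureR (.inr ())) ()).bind fun _ =>
  xferR (fun _ => false) .T .N

/-- Count the letters of the input on the stack `N`. -/
def sizeR [DecidableEq G] : DR G Unit :=
  iter (τ := Unit) (fun _ => (move .right).bind fun _ => Rout.read.bind fun a =>
    if a = .right then pureR (.inr ()) else cincR.bind fun _ => pureR (.inl ())) ()

/-- Put `length N` digits `false` on `R2`. -/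
def lenR : DR G Unit :=
  (iter (τ := Unit) (fun _ => (pop .N).bind fun o =>
    match o with
    | none => pureR (.inr ())
    | some a => (push .T a).bind fun _ => (push .R2 (.inl false)).bind fun _ =>
        pureR (.inl ())) ()).bind fun _ =>
  xferR (fun _ => false) .T .N

/-- Multiply the length of `R` with `length N + 1`. -/
def mulR : DR G Unit :=
  (iter (τ := Unit) (fun _ => (pop .R).bind fun o =>
    match o with
    | none => pureR (.inr ())
    | some _ => (push .R2 (.inl false)).bind fun _ => lenR.bind fun _ =>
        pureR (.inl ())) ()).bind fun _ =>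
  xferR (fun _ => false) .R2 .R

def mulsR : ℕ → DR G Unit
  | 0 => pureR ()
  | n + 1 => mulR.bind fun _ => mulsR n

/-- Put `(length N + 1) ^ e` digits `false` on the empty stack `R`. -/
def powR (e : ℕ) : DR G Unit := (push .R (.inl false)).bind fun _ => mulsR e

/-- Move to the left end mark. -/
def toLeftR : DR G Unit :=
  iter (τ := Unit) (fun _ => (move .left).bind fun _ => Rout.read.bind fun a =>
    if a = .left then pureR (.inr ()) else pureR (.inl ())) ()

/-- Move to the right end mark. -/
def toRightR : DR G Unit :=
  iter (τ := Unit) (fun _ => (move .right).bind fun _ => Rout.read.bind fun a =>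
    if a = .right then pureR (.inr ()) else pureR (.inl ())) ()

/-- Move to the next `hash` on the right. -/
def hashR : DR G Bool :=
  iter (τ := Unit) (fun _ => (move .right).bind fun _ => Rout.read.bind fun a =>
    if a = .letter .hash then pureR (.inr true)
    else if a = .right then pureR (.inr false) else pureR (.inl ())) ()

/-- Read the field `1 ^ m`, put `m` digits `true` on `P`; fail if `m` is larger than the length of
`R`. -/
def fieldR : DR G Bool :=
  iter (τ := Unit) (fun _ => (move .right).bind fun _ => Rout.read.bind fun a =>
    if a = .letter .one then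
      (pop .R).bind fun o =>
        match o with
        | none => pureR (.inr false)
        | some _ => (push .P (.inl true)).bind fun _ => pureR (.inl ())
    else if a = .letter .hash then pureR (.inr true) else pureR (.inr false)) ()

/-- Check the format. -/
def parseR : DR G Bool :=
  toLeftR.bind fun _ => hashR.bind fun b₁ => if b₁ then
    hashR.bind fun b₂ => if b₂ then
      hashR.bind fun b₃ => if b₃ then fieldR else pureR false
    else pureR false
  else pureR false

/-- Where the virtual input head is: in `x`, in the padding, in the advice. -/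
inductive Mode : Type
  | mx | mp | mv
  deriving DecidableEq, Fintype

/-- The virtual input symbol. -/
def symR (μ : Mode) : DR G (InSym VB) :=
  match μ with
  | .mx => Rout.read.bind fun a => pureR
      (match a with
        | .left => .left
        | .letter a => .letter (.inl (some a))
        | .right => .right)
  | .mp => pureR (.letter (.inl none))
  | .mv => Rout.read.bind fun a => pureR
      (match a with
        | .letter a => if a = .hash then .right else .letter (.inr (bitOf a))
        | _ => .right)

/-- Move the virtual input head. -/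
def headR [DecidableEq G] (μ : Mode) (dir : Dir) : DR G Mode :=
  match dir, μ with
  | .stay, μ => pureR μ
  | .right, .mx => (move .right).bind fun _ => Rout.read.bind fun a =>
      if a = .right then (cntR true .P).bind fun _ => pureR .mp else pureR .mx
  | .right, .mp => (cntR true .P).bind fun o => if o then
      toLeftR.bind fun _ => hashR.bind fun _ => hashR.bind fun _ => (move .right).bind fun _ =>
        pureR .mv
      else pureR .mp
  | .right, .mv => Rout.read.bind fun a =>
      if a = .letter .hash then pureR .mv else (move .right).bind fun _ => pureR .mv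
  | .left, .mx => (move .left).bind fun _ => pureR .mx
  | .left, .mp => (cntR false .P).bind fun o =>
      if o then (move .left).bind fun _ => pureR .mx else pureR .mp
  | .left, .mv => (move .left).bind fun _ => Rout.read.bind fun a =>
      if a = .letter .hash then
        (cntR false .P).bind fun _ => toRightR.bind fun _ => pureR .mp
      else pureR .mv

/-- A symbol of the work tape of `V`. -/
def wsym (V : TM VB) : Option (DG V.G) → V.G
  | some (.inr g) => g
  | _ => V.blank

/-- Move the work head of `V`. -/
def workR (V : TM VB) [Finite V.G] (dir : Dir) : DR V.G Unit :=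
  match dir with
  | .stay => pureR ()
  | .right => (pop .WR).bind fun o => push .WL (.inr (wsym V o))
  | .left => (pop .WL).bind fun o => push .WR (.inr (wsym V o))

/-- One step of `V`. -/
def vstepR (V : TM VB) [Finite V.G] [DecidableEq V.G] (q : V.Q) (μ : Mode) :
    DR V.G (V.Q × Mode) :=
  (symR μ).bind fun a => (pop .WR).bind fun o =>
    (push .WR (.inr (V.δ false q a (wsym V o)).2.1)).bind fun _ =>
    (workR V (V.δ false q a (wsym V o)).2.2.2).bind fun _ =>
    (headR μ (V.δ false q a (wsym V o)).2.2.1).bind fun μ' =>
    pureR ((V.δ false q a (wsym V o)).1, μ')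

/-- The simulation of `V` with the clock `K`. -/
def simR (V : TM VB) [Finite V.G] [Finite V.Q] [DecidableEq V.G] : DR V.G Bool :=
  iter (τ := V.Q × Mode) (fun t =>
    match V.out t.1 with
    | some b => pureR (.inr (!b))
    | none => (cntR true .K).bind fun o => if o then pureR (.inr true) else
        (vstepR V t.1 t.2).bind fun t' => pureR (.inl t')) (V.start, .mx)

/-- The diagonal machine. -/
def diagR (V : TM VB) [Finite V.G] [Finite V.Q] [DecidableEq V.G] (d e : ℕ) : DR V.G Bool :=
  sizeR.bind fun _ => (powR e).bind fun _ => (xferR (fun _ => false) .R .K).bind fun _ =>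
  (powR d).bind fun _ => parseR.bind fun ok => if ok then
    toLeftR.bind fun _ => simR V
  else pureR false

end Routines

/-! ## Statements about the routines -/

/-- Counter routines (from `StXfer`).

Proof. Loop: induction on `l` (the stack `i`), the stack `T` collects the changed digits; then
`xferR` puts them back: `T` (top is the highest changed digit) is moved to `i`. -/
def StCnt : Prop := ∀ (G : Type) [Finite G] [DecidableEq G] (x : List DA) (s : ℕ)
  (D : Data (DG G) DN) (c : Str) (l : List Bool), D.le s → D.st .T = [] →
  (∀ (b : Bool) (i : DN), i ≠ .T → D.st i = l.map .inl →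
    Runs x (cntR (G := G) b i) s (6 * l.length + 10) D c (cstep b l).2
      ⟨D.pos, Function.update D.st i ((cstep b l).1.map .inl)⟩ c) ∧
  (D.st .N = l.map .inl → l.length + 1 ≤ s →
    Runs x (cincR (G := G)) s (6 * l.length + 10) D c ()
      ⟨D.pos, Function.update D.st .N ((cinc l).map .inl)⟩ c)

/-- Length of the input in binary (from `StCnt`, `StCount`).

Proof. Induction on `x.length - p`; the length of the counter is at most `Nat.size (x.length)`
all the time (`Nat.size` is monotone). -/
def StSize : Prop := ∀ (G : Type) [Finite G] [DecidableEq G] (x : List DA) (s : ℕ) (c : Str),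
  Nat.size x.length + 1 ≤ s → ∃ T, Runs x (sizeR (G := G)) s T .init c ()
    ⟨x.length + 1, Function.update (fun _ => []) .N ((cinc^[x.length] []).map .inl)⟩ c

/-- Powers (from `StXfer`). The stacks `R`, `R2`, `T` are empty at the start.

Proof. `lenR` puts `length N` symbols on `R2` and restores `N` and `T`; `mulR` from
`R = replicate k (inl false)` leads to `R = replicate (k * (length N + 1)) (inl false)`, all lengths
at most the new length of `R` (if `k = 0` everything is empty) or the length of `N`; induction on
`e`. -/
def StPow : Prop := ∀ (G : Type) [Finite G] (x : List DA) (s e : ℕ) (D : Data (DG G) DN) (c : Str),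
  D.le s → D.st .T = [] → D.st .R = [] → D.st .R2 = [] → ((D.st .N).length + 1) ^ e ≤ s →
  ∃ T, Runs x (powR (G := G) e) s T D c ()
    ⟨D.pos, Function.update D.st .R (List.replicate (((D.st .N).length + 1) ^ e) (.inl false))⟩ c

/-- The position routines. (`toLeftR` from any position; `toRightR` from any position; `hashR` from
position `p`, `p + 1` is the position of the first letter of `x.drop p`.)

Proof. Induction on the position, resp. on `x.drop p` (`cutHash`). -/
def StPos : Prop := ∀ (G : Type) [Finite G] (x : List DA) (s : ℕ) (D : Data (DG G) DN) (c : Str),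
  D.le s → D.pos ≤ x.length + 1 →
  (∃ T, Runs x (toLeftR (G := G)) s T D c () ⟨0, D.st⟩ c) ∧
  (∃ T, Runs x (toRightR (G := G)) s T D c () ⟨x.length + 1, D.st⟩ c) ∧
  (∀ f r : List DA, D.pos ≤ x.length → x.drop D.pos = f ++ .hash :: r → .hash ∉ f →
    ∃ T, Runs x (hashR (G := G)) s T D c true ⟨D.pos + f.length + 1, D.st⟩ c) ∧
  (D.pos ≤ x.length → .hash ∉ x.drop D.pos → ∃ T D', D'.st = D.st ∧ D'.pos ≤ x.length + 1 ∧
    Runs x (hashR (G := G)) s T D c false D' c)

/-- The format of an input word. -/
def DForm (x f₁ f₂ f₃ : List DA) (m : ℕ) (rest : List DA) : Prop :=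
  x = f₁ ++ .hash :: (f₂ ++ .hash :: (f₃ ++ .hash :: (List.replicate m .one ++ .hash :: rest))) ∧
    .hash ∉ f₁ ∧ .hash ∉ f₂ ∧ .hash ∉ f₃

/-- The format check (from `StPos`).

Proof. Case distinctions with `StPos` (does the rest of the word contain a `hash`?). For `fieldR`:
induction on the rest of the word: `x.drop p` with `R = replicate k (inl false)`. (1) If the word
has the format with `m ≤ k`, the result is `true` and `P = replicate m (inl true)`,
`R = replicate (k - m) (inl false)`, position of the last `hash`. (2) Otherwise the result is
`false`. (All stacks but `P`, `R` are unchanged; the lengths of `P` and `R` are at most `k`.) -/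
def StParse : Prop := ∀ (G : Type) [Finite G] (x : List DA) (s k : ℕ) (D : Data (DG G) DN) (c : Str),
  D.le s → k ≤ s → D.pos ≤ x.length + 1 → D.st .P = [] →
  D.st .R = List.replicate k (.inl false) →
  (∀ f₁ f₂ f₃ m rest, DForm x f₁ f₂ f₃ m rest → m ≤ k → ∃ T p, p ≤ x.length + 1 ∧
    Runs x (parseR (G := G)) s T D c true
      ⟨p, Function.update (Function.update D.st .P (List.replicate m (.inl true))) .R
        (List.replicate (k - m) (.inl false))⟩ c) ∧
  ((¬ ∃ f₁ f₂ f₃ m rest, DForm x f₁ f₂ f₃ m rest ∧ m ≤ k) →
    ∃ T D', Runs x (parseR (G := G)) s T D c false D' c)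

/-- The virtual head: `vp` is the position of the input head of `V` on the virtual word; `p` is the
position of the head on `x`, `l` the pad counter. -/
def HRep (x f₁ f₂ f₃ : List DA) (m : ℕ) (μ : Mode) (p : ℕ) (l : List Bool) (vp : ℕ) : Prop :=
  match μ with
  | .mx => p ≤ x.length ∧ vp = p ∧ l = List.replicate m true
  | .mp => p = x.length + 1 ∧ l.length = m ∧ vp = x.length + 1 + val l
  | .mv => l = List.replicate m false ∧ ∃ k ≤ f₃.length,
      p = f₁.length + f₂.length + 3 + k ∧ vp = x.length + 2 ^ m + 1 + k

/-- The virtual symbol, and the moves of the virtual head (from `StCount`, `StCnt`, `StPos`).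

Proof. `vword` has length `n + 2 ^ m + f₃.length`; its letter number `i` is `inl (some x[i])` for
`i < n`, `inl none` for `n ≤ i < n + 2 ^ m`, then the bits of `f₃`. Position `f₁.length + f₂.length + 3
+ k` of `x` carries the letter `f₃[k]` for `k < f₃.length`, which is not `hash`, and a `hash` for
`k = f₃.length`. Moves: `mx` to the right from `p = n`: the head is at `n + 1`, the counter goes
from `1…1` to `0…0`. `mp` to the right: overflow iff the value is `2 ^ m - 1`, then the head goes to
the start of `f₃` (two times `hashR` from position `0`, then one to the right). `mv` to the right: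
the head stays on the `hash`, and `movePos` stays at the right end mark. `mv` to the left: the head
reads a `hash` iff `k = 0` (position `f₁.length + f₂.length + 2`), then the counter goes from `0…0`
to `1…1`, value `2 ^ m - 1`. `mp` to the left: underflow iff the value is `0`, the head goes to
position `n`. `mx` to the left: `movePos` is `p - 1` in both. -/
def StHead : Prop := ∀ (G : Type) [Finite G] [DecidableEq G] (x f₁ f₂ f₃ : List DA) (m : ℕ)
  (rest : List DA), DForm x f₁ f₂ f₃ m rest → ∀ (s : ℕ) (D : Data (DG G) DN) (c : Str) (μ : Mode)
  (l : List Bool) (vp : ℕ), D.le s → D.st .T = [] → D.st .P = l.map .inl →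
  HRep x f₁ f₂ f₃ m μ D.pos l vp →
  (∃ T, Runs x (symR (G := G) μ) s T D c (inSym (vword x m f₃) vp) D c) ∧
  ∀ dir : Dir, ∃ (T : ℕ) (μ' : Mode) (p' : ℕ) (l' : List Bool),
    Runs x (headR (G := G) μ dir) s T D c μ' ⟨p', Function.update D.st .P (l'.map .inl)⟩ c ∧
    HRep x f₁ f₂ f₃ m μ' p' l' (movePos (vword x m f₃).length dir vp)

/-- The lists `wl`, `wr` represent the work tape of the configuration. -/
def WRep (V : TM VB) (cf : Cfg V.Q V.G) (wl wr : List V.G) : Prop :=
  (∀ i : ℕ, cf.T (cf.h + i) = wr[i]?.getD V.blank) ∧
    ∀ i : ℕ, cf.T (cf.h - 1 - i) = wl[i]?.getD V.blank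

/-- The new lists after writing `g` and moving. -/
def zmove (V : TM VB) (g : V.G) (dir : Dir) (wl wr : List V.G) : List V.G × List V.G :=
  match dir with
  | .stay => (wl, g :: wr.tail)
  | .right => (g :: wl, wr.tail)
  | .left => (wl.tail, wl.head?.getD V.blank :: g :: wr.tail)

/-- One step of `V` (from `StHead`).

Proof. `runs_bind`; the symbol popped from `WR` is `cf.T cf.h`. The tape after the step:
`Function.update` at `cf.h`, then the new head position; check the two conditions of `WRep` for each
direction (index shifts in `ℤ`). -/
def StVStep : Prop := ∀ (V : TM VB) [Finite V.G] [DecidableEq V.G] (x f₁ f₂ f₃ : List DA) (m : ℕ)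
  (rest : List DA), DForm x f₁ f₂ f₃ m rest → ∀ (s : ℕ) (D : Data (DG V.G) DN) (c : Str) (μ : Mode)
  (l : List Bool) (cf : Cfg V.Q V.G) (wl wr : List V.G), D.le s → D.st .T = [] →
  D.st .P = l.map .inl → HRep x f₁ f₂ f₃ m μ D.pos l cf.p → D.st .WL = wl.map .inr →
  D.st .WR = wr.map .inr → WRep V cf wl wr → wl.length + 1 ≤ s → wr.length + 1 ≤ s → 2 ≤ s →
  V.out cf.q = none →
  ∃ (T : ℕ) (μ' : Mode) (p' : ℕ) (l' : List Bool),
    Runs x (vstepR V cf.q μ) s T D c ((V.next (vword x m f₃) false cf).q, μ')
      ⟨p', Function.update (Function.update (Function.update D.st .P (l'.map .inl))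
        .WL ((zmove V (V.δ false cf.q (inSym (vword x m f₃) cf.p) (cf.T cf.h)).2.1
          (V.δ false cf.q (inSym (vword x m f₃) cf.p) (cf.T cf.h)).2.2.2 wl wr).1.map .inr))
        .WR ((zmove V (V.δ false cf.q (inSym (vword x m f₃) cf.p) (cf.T cf.h)).2.1
          (V.δ false cf.q (inSym (vword x m f₃) cf.p) (cf.T cf.h)).2.2.2 wl wr).2.map .inr)⟩ c ∧
    HRep x f₁ f₂ f₃ m μ' p' l' (V.next (vword x m f₃) false cf).p ∧
    WRep V (V.next (vword x m f₃) false cf)
      (zmove V (V.δ false cf.q (inSym (vword x m f₃) cf.p) (cf.T cf.h)).2.1
          (V.δ false cf.q (inSym (vword x m f₃) cf.p) (cf.T cf.h)).2.2.2 wl wr).1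
      (zmove V (V.δ false cf.q (inSym (vword x m f₃) cf.p) (cf.T cf.h)).2.1
          (V.δ false cf.q (inSym (vword x m f₃) cf.p) (cf.T cf.h)).2.2.2 wl wr).2

/-- The lists along a run. -/
def zrun (V : TM VB) (z : List VB) : ℕ → List V.G × List V.G
  | 0 => ([], [])
  | t + 1 =>
    let cf := V.run z (fun _ => false) t
    match V.out cf.q with
    | some _ => zrun V z t
    | none => zmove V (V.δ false cf.q (inSym z cf.p) (cf.T cf.h)).2.1
        (V.δ false cf.q (inSym z cf.p) (cf.T cf.h)).2.2.2 (zrun V z t).1 (zrun V z t).2

/-- The lists are not longer than the number of visited squares.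

Proof. Let `h t` be the position of the work head. By induction on `t` there are `u ≤ t` with
`(zrun V z t).1.length ≤ h t - h u` and `u' ≤ t` with `(zrun V z t).2.length ≤ h u' - h t + 1`
(move to the right: the same `u`; for the second list the same `u'` if the old list had at least
two elements, otherwise `u' = t + 1`, etc.). As the head moves by at most one square per step, all
squares between `h u` and `h t` are visited, so `|h t - h u| + 1 ≤ s` (an injection of
`Finset.Icc` into the set of visited squares). -/
def StZip : Prop := ∀ (V : TM VB) (z : List VB) (s t : ℕ), V.SpaceLe z s →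
  (zrun V z t).1.length ≤ s ∧ (zrun V z t).2.length ≤ s

/-- The simulation with clock (from `StVStep`, `StZip`, `StCnt`, `StCount`).

Proof. Invariant after `t < 2 ^ k` rounds: the state is `(V.run z _ t).q`, the lists are `zrun V z t`,
`HRep`, `WRep` hold, the clock `K` has `k` digits and value `t`. If the machine has stopped, the
result is the negated output. Otherwise the clock is increased; overflow iff `t = 2 ^ k - 1`.
Induction on `2 ^ k - 1 - t`. (If `V` stops at time `t`, `out (run t')` is the same for all
`t' ≥ t`, and it is `none` before.) -/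
def StSim : Prop := ∀ (V : TM VB) [Finite V.G] [Finite V.Q] [DecidableEq V.G]
  (x f₁ f₂ f₃ : List DA) (m : ℕ) (rest : List DA), DForm x f₁ f₂ f₃ m rest →
  ∀ (s k sV : ℕ) (D : Data (DG V.G) DN) (c : Str), D.le s → D.pos = 0 → D.st .T = [] →
  D.st .P = (List.replicate m true).map .inl → D.st .WL = [] → D.st .WR = [] →
  D.st .K = (List.replicate k false).map .inl → V.SpaceLe (vword x m f₃) sV → sV + 2 ≤ s →
  ∃ (T : ℕ) (b : Bool) (D' : Data (DG V.G) DN), Runs x (simR V) s T D c b D' c ∧
    (b = false ↔ ∃ t < 2 ^ k, V.out (V.run (vword x m f₃) (fun _ => false) t).q = some true)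

/-- The diagonal machine (from `StSize`, `StPow`, `StXfer`, `StParse`, `StPos`, `StSim`, `StCount`).

Proof. Composition. After `sizeR` the stack `N` has length `ℓ = Nat.size n`; `powR e` and `xferR`
give the clock with `(ℓ + 1) ^ e` digits `false`; `powR d` gives `R`. If the format is wrong the
result is `false`. The decomposition of a word is unique (`hash ∉ f₁, f₂, f₃`), so for the second
claim one can take the given decomposition in the case distinction. -/
def StDTotal : Prop := ∀ (V : TM VB) [Finite V.G] [Finite V.Q] [DecidableEq V.G] (d e : ℕ)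
  (x : List DA) (c : Str) (s sV : ℕ),
  (∀ z : List VB, z.length ≤ 2 * x.length + 2 ^ (Nat.size x.length + 1) ^ d → V.SpaceLe z sV) →
  (Nat.size x.length + 1) ^ d ≤ s → (Nat.size x.length + 1) ^ e ≤ s → Nat.size x.length + 1 ≤ s →
  sV + 2 ≤ s →
  ∃ (T : ℕ) (b : Bool) (D' : Data (DG V.G) DN), Runs x (diagR V d e) s T .init c b D' c ∧
    ∀ f₁ f₂ f₃ m rest, DForm x f₁ f₂ f₃ m rest → m ≤ (Nat.size x.length + 1) ^ d →
      (b = false ↔ ∃ t < 2 ^ (Nat.size x.length + 1) ^ e,
        V.out (V.run (vword x m f₃) (fun _ => false) t).q = some true)

end Pool.Agent.Lib.MP_9dcf40_lc
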