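import Pool.Agent.Lib.MP_9dcf40_lc.Rout

/-!
# The universal machine: definitions and statements
-/

namespace Pool.Agent.Lib.MP_9dcf40_lc

/-! ## Machines in normal form -/

/-- A machine with states `0, …, a` (start `0`) and work symbols `0, …, b` (blank `0`). -/
structure FM (B : Type) : Type where
  a : ℕ
  b : ℕ
  out : Fin (a + 1) → Option Bool
  δ : Bool → Fin (a + 1) → InSym B → Fin (b + 1) → Fin (a + 1) × Fin (b + 1) × Dir × Dir

@[reducible] def FM.toTM {B : Type} (F : FM B) : TM B where
  Q := Fin (F.a + 1)
  G := Fin (F.b + 1)
  finQ := inferInstance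
  finG := inferInstance
  start := 0
  blank := 0
  out := F.out
  δ := F.δ

/-- Normal form.

Proof. Choose equivalences `eQ : M.Q ≃ Fin (a + 1)`, `eG : M.G ≃ Fin (b + 1)` (the types are finite
and nonempty: they contain `M.start`, `M.blank`) with `eQ M.start = 0`, `eG M.blank = 0` (compose
with a swap), and transport `out` and `δ`. By induction on `t` the two configurations correspond
(same `p`, `h`, `eQ` of the state, `eG ∘ T`). -/
def StNorm : Prop := ∀ (B : Type) (M : TM B), ∃ F : FM B, ∀ (x : List B) (ch : ℕ → Bool) (t : ℕ),
  F.toTM.out (F.toTM.run x ch t).q = M.out (M.run x ch t).q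

/-! ## The alphabet and the code of a machine -/

/-- The alphabet of the diagonal language: the bits `zero` and `one`, the separator `hash`, the ends
`eState`, `eIn`, `eSym` of blocks of the code, and the directions `dl`, `dr`. -/
inductive DA : Type
  | zero | one | hash | eState | eIn | eSym | dl | dr
  deriving DecidableEq, Fintype

/-- The input alphabet of the simulated machine: letters of `x`, then bits of the advice. -/
abbrev DB : Type := DA ⊕ Bool

def dirL : Dir → DA
  | .left => .dl
  | .stay => .zero
  | .right => .dr

def outL : Option Bool → DA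
  | none => .zero
  | some true => .one
  | some false => .dl

def numL (n : ℕ) : List DA := List.replicate n .one ++ [.zero]

/-- The code of one transition: output of the new state, moves, new state, new symbol. -/
def entry (F : FM DB) (b : Bool) (q : Fin (F.a + 1)) (a : InSym DB) (s : Fin (F.b + 1)) : List DA :=
  [outL (F.out (F.δ b q a s).1), dirL (F.δ b q a s).2.2.1, dirL (F.δ b q a s).2.2.2] ++
    numL (F.δ b q a s).1 ++ numL (F.δ b q a s).2.1

/-- All pairs of a choice and a symbol under the input head. -/
def keys : List (Bool × InSym DB) :=
  ([.left, .right] ++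
      ([.zero, .one, .hash, .eState, .eIn, .eSym, .dl, .dr] : List DA).map (fun a => .letter (.inl a))
      ++ [.letter (.inr false), .letter (.inr true)] : List (InSym DB)).flatMap
    fun a => [(false, a), (true, a)]

theorem mem_keys (k : Bool × InSym DB) : k ∈ keys := by
  rcases k with ⟨b, a⟩
  rcases a with _ | (a | a) | _ <;> cases b <;> first | decide | (cases a <;> decide)

def blockSym (F : FM DB) (q : Fin (F.a + 1)) (k : Bool × InSym DB) : List DA :=
  (List.finRange (F.b + 1)).flatMap fun s => entry F k.1 q k.2 s ++ [.eSym]

def blockIn (F : FM DB) (q : Fin (F.a + 1)) : List DA :=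
  keys.flatMap fun k => blockSym F q k ++ [.eIn]

def table (F : FM DB) : List DA :=
  (List.finRange (F.a + 1)).flatMap fun q => blockIn F q ++ [.eState]

/-- The code of a machine. -/
def code (F : FM DB) : List DA := outL (F.out 0) :: table F

/-! ## The stacks of the universal machine, and operations on lists -/

/-- Stack alphabet of the universal machine. -/
abbrev UG : Type := InSym DB

/-- A code letter as a stack symbol. -/
abbrev ug (a : DA) : UG := .letter (.inl a)

/-- Names of the stacks: `C` rest of the code, `Cb` consumed code, `Q` state (unary), `IL`, `IR`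
input tape of the simulated machine left of the head, and from the head on; `WL`, `WR` the same for
the work tape; `X` auxiliary. -/
inductive UN : Type
  | C | Cb | Q | IL | IR | WL | WR | X
  deriving DecidableEq, Fintype

/-- Contents of the stacks (`X` is empty). -/
structure UD : Type where
  C : List UG
  Cb : List UG
  Q : List UG
  IL : List UG
  IR : List UG
  WL : List UG
  WR : List UG

def UD.st (u : UD) : UN → List UG
  | .C => u.C
  | .Cb => u.Cb
  | .Q => u.Q
  | .IL => u.IL
  | .IR => u.IR
  | .WL => u.WL
  | .WR => u.WR
  | .X => []

def UD.size (u : UD) : ℕ :=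
  u.C.length + u.Cb.length + u.Q.length + u.IL.length + u.IR.length + u.WL.length + u.WR.length

def UD.klen (u : UD) : ℕ := u.C.length + u.Cb.length

/-- Move symbols from the first list to the second until a symbol with `stop` has been moved.
Result: rest of the first list, new second list. -/
def xfer {α : Type} (stop : α → Bool) : List α → List α → List α × List α
  | [], acc => ([], acc)
  | a :: l, acc => if stop a then (l, a :: acc) else xfer stop l (a :: acc)

/-- The number of `one`s at the start of a list. -/
def num1 : List UG → ℕ
  | [] => 0
  | a :: l => if a = ug .one then num1 l + 1 else 0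

/-- The rest after the `one`s at the start of a list and one more symbol. -/
def rst : List UG → List UG
  | [] => []
  | a :: l => if a = ug .one then rst l else l

/-! ## One step of the universal machine, on lists -/

def uRewind (u : UD) : Unit × UD := ((), { u with C := u.Cb.reverse ++ u.C, Cb := [] })

def uPopC (u : UD) : Option UG × UD :=
  match u.C with
  | [] => (none, u)
  | a :: l => (some a, { u with C := l, Cb := a :: u.Cb })

def uSkip (e : DA) (u : UD) : Unit × UD :=
  ((), { u with C := (xfer (fun a => decide (a = ug e)) u.C u.Cb).1
                Cb := (xfer (fun a => decide (a = ug e)) u.C u.Cb).2 })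

def uSkipN (e : DA) : ℕ → UD → Unit × UD
  | 0, u => ((), u)
  | n + 1, u => uSkipN e n (uSkip e u).2

/-- Skip as many blocks as the unary number on `Q` tells, and remove this number. -/
def uSkipQ (u : UD) : Unit × UD := uSkipN .eState (num1 u.Q) { u with Q := rst u.Q }

/-- Skip as many blocks as the unary number on `WR` tells, and remove this number. -/
def uSkipW (u : UD) : Unit × UD := uSkipN .eSym (num1 u.WR) { u with WR := rst u.WR }

/-- The symbol under the simulated input head. -/
def uCur (u : UD) : Option UG × UD := (u.IR.head?, u)

/-- Copy a unary number from the code to `Q`. -/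
def uNumQ (u : UD) : Unit × UD :=
  ((), { u with C := (xfer (fun a => decide (a ≠ ug .one)) u.C u.Cb).1
                Cb := (xfer (fun a => decide (a ≠ ug .one)) u.C u.Cb).2
                Q := List.replicate (num1 u.C) (ug .one) ++ u.Q })

/-- Copy a unary number from the code to `WR` (with end `zero`). -/
def uNumW (u : UD) : Unit × UD :=
  ((), { u with C := (xfer (fun a => decide (a ≠ ug .one)) u.C u.Cb).1
                Cb := (xfer (fun a => decide (a ≠ ug .one)) u.C u.Cb).2
                WR := List.replicate (num1 u.C) (ug .one) ++ ug .zero :: u.WR })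

/-- Move the simulated input head. -/
def uMoveI (m : Option UG) (u : UD) : Unit × UD :=
  if m = some (ug .dr) then
    match u.IR with
    | a :: l => if a = .right then ((), u) else ((), { u with IR := l, IL := a :: u.IL })
    | [] => ((), u)
  else if m = some (ug .dl) then
    match u.IL with
    | a :: l => ((), { u with IL := l, IR := a :: u.IR })
    | [] => ((), u)
  else ((), u)

/-- Move the simulated work head. -/
def uMoveW (m : Option UG) (u : UD) : Unit × UD :=
  if m = some (ug .dr) then
    ((), { u with WR := rst u.WR
                  WL := List.replicate (num1 u.WR) (ug .one) ++ ug .zero :: u.WL })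
  else if m = some (ug .dl) then
    ((), { u with WL := rst u.WL
                  WR := List.replicate (num1 u.WL) (ug .one) ++ ug .zero :: u.WR })
  else ((), u)

/-- One step of the universal machine with the choice `b`. The result is the output letter of the
new state. -/
def uStep (b : Bool) (u : UD) : Option UG × UD :=
  let u₁ := (uPopC (uRewind u).2).2
  let u₂ := (uSkipQ u₁).2
  let u₃ := (uSkipN .eIn (keys.idxOf (b, (uCur u₂).1.getD .right)) u₂).2
  let u₄ := (uSkipW u₃).2
  let r₅ := uPopC u₄
  let r₆ := uPopC r₅.2
  let r₇ := uPopC r₆.2
  let u₈ := (uNumQ r₇.2).2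
  let u₉ := (uNumW u₈).2
  let u₁₀ := (uMoveI r₆.1 u₉).2
  (r₅.1, (uMoveW r₇.1 u₁₀).2)

/-! ## The routines -/

section Routines

open Rout

variable {A Γ ι : Type}

/-- Move symbols from stack `i` to stack `j` until a symbol with `stop` has been moved. -/
def xferR [Finite Γ] (stop : Γ → Bool) (i j : ι) : Rout A Γ ι Unit :=
  iter (τ := Unit) (fun _ => (pop i).bind fun o =>
    match o with
    | none => pureR (.inr ())
    | some a => (push j a).bind fun _ => pureR (if stop a then .inr () else .inl ())) ()

def repeatR (body : Rout A Γ ι Unit) : ℕ → Rout A Γ ι Unit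
  | 0 => pureR ()
  | n + 1 => body.bind fun _ => repeatR body n

abbrev UR (β : Type) : Type 1 := Rout (Option DA) UG UN β

instance : Finite UG := by
  have h : Function.Injective
      (fun q : UG => (match q with
        | .left => none
        | .right => some none
        | .letter a => some (some a) : Option (Option DB))) := by
    intro a b hab
    cases a <;> cases b <;> simp_all
  exact Finite.of_injective _ h

def uRewindR : UR Unit := xferR (fun _ => false) .Cb .C

def uPopCR : UR (Option UG) :=
  (pop .C).bind fun o =>
    match o with
    | none => pureR none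
    | some a => (push .Cb a).bind fun _ => pureR (some a)

def uSkipR (e : DA) : UR Unit := xferR (fun a => decide (a = ug e)) .C .Cb

/-- For every `one` on the stack `i` run `body`; also remove the symbol behind the `one`s. -/
def forOnesR (i : UN) (body : UR Unit) : UR Unit :=
  iter (τ := Unit) (fun _ => (pop i).bind fun o =>
    if o = some (ug .one) then body.bind fun _ => pureR (.inl ()) else pureR (.inr ())) ()

def uSkipQR : UR Unit := forOnesR .Q (uSkipR .eState)
def uSkipWR : UR Unit := forOnesR .WR (uSkipR .eSym)

def uCurR : UR (Option UG) :=
  (pop .IR).bind fun o =>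
    match o with
    | none => pureR none
    | some a => (push .IR a).bind fun _ => pureR (some a)

/-- Copy a unary number from the code to the stack `j`. -/
def uCopyR (j : UN) : UR Unit :=
  iter (τ := Unit) (fun _ => (pop .C).bind fun o =>
    match o with
    | none => pureR (.inr ())
    | some a => (push .Cb a).bind fun _ =>
      if a = ug .one then (push j (ug .one)).bind fun _ => pureR (.inl ()) else pureR (.inr ())) ()

def uNumQR : UR Unit := uCopyR .Q
def uNumWR : UR Unit := (push .WR (ug .zero)).bind fun _ => uCopyR .WR

def uMoveIR (m : Option UG) : UR Unit :=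
  if m = some (ug .dr) then
    (pop .IR).bind fun o =>
      match o with
      | none => pureR ()
      | some a => if a = .right then push .IR a else push .IL a
  else if m = some (ug .dl) then
    (pop .IL).bind fun o =>
      match o with
      | none => pureR ()
      | some a => push .IR a
  else pureR ()

def uMoveWR (m : Option UG) : UR Unit :=
  if m = some (ug .dr) then
    (push .WL (ug .zero)).bind fun _ => forOnesR .WR (push .WL (ug .one))
  else if m = some (ug .dl) then
    (push .WR (ug .zero)).bind fun _ => forOnesR .WL (push .WR (ug .one))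
  else pureR ()

def uStepR (b : Bool) : UR (Option UG) :=
  uRewindR.bind fun _ => uPopCR.bind fun _ => uSkipQR.bind fun _ => uCurR.bind fun a =>
  (repeatR (uSkipR .eIn) (keys.idxOf (b, a.getD .right))).bind fun _ => uSkipWR.bind fun _ =>
  uPopCR.bind fun f => uPopCR.bind fun dI => uPopCR.bind fun dW => uNumQR.bind fun _ =>
  uNumWR.bind fun _ => (uMoveIR dI).bind fun _ => (uMoveWR dW).bind fun _ => pureR f

end Routines

/-- The routine `R` computes the function `F` on the stacks, does not move the input head, does not
use choices, and does not change the total length `K` of the code. The total size grows by at most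
`g`, and the time is at most `T S`, where `S` is a bound for the sizes. -/
def UImp {β : Type} (K : ℕ) (R : UR β) (F : UD → β × UD) (g : ℕ) (T : ℕ → ℕ) : Prop :=
  ∀ (y : List (Option DA)) (u : UD) (p : ℕ) (c : Str) (S : ℕ), u.klen = K → u.size + g ≤ S →
    (F u).2.klen = K ∧ (F u).2.size ≤ u.size + g ∧
      Runs y R S (T S) ⟨p, u.st⟩ c (F u).1 ⟨p, (F u).2.st⟩ c

/-- The generic transfer loop.

Proof. Induction on `d.st i`; `runs_iter_step`, `runs_iter_done`, `runs_bind`, `runs_pop`,
`runs_push`. Three steps per symbol and two at the end. (The sum of the lengths of the stacks `i`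
and `j` does not grow.) -/
def StXfer : Prop := ∀ (A Γ ι : Type) [Finite Γ] [DecidableEq ι] (stop : Γ → Bool) (i j : ι), i ≠ j →
  ∀ (x : List A) (s : ℕ) (d : Data Γ ι) (c : Str), d.le s → (d.st i).length + (d.st j).length ≤ s →
    Runs x (xferR stop i j) s (3 * (d.st i).length + 2) d c ()
      ⟨d.pos, Function.update (Function.update d.st i (xfer stop (d.st i) (d.st j)).1) j
        (xfer stop (d.st i) (d.st j)).2⟩ c

/-- The pieces of one step, part A (from `StXfer`). Unfold the routines; `UD.st` after a change of a
component is the `Function.update` of `UD.st` (`funext` and cases). The result of `xfer` keeps the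
sum of the lengths. -/
def StUA : Prop := ∀ K : ℕ,
  UImp K uRewindR uRewind 0 (fun S => 3 * S + 6) ∧
  UImp K uPopCR uPopC 0 (fun S => 3 * S + 6) ∧
  (∀ e, UImp K (uSkipR e) (uSkip e) 0 (fun S => 3 * S + 6)) ∧
  (∀ e n, UImp K (repeatR (uSkipR e) n) (uSkipN e n) 0 (fun S => n * (3 * S + 6))) ∧
  UImp K uCurR uCur 0 (fun S => 3 * S + 6)

/-- The pieces of one step, part B (from `StUA`).

Proof. Induction on the list `u.Q` (`u.WR`), for all values of the other components. If the head is
`one`: one round of the loop pops it and does one `uSkipR`, and `uSkipQ u` is `uSkipQ` of the new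
lists. Otherwise the loop stops. At most `S` rounds, each with one transfer. -/
def StUB : Prop := ∀ K : ℕ,
  UImp K uSkipQR uSkipQ 0 (fun S => (S + 1) * (3 * S + 6)) ∧
  UImp K uSkipWR uSkipW 0 (fun S => (S + 1) * (3 * S + 6))

/-- The pieces of one step, part C.

Proof. Induction on the list `u.C`, for all values of the other components. At most four steps per
symbol. `num1 C ≤ C.length ≤ K`. -/
def StUC : Prop := ∀ K : ℕ,
  UImp K uNumQR uNumQ K (fun S => 4 * S + 6) ∧
  UImp K uNumWR uNumW (K + 1) (fun S => 4 * S + 7)

/-- The pieces of one step, part D (`uMoveIR` by cases, `uMoveWR` by induction on `u.WR`, `u.WL`). -/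
def StUD : Prop := ∀ K : ℕ,
  (∀ m, UImp K (uMoveIR m) (uMoveI m) 0 (fun S => 3 * S + 6)) ∧
  (∀ m, UImp K (uMoveWR m) (uMoveW m) 1 (fun S => 4 * S + 6))

/-- One step (from `StUA`, `StUB`, `StUC`, `StUD`).

Proof. Composition with `runs_bind`; first prove the rule: if `UImp K R F g T` and, for all `b`,
`UImp K (f b) (G b) g' T'`, then `UImp K (R.bind f) (fun u => G (F u).1 (F u).2) (g + g')
(fun S => T S + T' S)`. `keys.idxOf _ ≤ keys.length = 24`. The sum of the time bounds is at most
`300 * (S + 1) ^ 2`. -/
def StUStep : Prop := ∀ (K : ℕ) (b : Bool),
  UImp K (uStepR b) (uStep b) (2 * K + 2) (fun S => 300 * (S + 1) ^ 2)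

/-! ## Correctness of one step, on lists -/

/-- Encoding of a half tape of work symbols. -/
def wenc (l : List ℕ) : List UG :=
  l.flatMap fun s => List.replicate s (ug .one) ++ [ug .zero]

/-- The input tape with end markers. -/
def itape (z : List DB) : List UG := .left :: (z.map InSym.letter ++ [.right])

/-- The lists `u` represent the configuration `cf` of the machine `F` on the input `z`. -/
def URep (F : FM DB) (z : List DB) (cf : Cfg (Fin (F.a + 1)) (Fin (F.b + 1))) (u : UD) : Prop :=
  u.Cb.reverse ++ u.C = (code F).map ug ∧
  u.Q = List.replicate cf.q (ug .one) ∧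
  cf.p ≤ z.length + 1 ∧ u.IL = ((itape z).take cf.p).reverse ∧ u.IR = (itape z).drop cf.p ∧
  ∃ l r : List ℕ, u.WL = wenc l ∧ u.WR = wenc r ∧
    (∀ i : ℕ, ((cf.T (cf.h + i) : Fin (F.b + 1)) : ℕ) = r[i]?.getD 0) ∧
    ∀ i : ℕ, ((cf.T (cf.h - 1 - i) : Fin (F.b + 1)) : ℕ) = l[i]?.getD 0

/-- Skipping blocks: if no block contains the end letter `e`, then `uSkipN e n` moves exactly `n`
blocks with their ends.

Proof. `xfer` on `B ++ [e] ++ rest` where `B` does not contain `e` gives `rest` and the reverse of
`B ++ [e]`; induction on `n`. Consequence (second part): the content of `C` after skipping `n`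
blocks of `bs.flatMap (B b ++ [e])` starts with the block number `n`. -/
def StUSkip : Prop := ∀ (e : DA) (bs : List (List DA)) (u : UD) (rest : List UG),
  (∀ B ∈ bs, e ∉ B) →
  u.C = (bs.flatMap fun B => B ++ [e]).map ug ++ rest →
  (uSkipN e bs.length u).2 = { u with
    C := rest
    Cb := ((bs.flatMap fun B => B ++ [e]).map ug).reverse ++ u.Cb }

/-- Table lookup (from `StUSkip`).

Proof. After rewinding, `C` is the code; the first letter is removed; skipping `q` blocks with end
`eState` leads to the block `blockIn F q` (apply `StUSkip` to the list of the first `q` blocks,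
`List.finRange` split at `q`; the blocks contain no `eState`: they consist of `zero`, `one`, `dl`,
`dr`, `eSym`, `eIn`); skipping `keys.idxOf (b, a)` blocks with end `eIn` leads to the block
`blockSym F q (b, a)` (`List.getElem_idxOf`, `mem_keys`), skipping `s` blocks with end `eSym` leads
to `entry F b q a s`. The concatenation `Cb.reverse ++ C` does not change. The statement is about
the lists `C`, `Cb` only; all the other components are those in `uStep`. -/
def StULookup : Prop := ∀ (F : FM DB) (b : Bool) (q : Fin (F.a + 1)) (a : InSym DB)
  (s : Fin (F.b + 1)) (u : UD), u.Cb.reverse ++ u.C = (code F).map ug →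
  u.Q = List.replicate q (ug .one) → u.IR.head? = some a → num1 u.WR = s →
  ∃ (C' Cb' : List UG),
    (uSkipW (uSkipN .eIn (keys.idxOf (b, (uCur (uSkipQ (uPopC (uRewind u).2).2).2).1.getD .right))
      (uSkipQ (uPopC (uRewind u).2).2).2).2).2 =
      { u with C := (entry F b q a s).map ug ++ C', Cb := Cb', Q := [], WR := rst u.WR } ∧
    Cb'.reverse ++ ((entry F b q a s).map ug ++ C') = (code F).map ug

/-- One step of the universal machine simulates one step of `F` (from `StULookup`).

Proof. Let `q = cf.q`, `a = inSym z cf.p` (the head of `(itape z).drop cf.p`), `s = cf.T cf.h`: as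
`WR = wenc r`, `num1 WR` is the head of `r` or `0`, which is `s`. `StULookup` gives the content of
`C`. Then the three letters of the entry, the two numbers (`num1 (numL n ++ _) = n`,
`xfer` moves the number with its end), so `Q` is the new state, `WR` is the encoding of the new
symbol and the tail of `r`. Moves: compare `movePos` (`IL = []` iff `p = 0`; the current symbol is
`.right` iff `p = |z| + 1`) and `moveTape` (a blank is added when the list is empty). -/
def StUSim : Prop := ∀ (F : FM DB) (z : List DB) (b : Bool)
  (cf : Cfg (Fin (F.a + 1)) (Fin (F.b + 1))) (u : UD), URep F z cf u → F.out cf.q = none →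
  URep F z (F.toTM.next z b cf) (uStep b u).2 ∧
    (uStep b u).1 = some (ug (outL (F.out (F.toTM.next z b cf).q)))

end Pool.Agent.Lib.MP_9dcf40_lc
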