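import Pool.Agent.Lib.MP_9dcf40_lc.SpecA
import Pool.Agent.Lib.MP_9dcf40_lc.SpecU

/-!
# The universal machine: start phase, main loop, and the universal languages
-/

namespace Pool.Agent.Lib.MP_9dcf40_lc

open Rout

instance finite_InSym (A : Type) [Finite A] : Finite (InSym A) := by
  have h : Function.Injective
      (fun q : InSym A => (match q with
        | .left => none
        | .right => some none
        | .letter a => some (some a) : Option (Option A))) := by
    intro a b hab
    cases a <;> cases b <;> simp_all
  exact Finite.of_injective _ h

/-! ## Parsing the input, on lists -/

/-- The letters of `y` before the first `none`. -/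
def pre (y : List (Option DA)) : List DA := (y.takeWhile Option.isSome).filterMap id

/-- A letter as an advice bit. -/
def bitOf (a : DA) : Bool := decide (a = .one)

/-- An advice bit as a letter. -/
def bitL (b : Bool) : DA := if b then .one else .zero

/-- The pair of the input word `x` and the advice `w`. -/
def pairL {α : Type} (x : List α) (w : List Bool) : List (α ⊕ Bool) :=
  x.map Sum.inl ++ w.map Sum.inr

/-- Everything before the first `hash`, if there is one, and the rest after it. -/
def cutHash : List DA → Option (List DA × List DA)
  | [] => none
  | a :: l => if a = .hash then some ([], l) else (cutHash l).map fun r => (a :: r.1, r.2)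

/-- The stacks after the start phase: `pre y = cd # w # rest`; the code `cd` is on `Cb`, and the
simulated input is the pair of `pre y` and `w`. -/
def uParse (y : List (Option DA)) : Option UD :=
  match cutHash (pre y) with
  | none => none
  | some (cd, l) =>
    match cutHash l with
    | none => none
    | some (w, _) =>
      some ⟨[], (cd.map ug).reverse, [], [], itape (pairL (pre y) (w.map bitOf)), [], []⟩

/-- The main loop, on lists, with at most `r` steps. -/
def uLoop : ℕ → Str → UD → Bool
  | 0, _, _ => false
  | r + 1, c, u =>
    if (uStep (c 0) u).1 = some (ug .one) then true
    else if (uStep (c 0) u).1 = some (ug .dl) then false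
    else uLoop r (fun n => c (n + 1)) (uStep (c 0) u).2

/-- The result of the universal machine on the input `y` with choices `c`. -/
def uEval (y : List (Option DA)) (c : Str) : Bool :=
  match uParse y with
  | none => false
  | some u =>
    if (uPopC (uRewind u).2).1 = some (ug .one) then true
    else if (uPopC (uRewind u).2).1 = some (ug .dl) then false
    else uLoop (y.length - (pre y).length) c (uPopC (uRewind u).2).2

/-! ## Routines -/

/-- Read letters up to the first `hash` and put them (changed by `f`) on the stack `i`. The result
is `false` if the end of the word or a letter `none` comes before. -/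
def uFieldR (i : UN) (f : DA → UG) : UR Bool :=
  iter (τ := Unit) (fun _ => (move .right).bind fun _ => Rout.read.bind fun a =>
    match a with
    | .letter (some a) =>
      if a = .hash then pureR (.inr true) else (push i (f a)).bind fun _ => pureR (.inl ())
    | _ => pureR (.inr false)) ()

/-- Move to the first position to the right where there is no letter `some a`. -/
def uRightR : UR Unit :=
  iter (τ := Unit) (fun _ => (move .right).bind fun _ => Rout.read.bind fun a =>
    match a with
    | .letter (some _) => pureR (.inl ())
    | _ => pureR (.inr ())) ()

/-- Move to the left end mark and put the letters on the stack `IR`. -/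
def uLeftR : UR Unit :=
  iter (τ := Unit) (fun _ => (move .left).bind fun _ => Rout.read.bind fun a =>
    match a with
    | .letter (some a) => (push .IR (.letter (.inl a))).bind fun _ => pureR (.inl ())
    | _ => pureR (.inr ())) ()

def uInitR : UR Bool :=
  (uFieldR .Cb ug).bind fun b₁ => if b₁ then
    (uFieldR .X fun a => .letter (.inr (bitOf a))).bind fun b₂ => if b₂ then
      (push .IR .right).bind fun _ => (xferR (fun _ => false) .X .IR).bind fun _ =>
      uRightR.bind fun _ => uLeftR.bind fun _ => (push .IR .left).bind fun _ =>
      uRightR.bind fun _ => pureR true
    else pureR false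
  else pureR false

def uMainR : UR Bool :=
  iter (τ := Unit) (fun _ => Rout.read.bind fun a =>
    if a = .right then pureR (.inr false) else
      (move .right).bind fun _ => choose.bind fun b => (uStepR b).bind fun f =>
        if f = some (ug .one) then pureR (.inr true)
        else if f = some (ug .dl) then pureR (.inr false) else pureR (.inl ())) ()

/-- The universal machine. -/
def uR : UR Bool :=
  uInitR.bind fun ok => if ok then
    uRewindR.bind fun _ => uPopCR.bind fun f =>
      if f = some (ug .one) then pureR true
      else if f = some (ug .dl) then pureR false else uMainR
  else pureR false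

/-! ## Statements -/

/-- The start phase (from `StXfer`).

Proof. `pre y` is a prefix of `y` (as `(pre y).map some = y.takeWhile isSome`), and the position
`(pre y).length + 1` carries no letter `some a`. Loop lemmas by induction on the rest of the word:
if the head is at position `p`, `y.drop p = l.map some ++ y'` where `y' = []` or `y'` starts with
`none`, then `uFieldR i f` ends with `true` iff `cutHash l = some (cd, l')`, with the head on the
`hash` (position `p + cd.length + 1`) and `cd.map f` reversed on top of the stack `i`; otherwise it
ends with `false`. `uRightR` from a position `≤ (pre y).length` leads to `(pre y).length + 1`.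
`uLeftR` from there pushes `pre y`, last letter first, and ends at position `0`. At most four steps
per letter in every loop. -/
def StUInit : Prop := ∀ (y : List (Option DA)) (c : Str) (S : ℕ), 2 * y.length + 3 ≤ S →
  ∃ d' : Data UG UN, Runs y uInitR S (30 * (y.length + 2)) .init c (uParse y).isSome d' c ∧
    ∀ u, uParse y = some u → d' = ⟨(pre y).length + 1, u.st⟩

/-- The main loop (from `StUStep`).

Proof. Induction on `y.length + 1 - p`. If `p = y.length + 1` the symbol is the right end mark.
Otherwise it is a letter (`inSym`), the head moves to `p + 1`, one choice is used, and
`StUStep` (with `u.size + (2 K + 2) ≤ S`) gives the step; the new size is at most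
`u.size + (2 K + 2)`. -/
def StUMain : Prop := ∀ (y : List (Option DA)) (K S p : ℕ) (u : UD) (c : Str), u.klen = K →
  1 ≤ p → p ≤ y.length + 1 → u.size + (y.length + 1 - p) * (2 * K + 2) ≤ S →
  ∃ (d' : Data UG UN) (c' : Str),
    Runs y uMainR S ((y.length + 2 - p) * (300 * (S + 1) ^ 2 + 10)) ⟨p, u.st⟩ c
      (uLoop (y.length + 1 - p) c u) d' c'

/-- The universal machine stops in polynomial time on every input with result `uEval` (from
`StUInit`, `StUA`, `StUMain`).

Proof. `u.klen ≤ y.length`, `u.size ≤ 3 y.length + 2` for `u` from `uParse y`. With
`S = 10 (y.length + 1) ^ 2` all requirements hold, and the total time is at most a constant times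
`(y.length + 1) ^ 5`. Finally `C (n + 1) ^ 5 ≤ n ^ k + k` for a large `k` (for `n ≥ 2`,
`n ^ k ≥ 2 ^ (k - 10) n ^ 10`; for `n ≤ 1` use `+ k`). -/
def StUTotal : Prop := ∃ k : ℕ, ∀ (y : List (Option DA)) (c : Str), ∃ (d' : Data UG UN) (c' : Str),
  Runs y uR (y.length ^ k + k) (y.length ^ k + k) .init c (uEval y c) d' c'

/-- The universal language for `P`. -/
def KD : Set (List (Option DA)) := {y | uEval y (fun _ => false) = true}

/-- The universal language for `NP`. -/
def KN : Set (List (Option DA)) := {y | ∃ c, uEval y c = true}

/-- From `StCompD`, `StUTotal`. (`(T + 1) (2 s + 2) ≤ n ^ k' + k'` for `s = T = n ^ k + k`.) -/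
def StKD : Prop := InP (Option DA) KD

/-- From `StCompN`, `StUTotal`. -/
def StKN : Prop := InNP (Option DA) KN

/-- The word `code F # w # rest`. -/
def instX (F : FM DB) (w : List Bool) (rest : List DA) : List DA :=
  code F ++ .hash :: (w.map bitL ++ .hash :: rest)

/-- The word `x` followed by `r` letters `none`. -/
def padL (x : List DA) (r : ℕ) : List (Option DA) := x.map some ++ List.replicate r none

/-- The universal machine is correct (from `StUSim`).

Proof. `pre (padL x r) = x`, `code F` contains no `hash`, so `uParse` gives the lists with
`Cb = (code F).map ug` reversed and the input tape `itape (pairL x w)` (`bitOf (bitL b) = b`). After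
rewinding and removing the first letter (which is `ug (outL (F.out 0))`) the lists represent the
initial configuration (`URep`, with `l = r = []`). If `F.out 0 = some b` the run is constant. If
not, by induction on `r`: `uLoop r c u = true` iff the run from the represented configuration
reaches an accepting state in at most `r` steps (`StUSim` for one step; a halting state stops both;
shift of the choices). -/
def StUCorr : Prop := ∀ (F : FM DB) (w : List Bool) (rest : List DA) (r : ℕ) (c : Str),
  uEval (padL (instX F w rest) r) c = true ↔
    ∃ t ≤ r, F.toTM.out (F.toTM.run (pairL (instX F w rest) w) c t).q = some true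

end Pool.Agent.Lib.MP_9dcf40_lc
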