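import Pool.Agent.Lib.MP_9dcf40_lc.SpecU

/-!
# Skipping blocks of the code
-/

namespace Pool.Agent.Lib.MP_9dcf40_lc

namespace USkip

theorem ug_inj {a b : DA} (h : ug a = ug b) : a = b := by
  simpa using h

/-- The transfer of one block with its end letter. -/
theorem xfer_block (e : DA) (B : List DA) (hB : e ∉ B) (rest acc : List UG) :
    xfer (fun a => decide (a = ug e)) (B.map ug ++ ug e :: rest) acc =
      (rest, ug e :: ((B.map ug).reverse ++ acc)) := by
  induction B generalizing acc with
  | nil => simp [xfer]
  | cons b B ih =>
    have hb : ¬ (ug b = ug e) := fun h => hB (by rw [ug_inj h]; exact List.mem_cons_self)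
    have hB' : e ∉ B := fun h => hB (List.mem_cons_of_mem _ h)
    have hd : decide (ug b = ug e) = false := by simp only [hb, decide_false]
    rw [List.map_cons, List.cons_append, xfer, hd]
    simp only [Bool.false_eq_true, if_false]
    rw [ih hB' (ug b :: acc)]
    simp

end USkip

open USkip in
theorem u_skip : StUSkip := by
  intro e bs
  induction bs with
  | nil =>
    intro u rest _ h
    cases u
    simp only [List.flatMap_nil, List.map_nil, List.nil_append] at h
    subst h
    simp [uSkipN]
  | cons B bs ih =>
    intro u rest hB h
    have h1 : e ∉ B := hB B List.mem_cons_self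
    have h2 : ∀ B' ∈ bs, e ∉ B' := fun B' hB' => hB B' (List.mem_cons_of_mem _ hB')
    set tl : List UG := (bs.flatMap fun B => B ++ [e]).map ug ++ rest with htl
    have h3 : u.C = B.map ug ++ ug e :: tl := by
      rw [h, htl]
      simp only [List.flatMap_cons, List.map_append, List.map_cons, List.map_nil,
        List.append_assoc, List.cons_append, List.nil_append]
    have h4 : (uSkip e u).2 = { u with C := tl, Cb := ug e :: ((B.map ug).reverse ++ u.Cb) } := by
      simp only [uSkip]
      rw [h3, xfer_block e B h1]
    rw [List.length_cons, uSkipN, h4, ih _ rest h2 rfl]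
    simp only [List.flatMap_cons, List.map_append, List.map_cons, List.map_nil,
      List.reverse_append, List.reverse_cons, List.reverse_nil, List.append_assoc,
      List.cons_append, List.nil_append]

end Pool.Agent.Lib.MP_9dcf40_lc
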